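import Mathlib
set_option autoImplicit false
set_option maxHeartbeats 4000000
set_option synthInstance.maxHeartbeats 400000

namespace CohNT

open NumberField IsDedekindDomain Ideal

/-- primes of the number field `E` -/
abbrev Pr (E : Type) [Field E] [NumberField E] := HeightOneSpectrum (𝓞 E)

section Defs
variable {E : Type} [Field E] [NumberField E]

/-- integer valued valuation (junk value 0 at 0) -/
noncomputable def ord (v : Pr E) (x : E) : ℤ := - WithZero.log (v.valuation E x)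

/-- `x` is a square in the completion at `v` (condition of Hensel's lemma) -/
def LSq (v : Pr E) (x : E) : Prop := ∃ y : E, v.valuation E (x - y ^ 2) < v.valuation E (4 * x)

/-- `a` is a norm from the completion at `v` extended by the square root of `b` -/
def LN (v : Pr E) (a b : E) : Prop :=
  ∃ X Y : E, X ^ 2 - b * Y ^ 2 ≠ 0 ∧ LSq v (a * (X ^ 2 - b * Y ^ 2))

/-- `v` divides 2 -/
def Dy (v : Pr E) : Prop := v.valuation E (2 : E) < 1

/-- totally positive -/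
def TPos (b : E) : Prop := ∀ φ : E →+* ℝ, 0 < φ b

/-- the group of `T`-units -/
noncomputable def UU (T : Finset (Pr E)) : Subgroup Eˣ where
  carrier := {x | ∀ v ∉ T, v.valuation E (x : E) = 1}
  mul_mem' := by
    intro a b ha hb v hv
    rw [Units.val_mul, map_mul, ha v hv, hb v hv, one_mul]
  one_mem' := by
    intro v hv
    simp
  inv_mem' := by
    intro a ha v hv
    rw [Units.val_inv_eq_inv_val, map_inv₀, ha v hv, inv_one]

/-- the `T`-class group is trivial -/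
def Good (T : Finset (Pr E)) : Prop :=
  ∀ v ∉ T, ∃ p : Eˣ, ord v (p : E) = 1 ∧ ∀ v' ∉ T, v' ≠ v → v'.valuation E (p : E) = 1

/-- the prime `w` of `M` lies above the prime `v` of `E` -/
def Ab {M : Type} [Field M] [NumberField M] [Algebra E M] (v : Pr E) (w : Pr M) : Prop :=
  w.asIdeal.LiesOver v.asIdeal

/-- there is exactly one prime of `M` above `v` -/
def NSp (M : Type) [Field M] [NumberField M] [Algebra E M] (v : Pr E) : Prop :=
  ∃! w : Pr M, Ab v w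

/-- norms of `T`-units: the subgroup of `UU T` of the elements `y * σ y`, `y` a `TM`-unit of `M` -/
noncomputable def NormU {M : Type} [Field M] [NumberField M] [Algebra E M] (σ : M ≃ₐ[E] M)
    (T : Finset (Pr E)) (TM : Finset (Pr M)) : Subgroup (UU T) where
  carrier := {x | ∃ y : Mˣ, y ∈ UU TM ∧ algebraMap E M ((x : Eˣ) : E) = (y : M) * σ (y : M)}
  mul_mem' := by
    rintro a b ⟨y, hy, hy2⟩ ⟨z, hz, hz2⟩
    refine ⟨y * z, (UU TM).mul_mem hy hz, ?_⟩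
    simp only [Subgroup.coe_mul, Units.val_mul, map_mul, hy2, hz2]
    ring
  one_mem' := ⟨1, (UU TM).one_mem, by simp⟩
  inv_mem' := by
    rintro a ⟨y, hy, hy2⟩
    refine ⟨y⁻¹, (UU TM).inv_mem hy, ?_⟩
    simp only [Subgroup.coe_inv, Units.val_inv_eq_inv_val, map_inv₀, hy2, mul_inv]

/-- local squares as a subgroup -/
def LSG (v : Pr E) : Subgroup Eˣ := Subgroup.closure {x : Eˣ | LSq v (x : E)}

/-- local norms as a subgroup -/
def LNG (v : Pr E) (b : E) : Subgroup Eˣ := Subgroup.closure {x : Eˣ | LN v (x : E) b}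

end Defs

section Defs4
variable {F : Type} [Field F]

/-- `O_F[1/N]` -/
def RN (F : Type) [Field F] (N : ℕ) : Set F := {x | ∃ k : ℕ, IsIntegral ℤ ((N : F) ^ k * x)}

def SS (a b : F) : Set F := {x | ∃ s r w : F, x ^ 2 - 4 = a * s ^ 2 + b * r ^ 2 - a * b * w ^ 2}

def Fam (c0 c : F) : Set F :=
  {b | b ≠ 0 ∧ ∃ y0 y1 y2 : F, b = (y0 ^ 2 + c0 * (y1 ^ 2 + y1 * y2 + c * y2 ^ 2)) ^ 2 + 8 * y0 ^ 4}

/-- certificate for `t ∉ O_F[1/N0]` -/
def Cert (e : ℕ ≃ F) (N0 : ℕ) (G : List F) (t a b : F) (N : ℕ) (x y z : F) : Prop :=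
  a ∈ RN F N0 ∧ a⁻¹ ∉ RN F N0 ∧ b ∈ RN F N0 ∧
  (∀ g ∈ G, ∃ k < N, e k ∈ RN F N0 ∧ (g - e k) / a ∈ RN F N0) ∧
  (∀ j < N, ∀ k < N, e j ∈ RN F N0 → e k ∈ RN F N0 →
    (∃ l < N, e l ∈ RN F N0 ∧ (e j + e k - e l) / a ∈ RN F N0) ∧
    (∃ l < N, e l ∈ RN F N0 ∧ (e j * e k - e l) / a ∈ RN F N0)) ∧
  (∀ j < N, ∀ k < N, e j ∈ RN F N0 → e k ∈ RN F N0 →
    ((e j) ^ 2 - b * (e k) ^ 2) / a ∈ RN F N0 → e j / a ∈ RN F N0 ∧ e k / a ∈ RN F N0) ∧
  x / a ∈ RN F N0 ∧ y ∈ RN F N0 ∧ z ∈ RN F N0 ∧ (y * z - 1) / a ∈ RN F N0 ∧ t * x = y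

/-- the statement of the number theoretic part -/
def NTStatement (F : Type) [Field F] : Prop :=
  ∃ (N0 : ℕ) (c0 c : F) (G : List F) (L : List (F × F)), N0 ≠ 0 ∧ 2 ∣ N0 ∧ (∀ p ∈ L, p.1 ≠ 0) ∧
    (∀ t ∈ RN F 2, ∀ a b : F, a ≠ 0 → (b ∈ Fam c0 c ∨ ∃ p ∈ L, b = p.2) →
      ∃ x ∈ SS a b, t - x ∈ SS a b) ∧
    (∀ t ∈ RN F N0, (∀ p ∈ L, ∃ x ∈ SS p.1 p.2, t - x ∈ SS p.1 p.2) → t ∈ RN F 2) ∧
    (∀ e : ℕ ≃ F, ∀ t : F, t ∉ RN F N0 →
      ∃ (a b : F) (N : ℕ) (x y z : F), a ≠ 0 ∧ b ∈ Fam c0 c ∧ Cert e N0 G t a b N x y z) ∧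
    (∀ (e : ℕ ≃ F) (t a b : F) (N : ℕ) (x y z : F), Cert e N0 G t a b N x y z →
      ¬ ∃ x ∈ SS a b, t - x ∈ SS a b)

end Defs4

end CohNT
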