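import Mathlib
import Pool.Agent.H604C.Base
set_option autoImplicit false
set_option maxHeartbeats 4000000
set_option synthInstance.maxHeartbeats 400000

namespace CohNT
open NumberField IsDedekindDomain Ideal

namespace J_ord_api

theorem ord_api {E : Type} [Field E] [NumberField E] (v : Pr E) :
    ord v (1 : E) = 0 ∧ ord v (0 : E) = 0 ∧ (∀ x : E, ord v (-x) = ord v x) ∧
    (∀ x y : E, x ≠ 0 → y ≠ 0 → ord v (x * y) = ord v x + ord v y) ∧
    (∀ x y : E, x ≠ 0 → y ≠ 0 → ord v (x / y) = ord v x - ord v y) ∧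
    (∀ x : E, ord v x⁻¹ = - ord v x) ∧
    (∀ (x : E) (n : ℕ), ord v (x ^ n) = n * ord v x) ∧
    (∀ (x : E) (n : ℤ), ord v (x ^ n) = n * ord v x) ∧
    (∀ x y : E, x ≠ 0 → y ≠ 0 → (v.valuation E x < v.valuation E y ↔ ord v y < ord v x)) ∧
    (∀ x y : E, x ≠ 0 → y ≠ 0 → (v.valuation E x ≤ v.valuation E y ↔ ord v y ≤ ord v x)) ∧
    (∀ x : E, x ≠ 0 → (v.valuation E x = 1 ↔ ord v x = 0)) ∧
    (∀ x : E, x ≠ 0 → (v.valuation E x ≤ 1 ↔ 0 ≤ ord v x)) ∧
    (∀ x : E, x ≠ 0 → (v.valuation E x < 1 ↔ 0 < ord v x)) ∧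
    (∀ (x y : E) (n : ℤ), x + y ≠ 0 → (x = 0 ∨ n ≤ ord v x) → (y = 0 ∨ n ≤ ord v y) →
      n ≤ ord v (x + y)) ∧
    (∀ x y : E, x ≠ 0 → (y = 0 ∨ ord v x < ord v y) → x + y ≠ 0 ∧ ord v (x + y) = ord v x) ∧
    (∀ x : 𝓞 E, 0 ≤ ord v (x : E)) ∧
    (∃ p : E, p ≠ 0 ∧ ord v p = 1) := by
  have hne : ∀ {x : E}, x ≠ 0 → v.valuation E x ≠ 0 := fun hx => by
    rw [Ne, map_eq_zero]; exact hx
  have hlt : ∀ x y : E, x ≠ 0 → y ≠ 0 →
      (v.valuation E x < v.valuation E y ↔ ord v y < ord v x) := by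
    intro x y hx hy
    unfold ord
    rw [neg_lt_neg_iff, WithZero.log_lt_log (hne hx) (hne hy)]
  have hle : ∀ x y : E, x ≠ 0 → y ≠ 0 →
      (v.valuation E x ≤ v.valuation E y ↔ ord v y ≤ ord v x) := by
    intro x y hx hy
    unfold ord
    rw [neg_le_neg_iff, WithZero.log_le_log (hne hx) (hne hy)]
  have h1 : ord v (1 : E) = 0 := by
    unfold ord; rw [map_one, WithZero.log_one, neg_zero]
  have hle1 : ∀ x : E, x ≠ 0 → (v.valuation E x ≤ 1 ↔ 0 ≤ ord v x) := by
    intro x hx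
    have := hle x 1 hx one_ne_zero
    rwa [map_one, h1] at this
  have hlt1 : ∀ x : E, x ≠ 0 → (v.valuation E x < 1 ↔ 0 < ord v x) := by
    intro x hx
    have := hlt x 1 hx one_ne_zero
    rwa [map_one, h1] at this
  have h0 : ord v (0 : E) = 0 := by
    unfold ord; rw [map_zero, WithZero.log_zero, neg_zero]
  have hadd : ∀ (x y : E) (n : ℤ), x + y ≠ 0 → (x = 0 ∨ n ≤ ord v x) → (y = 0 ∨ n ≤ ord v y) →
      n ≤ ord v (x + y) := by
    intro x y n hxy hx hy
    by_cases hx0 : x = 0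
    · subst hx0
      rw [zero_add] at hxy ⊢
      exact hy.resolve_left hxy
    by_cases hy0 : y = 0
    · subst hy0
      rw [add_zero] at hxy ⊢
      exact hx.resolve_left hxy
    have hx' := hx.resolve_left hx0
    have hy' := hy.resolve_left hy0
    rcases (v.valuation E).map_add' x y with h | h
    · exact hx'.trans ((hle _ _ hxy hx0).mp h)
    · exact hy'.trans ((hle _ _ hxy hy0).mp h)
  refine ⟨h1, h0, ?_, ?_, ?_, ?_, ?_, ?_, hlt, hle, ?_, hle1, hlt1, hadd, ?_, ?_, ?_⟩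
  · intro x
    unfold ord; rw [Valuation.map_neg]
  · intro x y hx hy
    unfold ord
    rw [map_mul, WithZero.log_mul (hne hx) (hne hy)]
    ring
  · intro x y hx hy
    unfold ord
    rw [map_div₀, WithZero.log_div (hne hx) (hne hy)]
    ring
  · intro x
    unfold ord
    rw [map_inv₀, WithZero.log_inv]
  · intro x n
    unfold ord
    rw [map_pow, WithZero.log_pow, nsmul_eq_mul]
    ring
  · intro x n
    unfold ord
    rw [map_zpow₀, WithZero.log_zpow, smul_eq_mul]
    ring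
  · intro x hx
    constructor
    · intro h
      unfold ord; rw [h, WithZero.log_one, neg_zero]
    · intro h
      apply le_antisymm ((hle1 x hx).mpr h.ge)
      by_contra hcon
      have := (hlt1 x hx).mp (not_le.mp hcon)
      omega
  · intro x y hx hy
    by_cases hy0 : y = 0
    · subst hy0
      rw [add_zero]
      exact ⟨hx, rfl⟩
    have hy' := hy.resolve_left hy0
    have hlt' := (hlt y x hy0 hx).mpr hy'
    have heq := (v.valuation E).map_add_eq_of_lt_left hlt'
    refine ⟨?_, ?_⟩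
    · intro h
      rw [h, map_zero] at heq
      exact hne hx heq.symm
    · unfold ord; rw [heq]
  · intro x
    by_cases hx : (x : E) = 0
    · rw [hx, h0]
    · exact (hle1 _ hx).mp (v.valuation_le_one x)
  · obtain ⟨p, hp⟩ := v.valuation_exists_uniformizer E
    refine ⟨p, ?_, ?_⟩
    · rintro rfl
      rw [map_zero] at hp
      exact WithZero.exp_ne_zero hp.symm
    · unfold ord
      rw [hp, WithZero.log_exp]
      norm_num



end J_ord_api

alias ord_api := J_ord_api.ord_api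

end CohNT
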