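import Mathlib
import Pool.Agent.H604C.Base
import Pool.Agent.H604C.P_ord_api
set_option autoImplicit false
set_option maxHeartbeats 4000000
set_option synthInstance.maxHeartbeats 400000

namespace CohNT
open NumberField IsDedekindDomain Ideal

namespace J_LSq_api

theorem four_le {E : Type} [Field E] [NumberField E] (v : Pr E) : v.valuation E (4 : E) ≤ 1 := by
  have e : algebraMap (𝓞 E) E 4 = 4 := map_ofNat (algebraMap (𝓞 E) E) 4
  rw [← e]
  exact v.valuation_le_one (K := E) (4 : 𝓞 E)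

theorem four_ne {E : Type} [Field E] [NumberField E] (v : Pr E) : v.valuation E (4 : E) ≠ 0 := by
  rw [Valuation.ne_zero_iff]
  norm_num

theorem key1 {E : Type} [Field E] [NumberField E] (v : Pr E) (x : E) (h : LSq v x) :
    x ≠ 0 ∧ ∃ y : E, y ≠ 0 ∧ v.valuation E x = v.valuation E (y ^ 2) ∧
      v.valuation E (x / y ^ 2 - 1) < v.valuation E 4 := by
  obtain ⟨y, hy⟩ := h
  have hx : x ≠ 0 := by
    rintro rfl
    rw [mul_zero, map_zero] at hy
    exact not_lt_zero hy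
  have hVx : v.valuation E x ≠ 0 := (Valuation.ne_zero_iff _).mpr hx
  have h1 : v.valuation E (x - y ^ 2) < v.valuation E x := by
    refine lt_of_lt_of_le hy ?_
    rw [map_mul]
    exact mul_le_of_le_one_left' (four_le v)
  have h2 : v.valuation E (y ^ 2) = v.valuation E x := by
    have h3 : y ^ 2 = x + -(x - y ^ 2) := by ring
    rw [h3]
    apply Valuation.map_add_eq_of_lt_left
    rw [Valuation.map_neg]
    exact h1
  have hy2 : y ^ 2 ≠ 0 := by
    intro h0
    rw [h0, map_zero] at h2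
    exact hVx h2.symm
  have hy0 : y ≠ 0 := by
    rintro rfl
    exact hy2 (by ring)
  refine ⟨hx, y, hy0, h2.symm, ?_⟩
  have h4 : x / y ^ 2 - 1 = (x - y ^ 2) / y ^ 2 := by
    field_simp
  rw [h4, map_div₀, h2, div_lt_iff₀ (zero_lt_iff.mpr hVx)]
  rw [map_mul] at hy
  exact hy

theorem key2 {E : Type} [Field E] [NumberField E] (v : Pr E) (x y : E) (hy : y ≠ 0)
    (h : v.valuation E (x / y ^ 2 - 1) < v.valuation E 4) : LSq v x := by
  have hy2 : y ^ 2 ≠ 0 := pow_ne_zero 2 hy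
  have hVy : v.valuation E (y ^ 2) ≠ 0 := (Valuation.ne_zero_iff _).mpr hy2
  have h1 : v.valuation E (x / y ^ 2 - 1) < 1 := lt_of_lt_of_le h (four_le v)
  have h2 : v.valuation E (1 + (x / y ^ 2 - 1)) = 1 := Valuation.map_one_add_of_lt _ h1
  have h3 : x = y ^ 2 * (1 + (x / y ^ 2 - 1)) := by
    field_simp
    ring
  have h4 : v.valuation E x = v.valuation E (y ^ 2) := by
    conv_lhs => rw [h3]
    rw [map_mul, h2, mul_one]
  refine ⟨y, ?_⟩
  have h5 : x - y ^ 2 = (x / y ^ 2 - 1) * y ^ 2 := by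
    field_simp
  rw [h5, map_mul, map_mul, h4]
  exact mul_lt_mul_of_pos_right h (zero_lt_iff.mpr hVy)

theorem LSq_api {E : Type} [Field E] [NumberField E] (v : Pr E) :
    (∀ x : E, LSq v x → x ≠ 0) ∧
    (∀ x : E, x ≠ 0 → LSq v (x ^ 2)) ∧
    (∀ x y : E, LSq v x → LSq v y → LSq v (x * y)) ∧
    (∀ x : E, LSq v x → LSq v x⁻¹) ∧
    (∀ x y : E, LSq v x → LSq v (x * y) → LSq v y) ∧
    (∀ x : E, LSq v x → Even (ord v x)) ∧
    (∀ x : E, x ≠ 0 → v.valuation E (x - 1) < v.valuation E 4 → LSq v x) ∧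
    (∀ x : E, LSq v x → ∃ y : E, y ≠ 0 ∧ v.valuation E (x / y ^ 2 - 1) < v.valuation E 4) := by
  have hpos4 : 0 < v.valuation E (4 : E) := zero_lt_iff.mpr (four_ne v)
  have hmul : ∀ x y : E, LSq v x → LSq v y → LSq v (x * y) := by
    intro x y hx hy
    obtain ⟨hx0, a, ha, _, ha'⟩ := key1 v x hx
    obtain ⟨hy0, b, hb, _, hb'⟩ := key1 v y hy
    apply key2 v (x * y) (a * b) (mul_ne_zero ha hb)
    have h1 : x * y / (a * b) ^ 2 - 1 = (x / a ^ 2 - 1) + (y / b ^ 2 - 1) +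
        (x / a ^ 2 - 1) * (y / b ^ 2 - 1) := by
      field_simp
      ring
    rw [h1]
    apply Valuation.map_add_lt
    · exact Valuation.map_add_lt _ ha' hb'
    · rw [map_mul]
      have h2 : v.valuation E (y / b ^ 2 - 1) ≤ 1 := (lt_of_lt_of_le hb' (four_le v)).le
      exact lt_of_le_of_lt (mul_le_of_le_one_right' h2) ha'
  have hinv : ∀ x : E, LSq v x → LSq v x⁻¹ := by
    intro x hx
    obtain ⟨hx0, a, ha, hxa, ha'⟩ := key1 v x hx
    apply key2 v x⁻¹ a⁻¹ (inv_ne_zero ha)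
    have h1 : x⁻¹ / a⁻¹ ^ 2 - 1 = -((x / a ^ 2 - 1) * (a ^ 2 / x)) := by
      field_simp
      ring
    have h2 : v.valuation E (a ^ 2 / x) = 1 := by
      rw [map_div₀, hxa, div_self]
      exact (Valuation.ne_zero_iff _).mpr (pow_ne_zero 2 ha)
    rw [h1, Valuation.map_neg, map_mul, h2, mul_one]
    exact ha'
  refine ⟨fun x hx => (key1 v x hx).1, ?_, hmul, hinv, ?_, ?_, ?_, ?_⟩
  · intro x hx
    refine ⟨x, ?_⟩
    rw [sub_self, map_zero]
    apply zero_lt_iff.mpr
    rw [Valuation.ne_zero_iff]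
    exact mul_ne_zero (by norm_num) (pow_ne_zero 2 hx)
  · intro x y hx hxy
    have h1 := hmul _ _ (hinv x hx) hxy
    rwa [inv_mul_cancel_left₀ (key1 v x hx).1] at h1
  · intro x hx
    obtain ⟨_, a, _, hxa, _⟩ := key1 v x hx
    have h1 : ord v x = ord v (a ^ 2) := by
      unfold ord
      rw [hxa]
    rw [h1, (ord_api v).2.2.2.2.2.2.1 a 2]
    exact ⟨ord v a, by push_cast; ring⟩
  · intro x _ h
    apply key2 v x 1 one_ne_zero
    rw [one_pow, div_one]
    exact h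
  · intro x hx
    obtain ⟨_, a, ha, _, ha'⟩ := key1 v x hx
    exact ⟨a, ha, ha'⟩



end J_LSq_api

alias LSq_api := J_LSq_api.LSq_api

end CohNT
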