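import Mathlib
import Pool.Agent.H604C.Base
import Pool.Agent.H604C.P_ord_api
import Pool.Agent.H604C.P_LSq_api
set_option autoImplicit false
set_option maxHeartbeats 4000000
set_option synthInstance.maxHeartbeats 400000

namespace CohNT
open NumberField IsDedekindDomain Ideal

namespace J_LSq_approx

theorem LSq_approx_two {E : Type} [Field E] [NumberField E] (v : Pr E) :
    ord v (4 : E) = 2 * ord v (2 : E) ∧ 0 ≤ ord v (2 : E) := by
  obtain ⟨h1, h0, hneg, hmul, hdiv, hinv, hpow, hzpow, hlt, hle, hone, hle1, hlt1, hadd, hdom,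
    hint, hp⟩ := ord_api v
  refine ⟨?_, ?_⟩
  · have h := hpow 2 2
    rw [show ((2 : E)) ^ 2 = 4 by norm_num] at h
    exact_mod_cast h
  · have h := hint (2 : 𝓞 E)
    have h' : ((2 : 𝓞 E) : E) = 2 := map_ofNat (algebraMap (𝓞 E) E) 2
    rw [h'] at h
    exact h

theorem LSq_approx_step {E : Type} [Field E] [NumberField E] (v : Pr E) (b : E) (c : ℤ)
    (y m : E) (n : ℕ) (hy : y ≠ 0) (hc : ord v y = c) (hbm : b = y ^ 2 * (1 + m))
    (hm0 : m ≠ 0) (hm : ord v (4 : E) + 1 + n ≤ ord v m) :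
    ∃ y' m' : E, y' ≠ 0 ∧ ord v y' = c ∧ b = y' ^ 2 * (1 + m') ∧ m' ≠ 0 ∧
      ord v (4 : E) + 1 + (n + 1 : ℕ) ≤ ord v m' := by
  obtain ⟨h4, h2⟩ := LSq_approx_two v
  obtain ⟨h1, h0, hneg, hmul, hdiv, hinv, hpow, hzpow, hlt, hle, hone, hle1, hlt1, hadd, hdom,
    hint, hp⟩ := ord_api v
  have two_ne : (2 : E) ≠ 0 := two_ne_zero
  have four_ne : (4 : E) ≠ 0 := by norm_num
  have hm2 : ord v (m / 2) = ord v m - ord v (2 : E) := hdiv m 2 hm0 two_ne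
  obtain ⟨hne, hord⟩ := hdom 1 (m / 2) one_ne_zero (Or.inr (by rw [h1, hm2]; omega))
  rw [h1] at hord
  refine ⟨y * (1 + m / 2), - (m ^ 2 / (4 * (1 + m / 2) ^ 2)), mul_ne_zero hy hne, ?_, ?_, ?_, ?_⟩
  · rw [hmul _ _ hy hne, hord, hc]; ring
  · have key : ∀ t : E, t ≠ 0 → (y * t) ^ 2 * (1 + - (m ^ 2 / (4 * t ^ 2))) =
        y ^ 2 * (t ^ 2 - m ^ 2 / 4) := by
      intro t ht
      field_simp
      ring
    rw [key _ hne, hbm]
    ring
  · refine neg_ne_zero.2 (div_ne_zero (pow_ne_zero _ hm0) (mul_ne_zero four_ne (pow_ne_zero _ hne)))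
  · rw [hneg, hdiv _ _ (pow_ne_zero _ hm0) (mul_ne_zero four_ne (pow_ne_zero _ hne)),
      hmul _ _ four_ne (pow_ne_zero _ hne), hpow, hpow, hord]
    push_cast
    omega

theorem LSq_approx_ind {E : Type} [Field E] [NumberField E] (v : Pr E) (b : E) (hb : LSq v b) :
    ∃ c : ℤ, ∀ n : ℕ, ∃ y : E, y ≠ 0 ∧ ord v y = c ∧ (b = y ^ 2 ∨ ∃ m : E, b = y ^ 2 * (1 + m) ∧
      m ≠ 0 ∧ ord v (4 : E) + 1 + n ≤ ord v m) := by
  obtain ⟨h1, h0, hneg, hmul, hdiv, hinv, hpow, hzpow, hlt, hle, hone, hle1, hlt1, hadd, hdom,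
    hint, hp⟩ := ord_api v
  obtain ⟨y0, hy0, hv⟩ := (LSq_api v).2.2.2.2.2.2.2 b hb
  have four_ne : (4 : E) ≠ 0 := by norm_num
  refine ⟨ord v y0, fun n => ?_⟩
  induction n with
  | zero =>
    refine ⟨y0, hy0, rfl, ?_⟩
    by_cases hm : b / y0 ^ 2 - 1 = 0
    · left
      have : b / y0 ^ 2 = 1 := by linear_combination hm
      field_simp at this
      exact this
    · right
      refine ⟨b / y0 ^ 2 - 1, ?_, hm, ?_⟩
      · field_simp
        ring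
      · rw [hlt _ _ hm four_ne] at hv
        push_cast
        omega
  | succ n ih =>
    obtain ⟨y, hy, hc, h⟩ := ih
    rcases h with h | ⟨m, hbm, hm0, hm⟩
    · exact ⟨y, hy, hc, Or.inl h⟩
    · obtain ⟨y', m', h1, h2, h3, h4, h5⟩ := LSq_approx_step v b _ y m n hy hc hbm hm0 hm
      exact ⟨y', h1, h2, Or.inr ⟨m', h3, h4, h5⟩⟩

theorem LSq_approx {E : Type} [Field E] [NumberField E] (v : Pr E) (b : E) (hb : LSq v b) (k : ℤ) :
    ∃ y : E, y ≠ 0 ∧ (b - y ^ 2 = 0 ∨ k ≤ ord v (b - y ^ 2)) := by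
  obtain ⟨c, hc⟩ := LSq_approx_ind v b hb
  obtain ⟨y, hy, hoy, h⟩ := hc (k - ord v (4 : E) - 1 - 2 * c).toNat
  refine ⟨y, hy, ?_⟩
  rcases h with h | ⟨m, hbm, hm0, hm⟩
  · left; rw [h]; ring
  · right
    obtain ⟨h1, h0, hneg, hmul, hdiv, hinv, hpow, hzpow, hlt, hle, hone, hle1, hlt1, hadd, hdom,
      hint, hp⟩ := ord_api v
    have hb2 : b - y ^ 2 = y ^ 2 * m := by rw [hbm]; ring
    rw [hb2, hmul _ _ (pow_ne_zero _ hy) hm0, hpow, hoy]
    have := Int.self_le_toNat (k - ord v (4 : E) - 1 - 2 * c)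
    push_cast
    omega


end J_LSq_approx

alias LSq_approx := J_LSq_approx.LSq_approx

end CohNT
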