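import Mathlib
import Pool.Agent.H604C.Base
import Pool.Agent.H604C.P_ord_api
import Pool.Agent.H604C.P_LSq_api
import Pool.Agent.H604C.P_LSq_approx
set_option autoImplicit false
set_option maxHeartbeats 4000000
set_option synthInstance.maxHeartbeats 400000

namespace CohNT
open NumberField IsDedekindDomain Ideal

namespace J_LN_api

theorem aux6 {E : Type} [Field E] [NumberField E] (v : Pr E) (b : E) (hb : b ≠ 0) (a : E)
    (ha : a ≠ 0) (hs : LSq v b) : LN v a b := by
  obtain ⟨o1, o0, oneg, omul, odiv, oinv, opow, ozpow, olt, ole, oeq1, ole1, olt1, oadd, oaddlt, oint, oex⟩ :=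
    ord_api v
  obtain ⟨s0, ssq, smul, sinv, scanc, seven, snear, sdiv⟩ := LSq_api v
  have h2 : (2 : E) ≠ 0 := two_ne_zero
  have h4 : (4 : E) ≠ 0 := by norm_num
  by_cases ha1 : a = 1
  · refine ⟨1, 0, by simp, ?_⟩
    rw [ha1]
    have := ssq 1 one_ne_zero
    simpa using this
  have ha1' : a - 1 ≠ 0 := sub_ne_zero.mpr ha1
  obtain ⟨y, hy0, hy⟩ := LSq_approx v b hs
    (max (ord v b + 1) (4 * ord v 2 - 2 * ord v (a - 1) + ord v b + ord v a + 1))
  have hval4 : v.valuation E (4 : E) ≤ 1 := by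
    rw [ole1 4 h4]
    have h := oint (4 : 𝓞 E)
    have e : ((4 : 𝓞 E) : E) = 4 := by
      simp only [map_ofNat]
    rwa [e] at h
  have hZ : v.valuation E ((b - y ^ 2) * ((a - 1) / (2 * y)) ^ 2 / a) < v.valuation E (4 : E) := by
    rcases hy with hy | hy
    · rw [hy]
      simp only [zero_mul, zero_div, map_zero]
      exact (Valuation.pos_iff _).mpr h4
    · by_cases hμ : b - y ^ 2 = 0
      · rw [hμ]
        simp only [zero_mul, zero_div, map_zero]
        exact (Valuation.pos_iff _).mpr h4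
      · have hk1 : ord v b + 1 ≤ ord v (b - y ^ 2) := le_trans (le_max_left _ _) hy
        have hk2 : 4 * ord v 2 - 2 * ord v (a - 1) + ord v b + ord v a + 1 ≤ ord v (b - y ^ 2) :=
          le_trans (le_max_right _ _) hy
        have hoy : ord v b = 2 * ord v y := by
          have h := (oaddlt b (-(b - y ^ 2)) hb (Or.inr (by rw [oneg]; omega))).2
          have e : b + -(b - y ^ 2) = y ^ 2 := by ring
          rw [e, opow] at h
          push_cast at h
          omega
        have hY : (a - 1) / (2 * y) ≠ 0 := div_ne_zero ha1' (mul_ne_zero h2 hy0)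
        have hne : (b - y ^ 2) * ((a - 1) / (2 * y)) ^ 2 / a ≠ 0 :=
          div_ne_zero (mul_ne_zero hμ (pow_ne_zero 2 hY)) ha
        rw [olt _ _ hne h4, odiv _ _ (mul_ne_zero hμ (pow_ne_zero 2 hY)) ha,
          omul _ _ hμ (pow_ne_zero 2 hY), opow, odiv _ _ ha1' (mul_ne_zero h2 hy0),
          omul _ _ h2 hy0]
        have e4 : ord v (4 : E) = 2 * ord v 2 := by
          have : (4 : E) = 2 * 2 := by norm_num
          rw [this, omul _ _ h2 h2]
          ring
        rw [e4]
        push_cast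
        omega
  have key : LSq v (1 - (b - y ^ 2) * ((a - 1) / (2 * y)) ^ 2 / a) := by
    apply snear
    · intro h0
      have h1 : (b - y ^ 2) * ((a - 1) / (2 * y)) ^ 2 / a = 1 := by
        linear_combination -h0
      rw [h1, map_one] at hZ
      exact absurd hZ (not_lt.mpr hval4)
    · have e : 1 - (b - y ^ 2) * ((a - 1) / (2 * y)) ^ 2 / a - 1 =
        -((b - y ^ 2) * ((a - 1) / (2 * y)) ^ 2 / a) := by ring
      rw [e, Valuation.map_neg]
      exact hZ
  have hfin : LSq v (a * (((a + 1) / 2) ^ 2 - b * ((a - 1) / (2 * y)) ^ 2)) := by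
    have := smul _ _ (ssq a ha) key
    convert this using 1
    field_simp
    ring
  exact ⟨(a + 1) / 2, (a - 1) / (2 * y), right_ne_zero_of_mul (s0 _ hfin), hfin⟩

theorem LN_api {E : Type} [Field E] [NumberField E] (v : Pr E) (b : E) (hb : b ≠ 0) :
    (∀ a : E, LN v a b → a ≠ 0) ∧
    (∀ a a' : E, LN v a b → LN v a' b → LN v (a * a') b) ∧
    (∀ a : E, LN v a b → LN v a⁻¹ b) ∧
    (∀ a : E, LSq v a → LN v a b) ∧
    (∀ X Y : E, X ^ 2 - b * Y ^ 2 ≠ 0 → LN v (X ^ 2 - b * Y ^ 2) b) ∧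
    (∀ a : E, a ≠ 0 → LSq v b → LN v a b) ∧
    (∀ a : E, LSq v (-(a * b)) → LN v a b) := by
  obtain ⟨s0, ssq, smul, sinv, scanc, seven, snear, sdiv⟩ := LSq_api v
  have h1 : ∀ a : E, LN v a b → a ≠ 0 := by
    rintro a ⟨X, Y, hn, hs⟩
    exact left_ne_zero_of_mul (s0 _ hs)
  refine ⟨h1, ?_, ?_, ?_, ?_, ?_, ?_⟩
  · rintro a a' ⟨X, Y, hn, hs⟩ ⟨X', Y', hn', hs'⟩
    have e : (X * X' + b * (Y * Y')) ^ 2 - b * (X * Y' + X' * Y) ^ 2 =
        (X ^ 2 - b * Y ^ 2) * (X' ^ 2 - b * Y' ^ 2) := by ring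
    refine ⟨X * X' + b * (Y * Y'), X * Y' + X' * Y, ?_, ?_⟩
    · rw [e]; exact mul_ne_zero hn hn'
    · rw [e]
      have := smul _ _ hs hs'
      convert this using 1
      ring
  · rintro a ha
    have ha0 := h1 a ha
    obtain ⟨X, Y, hn, hs⟩ := ha
    refine ⟨X, Y, hn, ?_⟩
    have := smul _ _ (ssq a⁻¹ (inv_ne_zero ha0)) hs
    convert this using 1
    field_simp
  · intro a ha
    refine ⟨1, 0, by simp, ?_⟩
    convert ha using 1
    ring
  · intro X Y hn
    refine ⟨X, Y, hn, ?_⟩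
    have := ssq _ hn
    convert this using 1
    ring
  · intro a ha hs
    exact aux6 v b hb a ha hs
  · intro a ha
    refine ⟨0, 1, by simpa using hb, ?_⟩
    convert ha using 1
    ring


end J_LN_api

alias LN_api := J_LN_api.LN_api

end CohNT
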