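import Mathlib
import Pool.Agent.H604C.Base
set_option autoImplicit false
set_option maxHeartbeats 4000000
set_option synthInstance.maxHeartbeats 400000

namespace CohNT
open NumberField IsDedekindDomain Ideal

namespace J_fin_primes

theorem fin_primes {E : Type} [Field E] [NumberField E] (x : E) (hx : x ≠ 0) :
    ∃ S : Finset (Pr E), (∀ v ∉ S, v.valuation E x = 1) ∧ ∀ v, Dy v → v ∈ S := by
  classical
  have f1 := HeightOneSpectrum.Support.finite (𝓞 E) x
  have f2 := HeightOneSpectrum.Support.finite (𝓞 E) x⁻¹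
  have f3 := HeightOneSpectrum.Support.finite (𝓞 E) ((2 : E)⁻¹)
  refine ⟨f1.toFinset ∪ f2.toFinset ∪ f3.toFinset, ?_, ?_⟩
  · intro v hv
    rw [Finset.mem_union, Finset.mem_union, not_or, not_or, Set.Finite.mem_toFinset,
      Set.Finite.mem_toFinset] at hv
    obtain ⟨⟨h1, h2⟩, -⟩ := hv
    have h1' : v.valuation E x ≤ 1 := not_lt.1 h1
    have h2' : v.valuation E x⁻¹ ≤ 1 := not_lt.1 h2
    have h0 : v.valuation E x ≠ 0 := (Valuation.ne_zero_iff _).2 hx
    rw [map_inv₀] at h2'
    refine le_antisymm h1' ?_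
    have := (inv_le_one₀ (zero_lt_iff.2 h0)).1 h2'
    exact this
  · intro v hv
    have hv' : v.valuation E (2 : E) < 1 := hv
    rw [Finset.mem_union]
    right
    rw [Set.Finite.mem_toFinset]
    show 1 < v.valuation E ((2 : E)⁻¹)
    have h0 : v.valuation E (2 : E) ≠ 0 := (Valuation.ne_zero_iff _).2 two_ne_zero
    rw [map_inv₀]
    exact (one_lt_inv₀ (zero_lt_iff.2 h0)).2 hv'


end J_fin_primes

alias fin_primes := J_fin_primes.fin_primes

end CohNT
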