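import Mathlib
import Pool.Agent.H604C.Base
import Pool.Agent.H604C.P_ord_api
set_option autoImplicit false
set_option maxHeartbeats 4000000
set_option synthInstance.maxHeartbeats 400000

namespace CohNT
open NumberField IsDedekindDomain Ideal

namespace J_good_exists

theorem good_exists {E : Type} [Field E] [NumberField E] (S0 : Finset (Pr E)) : ∃ S : Finset (Pr E), S0 ⊆ S ∧ Good S := by
  classical
  choose J hJ using (ClassGroup.mk0_surjective (R := 𝓞 E))
  have hJ0 : ∀ c, (J c : Ideal (𝓞 E)) ≠ 0 := fun c => nonZeroDivisors.ne_zero (J c).2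
  let S : Finset (Pr E) :=
    S0 ∪ Finset.univ.biUnion fun c => (Ideal.finite_factors (hJ0 c)).toFinset
  refine ⟨S, Finset.subset_union_left, ?_⟩
  have hS : ∀ v ∉ S, ∀ c, ¬ v.asIdeal ∣ (J c : Ideal (𝓞 E)) := by
    intro v hv c hd
    apply hv
    apply Finset.mem_union_right
    rw [Finset.mem_biUnion]
    exact ⟨c, Finset.mem_univ _, by rw [Set.Finite.mem_toFinset]; exact hd⟩
  intro v hv
  have hv0 : v.asIdeal ∈ nonZeroDivisors (Ideal (𝓞 E)) := mem_nonZeroDivisors_of_ne_zero v.ne_bot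
  obtain ⟨c, hc⟩ : ∃ c, c = (ClassGroup.mk0 ⟨v.asIdeal, hv0⟩)⁻¹ := ⟨_, rfl⟩
  have hprod : ClassGroup.mk0 (⟨v.asIdeal, hv0⟩ * J c) = 1 := by
    rw [map_mul, hJ, hc, mul_inv_cancel]
  have hpr : (v.asIdeal * (J c : Ideal (𝓞 E))).IsPrincipal :=
    (ClassGroup.mk0_eq_one_iff (mul_mem hv0 (J c).2)).1 hprod
  obtain ⟨p, hp⟩ := hpr
  have hp' : v.asIdeal * (J c : Ideal (𝓞 E)) = Ideal.span {p} := hp
  have hp0 : p ≠ 0 := by
    rintro rfl
    rw [Ideal.span_singleton_eq_bot.2 rfl, ← Ideal.zero_eq_bot, mul_eq_zero] at hp'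
    rcases hp' with h | h
    · exact v.ne_bot h
    · exact hJ0 c h
  have hpE : (p : E) ≠ 0 := by
    intro h
    apply hp0
    exact_mod_cast h
  refine ⟨Units.mk0 (p : E) hpE, ?_, ?_⟩
  · rw [Units.val_mk0]
    unfold ord
    have hval : v.valuation E (p : E) = v.intValuation p := v.valuation_of_algebraMap p
    rw [hval]
    have h0 : v.intValuation p ≠ 0 := v.intValuation_ne_zero p hp0
    have h1 : v.intValuation p ≤ WithZero.exp (-((1 : ℕ) : ℤ)) := by
      rw [v.intValuation_le_pow_iff_dvd, pow_one, ← hp']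
      exact dvd_mul_right _ _
    have h2 : ¬ v.intValuation p ≤ WithZero.exp (-((2 : ℕ) : ℤ)) := by
      rw [v.intValuation_le_pow_iff_dvd, ← hp', pow_two]
      intro h
      exact hS v hv c ((mul_dvd_mul_iff_left v.ne_bot).1 h)
    rw [← WithZero.log_le_iff_le_exp h0] at h1 h2
    push_cast at h1 h2
    omega
  · intro v' hv' hne
    rw [Units.val_mk0]
    have hval : v'.valuation E (p : E) = v'.intValuation p := v'.valuation_of_algebraMap p
    rw [hval]
    refine le_antisymm (v'.intValuation_le_one p) ?_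
    by_contra hlt
    push Not at hlt
    rw [v'.intValuation_lt_one_iff_dvd, ← hp', v'.prime.dvd_mul] at hlt
    rcases hlt with h | h
    · apply hne
      have h3 : v.asIdeal ≤ v'.asIdeal := Ideal.le_of_dvd h
      exact (HeightOneSpectrum.ext (v.isMaximal.eq_of_le v'.isPrime.ne_top h3)).symm
    · exact hS v' hv' c h


end J_good_exists

alias good_exists := J_good_exists.good_exists

end CohNT
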