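import Mathlib
import Pool.Agent.H604C.Base
import Pool.Agent.H604C.P_ord_api
set_option autoImplicit false
set_option maxHeartbeats 4000000
set_option synthInstance.maxHeartbeats 400000

namespace CohNT
open NumberField IsDedekindDomain Ideal

namespace J_good_mono

theorem good_mono {E : Type} [Field E] [NumberField E] (S T : Finset (Pr E)) (h : S ⊆ T) (hG : Good S) : Good T := by
  intro v hv
  obtain ⟨p, hp1, hp2⟩ := hG v (fun hvS => hv (h hvS))
  exact ⟨p, hp1, fun v' hv' hne => hp2 v' (fun hvS => hv' (h hvS)) hne⟩


end J_good_mono

alias good_mono := J_good_mono.good_mono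

end CohNT
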