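import Mathlib
import Pool.Agent.H604C.Base
import Pool.Agent.H604C.P_ord_api
import Pool.Agent.H604C.P_LSq_api
set_option autoImplicit false
set_option maxHeartbeats 4000000
set_option synthInstance.maxHeartbeats 400000

namespace CohNT
open NumberField IsDedekindDomain Ideal

namespace J_LSq_reps

theorem aux_prod {E : Type} [Field E] [NumberField E] (v : Pr E) (e : ℕ) (a b : 𝓞 E)
    (h : a * b ∈ v.asIdeal ^ (2 * e + 1)) :
    a ∈ v.asIdeal ^ (e + 1) ∨ b ∈ v.asIdeal ^ (e + 1) := by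
  by_contra hcon
  push Not at hcon
  obtain ⟨ha, hb⟩ := hcon
  rw [← v.intValuation_le_pow_iff_mem] at h ha hb
  by_cases ha0 : a = 0
  · apply ha; simp [ha0]
  by_cases hb0 : b = 0
  · apply hb; simp [hb0]
  have hva := v.intValuation_ne_zero a ha0
  have hvb := v.intValuation_ne_zero b hb0
  obtain ⟨m, hm⟩ : ∃ m : ℤ, v.intValuation a = WithZero.exp m :=
    ⟨WithZero.log (v.intValuation a), (WithZero.exp_log hva).symm⟩
  obtain ⟨n, hn⟩ : ∃ m : ℤ, v.intValuation b = WithZero.exp m :=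
    ⟨WithZero.log (v.intValuation b), (WithZero.exp_log hvb).symm⟩
  rw [map_mul, hm, hn, ← WithZero.exp_add, WithZero.exp_le_exp] at h
  rw [hm, WithZero.exp_le_exp] at ha
  rw [hn, WithZero.exp_le_exp] at hb
  push_cast at h ha hb
  omega

theorem aux_index {G : Type*} [CommGroup G] [Finite G] :
    (powMonoidHom 2 : G →* G).range.index = Nat.card (powMonoidHom 2 : G →* G).ker := by
  set f : G →* G := powMonoidHom 2
  have h1 := f.ker.card_mul_index
  have h2 := f.range.card_mul_index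
  rw [Subgroup.index_ker] at h1
  have h3 : 0 < Nat.card f.range := Nat.card_pos
  apply Nat.eq_of_mul_eq_mul_left h3
  rw [h2, ← h1, mul_comm]

theorem aux_card {E : Type} [Field E] [NumberField E] (v : Pr E) (n : ℕ) :
    Nat.card (𝓞 E ⧸ v.asIdeal ^ n) = (absNorm v.asIdeal) ^ n := by
  rw [← map_pow, absNorm_apply, Submodule.cardQuot_apply]

theorem aux_finite {E : Type} [Field E] [NumberField E] (v : Pr E) (n : ℕ) :
    Finite (𝓞 E ⧸ v.asIdeal ^ n) := by
  apply Nat.finite_of_card_ne_zero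
  rw [aux_card]
  apply pow_ne_zero
  rw [Ne, absNorm_eq_zero_iff]
  exact v.ne_bot

theorem aux_qpos {E : Type} [Field E] [NumberField E] (v : Pr E) :
    0 < absNorm v.asIdeal := by
  apply Nat.pos_of_ne_zero
  rw [Ne, absNorm_eq_zero_iff]
  exact v.ne_bot

/-- the fibres of `R → 𝓞/v^(e+1)` -/
theorem aux_fibre {E : Type} [Field E] [NumberField E] (v : Pr E) (e : ℕ)
    (c : 𝓞 E ⧸ v.asIdeal ^ (e + 1)) :
    Nat.card {x : 𝓞 E ⧸ v.asIdeal ^ (2 * e + 1) //
      Ideal.Quotient.factor (Ideal.pow_le_pow_right (by omega : e + 1 ≤ 2 * e + 1)) x = c}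
      = (absNorm v.asIdeal) ^ e := by
  have := aux_finite v (2 * e + 1)
  have := aux_finite v (e + 1)
  set φ := Ideal.Quotient.factor (Ideal.pow_le_pow_right (I := v.asIdeal)
    (by omega : e + 1 ≤ 2 * e + 1)) with hφ
  have hsurj : Function.Surjective φ := Ideal.Quotient.factor_surjective _
  -- all fibres have the same cardinality as the kernel
  have hfib : ∀ c, Nat.card {x // φ x = c} = Nat.card {x // φ x = 0} := by
    intro c
    obtain ⟨x0, hx0⟩ := hsurj c
    apply Nat.card_congr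
    refine ⟨fun x => ⟨x.1 - x0, by rw [map_sub, x.2, hx0, sub_self]⟩,
      fun x => ⟨x.1 + x0, by rw [map_add, x.2, hx0, zero_add]⟩, ?_, ?_⟩
    · intro x; simp
    · intro x; simp
  have htot : Nat.card (𝓞 E ⧸ v.asIdeal ^ (2 * e + 1))
      = Nat.card (𝓞 E ⧸ v.asIdeal ^ (e + 1)) * Nat.card {x // φ x = 0} := by
    rw [← Nat.card_congr (Equiv.sigmaFiberEquiv φ)]
    let _ : Fintype (𝓞 E ⧸ v.asIdeal ^ (e + 1)) := Fintype.ofFinite _
    rw [Nat.card_sigma]
    simp only [hfib]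
    rw [Finset.sum_const, Finset.card_univ, smul_eq_mul, ← Nat.card_eq_fintype_card]
  rw [hfib c]
  rw [aux_card, aux_card] at htot
  have hq := aux_qpos v
  have : (absNorm v.asIdeal) ^ (2 * e + 1)
      = (absNorm v.asIdeal) ^ (e + 1) * (absNorm v.asIdeal) ^ e := by
    rw [← pow_add]; congr 1; omega
  rw [this] at htot
  exact (Nat.eq_of_mul_eq_mul_left (pow_pos hq _) htot).symm

theorem aux_ker {E : Type} [Field E] [NumberField E] (v : Pr E) (e : ℕ) :
    Nat.card (powMonoidHom 2 : (𝓞 E ⧸ v.asIdeal ^ (2 * e + 1))ˣ →* _).ker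
      ≤ 2 * (absNorm v.asIdeal) ^ e := by
  have := aux_finite v (2 * e + 1)
  have := aux_finite v (e + 1)
  set φ := Ideal.Quotient.factor (Ideal.pow_le_pow_right (I := v.asIdeal)
    (by omega : e + 1 ≤ 2 * e + 1)) with hφ
  -- injection into the sum of the two fibres
  have key : ∀ x : 𝓞 E ⧸ v.asIdeal ^ (2 * e + 1), x ^ 2 = 1 → φ x = 1 ∨ φ x = -1 := by
    intro x hx
    obtain ⟨r, rfl⟩ := Ideal.Quotient.mk_surjective x
    have h1 : (r - 1) * (r + 1) ∈ v.asIdeal ^ (2 * e + 1) := by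
      rw [← Ideal.Quotient.eq_zero_iff_mem]
      have : Ideal.Quotient.mk (v.asIdeal ^ (2 * e + 1)) ((r - 1) * (r + 1))
          = (Ideal.Quotient.mk (v.asIdeal ^ (2 * e + 1)) r) ^ 2 - 1 := by
        rw [← map_pow, ← map_one (Ideal.Quotient.mk (v.asIdeal ^ (2 * e + 1))), ← map_sub]
        congr 1; ring
      rw [this, hx, sub_self]
    rcases aux_prod v e _ _ h1 with h | h
    · left
      rw [hφ, Ideal.Quotient.factor_mk, ← map_one (Ideal.Quotient.mk (v.asIdeal ^ (e + 1))),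
        Ideal.Quotient.eq]
      exact h
    · right
      rw [hφ, Ideal.Quotient.factor_mk, ← map_one (Ideal.Quotient.mk (v.asIdeal ^ (e + 1))),
        ← map_neg, Ideal.Quotient.eq]
      rwa [sub_neg_eq_add]
  have hinj : Nat.card (powMonoidHom 2 : (𝓞 E ⧸ v.asIdeal ^ (2 * e + 1))ˣ →* _).ker
      ≤ Nat.card ({x // φ x = 1} ⊕ {x // φ x = -1}) := by
    classical
    let F : (powMonoidHom 2 : (𝓞 E ⧸ v.asIdeal ^ (2 * e + 1))ˣ →* _).ker →
        ({x // φ x = 1} ⊕ {x // φ x = -1}) := fun x =>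
      if h : φ ((x : (𝓞 E ⧸ v.asIdeal ^ (2 * e + 1))ˣ) : 𝓞 E ⧸ v.asIdeal ^ (2 * e + 1)) = 1 then
        Sum.inl ⟨_, h⟩ else Sum.inr ⟨_, (key _ (by
          have := x.2
          rw [MonoidHom.mem_ker, powMonoidHom_apply] at this
          have h2 := congrArg Units.val this
          rwa [Units.val_pow_eq_pow_val, Units.val_one] at h2)).resolve_left h⟩
    apply Nat.card_le_card_of_injective F
    intro x y hxy
    apply Subtype.ext
    apply Units.ext
    simp only [F] at hxy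
    split_ifs at hxy with h1 h2 h2
    · simpa using hxy
    · simpa using hxy
  refine hinj.trans ?_
  rw [Nat.card_sum, aux_fibre, aux_fibre]
  omega

theorem aux_val4 {E : Type} [Field E] [NumberField E] (v : Pr E) :
    v.valuation E (4 : E) = WithZero.exp (-(2 * (((ord v (2 : E)).toNat : ℕ) : ℤ))) := by
  have h2 : (2 : E) ≠ 0 := two_ne_zero
  have hv2 : v.valuation E (2 : E) ≠ 0 := by
    rw [Ne, map_eq_zero]; exact h2
  have hle : v.valuation E (2 : E) ≤ 1 := by
    have := v.valuation_le_one (K := E) (2 : 𝓞 E)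
    have h22 : algebraMap (𝓞 E) E (2 : 𝓞 E) = (2 : E) := by
      exact map_ofNat (algebraMap (𝓞 E) E) 2
    rw [← h22]
    exact this
  have hexp : v.valuation E (2 : E) = WithZero.exp (-(ord v (2 : E))) := by
    unfold ord; rw [neg_neg, WithZero.exp_log hv2]
  have hnn : 0 ≤ ord v (2 : E) := by
    rw [hexp, ← WithZero.exp_zero, WithZero.exp_le_exp] at hle
    omega
  have h4 : (4 : E) = 2 * 2 := by norm_num
  rw [h4, map_mul, hexp, ← WithZero.exp_add]
  congr 1
  rw [Int.toNat_of_nonneg hnn]; ring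

/-- representatives for units -/
theorem aux_units {E : Type} [Field E] [NumberField E] (v : Pr E) :
    ∃ A : Finset (𝓞 E), A.card ≤ 2 * (absNorm v.asIdeal) ^ (ord v (2 : E)).toNat ∧
      (∀ a ∈ A, a ∉ v.asIdeal) ∧
      ∀ r : 𝓞 E, r ∉ v.asIdeal → ∃ a ∈ A, LSq v ((r : E) * (a : E)) := by
  classical
  set e := (ord v (2 : E)).toNat with he
  have := aux_finite v (2 * e + 1)
  set R := 𝓞 E ⧸ v.asIdeal ^ (2 * e + 1) with hR
  set π : 𝓞 E →+* R := Ideal.Quotient.mk (v.asIdeal ^ (2 * e + 1)) with hπ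
  have hsurj : Function.Surjective π := Ideal.Quotient.mk_surjective
  set H : Subgroup Rˣ := (powMonoidHom 2 : Rˣ →* Rˣ).range with hH
  have : Finite Rˣ := inferInstance
  let _ : Fintype (Rˣ ⧸ H) := Fintype.ofFinite _
  -- lift
  let L : Rˣ ⧸ H → 𝓞 E := fun g => (hsurj ((g.out : Rˣ) : R)).choose
  have hL : ∀ g, π (L g) = ((g.out : Rˣ) : R) := fun g => (hsurj ((g.out : Rˣ) : R)).choose_spec
  have hmemu : ∀ r : 𝓞 E, IsUnit (π r) → r ∉ v.asIdeal := by
    intro r hr hmem
    obtain ⟨s, hs⟩ := hsurj (hr.unit⁻¹ : Rˣ)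
    have h1 : π (r * s - 1) = 0 := by
      rw [map_sub, map_mul, hs, map_one, IsUnit.mul_val_inv, sub_self]
    rw [hπ, Ideal.Quotient.eq_zero_iff_mem] at h1
    have h2 : r * s - 1 ∈ v.asIdeal := Ideal.pow_le_self (by omega) h1
    have h3 : (1 : 𝓞 E) ∈ v.asIdeal := by
      have h4 := v.asIdeal.sub_mem (v.asIdeal.mul_mem_right s hmem) h2
      simpa using h4
    exact v.isPrime.ne_top ((Ideal.eq_top_iff_one _).2 h3)
  have hunit : ∀ r : 𝓞 E, r ∉ v.asIdeal → IsUnit (π r) := by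
    intro r hr
    have hmax : v.asIdeal.IsMaximal := v.isMaximal
    have h1 : IsCoprime (Ideal.span {r}) v.asIdeal := by
      rw [Ideal.isCoprime_iff_sup_eq]
      by_contra hne
      have h2 : v.asIdeal = Ideal.span {r} ⊔ v.asIdeal :=
        hmax.eq_of_le hne le_sup_right
      apply hr
      rw [h2]
      exact Ideal.mem_sup_left (Ideal.mem_span_singleton_self r)
    have h2 : IsCoprime (Ideal.span {r}) (v.asIdeal ^ (2 * e + 1)) := h1.pow_right
    rw [Ideal.isCoprime_iff_exists] at h2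
    obtain ⟨i, hi, j, hj, hij⟩ := h2
    rw [Ideal.mem_span_singleton] at hi
    obtain ⟨s, rfl⟩ := hi
    have h3 : π r * π s = 1 := by
      rw [← map_mul, ← map_one π]
      rw [hπ, Ideal.Quotient.eq]
      have : r * s - 1 = - j := by rw [← hij]; ring
      rw [this]
      exact neg_mem hj
    exact IsUnit.of_mul_eq_one _ h3
  refine ⟨Finset.univ.image L, ?_, ?_, ?_⟩
  · refine Finset.card_image_le.trans ?_
    rw [Finset.card_univ, ← Nat.card_eq_fintype_card]
    have h1 : Nat.card (Rˣ ⧸ H) = H.index := rfl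
    rw [h1, hH, aux_index]
    exact aux_ker v e
  · intro a ha
    rw [Finset.mem_image] at ha
    obtain ⟨g, _, rfl⟩ := ha
    apply hmemu
    rw [hL]
    exact Units.isUnit _
  · intro r hr
    obtain ⟨u, hu⟩ := hunit r hr
    set g : Rˣ ⧸ H := ((u : Rˣ) : Rˣ ⧸ H) with hg
    refine ⟨L g, Finset.mem_image_of_mem _ (Finset.mem_univ _), ?_⟩
    have h1 : (u : Rˣ)⁻¹ * g.out ∈ H := by
      rw [← QuotientGroup.eq]
      exact (QuotientGroup.out_eq' g).symm
    obtain ⟨w, hw⟩ := h1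
    rw [powMonoidHom_apply] at hw
    -- u * out = (u w)^2
    have h2 : u * g.out = (u * w) ^ 2 := by
      rw [mul_pow, hw]; group
    obtain ⟨y, hy⟩ := hsurj ((u * w : Rˣ) : R)
    have h3 : r * L g - y ^ 2 ∈ v.asIdeal ^ (2 * e + 1) := by
      rw [← Ideal.Quotient.eq, ← hπ, map_mul, map_pow, hL, hy, ← hu, ← Units.val_mul,
        ← Units.val_pow_eq_pow_val, h2]
    have h4 : L g ∉ v.asIdeal := by
      apply hmemu
      rw [hL]; exact Units.isUnit _
    refine ⟨(y : E), ?_⟩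
    have h5 : v.valuation E ((r : E) * (L g : E) - (y : E) ^ 2)
        ≤ WithZero.exp (-((2 * e + 1 : ℕ) : ℤ)) := by
      have : ((r : E) * (L g : E) - (y : E) ^ 2) = algebraMap (𝓞 E) E (r * L g - y ^ 2) := by
        simp
      rw [this, v.valuation_of_algebraMap, v.intValuation_le_pow_iff_mem]
      exact h3
    have h6 : v.valuation E (4 * ((r : E) * (L g : E))) = WithZero.exp (-(2 * (e : ℤ))) := by
      rw [map_mul, aux_val4, map_mul]
      have hr1 : v.valuation E (r : E) = 1 := v.valuation_eq_one_iff_notMem.2 hr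
      have hl1 : v.valuation E (L g : E) = 1 := v.valuation_eq_one_iff_notMem.2 h4
      rw [hr1, hl1, mul_one, mul_one]
    rw [h6]
    refine lt_of_le_of_lt h5 ?_
    rw [WithZero.exp_lt_exp]
    push_cast
    omega

theorem LSq_reps {E : Type} [Field E] [NumberField E] (v : Pr E) :
    ∃ A : Finset E, A.card ≤ 4 * (absNorm v.asIdeal) ^ (ord v (2 : E)).toNat ∧
      ∀ x : E, x ≠ 0 → ∃ a ∈ A, a ≠ 0 ∧ LSq v (x * a) := by
  classical
  obtain ⟨A, hA1, hA2, hA3⟩ := aux_units v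
  obtain ⟨-, -, -, hmul, hdiv, hinv, hpow, hzpow, -, -, hone, -, -, -, -, -, p, hp0, hp1⟩ :=
    ord_api v
  obtain ⟨-, hsq, hLm, -⟩ := LSq_api v
  have hA0 : ∀ a ∈ A, (a : E) ≠ 0 := by
    intro a ha h0
    apply hA2 a ha
    have : a = 0 := by
      apply_fun (algebraMap (𝓞 E) E)
      · rw [map_zero]; exact h0
      · exact FaithfulSMul.algebraMap_injective _ _
    rw [this]; exact v.asIdeal.zero_mem
  -- units of E
  have hunits : ∀ u : E, u ≠ 0 → ord v u = 0 → ∃ a ∈ A, LSq v (u * (a : E)) := by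
    intro u hu0 hu1
    have hval : v.valuation E u = 1 := (hone u hu0).2 hu1
    obtain ⟨r, d, hrd⟩ := v.exists_primeCompl_mul_eq_of_integer (K := E) u hval.le
    have hd : (d : 𝓞 E) ∉ v.asIdeal := d.2
    have hdv : v.valuation E (((d : 𝓞 E)) : E) = 1 := v.valuation_eq_one_iff_notMem.2 hd
    have hd0 : (((d : 𝓞 E)) : E) ≠ 0 := by
      intro h0; rw [h0, map_zero] at hdv; exact zero_ne_one hdv
    have hr : r ∉ v.asIdeal := by
      rw [← v.valuation_eq_one_iff_notMem (K := E), ← hrd, map_mul, hval, one_mul]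
      exact hdv
    have hrd' : r * (d : 𝓞 E) ∉ v.asIdeal := by
      intro h
      rcases v.isPrime.mem_or_mem h with h | h
      · exact hr h
      · exact hd h
    obtain ⟨a, ha, hLa⟩ := hA3 _ hrd'
    refine ⟨a, ha, ?_⟩
    have h1 : u * (a : E) = (((r * (d : 𝓞 E) : 𝓞 E) : E) * (a : E)) * ((((d : 𝓞 E)) : E)⁻¹) ^ 2 := by
      have h2 : u = (r : E) / (((d : 𝓞 E)) : E) := by
        rw [eq_div_iff hd0]; exact hrd
      have h3 : (((r * (d : 𝓞 E) : 𝓞 E)) : E) = (r : E) * (((d : 𝓞 E)) : E) := by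
        exact map_mul (algebraMap (𝓞 E) E) _ _
      rw [h2, h3]
      field_simp
    rw [h1]
    exact hLm _ _ hLa (hsq _ (inv_ne_zero hd0))
  refine ⟨A.image (fun a : 𝓞 E => (a : E)) ∪ A.image (fun a : 𝓞 E => p * (a : E)), ?_, ?_⟩
  · refine (Finset.card_union_le _ _).trans ?_
    have h1 := Finset.card_image_le (s := A) (f := fun a : 𝓞 E => (a : E))
    have h2 := Finset.card_image_le (s := A) (f := fun a : 𝓞 E => p * (a : E))
    omega
  · intro x hx
    rcases Int.even_or_odd' (ord v x) with ⟨m, hm | hm⟩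
    · have hu0 : x / p ^ (2 * m) ≠ 0 := div_ne_zero hx (zpow_ne_zero _ hp0)
      have hu1 : ord v (x / p ^ (2 * m)) = 0 := by
        rw [hdiv _ _ hx (zpow_ne_zero _ hp0), hzpow, hp1, hm]; ring
      obtain ⟨a, ha, hLa⟩ := hunits _ hu0 hu1
      refine ⟨(a : E), Finset.mem_union_left _
        (Finset.mem_image_of_mem (fun a : 𝓞 E => (a : E)) ha), hA0 a ha, ?_⟩
      have h1 : x * (a : E) = (x / p ^ (2 * m) * (a : E)) * (p ^ m) ^ 2 := by
        have h2 : p ^ (2 * m) = (p ^ m) ^ 2 := by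
          rw [mul_comm, zpow_mul]; norm_cast
        rw [h2]
        have h3 : (p ^ m) ≠ 0 := zpow_ne_zero _ hp0
        field_simp
      rw [h1]
      exact hLm _ _ hLa (hsq _ (zpow_ne_zero _ hp0))
    · have hu0 : x / p ^ (2 * m + 1) ≠ 0 := div_ne_zero hx (zpow_ne_zero _ hp0)
      have hu1 : ord v (x / p ^ (2 * m + 1)) = 0 := by
        rw [hdiv _ _ hx (zpow_ne_zero _ hp0), hzpow, hp1, hm]; ring
      obtain ⟨a, ha, hLa⟩ := hunits _ hu0 hu1
      refine ⟨p * (a : E), Finset.mem_union_right _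
        (Finset.mem_image_of_mem (fun a : 𝓞 E => p * (a : E)) ha), mul_ne_zero hp0 (hA0 a ha), ?_⟩
      have h1 : x * (p * (a : E)) = (x / p ^ (2 * m + 1) * (a : E)) * (p ^ m * p) ^ 2 := by
        have h2 : p ^ (2 * m + 1) = (p ^ m) ^ 2 * p := by
          rw [zpow_add₀ hp0, zpow_one, mul_comm 2 m, zpow_mul]; norm_cast
        rw [h2]
        have h3 : (p ^ m) ≠ 0 := zpow_ne_zero _ hp0
        field_simp
      rw [h1]
      exact hLm _ _ hLa (hsq _ (mul_ne_zero (zpow_ne_zero _ hp0) hp0))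


end J_LSq_reps

alias LSq_reps := J_LSq_reps.LSq_reps

end CohNT
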