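import Mathlib
import Pool.Agent.H604C.Base
import Pool.Agent.H604C.P_LSq_api
import Pool.Agent.H604C.P_LN_api
import Pool.Agent.H604C.P_LSq_reps
set_option autoImplicit false
set_option maxHeartbeats 4000000
set_option synthInstance.maxHeartbeats 400000

namespace CohNT
open NumberField IsDedekindDomain Ideal

namespace J_LSG_api

theorem LSG_api_mem {E : Type} [Field E] [NumberField E] (v : Pr E) (x : Eˣ) :
    x ∈ LSG v ↔ LSq v (x : E) := by
  obtain ⟨h0, h1, h2, h3, -⟩ := LSq_api v
  constructor
  · intro hx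
    unfold LSG at hx
    induction hx using Subgroup.closure_induction with
    | mem x hx => exact hx
    | one =>
      have := h1 1 one_ne_zero
      simpa using this
    | mul x y _ _ hx hy =>
      rw [Units.val_mul]
      exact h2 _ _ hx hy
    | inv x _ hx =>
      rw [Units.val_inv_eq_inv_val]
      exact h3 _ hx
  · intro hx
    exact Subgroup.subset_closure hx

theorem LSG_api_memN {E : Type} [Field E] [NumberField E] (v : Pr E) (b : E) (hb : b ≠ 0) (x : Eˣ) :
    x ∈ LNG v b ↔ LN v (x : E) b := by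
  obtain ⟨h0, h1, h2, h3, -⟩ := LN_api v b hb
  constructor
  · intro hx
    unfold LNG at hx
    induction hx using Subgroup.closure_induction with
    | mem x hx => exact hx
    | one =>
      have := (LSq_api v).2.1 1 one_ne_zero
      rw [one_pow] at this
      rw [Units.val_one]
      exact h3 1 this
    | mul x y _ _ hx hy =>
      rw [Units.val_mul]
      exact h1 _ _ hx hy
    | inv x _ hx =>
      rw [Units.val_inv_eq_inv_val]
      exact h2 _ hx
  · intro hx
    exact Subgroup.subset_closure hx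

theorem LSG_api {E : Type} [Field E] [NumberField E] (v : Pr E) :
    (∀ x : Eˣ, x ∈ LSG v ↔ LSq v (x : E)) ∧
    (∀ b : E, b ≠ 0 → ∀ x : Eˣ, x ∈ LNG v b ↔ LN v (x : E) b) ∧
    (∀ b : E, b ≠ 0 → LSG v ≤ LNG v b) ∧ (LSG v).index ≠ 0 ∧
    (LSG v).index ≤ 4 * (absNorm v.asIdeal) ^ (ord v (2 : E)).toNat := by
  classical
  refine ⟨LSG_api_mem v, fun b hb => LSG_api_memN v b hb, fun b hb x hx => ?_, ?_⟩
  · rw [LSG_api_memN v b hb]
    exact (LN_api v b hb).2.2.2.1 _ ((LSG_api_mem v x).1 hx)
  · obtain ⟨A, hA, hrep⟩ := LSq_reps v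
    let f : A → Eˣ ⧸ LSG v := fun a =>
      if h : (a : E) ≠ 0 then QuotientGroup.mk ((Units.mk0 (a : E) h)⁻¹) else 1
    have hf : Function.Surjective f := by
      intro q
      obtain ⟨x, rfl⟩ := QuotientGroup.mk_surjective q
      obtain ⟨a, ha, ha0, hsq⟩ := hrep (x : E) x.ne_zero
      refine ⟨⟨a, ha⟩, ?_⟩
      have h1 : f ⟨a, ha⟩ = QuotientGroup.mk ((Units.mk0 a ha0)⁻¹) := by
        show (if h : a ≠ 0 then QuotientGroup.mk ((Units.mk0 a h)⁻¹) else 1) = _
        rw [dif_pos ha0]
      rw [h1, QuotientGroup.eq, inv_inv, LSG_api_mem, Units.val_mul, Units.val_mk0, mul_comm]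
      exact hsq
    haveI : Finite (Eˣ ⧸ LSG v) := Finite.of_surjective f hf
    have hcard : (LSG v).index ≤ A.card := by
      rw [Subgroup.index_eq_card]
      have := Nat.card_le_card_of_surjective f hf
      rwa [Nat.card_eq_fintype_card (α := A), Fintype.card_coe] at this
    refine ⟨?_, hcard.trans hA⟩
    rw [Subgroup.index_eq_card]
    exact Nat.card_pos.ne'


end J_LSG_api

alias LSG_api := J_LSG_api.LSG_api

end CohNT
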