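import Mathlib
import Pool.Agent.H604C.Base
import Pool.Agent.H604C.P_ord_api
set_option autoImplicit false
set_option maxHeartbeats 4000000
set_option synthInstance.maxHeartbeats 400000

namespace CohNT
open NumberField IsDedekindDomain Ideal

namespace J_above_api

theorem above_lsq {E M : Type} [Field E] [NumberField E] [Field M] [NumberField M] [Algebra E M]
    (v : Pr E) (w : Pr M) (e : ℕ) (he : 0 < e)
    (hval : ∀ x : E, w.valuation M (algebraMap E M x) = (v.valuation E x) ^ e)
    (x : E) (h : LSq v x) : LSq w (algebraMap E M x) := by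
  obtain ⟨y, hy⟩ := h
  refine ⟨algebraMap E M y, ?_⟩
  have e1 : (algebraMap E M x - algebraMap E M y ^ 2) = algebraMap E M (x - y ^ 2) := by
    rw [map_sub, map_pow]
  have e2 : 4 * algebraMap E M x = algebraMap E M (4 * x) := by
    rw [map_mul, map_ofNat]
  rw [e1, e2, hval, hval]
  exact pow_lt_pow_left₀ hy zero_le he.ne'

theorem above_api {E M : Type} [Field E] [NumberField E] [Field M] [NumberField M] [Algebra E M] (v : Pr E) :
    (∃ w : Pr M, Ab v w) ∧ (∀ w : Pr M, ∃ v' : Pr E, Ab v' w) ∧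
    (∀ (w : Pr M) (v' : Pr E), Ab v w → Ab v' w → v = v') ∧
    {w : Pr M | Ab v w}.Finite ∧
    (∀ w : Pr M, Ab v w → ∃ e : ℕ, 0 < e ∧
      (∀ x : E, w.valuation M (algebraMap E M x) = (v.valuation E x) ^ e) ∧
      (∀ x : E, ord w (algebraMap E M x) = e * ord v x)) ∧
    (∀ w : Pr M, Ab v w → ∀ x : E, LSq v x → LSq w (algebraMap E M x)) ∧
    (∀ w : Pr M, Ab v w → ∀ a b : E, LN v a b → LN w (algebraMap E M a) (algebraMap E M b)) ∧
    (∀ w : Pr M, Ab v w → (Dy w ↔ Dy v)) := by
  have hram : ∀ w : Pr M, Ab v w → ∃ e : ℕ, 0 < e ∧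
      (∀ x : E, w.valuation M (algebraMap E M x) = (v.valuation E x) ^ e) := by
    intro w hw
    have : w.asIdeal.LiesOver v.asIdeal := hw
    refine ⟨v.asIdeal.ramificationIdx' w.asIdeal, ?_, ?_⟩
    · exact Nat.pos_of_ne_zero (IsDedekindDomain.ramificationIdx'_ne_zero_of_liesOver w.asIdeal v.ne_bot)
    · intro x
      exact (IsDedekindDomain.HeightOneSpectrum.valuation_liesOver M v w x).symm
  refine ⟨?_, ?_, ?_, ?_, ?_, ?_, ?_, ?_⟩
  · have : v.asIdeal.IsMaximal := v.isMaximal
    obtain ⟨Q, hQ, hQ2⟩ := Ideal.exists_maximal_ideal_liesOver_of_isIntegral (S := 𝓞 M) v.asIdeal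
    refine ⟨⟨Q, hQ.isPrime, ?_⟩, hQ2⟩
    exact Ideal.ne_bot_of_liesOver_of_ne_bot v.ne_bot Q
  · intro w
    exact ⟨IsDedekindDomain.HeightOneSpectrum.under (𝓞 E) w, Ideal.over_under _⟩
  · intro w v' h1 h2
    apply IsDedekindDomain.HeightOneSpectrum.ext
    rw [h1.over, h2.over]
  · have : v.asIdeal.IsMaximal := v.isMaximal
    have hf := IsDedekindDomain.primesOver_finite v.asIdeal (𝓞 M)
    refine Set.Finite.subset (hf.preimage (f := fun w : Pr M => w.asIdeal) ?_) ?_
    · intro w1 _ w2 _ h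
      exact IsDedekindDomain.HeightOneSpectrum.ext h
    · intro w hw
      exact ⟨w.isPrime, hw⟩
  · intro w hw
    obtain ⟨e, he, hval⟩ := hram w hw
    refine ⟨e, he, hval, fun x => ?_⟩
    unfold ord
    rw [hval, WithZero.log_pow]
    simp
  · intro w hw x hx
    obtain ⟨e, he, hval⟩ := hram w hw
    exact above_lsq v w e he hval x hx
  · intro w hw a b hab
    obtain ⟨e, he, hval⟩ := hram w hw
    obtain ⟨X, Y, hXY, hL⟩ := hab
    refine ⟨algebraMap E M X, algebraMap E M Y, ?_, ?_⟩
    · have : algebraMap E M X ^ 2 - algebraMap E M b * algebraMap E M Y ^ 2 =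
        algebraMap E M (X ^ 2 - b * Y ^ 2) := by simp
      rw [this]
      exact (map_ne_zero _).mpr hXY
    · have : algebraMap E M a * (algebraMap E M X ^ 2 - algebraMap E M b * algebraMap E M Y ^ 2) =
        algebraMap E M (a * (X ^ 2 - b * Y ^ 2)) := by simp
      rw [this]
      exact above_lsq v w e he hval _ hL
  · intro w hw
    obtain ⟨e, he, hval⟩ := hram w hw
    unfold Dy
    have : (2 : M) = algebraMap E M 2 := by rw [map_ofNat]
    rw [this, hval]
    exact pow_lt_one_iff_of_nonneg zero_le he.ne'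


end J_above_api

alias above_api := J_above_api.above_api

end CohNT
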