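import Mathlib
import Pool.Agent.H604C.Base
import Pool.Agent.H604C.P_ord_api
import Pool.Agent.H604C.P_above_api
set_option autoImplicit false
set_option maxHeartbeats 4000000
set_option synthInstance.maxHeartbeats 400000

namespace CohNT
open NumberField IsDedekindDomain Ideal

namespace J_above_count

theorem above_count_le {E M : Type} [Field E] [NumberField E] [Field M] [NumberField M]
    [Algebra E M] (h2 : Module.finrank E M = 2) (v : Pr E) :
    {w : Pr M | Ab v w}.ncard ≤ 2 := by
  classical
  have hmax : v.asIdeal.IsMaximal := v.isMaximal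
  have hnz : NoZeroSMulDivisors (𝓞 E) (𝓞 M) := by
    constructor
    intro c x hcx
    rw [Algebra.smul_def, mul_eq_zero] at hcx
    rcases hcx with h | h
    · left
      exact FaithfulSMul.algebraMap_injective (𝓞 E) (𝓞 M) (by rw [h, map_zero])
    · right
      exact h
  have hle := Ideal.card_primesOverFinset_le_finrank (𝓞 M) E M v.ne_bot
  rw [h2] at hle
  have h3 : {w : Pr M | Ab v w}.ncard ≤
      ((IsDedekindDomain.primesOverFinset v.asIdeal (𝓞 M) : Finset (Ideal (𝓞 M))) :
        Set (Ideal (𝓞 M))).ncard := by
    apply Set.ncard_le_ncard_of_injOn (fun w : Pr M => w.asIdeal)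
    · intro w hw
      rw [Finset.mem_coe, IsDedekindDomain.mem_primesOverFinset_iff v.ne_bot]
      exact ⟨w.isPrime, hw⟩
    · intro w _ w' _ h
      exact HeightOneSpectrum.ext h
  rw [Set.ncard_coe_finset] at h3
  exact h3.trans hle

theorem above_count {E M : Type} [Field E] [NumberField E] [Field M] [NumberField M] [Algebra E M] (h2 : Module.finrank E M = 2) (T : Finset (Pr E)) :
    ∃ (TM : Finset (Pr M)) (NS : Finset (Pr E)),
      (∀ w, w ∈ TM ↔ ∃ v ∈ T, Ab v w) ∧ (∀ v, v ∈ NS ↔ v ∈ T ∧ NSp M v) ∧
      TM.card + NS.card = 2 * T.card := by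
  classical
  have hfin : ∀ v : Pr E, {w : Pr M | Ab v w}.Finite := fun v => (above_api (M := M) v).2.2.2.1
  have hone : ∀ v : Pr E, ((hfin v).toFinset.card) + (if NSp M v then 1 else 0) = 2 := by
    intro v
    have h1 : (hfin v).toFinset.card ≤ 2 := by
      rw [← Set.ncard_eq_toFinset_card _ (hfin v)]
      exact above_count_le h2 v
    obtain ⟨w, hw⟩ := (above_api (M := M) v).1
    have h0 : 0 < (hfin v).toFinset.card :=
      Finset.card_pos.mpr ⟨w, (hfin v).mem_toFinset.mpr hw⟩
    have hiff : NSp M v ↔ (hfin v).toFinset.card = 1 := by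
      rw [Finset.card_eq_one]
      constructor
      · rintro ⟨u, hu, hu2⟩
        refine ⟨u, ?_⟩
        ext x
        rw [Set.Finite.mem_toFinset, Finset.mem_singleton]
        constructor
        · intro hx
          exact hu2 x hx
        · rintro rfl
          exact hu
      · rintro ⟨u, hu⟩
        refine ⟨u, ?_, ?_⟩
        · have : u ∈ (hfin v).toFinset := by
            rw [hu]
            exact Finset.mem_singleton_self u
          exact (hfin v).mem_toFinset.mp this
        · intro x hx
          have : x ∈ (hfin v).toFinset := (hfin v).mem_toFinset.mpr hx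
          rw [hu, Finset.mem_singleton] at this
          exact this
    by_cases h : NSp M v
    · rw [if_pos h, hiff.mp h]
    · rw [if_neg h]
      have : (hfin v).toFinset.card ≠ 1 := fun h' => h (hiff.mpr h')
      omega
  refine ⟨T.biUnion (fun v => (hfin v).toFinset), T.filter (fun v => NSp M v), ?_, ?_, ?_⟩
  · intro w
    rw [Finset.mem_biUnion]
    constructor
    · rintro ⟨v, hv, hw⟩
      exact ⟨v, hv, (hfin v).mem_toFinset.mp hw⟩
    · rintro ⟨v, hv, hw⟩
      exact ⟨v, hv, (hfin v).mem_toFinset.mpr hw⟩
  · intro v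
    rw [Finset.mem_filter]
  · rw [Finset.card_biUnion, Finset.card_filter, ← Finset.sum_add_distrib,
      Finset.sum_congr rfl (fun v _ => hone v), Finset.sum_const, smul_eq_mul, mul_comm]
    intro v _ v' _ hne
    refine Finset.disjoint_left.mpr ?_
    intro w hw hw'
    exact hne ((above_api (M := M) v).2.2.1 w v' ((hfin v).mem_toFinset.mp hw)
      ((hfin v').mem_toFinset.mp hw'))


end J_above_count

alias above_count := J_above_count.above_count

end CohNT
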