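import Mathlib
import Pool.Agent.H604C.Base
set_option autoImplicit false
set_option maxHeartbeats 4000000
set_option synthInstance.maxHeartbeats 400000

namespace CohNT
open NumberField IsDedekindDomain Ideal

namespace J_ideal_lower

/-- the ideals of norm at most `n` which are coprime to `S` -/
def AA (K : Type) [Field K] [NumberField K] (S : Finset (Pr K)) (n : ℕ) : Set (Ideal (𝓞 K)) :=
  {I : Ideal (𝓞 K) | I ≠ ⊥ ∧ absNorm I ≤ n ∧ ∀ v ∈ S, ¬ I ≤ v.asIdeal}

theorem AA_fin (K : Type) [Field K] [NumberField K] (S : Finset (Pr K)) (n : ℕ) :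
    (AA K S n).Finite :=
  (Ideal.finite_setOfPred_absNorm_le (S := 𝓞 K) n).subset (fun _ hI => hI.2.1)

theorem AA_empty (K : Type) [Field K] [NumberField K] (n : ℕ) :
    Nat.card {I : nonZeroDivisors (Ideal (𝓞 K)) // ((absNorm (I : Ideal (𝓞 K)) : ℕ) : ℝ) ≤ (n : ℝ)}
      = (AA K ∅ n).ncard := by
  rw [← Nat.card_coe_set_eq]
  refine Nat.card_congr ⟨fun I => ⟨I.1.1, nonZeroDivisors.ne_zero I.1.2, ?_, ?_⟩,
    fun I => ⟨⟨I.1, mem_nonZeroDivisors_of_ne_zero I.2.1⟩, ?_⟩, ?_, ?_⟩
  · exact_mod_cast I.2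
  · intro v hv
    simp at hv
  · exact_mod_cast I.2.2.1
  · intro I
    rfl
  · intro I
    rfl

theorem AA_step (K : Type) [Field K] [NumberField K] [DecidableEq (Pr K)] (S : Finset (Pr K)) (v : Pr K)
    (hv : v ∉ S) (n : ℕ) :
    (AA K S n).ncard = (AA K (insert v S) n).ncard + (AA K S (n / absNorm v.asIdeal)).ncard := by
  have hq : 0 < absNorm v.asIdeal := by
    rw [Nat.pos_iff_ne_zero, Ne, Ideal.absNorm_eq_zero_iff]
    exact v.ne_bot
  have hun : AA K S n = AA K (insert v S) n ∪ (fun J => v.asIdeal * J) '' AA K S (n / absNorm v.asIdeal) := by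
    ext I
    constructor
    · rintro ⟨h1, h2, h3⟩
      by_cases hI : I ≤ v.asIdeal
      · right
        obtain ⟨J, rfl⟩ := Ideal.dvd_iff_le.2 hI
        refine ⟨J, ⟨?_, ?_, ?_⟩, rfl⟩
        · rintro rfl
          exact h1 (Ideal.mul_bot _)
        · rw [map_mul] at h2
          rw [Nat.le_div_iff_mul_le hq, mul_comm]
          exact h2
        · intro w hw hJ
          exact h3 w hw (Ideal.mul_le_right.trans hJ)
      · left
        refine ⟨h1, h2, ?_⟩
        intro w hw
        rcases Finset.mem_insert.1 hw with rfl | hw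
        · exact hI
        · exact h3 w hw
    · rintro (⟨h1, h2, h3⟩ | ⟨J, ⟨h1, h2, h3⟩, rfl⟩)
      · exact ⟨h1, h2, fun w hw => h3 w (Finset.mem_insert_of_mem hw)⟩
      · refine ⟨?_, ?_, ?_⟩
        · intro h
          rcases mul_eq_zero.1 (h : v.asIdeal * J = 0) with h | h
          · exact v.ne_bot h
          · exact h1 h
        · show absNorm (v.asIdeal * J) ≤ n
          rw [map_mul, mul_comm]
          exact (Nat.le_div_iff_mul_le hq).1 h2
        · intro w hw hle
          rcases (Ideal.IsPrime.mul_le w.isPrime).1 hle with h | h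
          · have hvw : v.asIdeal = w.asIdeal := v.isMaximal.eq_of_le w.isPrime.ne_top h
            exact hv ((HeightOneSpectrum.ext hvw) ▸ hw)
          · exact h3 w hw h
  have hdis : Disjoint (AA K (insert v S) n)
      ((fun J => v.asIdeal * J) '' AA K S (n / absNorm v.asIdeal)) := by
    rw [Set.disjoint_left]
    rintro I ⟨_, _, h3⟩ ⟨J, _, rfl⟩
    exact h3 v (Finset.mem_insert_self _ _) Ideal.mul_le_left
  rw [hun, Set.ncard_union_eq hdis (AA_fin K _ n) ((AA_fin K _ _).image _), Set.ncard_image_of_injective]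
  intro J J' h
  exact mul_left_cancel₀ (v.ne_bot) h

theorem lim_div (q : ℕ) (f : ℕ → ℝ) (κ : ℝ) (hq : 0 < q)
    (hf : Filter.Tendsto (fun n : ℕ => f n / n) Filter.atTop (nhds κ)) :
    Filter.Tendsto (fun n : ℕ => f (n / q) / n) Filter.atTop (nhds (κ * (1 / q))) := by
  have hq' : (0 : ℝ) < q := by exact_mod_cast hq
  have h1 : Filter.Tendsto (fun n : ℕ => n / q) Filter.atTop Filter.atTop :=
    Nat.tendsto_div_const_atTop hq.ne'
  have h2 := hf.comp h1
  have h3 : Filter.Tendsto (fun n : ℕ => ((n / q : ℕ) : ℝ) / n) Filter.atTop (nhds (1 / (q : ℝ))) := by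
    have h4 := (tendsto_nat_floor_mul_div_atTop (R := ℝ) (a := 1 / (q : ℝ)) (by positivity)).comp
      tendsto_natCast_atTop_atTop
    refine h4.congr fun n => ?_
    simp only [Function.comp_apply]
    rw [one_div_mul_eq_div, Nat.floor_div_eq_div]
  refine (h2.mul h3).congr' ?_
  filter_upwards [Filter.eventually_ge_atTop q] with n hn
  have h5 : ((n / q : ℕ) : ℝ) ≠ 0 := by
    have : 0 < n / q := Nat.div_pos hn hq
    exact_mod_cast this.ne'
  simp only [Function.comp_apply]
  field_simp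

theorem lim_AA (K : Type) [Field K] [NumberField K] (S : Finset (Pr K)) :
    ∃ κ : ℝ, 0 < κ ∧ Filter.Tendsto (fun n : ℕ => ((AA K S n).ncard : ℝ) / n) Filter.atTop (nhds κ) := by
  classical
  induction S using Finset.induction_on with
  | empty =>
    refine ⟨dedekindZeta_residue K, dedekindZeta_residue_pos K, ?_⟩
    have h := (NumberField.Ideal.tendsto_norm_le_div_atTop₀ K).comp
      (tendsto_natCast_atTop_atTop (R := ℝ))
    refine h.congr fun n => ?_
    simp only [Function.comp_apply]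
    rw [AA_empty]
  | insert v S hv ih =>
    obtain ⟨κ, hκ, hlim⟩ := ih
    have hq : 1 < absNorm v.asIdeal := NumberField.RingOfIntegers.HeightOneSpectrum.one_lt_absNorm v
    have hq' : (1 : ℝ) < absNorm v.asIdeal := by exact_mod_cast hq
    have h2 := lim_div (absNorm v.asIdeal) (fun n => ((AA K S n).ncard : ℝ)) κ (by omega) hlim
    have h3 := hlim.sub h2
    refine ⟨κ - κ * (1 / (absNorm v.asIdeal : ℝ)), ?_, ?_⟩
    · have h4 : 1 / (absNorm v.asIdeal : ℝ) < 1 := by
        rw [div_lt_one (by linarith)]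
        exact hq'
      nlinarith
    · refine h3.congr fun n => ?_
      have h5 := AA_step K S v hv n
      have h6 : ((AA K S n).ncard : ℝ) = ((AA K (insert v S) n).ncard : ℝ)
          + ((AA K S (n / absNorm v.asIdeal)).ncard : ℝ) := by exact_mod_cast h5
      rw [h6]
      ring

theorem ideal_lower (K : Type) [Field K] [NumberField K] (S : Finset (Pr K)) :
    ∃ c : ℝ, 0 < c ∧ ∃ n0 : ℕ, ∀ n : ℕ, n0 ≤ n →
      c * n ≤ (Set.ncard {I : Ideal (𝓞 K) | I ≠ ⊥ ∧ absNorm I ≤ n ∧
        ∀ v ∈ S, ¬ I ≤ v.asIdeal} : ℝ) := by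
  obtain ⟨κ, hκ, hlim⟩ := lim_AA K S
  have h1 : ∀ᶠ n : ℕ in Filter.atTop, κ / 2 < ((AA K S n).ncard : ℝ) / n :=
    hlim.eventually (lt_mem_nhds (by linarith))
  obtain ⟨n0, hn0⟩ := Filter.eventually_atTop.1 h1
  refine ⟨κ / 2, by linarith, n0 + 1, fun n hn => ?_⟩
  have h2 := hn0 n (by omega)
  have hn' : (0 : ℝ) < n := by
    have : 0 < n := by omega
    exact_mod_cast this
  rw [lt_div_iff₀ hn'] at h2
  exact h2.le


end J_ideal_lower

alias ideal_lower := J_ideal_lower.ideal_lower

end CohNT
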