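import Mathlib
import Pool.Agent.H604C.Base
set_option autoImplicit false
set_option maxHeartbeats 4000000
set_option synthInstance.maxHeartbeats 400000

namespace CohNT
open NumberField IsDedekindDomain Ideal

namespace J_ideal_upper

open nonZeroDivisors in
theorem ideal_upper_card (K : Type) [Field K] [NumberField K] (n : ℕ) :
    Set.ncard {I : Ideal (𝓞 K) | I ≠ ⊥ ∧ absNorm I ≤ n} =
      Nat.card {I : (Ideal (𝓞 K))⁰ // (absNorm (I : Ideal (𝓞 K)) : ℝ) ≤ (n : ℝ)} := by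
  rw [← Nat.card_coe_set_eq]
  refine Nat.card_congr
    { toFun := fun I => ⟨⟨I.1, mem_nonZeroDivisors_of_ne_zero I.2.1⟩, by exact_mod_cast I.2.2⟩
      invFun := fun I => ⟨I.1.1, nonZeroDivisors.ne_zero I.1.2, by exact_mod_cast I.2⟩
      left_inv := fun I => rfl
      right_inv := fun I => rfl }

theorem ideal_upper (K : Type) [Field K] [NumberField K] :
    ∃ C : ℝ, 0 < C ∧ ∀ n : ℕ,
      (Set.ncard {I : Ideal (𝓞 K) | I ≠ ⊥ ∧ absNorm I ≤ n} : ℝ) ≤ C * n := by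
  have h1 := (NumberField.Ideal.tendsto_norm_le_div_atTop₀ K).comp
    (tendsto_natCast_atTop_atTop (R := ℝ))
  obtain ⟨C, hC⟩ := h1.bddAbove_range
  refine ⟨max C 1, lt_of_lt_of_le one_pos (le_max_right _ _), ?_⟩
  intro n
  rcases Nat.eq_zero_or_pos n with hn | hn
  · subst hn
    have h2 : {I : Ideal (𝓞 K) | I ≠ ⊥ ∧ absNorm I ≤ 0} = ∅ := by
      rw [Set.eq_empty_iff_forall_notMem]
      rintro I ⟨hI, hI0⟩
      exact hI (Ideal.absNorm_eq_zero_iff.1 (Nat.le_zero.1 hI0))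
    rw [h2]
    simp
  · have h2 := hC ⟨n, rfl⟩
    have hn' : (0 : ℝ) < n := by exact_mod_cast hn
    rw [ideal_upper_card]
    have h3 : (Nat.card {I : nonZeroDivisors (Ideal (𝓞 K)) // (absNorm (I : Ideal (𝓞 K)) : ℝ) ≤ (n : ℝ)} : ℝ) / n ≤ C := h2
    rw [div_le_iff₀ hn'] at h3
    exact h3.trans (mul_le_mul_of_nonneg_right (le_max_left _ _) hn'.le)


end J_ideal_upper

alias ideal_upper := J_ideal_upper.ideal_upper

end CohNT
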