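import Mathlib
import Pool.Agent.H604C.Base
set_option autoImplicit false
set_option maxHeartbeats 4000000
set_option synthInstance.maxHeartbeats 400000

namespace CohNT
open NumberField IsDedekindDomain Ideal

namespace J_split_map

theorem split_map_good {E : Type} [Field E] [NumberField E] (S : Finset (Pr E))
    (I : Ideal (𝓞 E)) (hI : I ≠ ⊥) (hS : ∀ v ∈ S, ¬ I ≤ v.asIdeal) (q : Ideal (𝓞 E))
    (hq : q ∈ UniqueFactorizationMonoid.normalizedFactors I) : ∃ v : Pr E, v ∉ S ∧ v.asIdeal = q := by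
  have hp : Prime q := UniqueFactorizationMonoid.prime_of_normalized_factor q hq
  have hd : q ∣ I := UniqueFactorizationMonoid.dvd_of_mem_normalizedFactors hq
  refine ⟨⟨q, Ideal.isPrime_of_prime hp, hp.ne_zero⟩, ?_, rfl⟩
  intro hv
  exact hS _ hv (Ideal.le_of_dvd hd)

theorem split_map_choose {E M : Type} [Field E] [NumberField E] [Field M] [NumberField M]
    [Algebra E M] (S : Finset (Pr E))
    (h : ∀ w : Pr E, w ∉ S → ∃ P P' : Pr M, P ≠ P' ∧ Ab w P ∧ Ab w P' ∧
      absNorm P.asIdeal = absNorm w.asIdeal ∧ absNorm P'.asIdeal = absNorm w.asIdeal)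
    (q : Ideal (𝓞 E)) : ∃ a : Ideal (𝓞 M), ∃ b : Ideal (𝓞 M), a ≠ ⊥ ∧ b ≠ ⊥ ∧
      ((∃ v : Pr E, v ∉ S ∧ v.asIdeal = q) → Prime a ∧ Prime b ∧ a ≠ b ∧
        q = a.under (𝓞 E) ∧ q = b.under (𝓞 E) ∧ absNorm a = absNorm q ∧
        absNorm b = absNorm q) := by
  by_cases hq : ∃ v : Pr E, v ∉ S ∧ v.asIdeal = q
  · obtain ⟨v, hv, rfl⟩ := hq
    obtain ⟨P, P', h1, h2, h3, h4, h5⟩ := h v hv
    refine ⟨P.asIdeal, P'.asIdeal, P.ne_bot, P'.ne_bot, fun _ => ⟨P.prime, P'.prime, ?_, ?_, ?_,
      h4, h5⟩⟩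
    · intro h6
      exact h1 (HeightOneSpectrum.ext h6)
    · have h2' : P.asIdeal.LiesOver v.asIdeal := h2
      exact h2'.over
    · have h3' : P'.asIdeal.LiesOver v.asIdeal := h3
      exact h3'.over
  · exact ⟨⊤, ⊤, top_ne_bot, top_ne_bot, fun h => absurd h hq⟩

theorem split_map {E M : Type} [Field E] [NumberField E] [Field M] [NumberField M] [Algebra E M] (S : Finset (Pr E))
    (h : ∀ w : Pr E, w ∉ S → ∃ P P' : Pr M, P ≠ P' ∧ Ab w P ∧ Ab w P' ∧
      absNorm P.asIdeal = absNorm w.asIdeal ∧ absNorm P'.asIdeal = absNorm w.asIdeal) :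
    ∃ f : Ideal (𝓞 E) × Ideal (𝓞 E) → Ideal (𝓞 M),
      (∀ I J : Ideal (𝓞 E), I ≠ ⊥ → J ≠ ⊥ → f (I, J) ≠ ⊥) ∧
      (∀ I J : Ideal (𝓞 E), I ≠ ⊥ → J ≠ ⊥ → (∀ v ∈ S, ¬ I ≤ v.asIdeal) →
        (∀ v ∈ S, ¬ J ≤ v.asIdeal) → absNorm (f (I, J)) = absNorm I * absNorm J) ∧
      Set.InjOn f {p | p.1 ≠ ⊥ ∧ p.2 ≠ ⊥ ∧ (∀ v ∈ S, ¬ p.1 ≤ v.asIdeal) ∧
        (∀ v ∈ S, ¬ p.2 ≤ v.asIdeal)} := by
  classical
  choose a b ha hb hab using split_map_choose S h
  -- norms
  have hnorm : ∀ (c : Ideal (𝓞 E) → Ideal (𝓞 M)), (∀ q, (∃ v : Pr E, v ∉ S ∧ v.asIdeal = q) →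
      absNorm (c q) = absNorm q) → ∀ I : Ideal (𝓞 E), I ≠ ⊥ → (∀ v ∈ S, ¬ I ≤ v.asIdeal) →
      absNorm ((UniqueFactorizationMonoid.normalizedFactors I).map c).prod = absNorm I := by
    intro c hc I hI hS
    have h1 : (UniqueFactorizationMonoid.normalizedFactors I).prod = I := associated_iff_eq.1 (UniqueFactorizationMonoid.prod_normalizedFactors hI)
    have h2 : absNorm I = ((UniqueFactorizationMonoid.normalizedFactors I).map (fun q => absNorm q)).prod := by
      conv_lhs => rw [← h1]
      exact map_multiset_prod absNorm _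
    rw [h2, map_multiset_prod, Multiset.map_map]
    congr 1
    refine Multiset.map_congr rfl fun q hq => ?_
    exact hc q (split_map_good S I hI hS q hq)
  -- the factors
  have hfac : ∀ I J : Ideal (𝓞 E), I ≠ ⊥ → J ≠ ⊥ → (∀ v ∈ S, ¬ I ≤ v.asIdeal) →
      (∀ v ∈ S, ¬ J ≤ v.asIdeal) →
      UniqueFactorizationMonoid.normalizedFactors (((UniqueFactorizationMonoid.normalizedFactors I).map a).prod * ((UniqueFactorizationMonoid.normalizedFactors J).map b).prod) =
        (UniqueFactorizationMonoid.normalizedFactors I).map a + (UniqueFactorizationMonoid.normalizedFactors J).map b := by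
    intro I J hI hJ hIS hJS
    rw [← Multiset.prod_add]
    refine UniqueFactorizationMonoid.normalizedFactors_prod_of_prime ?_
    intro x hx
    rw [Multiset.mem_add, Multiset.mem_map, Multiset.mem_map] at hx
    rcases hx with ⟨q, hq, rfl⟩ | ⟨q, hq, rfl⟩
    · exact (hab q (split_map_good S I hI hIS q hq)).1
    · exact (hab q (split_map_good S J hJ hJS q hq)).2.1
  have hrec : ∀ I J : Ideal (𝓞 E), I ≠ ⊥ → J ≠ ⊥ → (∀ v ∈ S, ¬ I ≤ v.asIdeal) →
      (∀ v ∈ S, ¬ J ≤ v.asIdeal) →
      ((UniqueFactorizationMonoid.normalizedFactors (((UniqueFactorizationMonoid.normalizedFactors I).map a).prod *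
        ((UniqueFactorizationMonoid.normalizedFactors J).map b).prod)).filter
          (fun x => ∃ q, (∃ v : Pr E, v ∉ S ∧ v.asIdeal = q) ∧ x = a q)).map
          (fun x => x.under (𝓞 E)) = UniqueFactorizationMonoid.normalizedFactors I ∧
      ((UniqueFactorizationMonoid.normalizedFactors (((UniqueFactorizationMonoid.normalizedFactors I).map a).prod *
        ((UniqueFactorizationMonoid.normalizedFactors J).map b).prod)).filter
          (fun x => ∃ q, (∃ v : Pr E, v ∉ S ∧ v.asIdeal = q) ∧ x = b q)).map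
          (fun x => x.under (𝓞 E)) = UniqueFactorizationMonoid.normalizedFactors J := by
    intro I J hI hJ hIS hJS
    rw [hfac I J hI hJ hIS hJS, Multiset.filter_add, Multiset.filter_add]
    have e1 : ((UniqueFactorizationMonoid.normalizedFactors I).map a).filter
        (fun x => ∃ q, (∃ v : Pr E, v ∉ S ∧ v.asIdeal = q) ∧ x = a q) =
        (UniqueFactorizationMonoid.normalizedFactors I).map a := by
      rw [Multiset.filter_eq_self]
      intro x hx
      obtain ⟨q, hq, rfl⟩ := Multiset.mem_map.1 hx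
      exact ⟨q, split_map_good S I hI hIS q hq, rfl⟩
    have e2 : ((UniqueFactorizationMonoid.normalizedFactors J).map b).filter
        (fun x => ∃ q, (∃ v : Pr E, v ∉ S ∧ v.asIdeal = q) ∧ x = a q) = 0 := by
      rw [Multiset.filter_eq_nil]
      rintro x hx ⟨q', hq', hx'⟩
      obtain ⟨q, hq, rfl⟩ := Multiset.mem_map.1 hx
      have g1 := hab q (split_map_good S J hJ hJS q hq)
      have g2 := hab q' hq'
      have h3 : q = q' := by
        have := congrArg (fun y : Ideal (𝓞 M) => y.under (𝓞 E)) hx'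
        exact g1.2.2.2.2.1.trans (this.trans g2.2.2.2.1.symm)
      rw [← h3] at hx'
      exact g1.2.2.1 hx'.symm
    have e3 : ((UniqueFactorizationMonoid.normalizedFactors J).map b).filter
        (fun x => ∃ q, (∃ v : Pr E, v ∉ S ∧ v.asIdeal = q) ∧ x = b q) =
        (UniqueFactorizationMonoid.normalizedFactors J).map b := by
      rw [Multiset.filter_eq_self]
      intro x hx
      obtain ⟨q, hq, rfl⟩ := Multiset.mem_map.1 hx
      exact ⟨q, split_map_good S J hJ hJS q hq, rfl⟩
    have e4 : ((UniqueFactorizationMonoid.normalizedFactors I).map a).filter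
        (fun x => ∃ q, (∃ v : Pr E, v ∉ S ∧ v.asIdeal = q) ∧ x = b q) = 0 := by
      rw [Multiset.filter_eq_nil]
      rintro x hx ⟨q', hq', hx'⟩
      obtain ⟨q, hq, rfl⟩ := Multiset.mem_map.1 hx
      have g1 := hab q (split_map_good S I hI hIS q hq)
      have g2 := hab q' hq'
      have h3 : q = q' := by
        have := congrArg (fun y : Ideal (𝓞 M) => y.under (𝓞 E)) hx'
        exact g1.2.2.2.1.trans (this.trans g2.2.2.2.2.1.symm)
      rw [← h3] at hx'
      exact g1.2.2.1 hx'
    rw [e1, e2, e3, e4, add_zero, zero_add, Multiset.map_map, Multiset.map_map]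
    constructor
    · have : (UniqueFactorizationMonoid.normalizedFactors I).map ((fun x : Ideal (𝓞 M) => x.under (𝓞 E)) ∘ a) =
          (UniqueFactorizationMonoid.normalizedFactors I).map id := by
        refine Multiset.map_congr rfl fun q hq => ?_
        exact ((hab q (split_map_good S I hI hIS q hq)).2.2.2.1).symm
      rw [this, Multiset.map_id]
    · have : (UniqueFactorizationMonoid.normalizedFactors J).map ((fun x : Ideal (𝓞 M) => x.under (𝓞 E)) ∘ b) =
          (UniqueFactorizationMonoid.normalizedFactors J).map id := by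
        refine Multiset.map_congr rfl fun q hq => ?_
        exact ((hab q (split_map_good S J hJ hJS q hq)).2.2.2.2.1).symm
      rw [this, Multiset.map_id]
  refine ⟨fun p => ((UniqueFactorizationMonoid.normalizedFactors p.1).map a).prod * ((UniqueFactorizationMonoid.normalizedFactors p.2).map b).prod,
    ?_, ?_, ?_⟩
  · intro I J hI hJ
    refine mul_ne_zero ?_ ?_
    · refine Multiset.prod_ne_zero ?_
      intro h0
      obtain ⟨q, -, hq⟩ := Multiset.mem_map.1 h0
      exact ha q hq
    · refine Multiset.prod_ne_zero ?_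
      intro h0
      obtain ⟨q, -, hq⟩ := Multiset.mem_map.1 h0
      exact hb q hq
  · intro I J hI hJ hIS hJS
    show absNorm (((UniqueFactorizationMonoid.normalizedFactors I).map a).prod * ((UniqueFactorizationMonoid.normalizedFactors J).map b).prod) = _
    rw [map_mul, hnorm a (fun q hq => (hab q hq).2.2.2.2.2.1) I hI hIS,
      hnorm b (fun q hq => (hab q hq).2.2.2.2.2.2) J hJ hJS]
  · rintro ⟨I, J⟩ ⟨hI, hJ, hIS, hJS⟩ ⟨I', J'⟩ ⟨hI', hJ', hIS', hJS'⟩ heq
    have heq' : ((UniqueFactorizationMonoid.normalizedFactors I).map a).prod * ((UniqueFactorizationMonoid.normalizedFactors J).map b).prod =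
      ((UniqueFactorizationMonoid.normalizedFactors I').map a).prod * ((UniqueFactorizationMonoid.normalizedFactors J').map b).prod := heq
    obtain ⟨r1, r2⟩ := hrec I J hI hJ hIS hJS
    obtain ⟨r1', r2'⟩ := hrec I' J' hI' hJ' hIS' hJS'
    rw [heq'] at r1 r2
    have s1 : UniqueFactorizationMonoid.normalizedFactors I = UniqueFactorizationMonoid.normalizedFactors I' := r1.symm.trans r1'
    have s2 : UniqueFactorizationMonoid.normalizedFactors J = UniqueFactorizationMonoid.normalizedFactors J' := r2.symm.trans r2'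
    have t1 : (UniqueFactorizationMonoid.normalizedFactors I).prod = I := associated_iff_eq.1 (UniqueFactorizationMonoid.prod_normalizedFactors hI)
    have t2 : (UniqueFactorizationMonoid.normalizedFactors J).prod = J := associated_iff_eq.1 (UniqueFactorizationMonoid.prod_normalizedFactors hJ)
    have t1' : (UniqueFactorizationMonoid.normalizedFactors I').prod = I' := associated_iff_eq.1 (UniqueFactorizationMonoid.prod_normalizedFactors hI')
    have t2' : (UniqueFactorizationMonoid.normalizedFactors J').prod = J' := associated_iff_eq.1 (UniqueFactorizationMonoid.prod_normalizedFactors hJ')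
    refine Prod.ext ?_ ?_
    · show I = I'
      rw [← t1, ← t1', s1]
    · show J = J'
      rw [← t2, ← t2', s2]


end J_split_map

alias split_map := J_split_map.split_map

end CohNT
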