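import Mathlib
import Pool.Agent.H604C.Base
import Pool.Agent.H604C.P_ideal_lower
import Pool.Agent.H604C.P_ideal_upper
import Pool.Agent.H604C.P_split_map
set_option autoImplicit false
set_option maxHeartbeats 4000000
set_option synthInstance.maxHeartbeats 400000

namespace CohNT
open NumberField IsDedekindDomain Ideal

namespace J_counting

theorem counting_abs {α : Type} (N : α → ℕ) (hN : ∀ x, 1 ≤ N x)
    (hfin : ∀ n, {x | N x ≤ n}.Finite) (c C C' : ℝ) (hc : 0 < c) (n0 : ℕ)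
    (hlow : ∀ n : ℕ, n0 ≤ n → c * n ≤ (Set.ncard {x | N x ≤ n} : ℝ))
    (hup : ∀ n : ℕ, (Set.ncard {x | N x ≤ n} : ℝ) ≤ C * n)
    (hpair : ∀ n : ℕ, (Set.ncard {p : α × α | N p.1 * N p.2 ≤ n} : ℝ) ≤ C' * n) : False := by
  classical
  let A : ℕ → Finset α := fun n => (hfin n).toFinset
  have hA : ∀ n x, x ∈ A n ↔ N x ≤ n := fun n x => by simp [A]
  have hAc : ∀ n, (Set.ncard {x | N x ≤ n} : ℝ) = ((A n).card : ℝ) := fun n => by
    rw [Set.ncard_eq_toFinset_card _ (hfin n)]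
  have hmono : ∀ m n, m ≤ n → A m ⊆ A n := fun m n h x hx => by
    rw [hA] at hx ⊢; exact hx.trans h
  obtain ⟨R, hR⟩ := exists_nat_ge (max 2 (2 * C / c))
  have hR2 : (2 : ℝ) ≤ R := (le_max_left _ _).trans hR
  have hR2' : 2 ≤ R := by exact_mod_cast hR2
  have hRC : C ≤ c * R / 2 := by
    have := (le_max_right _ _).trans hR
    rw [div_le_iff₀ hc] at this
    linarith
  have hRpos : (0 : ℝ) < R := by linarith
  have hj0 : ∀ j, n0 ≤ j → n0 ≤ R ^ j := fun j hj => hj.trans (Nat.lt_pow_self hR2').le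
  obtain ⟨m, hm⟩ := exists_nat_gt (C' / (c ^ 2 / 2))
  rw [div_lt_iff₀ (by positivity)] at hm
  have hblock : ∀ i, c / 2 * (R : ℝ) ^ (n0 + 1 + i) ≤
      ((A (R ^ (n0 + 1 + i)) \ A (R ^ (n0 + i))).card : ℝ) := by
    intro i
    have hsub : A (R ^ (n0 + i)) ⊆ A (R ^ (n0 + 1 + i)) :=
      hmono _ _ (Nat.pow_le_pow_right (by omega) (by omega))
    have h1 := Finset.card_sdiff_add_card_eq_card hsub
    have h1' : ((A (R ^ (n0 + 1 + i)) \ A (R ^ (n0 + i))).card : ℝ) +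
        ((A (R ^ (n0 + i))).card : ℝ) = ((A (R ^ (n0 + 1 + i))).card : ℝ) := by
      exact_mod_cast h1
    have h2 := hlow (R ^ (n0 + 1 + i)) (hj0 _ (by omega))
    have h3 := hup (R ^ (n0 + i))
    rw [hAc] at h2 h3
    push_cast at h2 h3
    have h4 : C * (R : ℝ) ^ (n0 + i) ≤ c / 2 * (R : ℝ) ^ (n0 + 1 + i) := by
      have : (R : ℝ) ^ (n0 + 1 + i) = R ^ (n0 + i) * R := by ring
      rw [this]
      have hp : (0 : ℝ) ≤ (R : ℝ) ^ (n0 + i) := by positivity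
      nlinarith
    linarith
  let T : ℕ → Finset (α × α) := fun i =>
    (A (R ^ (n0 + 1 + i)) \ A (R ^ (n0 + i))) ×ˢ A (R ^ (n0 + m - i))
  have hTcard : ∀ i ∈ Finset.range m, c ^ 2 / 2 * (R : ℝ) ^ (2 * n0 + m + 1) ≤ ((T i).card : ℝ) := by
    intro i hi
    rw [Finset.mem_range] at hi
    rw [Finset.card_product, Nat.cast_mul]
    have h2 := hlow (R ^ (n0 + m - i)) (hj0 _ (by omega))
    rw [hAc] at h2
    push_cast at h2
    calc c ^ 2 / 2 * (R : ℝ) ^ (2 * n0 + m + 1) =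
        (c / 2 * (R : ℝ) ^ (n0 + 1 + i)) * (c * (R : ℝ) ^ (n0 + m - i)) := by
          have : (R : ℝ) ^ (2 * n0 + m + 1) = R ^ (n0 + 1 + i) * R ^ (n0 + m - i) := by
            rw [← pow_add]; congr 1; omega
          rw [this]; ring
      _ ≤ _ := mul_le_mul (hblock i) h2 (by positivity) (Nat.cast_nonneg _)
  have hdisj : ∀ i ∈ Finset.range m, ∀ j ∈ Finset.range m, i ≠ j → Disjoint (T i) (T j) := by
    have key : ∀ i j, i < j → Disjoint (T i) (T j) := by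
      intro i j hij
      rw [Finset.disjoint_left]
      rintro ⟨x, y⟩ h1 h2
      simp only [T, Finset.mem_product, Finset.mem_sdiff, hA] at h1 h2
      apply h2.1.2
      exact h1.1.1.trans (Nat.pow_le_pow_right (by omega) (by omega))
    intro i _ j _ hij
    rcases lt_or_gt_of_ne hij with h | h
    · exact key i j h
    · exact (key j i h).symm
  have hfinP : {p : α × α | N p.1 * N p.2 ≤ R ^ (2 * n0 + m + 1)}.Finite := by
    refine ((hfin (R ^ (2 * n0 + m + 1))).prod (hfin (R ^ (2 * n0 + m + 1)))).subset ?_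
    rintro ⟨x, y⟩ hxy
    have hxy : N x * N y ≤ R ^ (2 * n0 + m + 1) := hxy
    exact ⟨(Nat.le_mul_of_pos_right _ (hN y)).trans hxy, (Nat.le_mul_of_pos_left _ (hN x)).trans hxy⟩
  have hU : ((Finset.range m).biUnion T : Set (α × α)) ⊆
      {p : α × α | N p.1 * N p.2 ≤ R ^ (2 * n0 + m + 1)} := by
    rintro ⟨x, y⟩ hxy
    rw [Finset.mem_coe, Finset.mem_biUnion] at hxy
    obtain ⟨i, hi, hxy⟩ := hxy
    rw [Finset.mem_range] at hi
    simp only [T, Finset.mem_product, Finset.mem_sdiff, hA] at hxy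
    change N x * N y ≤ R ^ (2 * n0 + m + 1)
    calc N x * N y ≤ R ^ (n0 + 1 + i) * R ^ (n0 + m - i) := Nat.mul_le_mul hxy.1.1 hxy.2
      _ = R ^ (2 * n0 + m + 1) := by rw [← pow_add]; congr 1; omega
  have h5 := Set.ncard_le_ncard hU hfinP
  rw [Set.ncard_coe_finset, Finset.card_biUnion hdisj] at h5
  have h6 : (∑ i ∈ Finset.range m, ((T i).card : ℝ)) ≤ C' * (R : ℝ) ^ (2 * n0 + m + 1) := by
    have := hpair (R ^ (2 * n0 + m + 1))
    push_cast at this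
    refine le_trans ?_ this
    exact_mod_cast h5
  have h7 := Finset.sum_le_sum hTcard
  rw [Finset.sum_const, Finset.card_range, nsmul_eq_mul] at h7
  have hp : (0 : ℝ) < (R : ℝ) ^ (2 * n0 + m + 1) := by positivity
  have h8 : (m : ℝ) * (c ^ 2 / 2) * (R : ℝ) ^ (2 * n0 + m + 1) ≤ C' * (R : ℝ) ^ (2 * n0 + m + 1) := by
    linarith
  have h9 := le_of_mul_le_mul_right h8 hp
  linarith

theorem counting {E M : Type} [Field E] [NumberField E] [Field M] [NumberField M] [Algebra E M] (S : Finset (Pr E))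
    (h : ∀ w : Pr E, w ∉ S → ∃ P P' : Pr M, P ≠ P' ∧ Ab w P ∧ Ab w P' ∧
      absNorm P.asIdeal = absNorm w.asIdeal ∧ absNorm P'.asIdeal = absNorm w.asIdeal) : False := by
  classical
  obtain ⟨c, hc, n0, hlow⟩ := ideal_lower E S
  obtain ⟨C, hC, hup⟩ := ideal_upper E
  obtain ⟨C', hC', hup'⟩ := ideal_upper M
  obtain ⟨f, hf0, hf1, hf2⟩ := split_map (M := M) S h
  let α : Type := {I : Ideal (𝓞 E) // I ≠ ⊥ ∧ ∀ v ∈ S, ¬ I ≤ v.asIdeal}
  have himg : ∀ n : ℕ, (Subtype.val '' {x : α | absNorm x.1 ≤ n}) =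
      {I : Ideal (𝓞 E) | I ≠ ⊥ ∧ absNorm I ≤ n ∧ ∀ v ∈ S, ¬ I ≤ v.asIdeal} := by
    intro n
    ext I
    constructor
    · rintro ⟨x, hx, rfl⟩
      exact ⟨x.2.1, hx, x.2.2⟩
    · rintro ⟨h1, h2, h3⟩
      exact ⟨⟨I, h1, h3⟩, h2, rfl⟩
  have hcard : ∀ n : ℕ, Set.ncard {x : α | absNorm x.1 ≤ n} =
      Set.ncard {I : Ideal (𝓞 E) | I ≠ ⊥ ∧ absNorm I ≤ n ∧ ∀ v ∈ S, ¬ I ≤ v.asIdeal} := by
    intro n
    rw [← himg n, Set.ncard_image_of_injective _ Subtype.val_injective]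
  have hfinE : ∀ n : ℕ, {I : Ideal (𝓞 E) | I ≠ ⊥ ∧ absNorm I ≤ n}.Finite := fun n =>
    (Ideal.finite_setOfPred_absNorm_le (S := 𝓞 E) n).subset fun I hI => hI.2
  have hfinM : ∀ n : ℕ, {I : Ideal (𝓞 M) | I ≠ ⊥ ∧ absNorm I ≤ n}.Finite := fun n =>
    (Ideal.finite_setOfPred_absNorm_le (S := 𝓞 M) n).subset fun I hI => hI.2
  refine counting_abs (α := α) (fun x => absNorm x.1) (fun x => ?_) (fun n => ?_) c C C' hc n0
    (fun n hn => ?_) (fun n => ?_) (fun n => ?_)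
  · exact Nat.one_le_iff_ne_zero.2 fun h0 => x.2.1 (Ideal.absNorm_eq_zero_iff.1 h0)
  · refine Set.Finite.of_finite_image (f := Subtype.val) ?_ Subtype.val_injective.injOn
    rw [himg n]
    exact (hfinE n).subset fun I hI => ⟨hI.1, hI.2.1⟩
  · rw [hcard n]
    exact hlow n hn
  · rw [hcard n]
    refine le_trans ?_ (hup n)
    have hsub : {I : Ideal (𝓞 E) | I ≠ ⊥ ∧ absNorm I ≤ n ∧ ∀ v ∈ S, ¬ I ≤ v.asIdeal} ⊆
        {I : Ideal (𝓞 E) | I ≠ ⊥ ∧ absNorm I ≤ n} := fun I hI => ⟨hI.1, hI.2.1⟩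
    exact_mod_cast Set.ncard_le_ncard hsub (hfinE n)
  · refine le_trans ?_ (hup' n)
    have := Set.ncard_le_ncard_of_injOn (s := {p : α × α | absNorm p.1.1 * absNorm p.2.1 ≤ n})
      (t := {I : Ideal (𝓞 M) | I ≠ ⊥ ∧ absNorm I ≤ n}) (fun p => f (p.1.1, p.2.1)) ?_ ?_ (hfinM n)
    · exact_mod_cast this
    · intro p hp
      exact ⟨hf0 _ _ p.1.2.1 p.2.2.1, by
        rw [hf1 _ _ p.1.2.1 p.2.2.1 p.1.2.2 p.2.2.2]; exact hp⟩
    · intro p _ q _ hpq
      have := hf2 (x₁ := (p.1.1, p.2.1)) (x₂ := (q.1.1, q.2.1))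
        ⟨p.1.2.1, p.2.2.1, p.1.2.2, p.2.2.2⟩ ⟨q.1.2.1, q.2.2.1, q.1.2.2, q.2.2.2⟩ hpq
      rw [Prod.mk.injEq] at this
      exact Prod.ext (Subtype.ext this.1) (Subtype.ext this.2)


end J_counting

alias counting := J_counting.counting

end CohNT
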