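import Mathlib
import Pool.Agent.H604C.Base
import Pool.Agent.H604C.P_ord_api
import Pool.Agent.H604C.P_above_api
set_option autoImplicit false
set_option maxHeartbeats 4000000
set_option synthInstance.maxHeartbeats 400000

namespace CohNT
open NumberField IsDedekindDomain Ideal

namespace J_norm_eq

theorem norm_eq_aux {E M : Type} [Field E] [NumberField E] [Field M] [NumberField M] [Algebra E M]
    (h2 : Module.finrank E M = 2) (v : Pr E) (P P' : Pr M) (hne : P ≠ P') (hP : Ab v P)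
    (hP' : Ab v P') : absNorm P.asIdeal = absNorm v.asIdeal := by
  classical
  haveI : v.asIdeal.IsPrime := v.isPrime
  haveI : P.asIdeal.IsPrime := P.isPrime
  haveI : P'.asIdeal.IsPrime := P'.isPrime
  haveI : P.asIdeal.LiesOver v.asIdeal := hP
  haveI : P'.asIdeal.LiesOver v.asIdeal := hP'
  have hfin : (v.asIdeal.primesOver (𝓞 M)).Finite := Algebra.QuasiFinite.finite_primesOver v.asIdeal
  letI : Fintype (v.asIdeal.primesOver (𝓞 M)) := hfin.fintype
  have hsum := sum_ramification_inertia_eq_finrank v.asIdeal (𝓞 M)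
  rw [← IsFractionRing.finrank_eq (𝓞 E) E (𝓞 M) M, h2] at hsum
  let A : v.asIdeal.primesOver (𝓞 M) := ⟨P.asIdeal, ⟨P.isPrime, hP⟩⟩
  let B : v.asIdeal.primesOver (𝓞 M) := ⟨P'.asIdeal, ⟨P'.isPrime, hP'⟩⟩
  have hAB : A ≠ B := by
    intro h
    apply hne
    apply HeightOneSpectrum.ext
    exact congrArg Subtype.val h
  have hle : ∑ q ∈ ({A, B} : Finset (v.asIdeal.primesOver (𝓞 M))),
      q.1.ramificationIdx (𝓞 E) * q.1.inertiaDeg (𝓞 E) ≤ 2 := by
    rw [← hsum]
    exact Finset.sum_le_univ_sum_of_nonneg (fun _ => Nat.zero_le _)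
  rw [Finset.sum_pair hAB] at hle
  have e1 : 0 < A.1.ramificationIdx (𝓞 E) := by
    haveI : A.1.IsPrime := P.isPrime
    exact ramificationIdx_pos _ _
  have e2 : 0 < B.1.ramificationIdx (𝓞 E) := by
    haveI : B.1.IsPrime := P'.isPrime
    exact ramificationIdx_pos _ _
  have e3 : 0 < A.1.inertiaDeg (𝓞 E) := by
    haveI : A.1.IsPrime := P.isPrime
    exact inertiaDeg_pos _ _
  have e4 : 0 < B.1.inertiaDeg (𝓞 E) := by
    haveI : B.1.IsPrime := P'.isPrime
    exact inertiaDeg_pos _ _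
  have e5 : P.asIdeal.inertiaDeg (𝓞 E) = 1 := by
    have h5 : 1 ≤ B.1.ramificationIdx (𝓞 E) * B.1.inertiaDeg (𝓞 E) := Nat.mul_pos e2 e4
    have h6 : A.1.inertiaDeg (𝓞 E) ≤ A.1.ramificationIdx (𝓞 E) * A.1.inertiaDeg (𝓞 E) :=
      Nat.le_mul_of_pos_left _ e1
    have h7 : A.1.inertiaDeg (𝓞 E) = 1 := by omega
    exact h7
  have := absNorm_pow_inertiaDeg v.asIdeal P.asIdeal
  rw [e5, pow_one] at this
  exact this.symm

theorem norm_eq {E M : Type} [Field E] [NumberField E] [Field M] [NumberField M] [Algebra E M] (h2 : Module.finrank E M = 2) (v : Pr E) (hn : ¬ NSp M v) :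
    ∃ P P' : Pr M, P ≠ P' ∧ Ab v P ∧ Ab v P' ∧ absNorm P.asIdeal = absNorm v.asIdeal ∧
      absNorm P'.asIdeal = absNorm v.asIdeal := by
  obtain ⟨⟨w, hw⟩, -⟩ := above_api (M := M) v
  have hex : ∃ w' : Pr M, Ab v w' ∧ w' ≠ w := by
    by_contra hcon
    push Not at hcon
    exact hn ⟨w, hw, fun y hy => hcon y hy⟩
  obtain ⟨w', hw', hne⟩ := hex
  exact ⟨w, w', hne.symm, hw, hw', norm_eq_aux h2 v w w' hne.symm hw hw',
    norm_eq_aux h2 v w' w hne hw' hw⟩


end J_norm_eq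

alias norm_eq := J_norm_eq.norm_eq

end CohNT
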