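import Mathlib
import Pool.Agent.H604C.Base
set_option autoImplicit false
set_option maxHeartbeats 4000000
set_option synthInstance.maxHeartbeats 400000

namespace CohNT
open NumberField IsDedekindDomain Ideal

namespace J_quad_ext

theorem quad_ext_main {E : Type} [Field E] [NumberField E] (c : E) (hc : ¬ IsSquare c)
    (f : Polynomial E) (hf : f = Polynomial.X ^ 2 - Polynomial.C c) [hirr : Fact (Irreducible f)] :
    ∃ (M : Type) (_ : Field M) (_ : NumberField M) (_ : Algebra E M) (β : M) (σ : M ≃ₐ[E] M),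
      β ^ 2 = algebraMap E M c ∧ Module.finrank E M = 2 ∧ β ∉ Set.range (algebraMap E M) ∧
      σ β = -β ∧ σ ≠ 1 ∧ ∀ z : M, ∃ x y : E, z = algebraMap E M x + algebraMap E M y * β := by
  have hne : f ≠ 0 := hirr.out.ne_zero
  have hcz : CharZero (AdjoinRoot f) :=
    charZero_of_injective_algebraMap (algebraMap E (AdjoinRoot f)).injective
  have hfd : Module.Finite E (AdjoinRoot f) := (AdjoinRoot.powerBasis hne).finite
  have hfq : Module.Finite ℚ (AdjoinRoot f) := Module.Finite.trans E (AdjoinRoot f)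
  have hdeg : f.natDegree = 2 := by
    rw [hf]
    exact Polynomial.natDegree_X_pow_sub_C
  have hroot : (AdjoinRoot.root f) ^ 2 = algebraMap E (AdjoinRoot f) c := by
    have h1 := AdjoinRoot.eval₂_root f
    have h2 : Polynomial.eval₂ (AdjoinRoot.of f) (AdjoinRoot.root f)
        (Polynomial.X ^ 2 - Polynomial.C c) = 0 := by rw [← hf]; exact h1
    rw [Polynomial.eval₂_sub, Polynomial.eval₂_pow, Polynomial.eval₂_C, Polynomial.eval₂_X,
      sub_eq_zero] at h2
    exact h2
  have hnr : AdjoinRoot.root f ∉ Set.range (algebraMap E (AdjoinRoot f)) := by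
    rintro ⟨x, hx⟩
    apply hc
    refine ⟨x, ?_⟩
    apply (algebraMap E (AdjoinRoot f)).injective
    rw [map_mul, hx, ← hroot, sq]
  have hev : Polynomial.eval₂ (Algebra.ofId E (AdjoinRoot f)) (-AdjoinRoot.root f) f = 0 := by
    have h2 : Polynomial.eval₂ (Algebra.ofId E (AdjoinRoot f)) (-AdjoinRoot.root f)
        (Polynomial.X ^ 2 - Polynomial.C c) = 0 := by
      rw [Polynomial.eval₂_sub, Polynomial.eval₂_pow, Polynomial.eval₂_C, Polynomial.eval₂_X,
        neg_sq, hroot]
      exact sub_self _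
    have h3 : ∀ g : Polynomial E, f = g →
        Polynomial.eval₂ (Algebra.ofId E (AdjoinRoot f)) (-AdjoinRoot.root f) g = 0 →
        Polynomial.eval₂ (Algebra.ofId E (AdjoinRoot f)) (-AdjoinRoot.root f) f = 0 := by
      intro g hg h
      have : Polynomial.eval₂ (Algebra.ofId E (AdjoinRoot f)) (-AdjoinRoot.root f) f =
          Polynomial.eval₂ (Algebra.ofId E (AdjoinRoot f)) (-AdjoinRoot.root f) g :=
        congrArg (Polynomial.eval₂ ((Algebra.ofId E (AdjoinRoot f) : E →ₐ[E] AdjoinRoot f) :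
          E →+* AdjoinRoot f) (-AdjoinRoot.root f)) hg
      rw [this]
      exact h
    exact h3 _ hf h2
  obtain ⟨σ0, hσ0⟩ : ∃ σ0 : AdjoinRoot f →ₐ[E] AdjoinRoot f,
      σ0 (AdjoinRoot.root f) = -AdjoinRoot.root f :=
    ⟨AdjoinRoot.liftAlgHom f (Algebra.ofId E (AdjoinRoot f)) (-AdjoinRoot.root f) hev,
      AdjoinRoot.liftAlgHom_root _ _ _ _⟩
  have hinv : σ0.comp σ0 = AlgHom.id E (AdjoinRoot f) := by
    apply AdjoinRoot.algHom_ext
    rw [AlgHom.comp_apply, hσ0, map_neg, hσ0, neg_neg]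
    rfl
  have hσr : (AlgEquiv.ofAlgHom σ0 σ0 hinv hinv) (AdjoinRoot.root f) = -AdjoinRoot.root f := hσ0
  refine ⟨AdjoinRoot f, inferInstance, @NumberField.mk _ _ hcz hfq, inferInstance,
    AdjoinRoot.root f, AlgEquiv.ofAlgHom σ0 σ0 hinv hinv, hroot, ?_, hnr, hσr, ?_, ?_⟩
  · rw [(AdjoinRoot.powerBasis hne).finrank, AdjoinRoot.powerBasis_dim hne, hdeg]
  · intro h1
    rw [h1] at hσr
    have h2 : AdjoinRoot.root f = -AdjoinRoot.root f := hσr
    have h3 : AdjoinRoot.root f = 0 := by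
      have h4 : (2 : AdjoinRoot f) * AdjoinRoot.root f = 0 := by
        have h5 : AdjoinRoot.root f + AdjoinRoot.root f = 0 := by
          nth_rewrite 2 [h2]
          exact add_neg_cancel _
        rw [two_mul]
        exact h5
      rcases mul_eq_zero.1 h4 with h5 | h5
      · exact absurd h5 two_ne_zero
      · exact h5
    exact hnr ⟨0, by rw [map_zero, h3]⟩
  · intro z
    obtain ⟨g, hg1, hg2⟩ := (AdjoinRoot.powerBasis hne).exists_eq_aeval z
    rw [AdjoinRoot.powerBasis_dim hne, hdeg] at hg1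
    rw [AdjoinRoot.powerBasis_gen hne] at hg2
    have hg3 : g = Polynomial.C (g.coeff 1) * Polynomial.X + Polynomial.C (g.coeff 0) :=
      Polynomial.eq_X_add_C_of_natDegree_le_one (by omega)
    refine ⟨g.coeff 0, g.coeff 1, ?_⟩
    rw [hg2]
    conv_lhs => rw [hg3]
    rw [map_add, map_mul, Polynomial.aeval_C, Polynomial.aeval_C, Polynomial.aeval_X, add_comm]

theorem quad_ext {E : Type} [Field E] [NumberField E] (c : E) (hc : ¬ IsSquare c) :
    ∃ (M : Type) (_ : Field M) (_ : NumberField M) (_ : Algebra E M) (β : M) (σ : M ≃ₐ[E] M),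
      β ^ 2 = algebraMap E M c ∧ Module.finrank E M = 2 ∧ β ∉ Set.range (algebraMap E M) ∧
      σ β = -β ∧ σ ≠ 1 ∧ ∀ z : M, ∃ x y : E, z = algebraMap E M x + algebraMap E M y * β := by
  have hirr : Irreducible (Polynomial.X ^ 2 - Polynomial.C c) := by
    rw [X_pow_sub_C_irreducible_iff_of_prime Nat.prime_two]
    intro b hb
    exact hc ⟨b, by rw [← hb, sq]⟩
  have : Fact (Irreducible (Polynomial.X ^ 2 - Polynomial.C c)) := ⟨hirr⟩
  exact quad_ext_main c hc _ rfl


end J_quad_ext

alias quad_ext := J_quad_ext.quad_ext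

end CohNT
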