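import Mathlib
import Pool.Agent.H604C.Base
import Pool.Agent.H604C.P_ord_api
import Pool.Agent.H604C.P_LSq_api
set_option autoImplicit false
set_option maxHeartbeats 4000000
set_option synthInstance.maxHeartbeats 400000

namespace CohNT
open NumberField IsDedekindDomain Ideal

namespace J_res_two

theorem rt_norm {E : Type} [Field E] [NumberField E] (v : Pr E) (x : E) (hx : x ≠ 0)
    (he : Even (ord v x)) : ∃ y : E, y ≠ 0 ∧ ∃ r : 𝓞 E, r ∉ v.asIdeal ∧ y ^ 2 * x = (r : E) := by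
  obtain ⟨h1, h0, hneg, hmul, hdiv, hinv, hpow, hzpow, hlt, hle, hv1, hvle, hvlt, hadd, hadd2, hint, p, hp0, hp⟩ :=
    ord_api v
  obtain ⟨k, hk⟩ := he
  have hpk : p ^ (-k) ≠ 0 := zpow_ne_zero _ hp0
  have hx' : (p ^ (-k)) ^ 2 * x ≠ 0 := mul_ne_zero (pow_ne_zero _ hpk) hx
  have hval : v.valuation E ((p ^ (-k)) ^ 2 * x) = 1 := by
    rw [hv1 _ hx', hmul _ _ (pow_ne_zero _ hpk) hx, hpow, hzpow, hp, hk]
    push_cast
    ring
  set x' : E := (p ^ (-k)) ^ 2 * x with hx'def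
  obtain ⟨n, d, h⟩ := HeightOneSpectrum.exists_primeCompl_mul_eq_or_mul_eq v x'
  have hd : v.valuation E (algebraMap (𝓞 E) E d) = 1 :=
    (HeightOneSpectrum.valuation_eq_one_iff_notMem v).2 d.2
  have hd0 : (algebraMap (𝓞 E) E d) ≠ 0 := by
    intro h0
    rw [h0, map_zero] at hd
    exact zero_ne_one hd
  rcases h with h | h
  · have hn : v.valuation E (algebraMap (𝓞 E) E n) = 1 := by
      rw [← h, map_mul, hval, hd, one_mul]
    have hnm : n ∉ v.asIdeal := (HeightOneSpectrum.valuation_eq_one_iff_notMem v).1 hn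
    refine ⟨p ^ (-k) * algebraMap (𝓞 E) E d, mul_ne_zero hpk hd0, n * d, ?_, ?_⟩
    · intro hm
      rcases v.isPrime.mem_or_mem hm with h | h
      · exact hnm h
      · exact d.2 h
    · have : ((n * (d : 𝓞 E) : 𝓞 E) : E) = algebraMap (𝓞 E) E n * algebraMap (𝓞 E) E d := map_mul _ _ _
      rw [this, ← h, hx'def]
      ring
  · have hn : v.valuation E (algebraMap (𝓞 E) E n) = 1 := by
      have := congrArg (v.valuation E) h
      rw [map_mul, hval, hd, one_mul] at this
      exact this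
    have hn0 : (algebraMap (𝓞 E) E n) ≠ 0 := by
      intro h0
      rw [h0, map_zero] at hn
      exact zero_ne_one hn
    have hnm : n ∉ v.asIdeal := (HeightOneSpectrum.valuation_eq_one_iff_notMem v).1 hn
    refine ⟨p ^ (-k) * algebraMap (𝓞 E) E n, mul_ne_zero hpk hn0, d * n, ?_, ?_⟩
    · intro hm
      rcases v.isPrime.mem_or_mem hm with h | h
      · exact d.2 h
      · exact hnm h
    · have : (((d : 𝓞 E) * n : 𝓞 E) : E) = algebraMap (𝓞 E) E d * algebraMap (𝓞 E) E n := map_mul _ _ _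
      rw [this, ← h, hx'def]
      ring

theorem rt_sq {E : Type} [Field E] [NumberField E] (v : Pr E) (hv : ¬ Dy v) (r : 𝓞 E)
    (hr : r ∉ v.asIdeal) (h : IsSquare (Ideal.Quotient.mk v.asIdeal r)) : LSq v (r : E) := by
  obtain ⟨t, ht⟩ := h
  obtain ⟨s, rfl⟩ := Ideal.Quotient.mk_surjective t
  rw [← map_mul, Ideal.Quotient.eq] at ht
  have hr1 : v.valuation E (algebraMap (𝓞 E) E r) = 1 :=
    (HeightOneSpectrum.valuation_eq_one_iff_notMem v).2 hr
  have h2 : v.valuation E (2 : E) = 1 := by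
    unfold Dy at hv
    push Not at hv
    have h3 : v.valuation E (algebraMap (𝓞 E) E (2 : 𝓞 E)) ≤ 1 := v.valuation_le_one 2
    have h4 : algebraMap (𝓞 E) E (2 : 𝓞 E) = 2 := map_ofNat _ 2
    rw [h4] at h3
    exact le_antisymm h3 hv
  have h4 : v.valuation E (4 : E) = 1 := by
    have : (4 : E) = 2 * 2 := by norm_num
    rw [this, map_mul, h2, one_mul]
  refine ⟨algebraMap (𝓞 E) E s, ?_⟩
  rw [map_mul, h4, one_mul]
  have h5 : (r : E) - (algebraMap (𝓞 E) E s) ^ 2 = algebraMap (𝓞 E) E (r - s * s) := by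
    rw [map_sub, map_mul, sq]
  rw [h5]
  calc v.valuation E (algebraMap (𝓞 E) E (r - s * s)) < 1 :=
        (v.valuation_lt_one_iff_mem (K := E) (r - s * s)).2 ht
    _ = v.valuation E (r : E) := hr1.symm


theorem res_two {E : Type} [Field E] [NumberField E] (v : Pr E) (hv : ¬ Dy v) (a b : E) (ha : a ≠ 0) (hb : b ≠ 0)
    (hea : Even (ord v a)) (heb : Even (ord v b)) (hna : ¬ LSq v a) (hnb : ¬ LSq v b) :
    LSq v (a * b) := by
  classical
  obtain ⟨L0, Lsq, Lmul, Linv, Lcan, Lev, L1, Lex⟩ := LSq_api v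
  obtain ⟨y, hy, r, hr, hyr⟩ := rt_norm v a ha hea
  obtain ⟨z, hz, s, hs, hzs⟩ := rt_norm v b hb heb
  haveI : v.asIdeal.IsMaximal := v.isMaximal
  letI : Field (𝓞 E ⧸ v.asIdeal) := Ideal.Quotient.field v.asIdeal
  haveI : Finite (𝓞 E ⧸ v.asIdeal) := Ideal.finiteQuotientOfFreeOfNeBot v.asIdeal v.ne_bot
  letI : Fintype (𝓞 E ⧸ v.asIdeal) := Fintype.ofFinite _
  have hnr : ¬ IsSquare (Ideal.Quotient.mk v.asIdeal r) := by
    intro h
    have h1 := rt_sq v hv r hr h
    rw [← hyr] at h1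
    exact hna (Lcan _ _ (Lsq y hy) h1)
  have hns : ¬ IsSquare (Ideal.Quotient.mk v.asIdeal s) := by
    intro h
    have h1 := rt_sq v hv s hs h
    rw [← hzs] at h1
    exact hnb (Lcan _ _ (Lsq z hz) h1)
  have hrs0 : Ideal.Quotient.mk v.asIdeal (r * s) ≠ 0 := by
    intro h
    rw [Ideal.Quotient.eq_zero_iff_mem] at h
    rcases v.isPrime.mem_or_mem h with h | h
    · exact hr h
    · exact hs h
  have hsq : IsSquare (Ideal.Quotient.mk v.asIdeal (r * s)) := by
    rw [← quadraticChar_one_iff_isSquare hrs0, map_mul, map_mul,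
      quadraticChar_neg_one_iff_not_isSquare.2 hnr, quadraticChar_neg_one_iff_not_isSquare.2 hns]
    norm_num
  have hrsm : r * s ∉ v.asIdeal := by
    intro h
    rcases v.isPrime.mem_or_mem h with h | h
    · exact hr h
    · exact hs h
  have h1 := rt_sq v hv (r * s) hrsm hsq
  have h2 : ((r * s : 𝓞 E) : E) = (y * z) ^ 2 * (a * b) := by
    have : ((r * s : 𝓞 E) : E) = (r : E) * (s : E) := map_mul _ _ _
    rw [this, ← hyr, ← hzs]
    ring
  rw [h2] at h1
  exact Lcan _ _ (Lsq (y * z) (mul_ne_zero hy hz)) h1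


end J_res_two

alias res_two := J_res_two.res_two

end CohNT
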