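import Mathlib
import Pool.Agent.H604C.Base
import Pool.Agent.H604C.P_ord_api
import Pool.Agent.H604C.P_LSq_api
import Pool.Agent.H604C.P_above_api
set_option autoImplicit false
set_option maxHeartbeats 4000000
set_option synthInstance.maxHeartbeats 400000

namespace CohNT
open NumberField IsDedekindDomain Ideal

namespace J_split_of_LSq

theorem sl_pow_lt {E : Type} [Field E] [NumberField E] (v : Pr E) (x : E) (n : ℕ) (hn : 0 < n) :
    (v.valuation E x) ^ n < 1 ↔ v.valuation E x < 1 := by
  constructor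
  · intro h
    by_contra hcon
    push Not at hcon
    exact absurd h (not_lt.mpr (one_le_pow₀ hcon))
  · intro h
    exact pow_lt_one₀ zero_le' h hn.ne'

theorem sl_sigma {E M : Type} [Field E] [NumberField E] [Field M] [NumberField M] [Algebra E M]
    (σ : M ≃ₐ[E] M) (v : Pr E) (w : Pr M) (hw : Ab v w) (hu : ∀ w' : Pr M, Ab v w' → w' = w) :
    ∃ e : ℕ, 0 < e ∧ ∀ x : M, ord w (σ x) = e * ord w x := by
  obtain ⟨e1, he1, hv1, _⟩ := (above_api (M := M) v).2.2.2.2.1 w hw
  letI algσ : Algebra M M := (σ : M →+* M).toAlgebra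
  obtain ⟨w', hw'⟩ := (@above_api M M _ _ _ _ algσ w).1
  obtain ⟨e, he, hval, hord⟩ := (@above_api M M _ _ _ _ algσ w).2.2.2.2.1 w' hw'
  have hval' : ∀ x : M, w'.valuation M (σ x) = (w.valuation M x) ^ e := fun x => hval x
  have hord' : ∀ x : M, ord w' (σ x) = e * ord w x := fun x => hord x
  obtain ⟨v', hv'⟩ := (above_api (M := M) v).2.1 w'
  obtain ⟨e2, he2, hv2, _⟩ := (above_api (M := M) v').2.2.2.2.1 w' hv'
  have hvv : v' = v := by
    apply HeightOneSpectrum.ext
    ext r
    rw [← HeightOneSpectrum.valuation_lt_one_iff_mem (K := E),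
      ← HeightOneSpectrum.valuation_lt_one_iff_mem (K := E),
      ← sl_pow_lt v' _ e2 he2, ← hv2, ← sl_pow_lt v _ e1 he1, ← hv1,
      ← sl_pow_lt w _ e he, ← hval', σ.commutes]
  rw [hvv] at hv'
  have hww : w' = w := hu w' hv'
  rw [hww] at hord'
  exact ⟨e, he, hord'⟩

theorem split_of_LSq {E M : Type} [Field E] [NumberField E] [Field M] [NumberField M] [Algebra E M] (h2 : Module.finrank E M = 2) (b : E) (β : M)
    (hβ : β ^ 2 = algebraMap E M b) (hβE : β ∉ Set.range (algebraMap E M)) (v : Pr E)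
    (hb : LSq v b) : ¬ NSp M v := by
  rintro ⟨w, hw, hu⟩
  haveI : Algebra.IsQuadraticExtension E M := ⟨h2⟩
  haveI : FiniteDimensional E M := Module.finite_of_finrank_pos (by rw [h2]; norm_num)
  have hσ : ∃ σ : M ≃ₐ[E] M, σ β ≠ β := by
    by_contra hcon
    push Not at hcon
    exact hβE ((IsGalois.mem_range_algebraMap_iff_fixed β).mpr hcon)
  obtain ⟨σ, hσ⟩ := hσ
  have hσ2 : σ β = -β := by
    have h3 : (σ β) ^ 2 = β ^ 2 := by
      rw [← map_pow, hβ, σ.commutes]
    rcases sq_eq_sq_iff_eq_or_eq_neg.mp h3 with h | h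
    · exact absurd h hσ
    · exact h
  obtain ⟨y, hy⟩ := hb
  obtain ⟨e1, he1, hv1, _⟩ := (above_api (M := M) v).2.2.2.2.1 w hw
  obtain ⟨e, he, hord⟩ := sl_sigma σ v w hw hu
  obtain ⟨_, _, hneg, _, _, _, _, _, _, hle, _⟩ := ord_api w
  have hz1 : β - algebraMap E M y ≠ 0 := by
    intro h
    exact hβE ⟨y, (sub_eq_zero.mp h).symm⟩
  have hz2 : β + algebraMap E M y ≠ 0 := by
    intro h
    refine hβE ⟨-y, ?_⟩
    rw [map_neg]
    exact (eq_neg_of_add_eq_zero_left h).symm
  have hs1 : σ (β - algebraMap E M y) = -(β + algebraMap E M y) := by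
    rw [map_sub, hσ2, σ.commutes]
    ring
  have hs2 : σ (β + algebraMap E M y) = -(β - algebraMap E M y) := by
    rw [map_add, hσ2, σ.commutes]
    ring
  have ho1 : ord w (β + algebraMap E M y) = e * ord w (β - algebraMap E M y) := by
    rw [← hord, hs1, hneg]
  have ho2 : ord w (β - algebraMap E M y) = e * ord w (β + algebraMap E M y) := by
    rw [← hord, hs2, hneg]
  have hoeq : ord w (β - algebraMap E M y) = ord w (β + algebraMap E M y) := by
    generalize ord w (β - algebraMap E M y) = p at ho1 ho2 ⊢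
    generalize ord w (β + algebraMap E M y) = q at ho1 ho2 ⊢
    have he' : (1 : ℤ) ≤ e := by exact_mod_cast he
    rcases lt_trichotomy p q with h | h | h
    · rcases le_or_gt 0 p with h0 | h0
      · nlinarith
      · rcases le_or_gt 0 q with h1 | h1
        · nlinarith
        · nlinarith
    · exact h
    · rcases le_or_gt 0 p with h0 | h0
      · rcases le_or_gt 0 q with h1 | h1
        · nlinarith
        · nlinarith
      · nlinarith
  have hweq : w.valuation M (β - algebraMap E M y) = w.valuation M (β + algebraMap E M y) :=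
    le_antisymm ((hle _ _ hz1 hz2).mpr hoeq.ge) ((hle _ _ hz2 hz1).mpr hoeq.le)
  have hlt : w.valuation M ((β - algebraMap E M y) * (β + algebraMap E M y)) <
      w.valuation M (2 * β) ^ 2 := by
    have h3 : (v.valuation E (b - y ^ 2)) ^ e1 < (v.valuation E (4 * b)) ^ e1 :=
      pow_lt_pow_left₀ hy zero_le' he1.ne'
    rw [← hv1, ← hv1] at h3
    have h4 : algebraMap E M (b - y ^ 2) = (β - algebraMap E M y) * (β + algebraMap E M y) := by
      rw [map_sub, map_pow, ← hβ]
      ring
    have h5 : algebraMap E M (4 * b) = (2 * β) ^ 2 := by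
      rw [map_mul, ← hβ, map_ofNat]
      ring
    rw [h4, h5, map_pow] at h3
    exact h3
  rw [map_mul, ← hweq, ← sq] at hlt
  have hlt2 : w.valuation M (β - algebraMap E M y) < w.valuation M (2 * β) :=
    lt_of_pow_lt_pow_left₀ 2 zero_le' hlt
  have hsum : 2 * β = (β - algebraMap E M y) + (β + algebraMap E M y) := by ring
  have hmax := (w.valuation M).map_add (β - algebraMap E M y) (β + algebraMap E M y)
  rw [← hsum, ← hweq, max_self] at hmax
  exact absurd hlt2 (not_lt.mpr hmax)


end J_split_of_LSq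

alias split_of_LSq := J_split_of_LSq.split_of_LSq

end CohNT
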