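import Mathlib
import Pool.Agent.H604C.Base
import Pool.Agent.H604C.P_ord_api
import Pool.Agent.H604C.P_LSq_api
import Pool.Agent.H604C.P_above_api
import Pool.Agent.H604C.P_split_of_LSq
import Pool.Agent.H604C.P_norm_eq
import Pool.Agent.H604C.P_res_two
import Pool.Agent.H604C.P_quad_ext
import Pool.Agent.H604C.P_counting
set_option autoImplicit false
set_option maxHeartbeats 4000000
set_option synthInstance.maxHeartbeats 400000

namespace CohNT
open NumberField IsDedekindDomain Ideal

namespace J_kummer_prime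

theorem c_not_square {E : Type} [Field E] [NumberField E] (b c : E) (hc : ¬ IsSquare c)
    (hbc : ¬ IsSquare (b * c)) {L : Type} [Field L] [NumberField L] [Algebra E L] (β : L)
    (hβ : β ^ 2 = algebraMap E L b) (hβE : β ∉ Set.range (algebraMap E L))
    (hz : ∀ z : L, ∃ x y : E, z = algebraMap E L x + algebraMap E L y * β) :
    ¬ IsSquare (algebraMap E L c) := by
  rintro ⟨z, hzz⟩
  obtain ⟨x, y, hxy⟩ := hz z
  have h1 : algebraMap E L (2 * x * y) * β = algebraMap E L (c - x ^ 2 - b * y ^ 2) := by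
    simp only [map_mul, map_sub, map_pow, map_ofNat]
    rw [hzz, hxy, ← hβ]
    ring
  have h2 : x = 0 ∨ y = 0 := by
    by_contra hcon
    push Not at hcon
    have h3 : (2 * x * y : E) ≠ 0 := mul_ne_zero (mul_ne_zero two_ne_zero hcon.1) hcon.2
    apply hβE
    refine ⟨(c - x ^ 2 - b * y ^ 2) / (2 * x * y), ?_⟩
    have h4 : algebraMap E L (2 * x * y) ≠ 0 := by
      intro h
      apply h3
      exact (algebraMap E L).injective (by rw [h, map_zero])
    rw [map_div₀, ← h1, mul_comm, mul_div_assoc, div_self h4, mul_one]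
  rcases h2 with h2 | h2
  · subst h2
    have h5 : c = b * y ^ 2 := by
      apply (algebraMap E L).injective
      have : algebraMap E L (c - 0 ^ 2 - b * y ^ 2) = 0 := by
        rw [← h1]; simp
      have h6 : algebraMap E L c - algebraMap E L (b * y ^ 2) = 0 := by
        rw [← map_sub, ← this]
        congr 1
        ring
      exact sub_eq_zero.1 h6
    apply hbc
    exact ⟨b * y, by rw [h5]; ring⟩
  · subst h2
    have h5 : c = x ^ 2 := by
      apply (algebraMap E L).injective
      have : algebraMap E L (c - x ^ 2 - b * 0 ^ 2) = 0 := by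
        rw [← h1]; simp
      have h6 : algebraMap E L c - algebraMap E L (x ^ 2) = 0 := by
        rw [← map_sub, ← this]
        congr 1
        ring
      exact sub_eq_zero.1 h6
    apply hc
    exact ⟨x, by rw [h5]; ring⟩

theorem kummer_prime {E : Type} [Field E] [NumberField E] (b c : E) (hb : ¬ IsSquare b) (hc : ¬ IsSquare c)
    (hbc : ¬ IsSquare (b * c)) (S : Finset (Pr E)) (hDy : ∀ v, Dy v → v ∈ S)
    (hbS : ∀ v ∉ S, v.valuation E b = 1) (hcS : ∀ v ∉ S, v.valuation E c = 1) :
    ∃ v, v ∉ S ∧ LSq v b ∧ ¬ LSq v c := by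
  by_contra hcon
  push Not at hcon
  have hb0 : b ≠ 0 := by
    rintro rfl
    exact hb ⟨0, by simp⟩
  have hc0 : c ≠ 0 := by
    rintro rfl
    exact hc ⟨0, by simp⟩
  obtain ⟨v0⟩ : Nonempty (Pr E) := by
    by_contra hemp
    exact counting (E := E) (M := E) ∅ (fun w _ => (hemp ⟨w⟩).elim)
  obtain ⟨L, iF, iN, iA, β, σ, hβ, hfin, hβE, hσ, hσ1, hz⟩ := quad_ext b hb
  have hcL : ¬ IsSquare (algebraMap E L c) := c_not_square b c hc hbc β hβ hβE hz
  obtain ⟨M, jF, jN, jA, γ, τ, hγ, hfinM, hγE, -, -, -⟩ := quad_ext (algebraMap E L c) hcL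
  have hfinS : {w : Pr L | ∃ v ∈ S, Ab v w}.Finite := by
    have : {w : Pr L | ∃ v ∈ S, Ab v w} = ⋃ v ∈ S, {w : Pr L | Ab v w} := by
      ext w
      simp
    rw [this]
    exact S.finite_toSet.biUnion (fun v _ => (above_api v).2.2.2.1)
  refine counting (E := L) (M := M) hfinS.toFinset ?_
  intro w hw
  have hw' : ¬ ∃ v ∈ S, Ab v w := by
    intro h
    exact hw (hfinS.mem_toFinset.2 h)
  obtain ⟨v, hvw⟩ := (above_api (M := L) v0).2.1 w
  have hvS : v ∉ S := fun h => hw' ⟨v, h, hvw⟩
  obtain ⟨-, -, -, -, -, hup, -, -⟩ := above_api (M := L) v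
  have hβ0 : β ≠ 0 := by
    rintro rfl
    exact hβE ⟨0, map_zero _⟩
  have key : LSq w (algebraMap E L c) := by
    by_cases hvc : LSq v c
    · exact hup w hvw c hvc
    · have hvb : ¬ LSq v b := fun h => hvc (hcon v hvS h)
      have hord : ∀ x : E, x ≠ 0 → v.valuation E x = 1 → Even (ord v x) := by
        intro x hx hx1
        have := ((ord_api v).2.2.2.2.2.2.2.2.2.2.1 x hx).1 hx1
        rw [this]
        exact Even.zero
      have hbcv : LSq v (b * c) :=
        res_two v (fun h => hvS (hDy v h)) b c hb0 hc0 (hord b hb0 (hbS v hvS))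
          (hord c hc0 (hcS v hvS)) hvb hvc
      have h1 := hup w hvw (b * c) hbcv
      rw [map_mul, ← hβ] at h1
      have h2 : LSq w (β ^ 2) := (LSq_api w).2.1 β hβ0
      exact (LSq_api w).2.2.2.2.1 _ _ h2 h1
  have hns : ¬ NSp M w := split_of_LSq hfinM (algebraMap E L c) γ hγ hγE w key
  exact norm_eq hfinM w hns


end J_kummer_prime

alias kummer_prime := J_kummer_prime.kummer_prime

end CohNT
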