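import Mathlib
import Pool.Agent.H604C.Base
set_option autoImplicit false
set_option maxHeartbeats 4000000
set_option synthInstance.maxHeartbeats 400000

namespace CohNT
open NumberField IsDedekindDomain Ideal

namespace J_group_sq

theorem idx_pow (ι : Type) [Fintype ι] (n : ℕ) (hn : 0 < n) :
    (powMonoidHom n : Multiplicative (ι → ℤ) →* Multiplicative (ι → ℤ)).range.index =
      n ^ Fintype.card ι := by
  let φ : (ι → ℤ) →+ (ι → ZMod n) :=
    { toFun := fun x i => (x i : ZMod n)
      map_zero' := by funext i; simp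
      map_add' := by intro x y; funext i; simp }
  let φ' : Multiplicative (ι → ℤ) →* Multiplicative (ι → ZMod n) := AddMonoidHom.toMultiplicative φ
  have hker : φ'.ker = (powMonoidHom n : Multiplicative (ι → ℤ) →* Multiplicative (ι → ℤ)).range := by
    ext x
    rw [MonoidHom.mem_ker, MonoidHom.mem_range]
    constructor
    · intro hx
      have hx' : ∀ i, ((Multiplicative.toAdd x i : ℤ) : ZMod n) = 0 := fun i => congrFun hx i
      have hdiv : ∀ i, ∃ y : ℤ, Multiplicative.toAdd x i = n * y := fun i =>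
        (ZMod.intCast_zmod_eq_zero_iff_dvd _ _).1 (hx' i)
      choose y hy using hdiv
      refine ⟨Multiplicative.ofAdd y, ?_⟩
      apply Multiplicative.toAdd.injective
      show n • y = Multiplicative.toAdd x
      funext i
      rw [hy i, Pi.smul_apply, nsmul_eq_mul]
    · rintro ⟨y, rfl⟩
      show Multiplicative.ofAdd (φ (n • Multiplicative.toAdd y)) = 1
      have : φ (n • Multiplicative.toAdd y) = 0 := by
        rw [map_nsmul]
        funext i
        rw [Pi.smul_apply, nsmul_eq_mul, Pi.zero_apply, ZMod.natCast_self, zero_mul]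
      rw [this]
      rfl
  have hsurj : Function.Surjective φ' := by
    intro z
    have hz : ∀ i, ∃ y : ℤ, (y : ZMod n) = Multiplicative.toAdd z i := fun i =>
      ZMod.intCast_surjective _
    choose y hy using hz
    refine ⟨Multiplicative.ofAdd y, ?_⟩
    apply Multiplicative.toAdd.injective
    funext i
    exact hy i
  have : NeZero n := ⟨hn.ne'⟩
  rw [← hker, Subgroup.index_ker, MonoidHom.range_eq_top.2 hsurj]
  rw [Nat.card_congr (Subgroup.topEquiv.toEquiv : (⊤ : Subgroup (Multiplicative (ι → ZMod n))) ≃ _)]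
  rw [Nat.card_congr (Multiplicative.toAdd : Multiplicative (ι → ZMod n) ≃ (ι → ZMod n))]
  rw [Nat.card_fun, Nat.card_zmod, Nat.card_eq_fintype_card]

theorem tf_sq {ι : Type} (z : Multiplicative (ι → ℤ)) (h : z ^ 2 = 1) : z = 1 := by
  apply Multiplicative.toAdd.injective
  have h1 : 2 • Multiplicative.toAdd z = 0 := congrArg Multiplicative.toAdd h
  show Multiplicative.toAdd z = 0
  funext i
  have h2 := congrFun h1 i
  rw [Pi.smul_apply, Pi.zero_apply, nsmul_eq_mul] at h2
  show Multiplicative.toAdd z i = 0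
  push_cast at h2
  omega

theorem idx_R {ι : Type} [Fintype ι] (R : Subgroup (Multiplicative (ι → ℤ))) (n : ℕ) (hn : 0 < n)
    (hf : ∀ z : Multiplicative (ι → ℤ), z ^ n ∈ R) :
    (powMonoidHom 2 : R →* R).range.index = 2 ^ Fintype.card ι := by
  have hRne : R.index ≠ 0 := by
    have h1 : (powMonoidHom n : Multiplicative (ι → ℤ) →* Multiplicative (ι → ℤ)).range ≤ R := by
      rintro x ⟨y, rfl⟩
      exact hf y
    have h2 := Subgroup.index_dvd_of_le h1
    rw [idx_pow ι n hn] at h2
    exact ne_zero_of_dvd_ne_zero (pow_ne_zero _ hn.ne') h2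
  set p2 : Multiplicative (ι → ℤ) →* Multiplicative (ι → ℤ) := powMonoidHom 2 with hp2
  have hinj : Function.Injective p2 := by
    rw [injective_iff_map_eq_one]
    intro z hz
    exact tf_sq z hz
  have h1 : (R.map p2).index = R.index * p2.range.index := Subgroup.index_map_of_injective R hinj
  have hle : R.map p2 ≤ R := by
    rintro x ⟨y, hy, rfl⟩
    exact R.pow_mem hy 2
  have h2 := Subgroup.relIndex_mul_index hle
  have h3 : (R.map p2).relIndex R = p2.range.index := by
    have h4 : (R.map p2).relIndex R * R.index = p2.range.index * R.index := by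
      rw [h2, h1, mul_comm]
    exact Nat.eq_of_mul_eq_mul_right (Nat.pos_of_ne_zero hRne) h4
  have h5 : (powMonoidHom 2 : R →* R).range = (R.map p2).subgroupOf R := by
    ext x
    rw [MonoidHom.mem_range, Subgroup.mem_subgroupOf, Subgroup.mem_map]
    constructor
    · rintro ⟨y, rfl⟩
      exact ⟨y, y.2, rfl⟩
    · rintro ⟨y, hy, hyx⟩
      exact ⟨⟨y, hy⟩, Subtype.ext hyx⟩
  rw [h5]
  show (R.map p2).relIndex R = _
  rw [h3, idx_pow ι 2 (by norm_num)]

theorem group_sq (A B : Type) [CommGroup A] [CommGroup B] (ι : Type) [Fintype ι]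
    (f : A →* Multiplicative (ι → ℤ)) (g : B →* A) (hg : Function.Injective g)
    (hex : ∀ x : A, f x = 1 ↔ ∃ y : B, g y = x) (n : ℕ) (hn : 0 < n)
    (hf : ∀ z : Multiplicative (ι → ℤ), z ^ n ∈ f.range) (k : ℕ)
    (hB : (powMonoidHom 2 : B →* B).range.index = 2 ^ k) :
    (powMonoidHom 2 : A →* A).range.index = 2 ^ (k + Fintype.card ι) := by
  set S : Subgroup A := (powMonoidHom 2 : A →* A).range with hS
  -- relative index in `g B`
  have h1 : S.relIndex g.range = 2 ^ k := by
    rw [← Subgroup.index_comap, ← hB]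
    congr 1
    ext y
    rw [Subgroup.mem_comap, hS, MonoidHom.mem_range, MonoidHom.mem_range]
    constructor
    · rintro ⟨x, hx⟩
      have hx' : x ^ 2 = g y := hx
      have h2 : f x = 1 := by
        apply tf_sq
        rw [← map_pow, hx']
        exact (hex (g y)).2 ⟨y, rfl⟩
      obtain ⟨y', hy'⟩ := (hex x).1 h2
      refine ⟨y', ?_⟩
      apply hg
      show g (y' ^ 2) = g y
      rw [map_pow, hy', hx']
    · rintro ⟨y', rfl⟩
      refine ⟨g y', ?_⟩
      show (g y') ^ 2 = g (y' ^ 2)
      rw [map_pow]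
  -- the preimage of the squares of the range
  have h2 : ((powMonoidHom 2 : f.range →* f.range).range.comap f.rangeRestrict) = g.range ⊔ S := by
    ext x
    rw [Subgroup.mem_comap, MonoidHom.mem_range, Subgroup.mem_sup]
    constructor
    · rintro ⟨⟨z, ⟨x', rfl⟩⟩, hz⟩
      have hz' : f x' ^ 2 = f x := congrArg Subtype.val hz
      have h3 : f (x * (x' ^ 2)⁻¹) = 1 := by
        rw [map_mul, map_inv, map_pow, hz', mul_inv_cancel]
      refine ⟨x * (x' ^ 2)⁻¹, ?_, x' ^ 2, ⟨x', rfl⟩, by group⟩
      exact (hex _).1 h3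
    · rintro ⟨a, ⟨b, rfl⟩, c, ⟨d, rfl⟩, rfl⟩
      refine ⟨f.rangeRestrict d, ?_⟩
      apply Subtype.ext
      show (f d) ^ 2 = f (g b * d ^ 2)
      rw [map_mul, (hex (g b)).2 ⟨b, rfl⟩, one_mul, map_pow]
  have h3 : (g.range ⊔ S).index = 2 ^ Fintype.card ι := by
    rw [← h2, Subgroup.index_comap_of_surjective _ f.rangeRestrict_surjective]
    exact idx_R f.range n hn hf
  have h4 : S.relIndex (g.range ⊔ S) = 2 ^ k := by
    rw [Subgroup.relIndex_sup_right, h1]
  have h5 := Subgroup.relIndex_mul_index (le_sup_right : S ≤ g.range ⊔ S)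
  rw [h3, h4] at h5
  rw [← h5, pow_add]


end J_group_sq

alias group_sq := J_group_sq.group_sq

end CohNT
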