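import Mathlib
import Pool.Agent.H604C.Base
import Pool.Agent.H604C.P_ord_api
set_option autoImplicit false
set_option maxHeartbeats 4000000
set_option synthInstance.maxHeartbeats 400000

namespace CohNT
open NumberField IsDedekindDomain Ideal

namespace J_tunit_hom

theorem th_gen {E : Type} [Field E] [NumberField E] (v : Pr E) :
    ∃ p : 𝓞 E, p ≠ 0 ∧ ord v (p : E) = (Fintype.card (ClassGroup (𝓞 E)) : ℤ) ∧
      ∀ w : Pr E, w ≠ v → w.valuation E (p : E) = 1 := by
  have hI : v.asIdeal ∈ nonZeroDivisors (Ideal (𝓞 E)) := mem_nonZeroDivisors_of_ne_zero v.ne_bot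
  have hh : 0 < Fintype.card (ClassGroup (𝓞 E)) := Fintype.card_pos
  have h1 : ClassGroup.mk0 (⟨v.asIdeal, hI⟩ ^ Fintype.card (ClassGroup (𝓞 E)) :
      nonZeroDivisors (Ideal (𝓞 E))) = 1 := by
    rw [map_pow, pow_card_eq_one]
  have h2 : (v.asIdeal ^ Fintype.card (ClassGroup (𝓞 E))).IsPrincipal := by
    refine (ClassGroup.mk0_eq_one_iff (pow_mem hI _)).1 ?_
    rw [← h1]
    congr 1
  obtain ⟨p, hp⟩ := h2
  have hp' : Ideal.span {p} = v.asIdeal ^ Fintype.card (ClassGroup (𝓞 E)) := hp.symm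
  have hp0 : p ≠ 0 := by
    rintro rfl
    rw [Ideal.span_singleton_eq_bot.2 rfl] at hp'
    exact pow_ne_zero _ v.ne_bot hp'.symm
  refine ⟨p, hp0, ?_, fun w hw => ?_⟩
  · have h3 : v.valuation E (p : E) =
        WithZero.exp (-(Fintype.card (ClassGroup (𝓞 E)) : ℤ)) := by
      have h4 := v.valuation_of_algebraMap (K := E) p
      rw [v.intValuation_eq_exp_neg_multiplicity hp0, hp',
        multiplicity_pow_self_of_prime v.prime] at h4
      exact h4
    unfold ord
    rw [h3, WithZero.log_exp, neg_neg]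
  · refine (HeightOneSpectrum.valuation_eq_one_iff_notMem (K := E) w).2 fun hmem => hw ?_
    have h5 : Ideal.span {p} ≤ w.asIdeal := by
      rw [Ideal.span_singleton_le_iff_mem]
      exact hmem
    rw [hp'] at h5
    have h6 : v.asIdeal ≤ w.asIdeal := (w.isPrime.pow_le_iff hh.ne').1 h5
    have h7 : v.asIdeal = w.asIdeal := v.isMaximal.eq_of_le w.isPrime.ne_top h6
    exact (HeightOneSpectrum.ext h7).symm

theorem tunit_hom {E : Type} [Field E] [NumberField E] (T : Finset (Pr E)) :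
    ∃ f : UU T →* Multiplicative (T → ℤ),
      (∀ (x : UU T) (v : T), Multiplicative.toAdd (f x) v = ord v.1 ((x : Eˣ) : E)) ∧
      (∀ x : UU T, f x = 1 ↔ ∃ u : (𝓞 E)ˣ, ((u : 𝓞 E) : E) = ((x : Eˣ) : E)) ∧
      (∃ n : ℕ, 0 < n ∧ ∀ g : Multiplicative (T → ℤ), g ^ n ∈ f.range) := by
  classical
  have hmul : ∀ (v : Pr E) (x y : E), x ≠ 0 → y ≠ 0 → ord v (x * y) = ord v x + ord v y :=
    fun v => (ord_api v).2.2.2.1
  have hone : ∀ v : Pr E, ord v (1 : E) = 0 := fun v => (ord_api v).1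
  have hval1 : ∀ (v : Pr E) (x : E), x ≠ 0 → (v.valuation E x = 1 ↔ ord v x = 0) :=
    fun v => (ord_api v).2.2.2.2.2.2.2.2.2.2.1
  have hint : ∀ (v : Pr E) (x : 𝓞 E), 0 ≤ ord v (x : E) :=
    fun v => (ord_api v).2.2.2.2.2.2.2.2.2.2.2.2.2.2.2.1
  let f : UU T →* Multiplicative (T → ℤ) :=
    { toFun := fun x => Multiplicative.ofAdd (fun v : T => ord v.1 ((x : Eˣ) : E))
      map_one' := by
        rw [← ofAdd_zero]
        congr 1
        funext v
        exact hone v.1
      map_mul' := fun x y => by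
        rw [← ofAdd_add]
        congr 1
        funext v
        exact hmul v.1 _ _ (Units.ne_zero _) (Units.ne_zero _) }
  have hf : ∀ (x : UU T) (v : T), Multiplicative.toAdd (f x) v = ord v.1 ((x : Eˣ) : E) :=
    fun x v => rfl
  refine ⟨f, hf, ?_, ?_⟩
  · intro x
    constructor
    · intro h
      have hall : ∀ v : Pr E, v.valuation E ((x : Eˣ) : E) = 1 := by
        intro v
        by_cases hv : v ∈ T
        · rw [hval1 v _ (Units.ne_zero _), ← hf x ⟨v, hv⟩, h]
          rfl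
        · exact x.2 v hv
      have hall' : ∀ v : Pr E, v.valuation E (((x : Eˣ)⁻¹ : Eˣ) : E) = 1 := by
        intro v
        rw [Units.val_inv_eq_inv_val, map_inv₀, hall v, inv_one]
      obtain ⟨a, ha⟩ := HeightOneSpectrum.mem_integers_of_valuation_le_one E
        ((x : Eˣ) : E) (fun v => (hall v).le)
      obtain ⟨b, hb⟩ := HeightOneSpectrum.mem_integers_of_valuation_le_one E
        (((x : Eˣ)⁻¹ : Eˣ) : E) (fun v => (hall' v).le)
      have hab : a * b = 1 := by
        apply FaithfulSMul.algebraMap_injective (𝓞 E) E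
        rw [map_mul, ha, hb, map_one, ← Units.val_mul, mul_inv_cancel, Units.val_one]
      exact ⟨⟨a, b, hab, by rw [mul_comm]; exact hab⟩, ha⟩
    · rintro ⟨u, hu⟩
      apply Multiplicative.toAdd.injective
      funext v
      rw [hf x v, ← hu]
      change ord v.1 (((u : 𝓞 E)) : E) = 0
      have h1 := hint v.1 (u : 𝓞 E)
      have h2 := hint v.1 ((u⁻¹ : (𝓞 E)ˣ) : 𝓞 E)
      have h3 : ((u : 𝓞 E) : E) * ((((u⁻¹ : (𝓞 E)ˣ) : 𝓞 E)) : E) = 1 := by
        rw [← map_mul, Units.mul_inv, map_one]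
      have h4 := hmul v.1 ((u : 𝓞 E) : E) ((((u⁻¹ : (𝓞 E)ˣ) : 𝓞 E)) : E)
        (left_ne_zero_of_mul_eq_one h3) (right_ne_zero_of_mul_eq_one h3)
      rw [h3, hone] at h4
      linarith
  · refine ⟨Fintype.card (ClassGroup (𝓞 E)), Fintype.card_pos, fun g => ?_⟩
    choose p hp0 hpv hpw using fun v : Pr E => th_gen v
    have hpE : ∀ v : Pr E, ((p v : 𝓞 E) : E) ≠ 0 := by
      intro v h
      exact hp0 v ((map_eq_zero_iff _ (FaithfulSMul.algebraMap_injective (𝓞 E) E)).1 h)
    let P : T → UU T := fun v => ⟨Units.mk0 ((p v.1 : 𝓞 E) : E) (hpE v.1), fun w hw => by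
      rw [Units.val_mk0]
      refine hpw v.1 w ?_
      rintro rfl
      exact hw v.2⟩
    have hP : ∀ (v w : T), Multiplicative.toAdd (f (P v)) w =
        if w = v then (Fintype.card (ClassGroup (𝓞 E)) : ℤ) else 0 := by
      intro v w
      rw [hf]
      change ord w.1 ((p v.1 : 𝓞 E) : E) = _
      by_cases hwv : w = v
      · rw [if_pos hwv, hwv]
        exact hpv v.1
      · rw [if_neg hwv]
        refine (hval1 w.1 _ (hpE v.1)).1 (hpw v.1 w.1 fun h => hwv (Subtype.ext h))
    refine ⟨∏ v : T, (P v) ^ (Multiplicative.toAdd g v), ?_⟩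
    apply Multiplicative.toAdd.injective
    funext w
    rw [map_prod, toAdd_prod, Finset.sum_apply, toAdd_pow, Pi.smul_apply]
    have h5 : ∀ v : T, Multiplicative.toAdd (f ((P v) ^ (Multiplicative.toAdd g v))) w =
        if w = v then Multiplicative.toAdd g w * (Fintype.card (ClassGroup (𝓞 E)) : ℤ)
          else 0 := by
      intro v
      rw [map_zpow, toAdd_zpow, Pi.smul_apply, smul_eq_mul, hP]
      by_cases hwv : w = v
      · rw [if_pos hwv, if_pos hwv, hwv]
      · rw [if_neg hwv, if_neg hwv, mul_zero]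
    rw [Finset.sum_congr rfl fun v _ => h5 v, Finset.sum_ite_eq, if_pos (Finset.mem_univ _),
      nsmul_eq_mul, mul_comm]


end J_tunit_hom

alias tunit_hom := J_tunit_hom.tunit_hom

end CohNT
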