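import Mathlib
import Pool.Agent.H604C.Base
set_option autoImplicit false
set_option maxHeartbeats 4000000
set_option synthInstance.maxHeartbeats 400000

namespace CohNT
open NumberField IsDedekindDomain Ideal

namespace J_units_sq_index

theorem units_sq_index (E : Type) [Field E] [NumberField E] :
    (powMonoidHom 2 : (𝓞 E)ˣ →* (𝓞 E)ˣ).range.index = 2 ^ Fintype.card (InfinitePlace E) := by
  classical
  let Ψ : (NumberField.Units.torsion E) × Multiplicative (Fin (NumberField.Units.rank E) → ℤ) →* (𝓞 E)ˣ :=
    { toFun := fun q => (q.1 : (𝓞 E)ˣ) *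
        ∏ i, (NumberField.Units.fundSystem E i) ^ (Multiplicative.toAdd q.2 i)
      map_one' := by simp
      map_mul' := by
        intro a b
        simp only [Prod.fst_mul, Subgroup.coe_mul, Prod.snd_mul, toAdd_mul, Pi.add_apply, zpow_add,
          Finset.prod_mul_distrib]
        exact mul_mul_mul_comm _ _ _ _ }
  have hb : Function.Bijective Ψ := by
    constructor
    · intro a b hab
      obtain ⟨c, -, huniq⟩ := NumberField.Units.exist_unique_eq_mul_prod E (Ψ a)
      have h1 := huniq (a.1, Multiplicative.toAdd a.2) rfl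
      have h2 := huniq (b.1, Multiplicative.toAdd b.2) hab
      have h3 := h1.trans h2.symm
      simp only [Prod.mk.injEq] at h3
      exact Prod.ext h3.1 h3.2
    · intro x
      obtain ⟨c, hc, -⟩ := NumberField.Units.exist_unique_eq_mul_prod E x
      exact ⟨(c.1, Multiplicative.ofAdd c.2), hc.symm⟩
  let e := MulEquiv.ofBijective Ψ hb
  have hS : (powMonoidHom 2 : (𝓞 E)ˣ →* (𝓞 E)ˣ).range =
      ((powMonoidHom 2 : (NumberField.Units.torsion E) →* (NumberField.Units.torsion E)).range.prod
        (powMonoidHom 2 : Multiplicative (Fin (NumberField.Units.rank E) → ℤ) →*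
          Multiplicative (Fin (NumberField.Units.rank E) → ℤ)).range).map (e : _ →* (𝓞 E)ˣ) := by
    ext x
    constructor
    · rintro ⟨y, rfl⟩
      obtain ⟨q, rfl⟩ := e.surjective y
      refine ⟨q ^ 2, ⟨⟨q.1, rfl⟩, ⟨q.2, rfl⟩⟩, ?_⟩
      exact map_pow e q 2
    · rintro ⟨q, ⟨⟨a, ha⟩, ⟨b, hb⟩⟩, rfl⟩
      refine ⟨e (a, b), ?_⟩
      have : q = (a, b) ^ 2 := Prod.ext ha.symm hb.symm
      rw [this]
      exact (map_pow e (a, b) 2).symm
  rw [hS, Subgroup.index_map_equiv, Subgroup.index_prod, IsCyclic.index_powMonoidHom_range]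
  have h1 : (powMonoidHom 2 : Multiplicative (Fin (NumberField.Units.rank E) → ℤ) →*
          Multiplicative (Fin (NumberField.Units.rank E) → ℤ)).range =
      AddSubgroup.toSubgroup (nsmulAddMonoidHom (α := (Fin (NumberField.Units.rank E) → ℤ)) 2).range := by
    ext x
    rfl
  rw [h1, AddSubgroup.index_toSubgroup, AddSubgroup.index_range_nsmul]
  have h2 : (Nat.card (NumberField.Units.torsion E)).gcd 2 = 2 :=
    Nat.gcd_eq_right (NumberField.Units.even_torsionOrder E).two_dvd
  rw [h2, Module.finrank_fin_fun, ← pow_succ', NumberField.Units.rank]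
  congr 1
  have : 0 < Fintype.card (InfinitePlace E) := Fintype.card_pos
  omega


end J_units_sq_index

alias units_sq_index := J_units_sq_index.units_sq_index

end CohNT
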