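import Mathlib
import Pool.Agent.H604C.Base
import Pool.Agent.H604C.P_tunit_hom
import Pool.Agent.H604C.P_group_sq
import Pool.Agent.H604C.P_units_sq_index
set_option autoImplicit false
set_option maxHeartbeats 4000000
set_option synthInstance.maxHeartbeats 400000

namespace CohNT
open NumberField IsDedekindDomain Ideal

namespace J_tunit_index

theorem h396_val_unit {E : Type} [Field E] [NumberField E] (v : Pr E) (u : (𝓞 E)ˣ) :
    v.valuation E (((u : 𝓞 E) : E)) = 1 := by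
  have h1 : v.valuation E (((u : 𝓞 E) : E)) ≤ 1 := v.valuation_le_one (u : 𝓞 E)
  have h2 : v.valuation E ((((u⁻¹ : (𝓞 E)ˣ) : 𝓞 E) : E)) ≤ 1 :=
    v.valuation_le_one ((u⁻¹ : (𝓞 E)ˣ) : 𝓞 E)
  have h3 : v.valuation E (((u : 𝓞 E) : E)) * v.valuation E ((((u⁻¹ : (𝓞 E)ˣ) : 𝓞 E) : E)) = 1 := by
    rw [← map_mul, ← map_mul, Units.mul_inv, map_one, map_one]
  apply le_antisymm h1
  calc (1 : WithZero (Multiplicative ℤ)) = v.valuation E (((u : 𝓞 E) : E)) *
        v.valuation E ((((u⁻¹ : (𝓞 E)ˣ) : 𝓞 E) : E)) := h3.symm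
    _ ≤ v.valuation E (((u : 𝓞 E) : E)) * 1 := mul_le_mul_right h2 _
    _ = v.valuation E (((u : 𝓞 E) : E)) := mul_one _

theorem tunit_index {E : Type} [Field E] [NumberField E] (T : Finset (Pr E)) :
    (powMonoidHom 2 : UU T →* UU T).range.index = 2 ^ (T.card + Fintype.card (InfinitePlace E)) := by
  obtain ⟨f, _, h2, n, hn, h3⟩ := tunit_hom T
  have hmem : ∀ u : (𝓞 E)ˣ, Units.map (algebraMap (𝓞 E) E : 𝓞 E →* E) u ∈ UU T := by
    intro u v _
    exact h396_val_unit v u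
  let g : (𝓞 E)ˣ →* UU T :=
    (Units.map (algebraMap (𝓞 E) E : 𝓞 E →* E)).codRestrict (UU T) hmem
  have hg0 : ∀ u : (𝓞 E)ˣ, (((g u : UU T) : Eˣ) : E) = ((u : 𝓞 E) : E) := fun u => rfl
  have hg : Function.Injective g := by
    intro a b hab
    apply Units.ext
    apply RingOfIntegers.ext
    rw [← hg0 a, ← hg0 b, hab]
  have hex : ∀ x : UU T, f x = 1 ↔ ∃ y : (𝓞 E)ˣ, g y = x := by
    intro x
    rw [h2 x]
    constructor
    · rintro ⟨u, hu⟩
      refine ⟨u, ?_⟩
      apply Subtype.ext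
      apply Units.ext
      rw [hg0 u, hu]
    · rintro ⟨u, hu⟩
      exact ⟨u, by rw [← hu, hg0 u]⟩
  have := group_sq (UU T) (𝓞 E)ˣ T f g hg hex n hn h3 (Fintype.card (InfinitePlace E))
    (units_sq_index E)
  rw [this, Fintype.card_coe, add_comm]


end J_tunit_index

alias tunit_index := J_tunit_index.tunit_index

end CohNT
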