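import Mathlib
import Pool.Agent.H604C.Base
import Pool.Agent.H604C.P_kummer_prime
import Pool.Agent.H604C.P_tunit_index
import Pool.Agent.H604C.P_res_two
import Pool.Agent.H604C.P_LSq_api
import Pool.Agent.H604C.P_ord_api
set_option autoImplicit false
set_option maxHeartbeats 4000000
set_option synthInstance.maxHeartbeats 400000

namespace CohNT
open NumberField IsDedekindDomain Ideal

namespace J_choose_V


/-- the units which are local squares at `v` -/
def HS {E : Type} [Field E] [NumberField E] (S : Finset (Pr E)) (v : Pr E) : Subgroup (UU S) where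
  carrier := {u | LSq v ((u : Eˣ) : E)}
  mul_mem' := by
    intro a b ha hb
    have := (LSq_api v).2.2.1 _ _ ha hb
    simpa using this
  one_mem' := by
    have := (LSq_api v).2.1 1 one_ne_zero
    simpa using this
  inv_mem' := by
    intro a ha
    have := (LSq_api v).2.2.2.1 _ ha
    simpa using this

theorem unit_even {E : Type} [Field E] [NumberField E] (v : Pr E) (x : E) (hx : x ≠ 0)
    (h : v.valuation E x = 1) : Even (ord v x) := by
  obtain ⟨-, -, -, -, -, -, -, -, -, -, h1, -⟩ := ord_api (E := E) v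
  rw [(h1 x hx).1 h]
  exact Even.zero

theorem HS_index {E : Type} [Field E] [NumberField E] (S : Finset (Pr E)) (v : Pr E) (hv : v ∉ S)
    (hDy : ¬ Dy v) : (HS S v).index ≤ 2 := by
  by_cases h : HS S v = ⊤
  · rw [h, Subgroup.index_top]; norm_num
  · obtain ⟨a, ha⟩ : ∃ a, a ∉ HS S v := by
      by_contra hcon
      push Not at hcon
      exact h ((Subgroup.eq_top_iff' _).2 hcon)
    apply le_of_eq
    rw [Subgroup.index_eq_two_iff]
    refine ⟨a, fun b => ?_⟩
    by_cases hb : b ∈ HS S v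
    · refine Or.inr ⟨hb, fun h' => ha ?_⟩
      exact (Subgroup.mul_mem_cancel_left _ hb).1 h'
    · refine Or.inl ⟨?_, hb⟩
      have h1 := res_two v hDy ((b : Eˣ) : E) ((a : Eˣ) : E) (Units.ne_zero _) (Units.ne_zero _)
        (unit_even v _ (Units.ne_zero _) (b.2 v hv)) (unit_even v _ (Units.ne_zero _) (a.2 v hv)) hb ha
      show LSq v (((b * a : UU S) : Eˣ) : E)
      simpa using h1

theorem sq_mem {E : Type} [Field E] [NumberField E] (S : Finset (Pr E)) (c : UU S)
    (h : IsSquare ((c : Eˣ) : E)) : c ∈ (powMonoidHom 2 : UU S →* UU S).range := by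
  obtain ⟨z, hz⟩ := h
  have hz0 : z ≠ 0 := by
    rintro rfl
    exact Units.ne_zero (c : Eˣ) (by rw [hz]; simp)
  have hzU : Units.mk0 z hz0 ∈ UU S := by
    intro v hv
    show v.valuation E z = 1
    have h1 : v.valuation E ((c : Eˣ) : E) = 1 := c.2 v hv
    rw [hz, map_mul, ← pow_two] at h1
    exact (pow_eq_one_iff.1 h1).resolve_right (by norm_num)
  refine ⟨⟨Units.mk0 z hz0, hzU⟩, ?_⟩
  apply Subtype.ext
  apply Units.ext
  show z ^ 2 = _
  rw [hz, pow_two]

theorem choose_step {E : Type} [Field E] [NumberField E] (b : E) (hb : ¬ IsSquare b) (S : Finset (Pr E)) (hDy : ∀ v, Dy v → v ∈ S)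
    (hbS : ∀ v ∉ S, v.valuation E b = 1) (W : Finset (Pr E)) (hWS : Disjoint W S)
    (hW : W.card + 2 ≤ S.card + Fintype.card (InfinitePlace E)) (hWb : ∀ v ∈ W, LSq v b) :
    ∃ c : UU S, (∀ v ∈ W, LSq v ((c : Eˣ) : E)) ∧ ¬ IsSquare ((c : Eˣ) : E) ∧ ¬ IsSquare (b * ((c : Eˣ) : E)) := by
  classical
  set Sq := (powMonoidHom 2 : UU S →* UU S).range with hSq
  set H : Subgroup (UU S) := ⨅ v : W, HS S (v : Pr E) with hH
  have hb0 : b ≠ 0 := by
    rintro rfl
    exact hb ⟨0, by simp⟩
  have memH : ∀ c : UU S, c ∈ H ↔ ∀ v ∈ W, LSq v ((c : Eˣ) : E) := by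
    intro c
    rw [hH, Subgroup.mem_iInf]
    exact ⟨fun h v hv => h ⟨v, hv⟩, fun h v => h v.1 v.2⟩
  have hSqH : Sq ≤ H := by
    rintro _ ⟨u, rfl⟩
    rw [memH]
    intro v _
    have := (LSq_api v).2.1 ((u : Eˣ) : E) (Units.ne_zero _)
    simpa using this
  have hHi : H.index ≤ 2 ^ W.card := by
    refine (Subgroup.index_iInf_le _).trans ?_
    refine (Finset.prod_le_pow_card _ _ 2 ?_).trans ?_
    · intro v _
      refine HS_index S v.1 (fun h => Finset.disjoint_left.1 hWS v.2 h) (fun h => Finset.disjoint_left.1 hWS v.2 (hDy _ h))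
    · simp
  have hidx : Sq.relIndex H * H.index = 2 ^ (S.card + Fintype.card (InfinitePlace E)) := by
    rw [Subgroup.relIndex_mul_index hSqH, hSq, tunit_index]
  let b' : UU S := ⟨Units.mk0 b hb0, fun v hv => hbS v hv⟩
  have hb'H : b' ∈ H := (memH _).2 hWb
  have hb'Sq : b' ∉ Sq := by
    rintro ⟨z, hz⟩
    apply hb
    refine ⟨((z : Eˣ) : E), ?_⟩
    have := congrArg (fun u : UU S => ((u : Eˣ) : E)) hz
    rw [← pow_two]
    exact this.symm
  by_contra hcon
  push Not at hcon
  have h2 : Sq.relIndex H = 2 := by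
    unfold Subgroup.relIndex
    rw [Subgroup.index_eq_two_iff]
    refine ⟨⟨b', hb'H⟩, ?_⟩
    rintro ⟨c, hc⟩
    rw [Subgroup.mem_subgroupOf, Subgroup.mem_subgroupOf]
    show Xor (c * b' ∈ Sq) (c ∈ Sq)
    by_cases hcS : c ∈ Sq
    · refine Or.inr ⟨hcS, fun h' => hb'Sq ?_⟩
      exact (Subgroup.mul_mem_cancel_left _ hcS).1 h'
    · refine Or.inl ⟨?_, hcS⟩
      have h3 : ¬ IsSquare ((c : Eˣ) : E) := fun h => hcS (sq_mem S c h)
      have h4 := hcon c ((memH c).1 hc) h3
      apply sq_mem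
      have : (((c * b' : UU S) : Eˣ) : E) = b * ((c : Eˣ) : E) := by
        show ((c : Eˣ) : E) * b = _
        ring
      rw [this]; exact h4
  rw [h2] at hidx
  have h5 : 2 * H.index ≤ 2 * 2 ^ W.card := Nat.mul_le_mul_left _ hHi
  rw [hidx] at h5
  have h6 : (2 : ℕ) ^ (W.card + 2) ≤ 2 ^ (S.card + Fintype.card (InfinitePlace E)) :=
    Nat.pow_le_pow_right (by norm_num) hW
  have h7 : 0 < 2 ^ W.card := by positivity
  rw [pow_add] at h6
  omega

theorem choose_ind {E : Type} [Field E] [NumberField E] (b : E) (hb : ¬ IsSquare b) (S : Finset (Pr E)) (hDy : ∀ v, Dy v → v ∈ S)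
    (hbS : ∀ v ∉ S, v.valuation E b = 1) (n : ℕ) (hn : n + 1 ≤ S.card + Fintype.card (InfinitePlace E)) :
    ∃ W : Finset (Pr E), Disjoint W S ∧
      W.card = n ∧ (∀ v ∈ W, LSq v b) ∧
      (∀ v0 ∈ W, ∃ u : Eˣ, u ∈ UU S ∧ ¬ LSq v0 (u : E) ∧ ∀ v ∈ W, v ≠ v0 → LSq v (u : E)) := by
  classical
  induction n with
  | zero =>
    exact ⟨∅, by simp, by simp, by simp, by simp⟩
  | succ n ih =>
    obtain ⟨W, hWS, hWc, hWb, hWd⟩ := ih (by omega)
    obtain ⟨c, hcW, hc, hbc⟩ := choose_step b hb S hDy hbS W hWS (by omega) hWb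
    obtain ⟨v, hv, hvb, hvc⟩ := kummer_prime b ((c : Eˣ) : E) hb hc hbc (S ∪ W)
      (fun v h => Finset.mem_union_left _ (hDy v h))
      (fun v h => hbS v (fun h' => h (Finset.mem_union_left _ h')))
      (fun v h => c.2 v (fun h' => h (Finset.mem_union_left _ h')))
    have hvS : v ∉ S := fun h => hv (Finset.mem_union_left _ h)
    have hvW : v ∉ W := fun h => hv (Finset.mem_union_right _ h)
    refine ⟨insert v W, ?_, ?_, ?_, ?_⟩
    · rw [Finset.disjoint_insert_left]; exact ⟨hvS, hWS⟩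
    · rw [Finset.card_insert_of_notMem hvW, hWc]
    · intro w hw
      rcases Finset.mem_insert.1 hw with rfl | hw
      · exact hvb
      · exact hWb w hw
    · intro v0 hv0
      rcases Finset.mem_insert.1 hv0 with rfl | hv0
      · refine ⟨(c : Eˣ), c.2, hvc, ?_⟩
        intro w hw hne
        rcases Finset.mem_insert.1 hw with rfl | hw
        · exact absurd rfl hne
        · exact hcW w hw
      · obtain ⟨u, hu, hu0, huW⟩ := hWd v0 hv0
        by_cases hvu : LSq v (u : E)
        · refine ⟨u, hu, hu0, ?_⟩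
          intro w hw hne
          rcases Finset.mem_insert.1 hw with rfl | hw
          · exact hvu
          · exact huW w hw hne
        · refine ⟨u * (c : Eˣ), (UU S).mul_mem hu c.2, ?_, ?_⟩
          · intro h
            apply hu0
            refine (LSq_api v0).2.2.2.2.1 ((c : Eˣ) : E) (u : E) (hcW v0 hv0) ?_
            rw [mul_comm]
            simpa using h
          · intro w hw hne
            rw [Units.val_mul]
            rcases Finset.mem_insert.1 hw with rfl | hw
            · exact res_two w (fun h => hvS (hDy _ h)) _ _ (Units.ne_zero _) (Units.ne_zero _)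
                (unit_even w _ (Units.ne_zero _) (hu w hvS)) (unit_even w _ (Units.ne_zero _) (c.2 w hvS)) hvu hvc
            · exact (LSq_api w).2.2.1 _ _ (huW w hw hne) (hcW w hw)

theorem choose_V {E : Type} [Field E] [NumberField E] (b : E) (hb : ¬ IsSquare b) (S : Finset (Pr E)) (hDy : ∀ v, Dy v → v ∈ S)
    (hbS : ∀ v ∉ S, v.valuation E b = 1) :
    ∃ W : Finset (Pr E), Disjoint W S ∧
      W.card + 1 = S.card + Fintype.card (InfinitePlace E) ∧ (∀ v ∈ W, LSq v b) ∧
      (∀ v0 ∈ W, ∃ u : Eˣ, u ∈ UU S ∧ ¬ LSq v0 (u : E) ∧ ∀ v ∈ W, v ≠ v0 → LSq v (u : E)) := by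
  have hpos : 1 ≤ Fintype.card (InfinitePlace E) := Fintype.card_pos
  obtain ⟨W, h1, h2, h3, h4⟩ := choose_ind b hb S hDy hbS (S.card + Fintype.card (InfinitePlace E) - 1) (by omega)
  exact ⟨W, h1, by omega, h3, h4⟩


end J_choose_V

alias choose_V := J_choose_V.choose_V

end CohNT
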