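import Mathlib
import Pool.Agent.H604C.Base
set_option autoImplicit false
set_option maxHeartbeats 4000000
set_option synthInstance.maxHeartbeats 400000

namespace CohNT
open NumberField IsDedekindDomain Ideal

namespace J_count_core

theorem count_core (U G Q : Type) [CommGroup U] [CommGroup G] [CommGroup Q] [Finite G]
    [Finite Q] (n m : ℕ) (hU : (powMonoidHom 2 : U →* U).range.index = 2 ^ n)
    (hG : Nat.card G ≤ 2 ^ (n + 1)) (lam : U →* G) (hlam : ∀ u, lam u = 1 → ∃ z, u = z ^ 2)
    (hsq : ∀ u, lam (u ^ 2) = 1) (q : G →* Q) (hq : Function.Surjective q)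
    (hQ : 2 ^ m ≤ Nat.card Q) (N : Subgroup U) (hN : N.index * 2 = 2 ^ m)
    (hNK : ∀ u ∈ N, q (lam u) = 1) (u : U) (hu : q (lam u) = 1) : u ∈ N := by
  have hker : lam.ker = (powMonoidHom 2 : U →* U).range := by
    ext x
    constructor
    · intro hx
      obtain ⟨z, hz⟩ := hlam x hx
      exact ⟨z, hz.symm⟩
    · rintro ⟨z, rfl⟩
      exact hsq z
  have h1 : Nat.card lam.range = 2 ^ n := by
    rw [← Subgroup.index_ker, hker, hU]
  have h2 : lam.range.index * Nat.card lam.range = Nat.card G := Subgroup.index_mul_card _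
  have h3 : lam.range.index ≤ 2 := by
    rw [h1] at h2
    have h4 : lam.range.index * 2 ^ n ≤ 2 * 2 ^ n := by
      rw [h2]
      calc Nat.card G ≤ 2 ^ (n + 1) := hG
        _ = 2 * 2 ^ n := by ring
    exact Nat.le_of_mul_le_mul_right h4 (by positivity)
  have h5 : lam.range.map q = (q.comp lam).range := MonoidHom.map_range q lam
  have h6 : (q.comp lam).range.index ≤ 2 := by
    rw [← h5]
    exact (Nat.le_of_dvd (Nat.pos_of_ne_zero Subgroup.index_ne_zero_of_finite)
      (Subgroup.index_map_dvd _ hq)).trans h3
  have h7 : (q.comp lam).range.index * Nat.card (q.comp lam).range = Nat.card Q :=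
    Subgroup.index_mul_card _
  have h8 : (q.comp lam).ker.index = Nat.card (q.comp lam).range := Subgroup.index_ker _
  have h9 : 2 ^ m ≤ 2 * (q.comp lam).ker.index := by
    rw [h8]
    calc 2 ^ m ≤ Nat.card Q := hQ
      _ = (q.comp lam).range.index * Nat.card (q.comp lam).range := h7.symm
      _ ≤ 2 * Nat.card (q.comp lam).range := Nat.mul_le_mul_right _ h6
  have hNle : N ≤ (q.comp lam).ker := fun x hx => hNK x hx
  have h10 : N.relIndex (q.comp lam).ker * (q.comp lam).ker.index = N.index :=
    Subgroup.relIndex_mul_index hNle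
  have hNpos : 0 < N.index := by
    have : 0 < 2 ^ m := by positivity
    omega
  have hKpos : 0 < (q.comp lam).ker.index := by
    rcases Nat.eq_zero_or_pos (q.comp lam).ker.index with h | h
    · rw [h, mul_zero] at h10
      omega
    · exact h
  have h11 : N.index ≤ (q.comp lam).ker.index := by omega
  have h12 : N.relIndex (q.comp lam).ker ≤ 1 := by
    rw [← h10] at h11
    have h13 : N.relIndex (q.comp lam).ker * (q.comp lam).ker.index
        ≤ 1 * (q.comp lam).ker.index := by rw [one_mul]; exact h11
    exact Nat.le_of_mul_le_mul_right h13 hKpos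
  have h14 : N.relIndex (q.comp lam).ker = 1 := by
    rcases Nat.eq_zero_or_pos (N.relIndex (q.comp lam).ker) with h | h
    · rw [h, zero_mul] at h10
      omega
    · omega
  exact Subgroup.relIndex_eq_one.1 h14 hu


end J_count_core

alias count_core := J_count_core.count_core

end CohNT
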