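import Mathlib
import Pool.Agent.H604C.Base
import Pool.Agent.H604C.P_ord_api
import Pool.Agent.H604C.P_above_api
set_option autoImplicit false
set_option maxHeartbeats 4000000
set_option synthInstance.maxHeartbeats 400000

namespace CohNT
open NumberField IsDedekindDomain Ideal

namespace J_h90

theorem h90_inv {E M : Type} [Field E] [Field M] [Algebra E M] (h2 : Module.finrank E M = 2)
    (σ : M ≃ₐ[E] M) (hσ : σ ≠ 1) :
    (∀ x, σ (σ x) = x) ∧ ∀ x, σ x = x → ∃ a : E, algebraMap E M a = x := by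
  have hfd : FiniteDimensional E M := Module.finite_of_finrank_pos (by omega)
  have h1 := IntermediateField.finrank_fixedField_eq_card (F := E) (E := M) (Subgroup.zpowers σ)
  have h3 : Module.finrank E (IntermediateField.fixedField (Subgroup.zpowers σ)) *
      Module.finrank (IntermediateField.fixedField (Subgroup.zpowers σ)) M = 2 := by
    rw [Module.finrank_mul_finrank, h2]
  rw [h1, Nat.card_zpowers] at h3
  have ho : orderOf σ ≠ 1 := by rwa [Ne, orderOf_eq_one_iff]
  have hd : orderOf σ ∣ 2 := ⟨_, by rw [mul_comm]; exact h3.symm⟩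
  have ho2 : orderOf σ = 2 := by
    rcases (Nat.dvd_prime Nat.prime_two).1 hd with h | h
    · exact absurd h ho
    · exact h
  have hf1 : Module.finrank E (IntermediateField.fixedField (Subgroup.zpowers σ)) = 1 := by
    rw [ho2] at h3
    omega
  constructor
  · intro x
    have h4 : σ ^ 2 = 1 := by rw [← ho2]; exact pow_orderOf_eq_one σ
    have h5 := DFunLike.congr_fun h4 x
    rw [pow_two] at h5
    exact h5
  · intro x hx
    have hmem : x ∈ IntermediateField.fixedField (Subgroup.zpowers σ) := by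
      rw [IntermediateField.mem_fixedField_iff]
      have hle : Subgroup.zpowers σ ≤ MulAction.stabilizer (M ≃ₐ[E] M) x := by
        rw [Subgroup.zpowers_le]; exact hx
      intro f hf
      exact hle hf
    rw [IntermediateField.finrank_eq_one_iff.1 hf1, IntermediateField.mem_bot] at hmem
    exact hmem

theorem h90_z0 {E M : Type} [Field E] [Field M] [Algebra E M] [CharZero M]
    (σ : M ≃ₐ[E] M) (hσ : σ ≠ 1) (hs : ∀ x, σ (σ x) = x) (y : M) (hy0 : y ≠ 0)
    (hyn : y * σ y = 1) : ∃ z0 : M, z0 ≠ 0 ∧ σ z0 = z0 / y := by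
  by_cases hy1 : y = -1
  · obtain ⟨α, hα⟩ : ∃ α, σ α ≠ α := by
      by_contra h
      push Not at h
      exact hσ (AlgEquiv.ext h)
    refine ⟨α - σ α, sub_ne_zero.2 (Ne.symm hα), ?_⟩
    rw [map_sub, hs, hy1]
    ring
  · refine ⟨1 + y, ?_, ?_⟩
    · intro h
      apply hy1
      linear_combination h
    · have h1 : σ y = y⁻¹ := eq_inv_of_mul_eq_one_right hyn
      rw [map_add, map_one, h1]
      field_simp
      ring

theorem h90_prod {E : Type} [Field E] [NumberField E] (v : Pr E) (S : Finset (Pr E))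
    (f : Pr E → Eˣ) : ord v ((∏ u ∈ S, f u : Eˣ) : E) = ∑ u ∈ S, ord v (f u : E) := by
  classical
  obtain ⟨o1, o2, o3, o4, o5⟩ := ord_api v
  induction S using Finset.induction_on with
  | empty => simpa using o1
  | insert a s ha ih =>
    rw [Finset.prod_insert ha, Finset.sum_insert ha, Units.val_mul, o4 _ _ (f a).ne_zero
      (Units.ne_zero _), ih]

theorem h90_fin {E : Type} [Field E] [NumberField E] (N : E) (hN : N ≠ 0) :
    {v : Pr E | ord v N ≠ 0}.Finite := by
  have h1 := HeightOneSpectrum.Support.finite (𝓞 E) N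
  have h2 := HeightOneSpectrum.Support.finite (𝓞 E) N⁻¹
  refine (h1.union h2).subset ?_
  intro v hv
  obtain ⟨o1, o2, o3, o4, o5, o6, o7, o8, o9, o10, o11, _⟩ := ord_api v
  have h3 : v.valuation E N ≠ 1 := fun h => hv ((o11 N hN).1 h)
  rcases lt_or_gt_of_ne h3 with h4 | h4
  · right
    change 1 < v.valuation E N⁻¹
    rw [map_inv₀]
    have h5 : 0 < v.valuation E N := zero_lt_iff.2 ((Valuation.ne_zero_iff _).2 hN)
    exact (one_lt_inv₀ h5).2 h4
  · left
    exact h4

theorem h90_ne (E : Type) [Field E] [NumberField E] : Nonempty (Pr E) := by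
  obtain ⟨p, hp, hp2⟩ := Ring.not_isField_iff_exists_prime.1 (RingOfIntegers.not_isField E)
  exact ⟨⟨p, hp2, hp⟩⟩

theorem h90 {E M : Type} [Field E] [NumberField E] [Field M] [NumberField M] [Algebra E M] (h2 : Module.finrank E M = 2) (σ : M ≃ₐ[E] M) (hσ : σ ≠ 1)
    (T : Finset (Pr E)) (TM : Finset (Pr M)) (hTM : ∀ w, w ∈ TM ↔ ∃ v ∈ T, Ab v w)
    (hG : Good T)
    (hun : ∀ v ∉ T, ∀ w : Pr M, Ab v w → ∀ x : E,
      w.valuation M (algebraMap E M x) = v.valuation E x)
    (y : Mˣ) (hy : y ∈ UU TM) (hyn : (y : M) * σ (y : M) = 1) :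
    ∃ z : Mˣ, z ∈ UU TM ∧ (y : M) = (z : M) / σ (z : M) := by
  classical
  obtain ⟨hs, hfix⟩ := h90_inv h2 σ hσ
  obtain ⟨z0, hz0, hz1⟩ := h90_z0 σ hσ hs (y : M) y.ne_zero hyn
  have hσ0 : σ z0 ≠ 0 := by
    rw [hz1]
    exact div_ne_zero hz0 y.ne_zero
  obtain ⟨N, hN⟩ := hfix (z0 * σ z0) (by rw [map_mul, hs, mul_comm])
  have hN0 : N ≠ 0 := by
    rintro rfl
    rw [map_zero] at hN
    exact mul_ne_zero hz0 hσ0 hN.symm
  -- the order of z0 outside TM
  have hw : ∀ w ∉ TM, ord w (algebraMap E M N) = 2 * ord w z0 := by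
    intro w hw
    obtain ⟨o1, o2, o3, o4, o5, o6, o7, o8, o9, o10, o11, _⟩ := ord_api w
    have hy0 : ord w (y : M) = 0 := (o11 _ y.ne_zero).1 (hy w hw)
    rw [hN, hz1, o4 _ _ hz0 (div_ne_zero hz0 y.ne_zero), o5 _ _ hz0 y.ne_zero, hy0]
    ring
  obtain ⟨v0⟩ := h90_ne E
  have hab : ∀ w ∉ TM, ∃ v ∉ T, Ab v w := by
    intro w hw
    obtain ⟨v, hv⟩ := (above_api (M := M) v0).2.1 w
    exact ⟨v, fun hvT => hw ((hTM w).2 ⟨v, hvT, hv⟩), hv⟩
  have hab2 : ∀ v ∉ T, ∀ w : Pr M, Ab v w → w ∉ TM := by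
    intro v hv w hvw hwT
    obtain ⟨v', hv', hv'w⟩ := (hTM w).1 hwT
    have := (above_api (M := M) v0).2.2.1
    have h3 := (above_api (M := M) v).2.2.1 w v' hvw hv'w
    rw [h3] at hv
    exact hv hv'
  have hordw : ∀ v ∉ T, ∀ w : Pr M, Ab v w → ∀ x : E, ord w (algebraMap E M x) = ord v x := by
    intro v hv w hvw x
    unfold ord
    rw [hun v hv w hvw x]
  have hhalf : ∀ v ∉ T, ∀ w : Pr M, Ab v w → ord v N / 2 = ord w z0 := by
    intro v hv w hvw
    have h3 := hw w (hab2 v hv w hvw)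
    rw [hordw v hv w hvw] at h3
    omega
  choose! p hp1 hp2 using hG
  set S : Finset (Pr E) := (h90_fin N hN0).toFinset.filter (fun v => v ∉ T) with hS
  set c : Eˣ := ∏ v ∈ S, (p v) ^ (ord v N / 2) with hc
  have hcv : ∀ v ∉ T, ord v (c : E) = ord v N / 2 := by
    intro v hv
    obtain ⟨o1, o2, o3, o4, o5, o6, o7, o8, o9, o10, o11, _⟩ := ord_api v
    rw [hc, h90_prod]
    have h3 : ∀ u ∈ S, ord v (((p u) ^ (ord u N / 2) : Eˣ) : E) =
        if u = v then ord v N / 2 else 0 := by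
      intro u hu
      have huT : u ∉ T := (Finset.mem_filter.1 hu).2
      rw [Units.val_zpow_eq_zpow_val, o8]
      by_cases huv : u = v
      · rw [if_pos huv, huv, hp1 v hv, mul_one]
      · rw [if_neg huv]
        have h4 := hp2 u huT v hv (Ne.symm huv)
        rw [(o11 _ (p u).ne_zero).1 h4, mul_zero]
    rw [Finset.sum_congr rfl h3, Finset.sum_ite_eq' S v]
    split_ifs with hvS
    · rfl
    · have h5 : ord v N = 0 := by
        by_contra hne
        apply hvS
        rw [hS, Finset.mem_filter, Set.Finite.mem_toFinset]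
        exact ⟨hne, hv⟩
      rw [h5]
      rfl
  have hc0 : algebraMap E M (c : E) ≠ 0 := by
    rw [Ne, map_eq_zero]
    exact c.ne_zero
  refine ⟨Units.mk0 (z0 / algebraMap E M (c : E)) (div_ne_zero hz0 hc0), ?_, ?_⟩
  · intro w hwT
    obtain ⟨o1, o2, o3, o4, o5, o6, o7, o8, o9, o10, o11, _⟩ := ord_api w
    rw [Units.val_mk0, o11 _ (div_ne_zero hz0 hc0), o5 _ _ hz0 hc0]
    obtain ⟨v, hv, hvw⟩ := hab w hwT
    rw [hordw v hv w hvw, hcv v hv, hhalf v hv w hvw, sub_self]
  · rw [Units.val_mk0, map_div₀, AlgEquiv.commutes, hz1]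
    have hyne := y.ne_zero
    field_simp


end J_h90

alias h90 := J_h90.h90

end CohNT
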