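import Mathlib
import Pool.Agent.H604C.Base
set_option autoImplicit false
set_option maxHeartbeats 4000000
set_option synthInstance.maxHeartbeats 400000

namespace CohNT
open NumberField IsDedekindDomain Ideal

namespace J_herbrand

theorem herbrand (A : Type) [CommGroup A] (σ : A →* A) (hσ : ∀ x, σ (σ x) = x)
    (B : Subgroup A) (hB : ∀ x, x ∈ B ↔ σ x = x) (m k : ℕ)
    (hA : (powMonoidHom 2 : A →* A).range.index = 2 ^ m)
    (hBk : (powMonoidHom 2 : B →* B).range.index = 2 ^ k) (e : A) (he : e ≠ 1)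
    (he2 : ∀ x : A, x ^ 2 = 1 ↔ (x = 1 ∨ x = e))
    (h90 : ∀ y, y * σ y = 1 → ∃ z, y = z * (σ z)⁻¹)
    (N : Subgroup B) (hN : ∀ x : B, x ∈ N ↔ ∃ y : A, (x : A) = y * σ y) :
    N.index * 2 ^ (m + 1) = 2 ^ (2 * k) := by
  -- relative indices inside `B`
  have hrel : ∀ K : Subgroup B, (K.map B.subtype).relIndex B = K.index := by
    intro K
    rw [Subgroup.relIndex, Subgroup.subgroupOf,
      Subgroup.comap_map_eq_self_of_injective B.subtype_injective]
  obtain ⟨S, hS⟩ : ∃ S : A →* A, ∀ x, S x = x ^ 2 := ⟨powMonoidHom 2, fun x => rfl⟩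
  obtain ⟨Nm, hNm⟩ : ∃ f : A →* A, ∀ x, f x = x * σ x :=
    ⟨MonoidHom.mk' (fun x => x * σ x) (fun a b => by
      simp only [map_mul]; exact mul_mul_mul_comm a b _ _), fun x => rfl⟩
  obtain ⟨δ, hδ⟩ : ∃ f : A →* A, ∀ x, f x = x * (σ x)⁻¹ :=
    ⟨MonoidHom.mk' (fun x => x * (σ x)⁻¹) (fun a b => by
      simp only [map_mul, mul_inv]; exact mul_mul_mul_comm a b _ _), fun x => rfl⟩
  obtain ⟨W, hW⟩ : ∃ W : Subgroup A, W = Nm.ker := ⟨_, rfl⟩
  have hWm : ∀ x, x ∈ W ↔ x * σ x = 1 := fun x => by rw [hW, MonoidHom.mem_ker, hNm]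
  have hδker : δ.ker = B := by
    ext x
    rw [MonoidHom.mem_ker, hδ, hB, mul_inv_eq_one, eq_comm]
  have hSr : S.range.index = 2 ^ m := by
    have : S = powMonoidHom 2 := MonoidHom.ext hS
    rw [this]; exact hA
  have hSB : (B.map S).relIndex B = 2 ^ k := by
    have h1 : B.map S = (powMonoidHom 2 : B →* B).range.map B.subtype := by
      ext x
      constructor
      · rintro ⟨b, hb, rfl⟩
        exact ⟨⟨b, hb⟩ ^ 2, ⟨⟨b, hb⟩, rfl⟩, by rw [hS]; rfl⟩
      · rintro ⟨_, ⟨b, rfl⟩, rfl⟩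
        exact ⟨b, b.2, by rw [hS]; rfl⟩
    rw [h1, hrel, hBk]
  -- the image of the norm
  have hNr : N.map B.subtype = (⊤ : Subgroup A).map Nm := by
    ext x
    constructor
    · rintro ⟨b, hb, rfl⟩
      obtain ⟨y, hy⟩ := (hN b).1 hb
      exact ⟨y, Subgroup.mem_top y, by rw [hNm]; exact hy.symm⟩
    · rintro ⟨y, -, rfl⟩
      have hyB : Nm y ∈ B := by
        rw [hB, hNm, map_mul, hσ, mul_comm]
      exact ⟨⟨Nm y, hyB⟩, (hN _).2 ⟨y, hNm y⟩, rfl⟩
  have hBNm : B.map Nm = B.map S := by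
    ext x
    constructor
    · rintro ⟨b, hb, rfl⟩
      exact ⟨b, hb, by rw [hS, hNm, (hB b).1 hb, pow_two]⟩
    · rintro ⟨b, hb, rfl⟩
      exact ⟨b, hb, by rw [hS, hNm, (hB b).1 hb, pow_two]⟩
  have h1 : (B.map S).relIndex (N.map B.subtype) = (B ⊔ W).index := by
    rw [hNr, ← hBNm, Subgroup.relIndex_map_map, ← hW, top_sup_eq, Subgroup.relIndex_top_right]
  have hNB : N.map B.subtype ≤ B := by
    rintro _ ⟨b, -, rfl⟩
    exact b.2
  have hSN : B.map S ≤ N.map B.subtype := by
    rw [hNr, ← hBNm]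
    exact Subgroup.map_mono le_top
  have e1 : (B ⊔ W).index * N.index = 2 ^ k := by
    rw [← h1, ← hrel N, Subgroup.relIndex_mul_relIndex _ _ _ hSN hNB, hSB]
  -- the subgroup `W`
  have hδr : (⊤ : Subgroup A).map δ = W := by
    ext x
    rw [hWm]
    constructor
    · rintro ⟨z, -, rfl⟩
      rw [hδ, map_mul, map_inv, hσ]
      group
    · intro hx
      obtain ⟨z, hz⟩ := h90 x hx
      exact ⟨z, Subgroup.mem_top z, by rw [hδ]; exact hz.symm⟩
  have hWδ : W.map δ = W.map S := by
    have hw : ∀ b ∈ W, δ b = S b := by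
      intro b hb
      have h2 := (hWm b).1 hb
      have h3 : (σ b)⁻¹ = b := inv_eq_of_mul_eq_one_left h2
      rw [hδ, hS, h3, pow_two]
    ext x
    constructor
    · rintro ⟨b, hb, rfl⟩
      exact ⟨b, hb, (hw b hb).symm⟩
    · rintro ⟨b, hb, rfl⟩
      exact ⟨b, hb, hw b hb⟩
  have e2 : (W.map S).relIndex W = (W ⊔ B).index := by
    conv_lhs => rw [← hWδ]
    have h2 := Subgroup.relIndex_map_map δ W ⊤
    rw [hδr, hδker, top_sup_eq, Subgroup.relIndex_top_right] at h2
    exact h2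
  -- the squares of `A`
  have hSδ : S.range.map δ = W.map S := by
    ext x
    constructor
    · rintro ⟨_, ⟨a, rfl⟩, rfl⟩
      refine ⟨δ a, ?_, ?_⟩
      · have : δ a ∈ (⊤ : Subgroup A).map δ := ⟨a, Subgroup.mem_top a, rfl⟩
        rw [hδr] at this
        exact this
      · rw [hS, hS, map_pow]
    · rintro ⟨w, hw, rfl⟩
      rw [← hδr] at hw
      obtain ⟨a, -, rfl⟩ := hw
      exact ⟨S a, ⟨a, rfl⟩, by rw [hS, hS, map_pow]⟩
  have e3 : (W.map S).relIndex W = (S.range ⊔ B).index := by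
    have h2 := Subgroup.relIndex_map_map δ S.range ⊤
    rw [hδr, hδker, top_sup_eq, Subgroup.relIndex_top_right, hSδ] at h2
    exact h2
  have e4 : S.range.relIndex B * (S.range ⊔ B).index = 2 ^ m := by
    have h2 : S.range.relIndex (B ⊔ S.range) = S.range.relIndex B := Subgroup.relIndex_sup_right ..
    rw [← h2, sup_comm B, Subgroup.relIndex_mul_index le_sup_left, hSr]
  -- the square classes
  have hσe : σ e = e := by
    have h2 : σ e ^ 2 = 1 := by rw [← map_pow, (he2 e).2 (Or.inr rfl), map_one]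
    rcases (he2 _).1 h2 with h3 | h3
    · exfalso
      apply he
      rw [← hσ e, h3, map_one]
    · exact h3
  have hB' : B ≤ B.comap S := by
    intro b hb
    rw [Subgroup.mem_comap, hS]
    exact B.pow_mem hb 2
  have hkS : S.ker ≤ B := by
    intro x hx
    rw [MonoidHom.mem_ker, hS, he2] at hx
    rcases hx with rfl | rfl
    · exact B.one_mem
    · exact (hB _).2 hσe
  have e5 : (B.map S).relIndex (B ⊓ S.range) = B.relIndex (B.comap S) := by
    have h2 := Subgroup.relIndex_map_map S B (B.comap S)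
    rw [Subgroup.map_comap_eq, sup_eq_left.2 hkS, sup_eq_left.2 (hkS.trans hB')] at h2
    rw [inf_comm]
    exact h2
  have hcd : (B.comap S).map δ = S.ker := by
    ext x
    constructor
    · rintro ⟨y, hy, rfl⟩
      have hy' : y ^ 2 ∈ B := by
        have := Subgroup.mem_comap.1 hy
        rwa [hS] at this
      rw [hB, map_pow] at hy'
      rw [MonoidHom.mem_ker, hS, hδ, mul_pow, inv_pow, hy', mul_inv_cancel]
    · intro hx
      rw [MonoidHom.mem_ker, hS, he2] at hx
      rcases hx with rfl | rfl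
      · exact Subgroup.one_mem _
      · have h2 : x * σ x = 1 := by
          rw [hσe, ← pow_two]
          exact (he2 x).2 (Or.inr rfl)
        obtain ⟨z, hz⟩ := h90 x h2
        refine ⟨z, ?_, by rw [hδ]; exact hz.symm⟩
        show S z ∈ B
        rw [hB, hS, map_pow]
        have h3 : x ^ 2 = 1 := (he2 x).2 (Or.inr rfl)
        rw [hz, mul_pow, inv_pow, mul_inv_eq_one] at h3
        exact h3.symm
  have e6 : B.relIndex (B.comap S) = 2 := by
    have h2 := Subgroup.relIndex_map_map δ B (B.comap S)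
    rw [hδker, sup_idem, sup_eq_left.2 hB', hcd] at h2
    rw [← h2]
    have h3 : B.map δ = ⊥ := by
      rw [← hδker]
      ext x
      rw [Subgroup.mem_bot]
      constructor
      · rintro ⟨y, hy, rfl⟩
        exact hy
      · rintro rfl
        exact Subgroup.one_mem _
    rw [h3, Subgroup.relIndex_bot_left]
    have h4 : (S.ker : Set A) = {1, e} := by
      ext x
      rw [SetLike.mem_coe, MonoidHom.mem_ker, hS, he2]
      rfl
    have h5 : Nat.card S.ker = ({1, e} : Set A).ncard := by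
      rw [← h4]
      rfl
    rw [h5, Set.ncard_pair he.symm]
  have e7 : 2 * S.range.relIndex B = 2 ^ k := by
    have h2 : (B.map S).relIndex (B ⊓ S.range) * (B ⊓ S.range).relIndex B = (B.map S).relIndex B := by
      apply Subgroup.relIndex_mul_relIndex
      · apply le_inf
        · rintro _ ⟨b, hb, rfl⟩
          rw [hS]
          exact B.pow_mem hb 2
        · rintro _ ⟨b, hb, rfl⟩
          exact ⟨b, rfl⟩
      · exact inf_le_left
    rw [e5, e6, hSB] at h2
    rw [← h2, inf_comm, Subgroup.inf_relIndex_right]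
  have e8 : (B ⊔ W).index = (S.range ⊔ B).index := by
    rw [sup_comm B W, ← e2, e3]
  rw [← e8] at e4
  calc N.index * 2 ^ (m + 1) = N.index * (S.range.relIndex B * (B ⊔ W).index * 2) := by
        rw [e4, pow_succ]
    _ = ((B ⊔ W).index * N.index) * (2 * S.range.relIndex B) := by ring
    _ = 2 ^ (2 * k) := by rw [e1, e7, two_mul, pow_add]


end J_herbrand

alias herbrand := J_herbrand.herbrand

end CohNT
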