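import Mathlib
import Pool.Agent.H604C.Base
set_option autoImplicit false
set_option maxHeartbeats 4000000
set_option synthInstance.maxHeartbeats 400000

namespace CohNT
open NumberField IsDedekindDomain Ideal

namespace J_infplace_double

theorem infplace_double {E M : Type} [Field E] [NumberField E] [Field M] [NumberField M] [Algebra E M] (h2 : Module.finrank E M = 2) (b : E) (hp : TPos b) (β : M)
    (hβ : β ^ 2 = algebraMap E M b) (hβE : β ∉ Set.range (algebraMap E M)) :
    Fintype.card (InfinitePlace M) = 2 * Fintype.card (InfinitePlace E) := by
  have hq : Algebra.IsQuadraticExtension E M := ⟨h2⟩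
  have hGal : IsGalois E M := inferInstance
  have hU : IsUnramifiedAtInfinitePlaces E M := by
    constructor
    intro w
    rw [InfinitePlace.isUnramified_iff]
    by_cases hr : InfinitePlace.IsReal (w.comap (algebraMap E M))
    · left
      set φ := w.embedding with hφ
      have hw : InfinitePlace.mk φ = w := InfinitePlace.mk_embedding w
      rw [← hw, InfinitePlace.comap_mk] at hr
      have hr2 : ComplexEmbedding.IsReal (φ.comp (algebraMap E M)) :=
        InfinitePlace.isReal_of_mk_isReal hr
      have hrE : ∀ e : E, (starRingEnd ℂ) (φ (algebraMap E M e)) = φ (algebraMap E M e) := by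
        intro e
        have := DFunLike.congr_fun hr2 e
        exact this
      have hpos := hp hr2.embedding
      have hφb : φ (algebraMap E M b) = ((hr2.embedding b : ℝ) : ℂ) := by
        have := ComplexEmbedding.IsReal.coe_embedding_apply hr2 b
        rw [this]
        rfl
      have hφβ : (φ β) ^ 2 = ((hr2.embedding b : ℝ) : ℂ) := by
        rw [← map_pow, hβ, hφb]
      have hsq : (φ β) ^ 2 = ((Real.sqrt (hr2.embedding b) : ℝ) : ℂ) ^ 2 := by
        rw [hφβ, ← Complex.ofReal_pow, Real.sq_sqrt hpos.le]
      have hrβ : (starRingEnd ℂ) (φ β) = φ β := by
        rcases sq_eq_sq_iff_eq_or_eq_neg.1 hsq with h | h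
        · rw [h, Complex.conj_ofReal]
        · rw [h, map_neg, Complex.conj_ofReal]
      -- equalizer
      let S : Subfield M := RingHom.eqLocusField φ ((starRingEnd ℂ).comp φ)
      let S' : IntermediateField E M := S.toIntermediateField (fun e => (hrE e).symm)
      have hso : IsSimpleOrder (IntermediateField E M) :=
        IntermediateField.isSimpleOrder_of_finrank_prime E M (by rw [h2]; exact Nat.prime_two)
      have hβS : β ∈ S' := hrβ.symm
      have htop : S' = ⊤ := by
        rcases eq_bot_or_eq_top S' with h | h
        · exfalso
          apply hβE
          rw [h, IntermediateField.mem_bot] at hβS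
          exact hβS
        · exact h
      rw [InfinitePlace.isReal_iff]
      change ComplexEmbedding.IsReal φ
      ext x
      have hx : x ∈ S' := by rw [htop]; exact IntermediateField.mem_top
      have hx2 : φ x = (starRingEnd ℂ) (φ x) := hx
      exact hx2.symm
    · right
      exact InfinitePlace.not_isReal_iff_isComplex.1 hr
  rw [IsUnramifiedAtInfinitePlaces.card_infinitePlace E M, h2, mul_comm]


end J_infplace_double

alias infplace_double := J_infplace_double.infplace_double

end CohNT
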