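import Mathlib
import Pool.Agent.H604C.Base
import Pool.Agent.H604C.P_ord_api
import Pool.Agent.H604C.P_above_api
set_option autoImplicit false
set_option maxHeartbeats 4000000
set_option synthInstance.maxHeartbeats 400000

namespace CohNT
open NumberField IsDedekindDomain Ideal

namespace J_unram

theorem unram {E M : Type} [Field E] [NumberField E] [Field M] [NumberField M] [Algebra E M] (h2 : Module.finrank E M = 2) (b : E) (hb : b ≠ 0) (β : M)
    (hβ : β ^ 2 = algebraMap E M b) (hβE : β ∉ Set.range (algebraMap E M)) (v : Pr E)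
    (hv : ¬ Dy v) (hev : v.valuation E b = 1) (w : Pr M) (hw : Ab v w) (x : E) :
    w.valuation M (algebraMap E M x) = v.valuation E x := by
  obtain ⟨-, -, -, -, hram, -, -, hdy⟩ := above_api (M := M) v
  obtain ⟨e, he0, hval, hord⟩ := hram w hw
  have hsurj : ∃ p : M, p ≠ 0 ∧ ord w p = 1 := (ord_api w).2.2.2.2.2.2.2.2.2.2.2.2.2.2.2.2
  obtain ⟨p, hp0, hp1⟩ := hsurj
  -- the valuation of 2 and of β
  have hdw : ¬ Dy w := fun h => hv ((hdy w hw).1 h)
  have hw2 : w.valuation M (2 : M) = 1 := by
    refine le_antisymm ?_ (not_lt.1 hdw)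
    have h := w.valuation_le_one (K := M) (2 : 𝓞 M)
    convert h using 2
    exact (map_ofNat (algebraMap (𝓞 M) M) 2).symm
  have hwβ : w.valuation M β = 1 := by
    have h1 : (w.valuation M β) ^ 2 = 1 := by
      rw [← map_pow, hβ, hval, hev, one_pow]
    rcases lt_trichotomy (w.valuation M β) 1 with h | h | h
    · exact absurd h1 (pow_lt_one₀ zero_le h two_ne_zero).ne
    · exact h
    · exact absurd h1 (one_lt_pow₀ h two_ne_zero).ne'
  -- coordinates
  have hcoord : ∀ z : M, ∃ r s : E, z = algebraMap E M r + algebraMap E M s * β := by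
    intro z
    have hli : LinearIndependent E ![(1 : M), β] := by
      rw [LinearIndependent.pair_iff]
      intro s t hst
      have ht : t = 0 := by
        by_contra ht
        apply hβE
        refine ⟨- s / t, ?_⟩
        have ht' : algebraMap E M t ≠ 0 := by
          rw [Ne, map_eq_zero]
          exact ht
        rw [map_div₀, map_neg, div_eq_iff ht']
        rw [Algebra.smul_def, Algebra.smul_def, mul_one] at hst
        linear_combination (-1 : M) * hst
      subst ht
      refine ⟨?_, rfl⟩
      rw [zero_smul, add_zero, Algebra.smul_def, mul_one, map_eq_zero] at hst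
      exact hst
    have htop := hli.span_eq_top_of_card_eq_finrank' (by simp [h2])
    have hz : z ∈ Submodule.span E (Set.range ![(1 : M), β]) := by
      rw [htop]; exact Submodule.mem_top
    have hr : Set.range ![(1 : M), β] = {1, β} := by
      rw [Matrix.range_cons, Matrix.range_cons, Matrix.range_empty, Set.union_empty,
        Set.singleton_union]
    rw [hr, Submodule.mem_span_pair] at hz
    obtain ⟨r, s, hrs⟩ := hz
    refine ⟨r, s, ?_⟩
    rw [← hrs, Algebra.smul_def, Algebra.smul_def, mul_one]
  have hkey : ∀ t : E, ∃ y : E, w.valuation M (algebraMap E M t + β) =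
      w.valuation M (algebraMap E M y) := by
    intro t
    rcases lt_trichotomy (w.valuation M (algebraMap E M t + β)) 1 with h | h | h
    · refine ⟨t ^ 2 - b, ?_⟩
      have h3 : w.valuation M (algebraMap E M t - β) = 1 := by
        have h4 : w.valuation M (2 * β) = 1 := by rw [map_mul, hw2, hwβ, one_mul]
        have h5 : algebraMap E M t - β = (algebraMap E M t + β) - 2 * β := by ring
        rw [h5, Valuation.map_sub_eq_of_lt_right _ (by rw [h4]; exact h), h4]
      have h6 : algebraMap E M (t ^ 2 - b) = (algebraMap E M t + β) * (algebraMap E M t - β) := by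
        rw [map_sub, map_pow, ← hβ]
        ring
      rw [h6, map_mul, h3, mul_one]
    · exact ⟨1, by rw [h, map_one, map_one]⟩
    · refine ⟨t, ?_⟩
      have h7 : algebraMap E M t = (algebraMap E M t + β) - β := by ring
      conv_rhs => rw [h7]
      rw [Valuation.map_sub_eq_of_lt_left _ (by rw [hwβ]; exact h)]
  have hall : ∀ z : M, ∃ y : E, w.valuation M z = w.valuation M (algebraMap E M y) := by
    intro z
    obtain ⟨r, s, hz⟩ := hcoord z
    by_cases hs : s = 0
    · refine ⟨r, ?_⟩
      rw [hz, hs, map_zero, zero_mul, add_zero]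
    · obtain ⟨y, hy⟩ := hkey (r / s)
      refine ⟨s * y, ?_⟩
      have hs' : algebraMap E M s ≠ 0 := by
        rw [Ne, map_eq_zero]
        exact hs
      have hz' : z = algebraMap E M s * (algebraMap E M (r / s) + β) := by
        rw [hz, map_div₀]
        field_simp
      rw [hz', map_mul, hy, map_mul, map_mul]
  obtain ⟨y, hy⟩ := hall p
  have h8 : (e : ℤ) * ord v y = 1 := by
    rw [← hord y, ← hp1]
    unfold ord
    rw [hy]
  have he1 : e = 1 := by
    have h9 : (e : ℤ) ∣ 1 := ⟨_, h8.symm⟩
    have h10 := Int.natCast_dvd_natCast.1 (by simpa using h9 : ((e : ℕ) : ℤ) ∣ ((1 : ℕ) : ℤ))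
    exact Nat.dvd_one.1 h10
  rw [hval, he1, pow_one]


end J_unram

alias unram := J_unram.unram

end CohNT
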