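import Mathlib
import Pool.Agent.H604C.Base
import Pool.Agent.H604C.P_tunit_index
import Pool.Agent.H604C.P_infplace_double
import Pool.Agent.H604C.P_herbrand
import Pool.Agent.H604C.P_unram
import Pool.Agent.H604C.P_h90
import Pool.Agent.H604C.P_above_count
import Pool.Agent.H604C.P_above_api
set_option autoImplicit false
set_option maxHeartbeats 4000000
set_option synthInstance.maxHeartbeats 400000

namespace CohNT
open NumberField IsDedekindDomain Ideal

namespace J_index_formula


section aux
variable {E M : Type} [Field E] [NumberField E] [Field M] [NumberField M] [Algebra E M]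

theorem val_eq_one_iff_of_pow {F : Type} [Field F] [NumberField F] (v : Pr F) (x : F) (e : ℕ) (he : 0 < e) :
    (v.valuation F x) ^ e = 1 ↔ v.valuation F x = 1 := by
  constructor
  · intro h
    exact (pow_eq_one_iff.1 h).resolve_right (by omega)
  · intro h
    rw [h, one_pow]

theorem val_lt_one_iff_of_pow {F : Type} [Field F] [NumberField F] (v : Pr F) (x : F) (e : ℕ) (he : 0 < e) :
    (v.valuation F x) ^ e < 1 ↔ v.valuation F x < 1 := by
  exact pow_lt_one_iff (by omega)

theorem pr_ext {F : Type} [Field F] [NumberField F] (v v' : Pr F)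
    (h : ∀ x : F, v.valuation F x < 1 ↔ v'.valuation F x < 1) : v = v' := by
  apply HeightOneSpectrum.ext
  ext x
  have h1 := HeightOneSpectrum.valuation_lt_one_iff_mem (K := F) v x
  have h2 := HeightOneSpectrum.valuation_lt_one_iff_mem (K := F) v' x
  rw [← h1, ← h2]
  exact h _

theorem sig_mem (σ : M ≃ₐ[E] M) (T : Finset (Pr E)) (TM : Finset (Pr M))
    (hTM : ∀ w, w ∈ TM ↔ ∃ v ∈ T, Ab v w) (y : Mˣ) (hy : y ∈ UU TM) :
    Units.map (σ : M →* M) y ∈ UU TM := by
  intro w hw
  -- prime `w'` below `w` through `σ`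
  have key : ∃ (w' : Pr M) (e : ℕ), 0 < e ∧ ∀ x : M, w.valuation M (σ x) = (w'.valuation M x) ^ e := by
    obtain ⟨-, h2, -⟩ := @above_api M M _ _ _ _ ((σ : M →+* M).toAlgebra) w
    obtain ⟨w', hw'⟩ := h2 w
    obtain ⟨-, -, -, -, h5, -⟩ := @above_api M M _ _ _ _ ((σ : M →+* M).toAlgebra) w'
    obtain ⟨e, he, hv, -⟩ := h5 w hw'
    exact ⟨w', e, he, hv⟩
  obtain ⟨w', e, he, hv⟩ := key
  have hw' : w' ∉ TM := by
    intro hmem
    apply hw
    rw [hTM] at hmem ⊢
    obtain ⟨v'', hv'', hA''⟩ := hmem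
    obtain ⟨-, -, -, -, h5, -⟩ := above_api (M := M) v''
    obtain ⟨e'', he'', hval'', -⟩ := h5 w' hA''
    obtain ⟨-, h2, -⟩ := above_api (M := M) v''
    obtain ⟨v, hvw⟩ := h2 w
    obtain ⟨-, -, -, -, h5, -⟩ := above_api (M := M) v
    obtain ⟨e', he', hval', -⟩ := h5 w hvw
    have : v = v'' := by
      apply pr_ext
      intro x
      have h1 := hv (algebraMap E M x)
      rw [AlgEquiv.commutes, hval', hval''] at h1
      rw [← val_lt_one_iff_of_pow v x e' he', h1, val_lt_one_iff_of_pow v'' x e'' he'' |>.symm]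
      exact pow_lt_one_iff (by omega)
    rw [this] at hvw
    exact ⟨v'', hv'', hvw⟩
  have h1 := hv (y : M)
  rw [hy w' hw', one_pow] at h1
  exact h1

theorem fixed (h2 : Module.finrank E M = 2) (σ : M ≃ₐ[E] M) (hσ : σ ≠ 1) (β : M)
    (hβE : β ∉ Set.range (algebraMap E M)) (x : M) (hx : σ x = x) : ∃ a : E, algebraMap E M a = x := by
  have hli : LinearIndependent E ![(1 : M), β] := by
    rw [LinearIndependent.pair_iff]
    intro s t h
    by_cases ht : t = 0
    · subst ht
      simp only [zero_smul, add_zero] at h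
      rw [Algebra.smul_def, mul_one] at h
      exact ⟨(map_eq_zero (algebraMap E M)).1 h, rfl⟩
    · exfalso
      apply hβE
      refine ⟨-s / t, ?_⟩
      have ht' : algebraMap E M t ≠ 0 := by simpa using ht
      rw [map_div₀, div_eq_iff ht', map_neg]
      rw [Algebra.smul_def, Algebra.smul_def, mul_one] at h
      linear_combination (-1 : M) * h
  have hspan : ∀ z : M, ∃ a c : E, z = algebraMap E M a + algebraMap E M c * β := by
    intro z
    obtain ⟨B, hB⟩ : ∃ B : Module.Basis (Fin 2) E M, (B : Fin 2 → M) = ![(1 : M), β] :=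
      ⟨basisOfLinearIndependentOfCardEqFinrank hli (by simp [h2]),
        coe_basisOfLinearIndependentOfCardEqFinrank _ _⟩
    have h := B.sum_repr z
    rw [Fin.sum_univ_two] at h
    refine ⟨B.repr z 0, B.repr z 1, ?_⟩
    rw [hB] at h
    simp only [Matrix.cons_val_zero, Matrix.cons_val_one, Algebra.smul_def, mul_one] at h
    exact h.symm
  have hσβ : σ β ≠ β := by
    intro hb
    apply hσ
    ext z
    obtain ⟨a, c, rfl⟩ := hspan z
    simp [hb]
  obtain ⟨a, c, rfl⟩ := hspan x
  simp only [map_add, map_mul, AlgEquiv.commutes] at hx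
  have h3 : algebraMap E M c * (σ β - β) = 0 := by linear_combination hx
  rcases mul_eq_zero.1 h3 with h4 | h4
  · exact ⟨a, by rw [h4]; ring⟩
  · exact absurd (sub_eq_zero.1 h4) hσβ

theorem index_pow_equiv {G H : Type} [CommGroup G] [CommGroup H] (φ : G ≃* H) :
    (powMonoidHom 2 : H →* H).range.index = (powMonoidHom 2 : G →* G).range.index := by
  have h : (powMonoidHom 2 : H →* H).range.comap (φ : G →* H) = (powMonoidHom 2 : G →* G).range := by
    ext x
    simp only [Subgroup.mem_comap, MonoidHom.mem_range, powMonoidHom_apply]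
    constructor
    · rintro ⟨y, hy⟩
      refine ⟨φ.symm y, ?_⟩
      apply φ.injective
      rw [map_pow, MulEquiv.apply_symm_apply]
      exact hy
    · rintro ⟨y, rfl⟩
      exact ⟨φ y, by simp⟩
  rw [← h]
  exact (Subgroup.index_comap_of_surjective _ φ.surjective).symm

end aux

theorem index_formula {E M : Type} [Field E] [NumberField E] [Field M] [NumberField M] [Algebra E M] (h2 : Module.finrank E M = 2) (σ : M ≃ₐ[E] M) (hσ : σ ≠ 1) (b : E)
    (hp : TPos b) (β : M) (hβ : β ^ 2 = algebraMap E M b)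
    (hβE : β ∉ Set.range (algebraMap E M)) (T : Finset (Pr E)) (hG : Good T)
    (hDy : ∀ v, Dy v → v ∈ T) (hbT : ∀ v ∉ T, v.valuation E b = 1)
    (TM : Finset (Pr M)) (hTM : ∀ w, w ∈ TM ↔ ∃ v ∈ T, Ab v w)
    (NS : Finset (Pr E)) (hNS : ∀ v, v ∈ NS ↔ v ∈ T ∧ NSp M v) :
    (NormU σ T TM).index * 2 = 2 ^ NS.card := by
  have hb : b ≠ 0 := by
    rintro rfl
    apply hβE
    refine ⟨0, ?_⟩
    rw [map_zero] at hβ ⊢
    exact (pow_eq_zero_iff (by norm_num)).1 hβ |>.symm
  have hun : ∀ v ∉ T, ∀ w : Pr M, Ab v w → ∀ x : E,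
      w.valuation M (algebraMap E M x) = v.valuation E x := by
    intro v hv w hw x
    exact unram h2 b hb β hβ hβE v (fun h => hv (hDy v h)) (hbT v hv) w hw x
  -- σ is an involution
  have hfix := fixed h2 σ hσ β hβE
  have hσβ : σ β = - β := by
    have h1 : σ β ^ 2 = β ^ 2 := by
      rw [← map_pow, hβ, AlgEquiv.commutes]
    rcases sq_eq_sq_iff_eq_or_eq_neg.1 h1 with h | h
    · exfalso
      obtain ⟨a, ha⟩ := hfix β h
      exact hβE ⟨a, ha⟩
    · exact h
  have hinv : ∀ x, σ (σ x) = x := by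
    intro x
    -- x + σ' x ...
    by_contra hne
    have h3 : σ * σ ≠ 1 := by
      intro h
      apply hne
      have := congrArg (fun τ : M ≃ₐ[E] M => τ x) h
      simpa using this
    obtain ⟨a, ha⟩ := fixed h2 (σ * σ) h3 β hβE β (by simp [hσβ])
    exact hβE ⟨a, ha⟩
  let s0 : Mˣ →* Mˣ := Units.map (σ : M →* M)
  have hs0 : ∀ x : Mˣ, ((s0 x : Mˣ) : M) = σ (x : M) := fun x => rfl
  have hs0mem : ∀ x ∈ UU TM, s0 x ∈ UU TM := fun x hx => sig_mem σ T TM hTM x hx
  let s : UU TM →* UU TM := (s0.comp (UU TM).subtype).codRestrict (UU TM) (fun x => hs0mem _ x.2)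
  have hs : ∀ x : UU TM, (((s x : UU TM) : Mˣ) : M) = σ ((x : Mˣ) : M) := fun x => rfl
  have hss : ∀ x, s (s x) = x := by
    intro x
    apply Subtype.ext
    apply Units.ext
    rw [hs, hs, hinv]
  let B : Subgroup (UU TM) :=
    { carrier := {x | s x = x}
      mul_mem' := by
        intro a b ha hb
        simp only [Set.mem_setOf_eq] at ha hb ⊢
        rw [map_mul, ha, hb]
      one_mem' := by simp
      inv_mem' := by
        intro a ha
        simp only [Set.mem_setOf_eq] at ha ⊢
        rw [map_inv, ha] }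
  have hB : ∀ x, x ∈ B ↔ s x = x := fun x => Iff.rfl
  -- the map from UU T
  let u0 : Eˣ →* Mˣ := Units.map (algebraMap E M : E →* M)
  have hu0 : ∀ x : Eˣ, ((u0 x : Mˣ) : M) = algebraMap E M (x : E) := fun x => rfl
  have hu0mem : ∀ x ∈ UU T, u0 x ∈ UU TM := by
    intro x hx w hw
    rw [hu0]
    obtain ⟨m0, hm0⟩ := Ideal.exists_maximal (𝓞 E)
    let v0 : Pr E := ⟨m0, hm0.isPrime, Ring.ne_bot_of_isMaximal_of_not_isField hm0 (NumberField.RingOfIntegers.not_isField E)⟩
    obtain ⟨-, h6, -⟩ := above_api (M := M) v0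
    obtain ⟨v, hvw⟩ := h6 w
    have hv : v ∉ T := fun h => hw ((hTM w).2 ⟨v, h, hvw⟩)
    rw [hun v hv w hvw]
    exact hx v hv
  let u1 : UU T →* UU TM := (u0.comp (UU T).subtype).codRestrict (UU TM) (fun x => hu0mem _ x.2)
  have hu1 : ∀ x : UU T, (((u1 x : UU TM) : Mˣ) : M) = algebraMap E M ((x : Eˣ) : E) := fun x => rfl
  have hu1mem : ∀ x, u1 x ∈ B := by
    intro x
    rw [hB]
    apply Subtype.ext
    apply Units.ext
    rw [hs, hu1, AlgEquiv.commutes]
  let u : UU T →* B := u1.codRestrict B hu1mem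
  have hu : ∀ x : UU T, ((((u x : B) : UU TM) : Mˣ) : M) = algebraMap E M ((x : Eˣ) : E) := fun x => rfl
  have hinj : Function.Injective u := by
    intro x y hxy
    apply Subtype.ext
    apply Units.ext
    apply (algebraMap E M).injective
    rw [← hu, ← hu, hxy]
  have hsurj : Function.Surjective u := by
    intro y
    have hy : s (y : UU TM) = y := (hB _).1 y.2
    have hy' : σ (((y : UU TM) : Mˣ) : M) = (((y : UU TM) : Mˣ) : M) := by
      rw [← hs, hy]
    obtain ⟨a, ha⟩ := hfix _ hy'
    have ha0 : a ≠ 0 := by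
      rintro rfl
      rw [map_zero] at ha
      exact ((y : UU TM) : Mˣ).ne_zero ha.symm
    refine ⟨⟨Units.mk0 a ha0, ?_⟩, ?_⟩
    · intro v hv
      obtain ⟨⟨w, hw⟩, -, h3, -⟩ := above_api (M := M) v
      have hwT : w ∉ TM := by
        intro h
        obtain ⟨v', hv', hA⟩ := (hTM w).1 h
        rw [h3 w v' hw hA] at hv
        exact hv hv'
      have h1 := hun v hv w hw a
      rw [ha] at h1
      rw [Units.val_mk0, ← h1]
      exact (y : UU TM).2 w hwT
    · apply Subtype.ext
      apply Subtype.ext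
      apply Units.ext
      rw [hu]
      exact ha
  let φ : UU T ≃* B := MulEquiv.ofBijective u ⟨hinj, hsurj⟩
  have hφ : ∀ x : UU T, ((((φ x : B) : UU TM) : Mˣ) : M) = algebraMap E M ((x : Eˣ) : E) := fun x => rfl
  have hBk : (powMonoidHom 2 : B →* B).range.index = 2 ^ (T.card + Fintype.card (InfinitePlace E)) := by
    rw [index_pow_equiv φ]
    exact tunit_index T
  let N : Subgroup B := (NormU σ T TM).comap (φ.symm : B →* UU T)
  have hNi : N.index = (NormU σ T TM).index :=
    Subgroup.index_comap_of_surjective _ φ.symm.surjective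
  have hN : ∀ x : B, x ∈ N ↔ ∃ y : UU TM, (x : UU TM) = y * s y := by
    intro x
    have hx : algebraMap E M (((φ.symm x : UU T) : Eˣ) : E) = (((x : UU TM) : Mˣ) : M) := by
      rw [← hφ, MulEquiv.apply_symm_apply]
    have h1 : x ∈ N ↔ ∃ y : Mˣ, y ∈ UU TM ∧
        algebraMap E M (((φ.symm x : UU T) : Eˣ) : E) = (y : M) * σ (y : M) := Iff.rfl
    rw [h1]
    constructor
    · rintro ⟨y, hy, hxy⟩
      refine ⟨⟨y, hy⟩, ?_⟩
      apply Subtype.ext
      apply Units.ext
      rw [hx] at hxy
      exact hxy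
    · rintro ⟨y, hy⟩
      refine ⟨y, y.2, ?_⟩
      rw [hx, hy]
      rfl
  have hm1 : (-1 : Mˣ) ∈ UU TM := by
    intro w hw
    simp
  have hmain := herbrand (UU TM) s hss B hB (TM.card + Fintype.card (InfinitePlace M))
    (T.card + Fintype.card (InfinitePlace E)) (tunit_index TM) hBk ⟨-1, hm1⟩ (by
      intro h
      have h1 := congrArg (fun z : UU TM => ((z : Mˣ) : M)) h
      simp only [Units.val_neg, Units.val_one, Subgroup.coe_one] at h1
      have h2' : (2 : M) = 0 := by linear_combination (-1 : M) * h1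
      exact two_ne_zero h2') (by
      intro x
      constructor
      · intro h
        have h1 : (((x : Mˣ) : M)) * ((x : Mˣ) : M) = 1 := by
          have := congrArg (fun z : UU TM => ((z : Mˣ) : M)) h
          rw [sq] at this
          exact this
        rcases mul_self_eq_one_iff.1 h1 with h3 | h3
        · left
          apply Subtype.ext
          apply Units.ext
          exact h3
        · right
          apply Subtype.ext
          apply Units.ext
          exact h3
      · rintro (h | h)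
        · rw [h, one_pow]
        · rw [h]
          apply Subtype.ext
          apply Units.ext
          rw [sq]
          show ((-1 : Mˣ) : M) * ((-1 : Mˣ) : M) = 1
          simp) (by
      intro y hy
      have hy' : ((y : Mˣ) : M) * σ ((y : Mˣ) : M) = 1 := by
        have := congrArg (fun z : UU TM => ((z : Mˣ) : M)) hy
        exact this
      obtain ⟨z, hz, hz2⟩ := h90 h2 σ hσ T TM hTM hG hun (y : Mˣ) y.2 hy'
      refine ⟨⟨z, hz⟩, ?_⟩
      apply Subtype.ext
      apply Units.ext
      rw [hz2]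
      simp only [Subgroup.coe_mul, Subgroup.coe_inv, Units.val_mul, Units.val_inv_eq_inv_val, hs]
      rw [div_eq_mul_inv]) N hN
  rw [hNi, infplace_double h2 b hp β hβ hβE] at hmain
  obtain ⟨TM', NS', h1, h3, h4⟩ := above_count (M := M) h2 T
  have e1 : TM' = TM := by
    ext w
    rw [h1, hTM]
  have e2 : NS' = NS := by
    ext v
    rw [h3, hNS]
  rw [e1, e2] at h4
  have hkey : (NormU σ T TM).index * 2 * 2 ^ (TM.card + 2 * Fintype.card (InfinitePlace E))
      = 2 ^ NS.card * 2 ^ (TM.card + 2 * Fintype.card (InfinitePlace E)) := by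
    rw [← pow_add]
    have e3 : NS.card + (TM.card + 2 * Fintype.card (InfinitePlace E)) = 2 * (T.card + Fintype.card (InfinitePlace E)) := by
      omega
    rw [e3, ← hmain]
    ring
  exact Nat.eq_of_mul_eq_mul_right (by positivity) hkey



end J_index_formula

alias index_formula := J_index_formula.index_formula

end CohNT
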