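import Mathlib
import Pool.Agent.H604C.Base
set_option autoImplicit false
set_option maxHeartbeats 4000000
set_option synthInstance.maxHeartbeats 400000

namespace CohNT
open NumberField IsDedekindDomain Ideal

namespace J_index_ge

theorem index_ge (U : Type) [CommGroup U] (ι : Type) (s : Finset ι) (K : ι → Subgroup U)
    (N : Subgroup U) (hN : ∀ i ∈ s, N ≤ K i) (u : ι → U) (h1 : ∀ i ∈ s, u i ∉ K i)
    (h2 : ∀ i ∈ s, ∀ j ∈ s, i ≠ j → u i ∈ K j) (hfin : N.index ≠ 0) :
    2 ^ s.card ≤ N.index := by
  classical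
  have key : ∀ A : Finset ι, A ⊆ s → ∀ i ∈ s, ((∏ j ∈ A, u j) ∈ K i ↔ i ∉ A) := by
    intro A hA i hi
    constructor
    · intro h hiA
      rw [← Finset.mul_prod_erase A u hiA] at h
      have h3 : (∏ j ∈ A.erase i, u j) ∈ K i := by
        refine Subgroup.prod_mem _ fun j hj => ?_
        exact h2 j (hA (Finset.mem_of_mem_erase hj)) i hi (Finset.ne_of_mem_erase hj)
      exact h1 i hi ((Subgroup.mul_mem_cancel_right _ h3).mp h)
    · intro hiA
      refine Subgroup.prod_mem _ fun j hj => ?_
      exact h2 j (hA hj) i hi (fun he => hiA (he ▸ hj))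
  have hF : Finite (U ⧸ N) := Nat.finite_of_card_ne_zero hfin
  have hinj : Function.Injective
      (fun A : s.powerset => (QuotientGroup.mk (∏ j ∈ A.1, u j) : U ⧸ N)) := by
    intro A B hAB
    have hAB' : (∏ j ∈ A.1, u j)⁻¹ * (∏ j ∈ B.1, u j) ∈ N := QuotientGroup.eq.mp hAB
    have hA := Finset.mem_powerset.mp A.2
    have hB := Finset.mem_powerset.mp B.2
    have hiff : ∀ i ∈ s, (i ∈ A.1 ↔ i ∈ B.1) := by
      intro i hi
      have h3 := hN i hi hAB'
      have kA := key A.1 hA i hi
      have kB := key B.1 hB i hi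
      have h4 : (∏ j ∈ A.1, u j) ∈ K i ↔ (∏ j ∈ B.1, u j) ∈ K i := by
        constructor
        · intro h
          have := (K i).mul_mem h h3
          rwa [mul_inv_cancel_left] at this
        · intro h
          have := (K i).mul_mem h ((K i).inv_mem h3)
          rwa [mul_inv_rev, inv_inv, mul_inv_cancel_left] at this
      tauto
    apply Subtype.ext
    ext i
    constructor
    · intro hi; exact (hiff i (hA hi)).mp hi
    · intro hi; exact (hiff i (hB hi)).mpr hi
  have hc := Nat.card_le_card_of_injective _ hinj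
  rw [Nat.card_eq_fintype_card, Fintype.card_coe, Finset.card_powerset] at hc
  exact hc


end J_index_ge

alias index_ge := J_index_ge.index_ge

end CohNT
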