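import Mathlib
import Pool.Agent.H604C.Base
import Pool.Agent.H604C.P_ord_api
import Pool.Agent.H604C.P_LSq_api
set_option autoImplicit false
set_option maxHeartbeats 4000000
set_option synthInstance.maxHeartbeats 400000

namespace CohNT
open NumberField IsDedekindDomain Ideal

namespace J_nonnorm

theorem nonnorm_four {E : Type} [Field E] [NumberField E] (v : Pr E) (hv : ¬ Dy v) :
    v.valuation E (4 : E) = 1 ∧ ord v (4 : E) = 0 := by
  obtain ⟨h1, h0, hneg, hmul, hdiv, hinv, hpow, hzpow, hlt, hle, hone, hle1, hlt1, hadd, hdom,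
    hint, hp⟩ := ord_api v
  have two_ne : (2 : E) ≠ 0 := two_ne_zero
  have four_ne : (4 : E) ≠ 0 := by norm_num
  have h2 : 0 ≤ ord v (2 : E) := by
    have h := hint (2 : 𝓞 E)
    have h' : ((2 : 𝓞 E) : E) = 2 := map_ofNat (algebraMap (𝓞 E) E) 2
    rw [h'] at h
    exact h
  have h2' : ¬ 0 < ord v (2 : E) := by
    intro h
    exact hv ((hlt1 2 two_ne).2 h)
  have h4 : ord v (4 : E) = 0 := by
    have h := hpow 2 2
    rw [show ((2 : E)) ^ 2 = 4 by norm_num] at h
    rw [h]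
    have : ord v (2 : E) = 0 := by omega
    rw [this]; simp
  exact ⟨(hone 4 four_ne).2 h4, h4⟩

/-- if `z` is dominated by `x` then `x + z` is `x` times a local square -/
theorem nonnorm_near {E : Type} [Field E] [NumberField E] (v : Pr E) (hv : ¬ Dy v) (x z : E)
    (hx : x ≠ 0) (hxz : x + z ≠ 0) (hz : z = 0 ∨ ord v x < ord v z) : LSq v ((x + z) / x) := by
  obtain ⟨h1, h0, hneg, hmul, hdiv, hinv, hpow, hzpow, hlt, hle, hone, hle1, hlt1, hadd, hdom,
    hint, hp⟩ := ord_api v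
  obtain ⟨h4, h4'⟩ := nonnorm_four v hv
  refine (LSq_api v).2.2.2.2.2.2.1 _ (div_ne_zero hxz hx) ?_
  rw [h4]
  have he : (x + z) / x - 1 = z / x := by field_simp; ring
  rw [he]
  rcases hz with rfl | hz
  · simp
  · by_cases hz0 : z = 0
    · rw [hz0]; simp
    · rw [hlt1 _ (div_ne_zero hz0 hx), hdiv _ _ hz0 hx]
      omega

theorem nonnorm {E : Type} [Field E] [NumberField E] (v : Pr E) (hv : ¬ Dy v) (b : E) (hb : b ≠ 0)
    (hns : ¬ LSq v b) (a : E) (ha : a ≠ 0) :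
    (Even (ord v b) → Odd (ord v a) → ¬ LN v a b) ∧
    (Odd (ord v b) → ¬ LSq v a → Even (ord v a) → ¬ LN v a b) := by
  obtain ⟨h1, h0, hneg, hmul, hdiv, hinv, hpow, hzpow, hlt, hle, hone, hle1, hlt1, hadd, hdom,
    hint, hp⟩ := ord_api v
  obtain ⟨l1, l2, l3, l4, l5, l6, l7, l8⟩ := LSq_api v
  obtain ⟨h4, h4'⟩ := nonnorm_four v hv
  have four_ne : (4 : E) ≠ 0 := by norm_num
  -- dichotomy for the norm
  have hN : ∀ X Y : E, X ^ 2 - b * Y ^ 2 ≠ 0 →
      (X ≠ 0 ∧ (b * Y ^ 2 = 0 ∨ ord v (X ^ 2) < ord v (b * Y ^ 2))) ∨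
      (Y ≠ 0 ∧ (X ^ 2 = 0 ∨ ord v (b * Y ^ 2) < ord v (X ^ 2))) ∨
      (X ≠ 0 ∧ Y ≠ 0 ∧ ord v (X ^ 2) = ord v (b * Y ^ 2)) := by
    intro X Y hXY
    by_cases hX : X = 0
    · right; left
      refine ⟨?_, Or.inl (by rw [hX]; simp)⟩
      rintro rfl
      apply hXY
      rw [hX]; simp
    · by_cases hY : Y = 0
      · left
        exact ⟨hX, Or.inl (by rw [hY]; simp)⟩
      · rcases lt_trichotomy (ord v (X ^ 2)) (ord v (b * Y ^ 2)) with h | h | h
        · left; exact ⟨hX, Or.inr h⟩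
        · right; right; exact ⟨hX, hY, h⟩
        · right; left; exact ⟨hY, Or.inr h⟩
  -- order of the norm in the first two cases
  have hfst : ∀ X Y : E, X ^ 2 - b * Y ^ 2 ≠ 0 → X ≠ 0 →
      (b * Y ^ 2 = 0 ∨ ord v (X ^ 2) < ord v (b * Y ^ 2)) → LSq v (X ^ 2 - b * Y ^ 2) := by
    intro X Y hXY hX h
    have hn := nonnorm_near v hv (X ^ 2) (- (b * Y ^ 2)) (pow_ne_zero _ hX)
      (by rw [← sub_eq_add_neg]; exact hXY) (by
        rcases h with h | h
        · left; rw [h]; simp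
        · right; rw [hneg]; exact h)
    rw [← sub_eq_add_neg] at hn
    have h5 := l3 _ _ (l2 X hX) hn
    rwa [mul_div_cancel₀ _ (pow_ne_zero _ hX)] at h5
  have hsnd : ∀ X Y : E, X ^ 2 - b * Y ^ 2 ≠ 0 → Y ≠ 0 →
      (X ^ 2 = 0 ∨ ord v (b * Y ^ 2) < ord v (X ^ 2)) →
      ord v (X ^ 2 - b * Y ^ 2) = ord v b + 2 * ord v Y := by
    intro X Y hXY hY h
    have h5 := (hdom (- (b * Y ^ 2)) (X ^ 2) (neg_ne_zero.2 (mul_ne_zero hb (pow_ne_zero _ hY))) (by
        rcases h with h | h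
        · left; exact h
        · right; rw [hneg]; exact h)).2
    rw [show -(b * Y ^ 2) + X ^ 2 = X ^ 2 - b * Y ^ 2 by ring, hneg,
      hmul _ _ hb (pow_ne_zero _ hY), hpow] at h5
    exact_mod_cast h5
  refine ⟨?_, ?_⟩
  · rintro hbe hao ⟨X, Y, hXY, hL⟩
    have hev := l6 _ hL
    rw [hmul _ _ ha hXY] at hev
    have hNe : Even (ord v (X ^ 2 - b * Y ^ 2)) := by
      rcases hN X Y hXY with ⟨hX, h⟩ | ⟨hY, h⟩ | ⟨hX, hY, h⟩
      · exact l6 _ (hfst X Y hXY hX h)
      · rw [hsnd X Y hXY hY h]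
        exact hbe.add (even_two_mul _)
      · -- equal orders: no cancellation as b is not a square
        have hle' : ¬ ord v (X ^ 2) < ord v (X ^ 2 - b * Y ^ 2) := by
          intro hlt'
          apply hns
          refine ⟨X / Y, ?_⟩
          have he : b - (X / Y) ^ 2 = - ((X ^ 2 - b * Y ^ 2) / Y ^ 2) := by
            field_simp
            ring
          have hne : b - (X / Y) ^ 2 ≠ 0 := by
            rw [he]
            exact neg_ne_zero.2 (div_ne_zero hXY (pow_ne_zero _ hY))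
          rw [hlt _ _ hne (mul_ne_zero four_ne hb), hmul _ _ four_ne hb, h4', he, hneg,
            hdiv _ _ hXY (pow_ne_zero _ hY)]
          rw [hmul _ _ hb (pow_ne_zero _ hY)] at h
          omega
        have hge : ord v (X ^ 2) ≤ ord v (X ^ 2 - b * Y ^ 2) := by
          rw [sub_eq_add_neg] at hXY ⊢
          refine hadd _ _ _ hXY (Or.inr le_rfl) (Or.inr ?_)
          rw [hneg, h]
        have heq : ord v (X ^ 2 - b * Y ^ 2) = ord v (X ^ 2) := by omega
        rw [heq, hpow]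
        exact_mod_cast even_two_mul _
    have hae : Even (ord v a) := by
      have := hev.sub hNe
      simpa using this
    exact (Int.not_even_iff_odd.2 hao) hae
  · rintro hbo hna hae ⟨X, Y, hXY, hL⟩
    rcases hN X Y hXY with ⟨hX, h⟩ | ⟨hY, h⟩ | ⟨hX, hY, h⟩
    · have h5 := hfst X Y hXY hX h
      apply hna
      refine l5 _ _ h5 ?_
      rwa [mul_comm]
    · have hev := l6 _ hL
      rw [hmul _ _ ha hXY, hsnd X Y hXY hY h] at hev
      obtain ⟨p, hp⟩ := hev
      obtain ⟨q, hq⟩ := hbo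
      obtain ⟨r, hr⟩ := hae
      omega
    · rw [hpow, hmul _ _ hb (pow_ne_zero _ hY), hpow] at h
      push_cast at h
      obtain ⟨q, hq⟩ := hbo
      omega


end J_nonnorm

alias nonnorm := J_nonnorm.nonnorm

end CohNT
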