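import Mathlib
import Pool.Agent.H604C.Base
import Pool.Agent.H604C.P_LN_api
set_option autoImplicit false
set_option maxHeartbeats 4000000
set_option synthInstance.maxHeartbeats 400000

namespace CohNT
open NumberField IsDedekindDomain Ideal

namespace J_norm_LN

theorem norm_LN {E M : Type} [Field E] [NumberField E] [Field M] [NumberField M] [Algebra E M] (h2 : Module.finrank E M = 2) (σ : M ≃ₐ[E] M) (hσ : σ ≠ 1) (b : E)
    (β : M) (hβ : β ^ 2 = algebraMap E M b) (hβE : β ∉ Set.range (algebraMap E M)) :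
    (∀ y : M, ∃ X Y : E, y = algebraMap E M X + algebraMap E M Y * β ∧
      y * σ y = algebraMap E M (X ^ 2 - b * Y ^ 2)) ∧
    (∀ (T : Finset (Pr E)) (TM : Finset (Pr M)) (x : UU T), x ∈ NormU σ T TM →
      (∃ X Y : E, ((x : Eˣ) : E) = X ^ 2 - b * Y ^ 2) ∧ ∀ v : Pr E, LN v ((x : Eˣ) : E) b) := by
  have hb : b ≠ 0 := by
    rintro rfl
    rw [map_zero] at hβ
    have h0 : β = 0 := pow_eq_zero_iff (two_ne_zero) |>.1 hβ
    exact hβE ⟨0, by rw [map_zero, h0]⟩
  have hli : LinearIndependent E ![(1 : M), β] := by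
    rw [LinearIndependent.pair_iff]
    intro s t hst
    have ht : t = 0 := by
      by_contra ht
      apply hβE
      refine ⟨-(s / t), ?_⟩
      have h1 : algebraMap E M s + algebraMap E M t * β = 0 := by
        rw [← hst, Algebra.smul_def, Algebra.smul_def, mul_one]
      have h2 : algebraMap E M t ≠ 0 := by
        intro h; exact ht ((map_eq_zero _).1 h)
      rw [map_neg, map_div₀]
      field_simp
      linear_combination -h1
    subst ht
    rw [zero_smul, add_zero, Algebra.smul_def, mul_one] at hst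
    exact ⟨(map_eq_zero _).1 hst, rfl⟩
  have hspan : Submodule.span E (Set.range ![(1 : M), β]) = ⊤ :=
    hli.span_eq_top_of_card_eq_finrank' (by rw [h2]; rfl)
  have hrep : ∀ y : M, ∃ X Y : E, y = algebraMap E M X + algebraMap E M Y * β := by
    intro y
    have hy : y ∈ Submodule.span E (Set.range ![(1 : M), β]) := by rw [hspan]; trivial
    have hr : Set.range ![(1 : M), β] = {1, β} := by
      simp [Set.pair_comm]
    rw [hr, Submodule.mem_span_pair] at hy
    obtain ⟨X, Y, h⟩ := hy
    refine ⟨X, Y, ?_⟩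
    rw [← h, Algebra.smul_def, Algebra.smul_def, mul_one]
  have hσβ : σ β = -β := by
    have h1 : (σ β) ^ 2 = β ^ 2 := by
      rw [← map_pow, hβ, AlgEquiv.commutes]
    rcases sq_eq_sq_iff_eq_or_eq_neg.1 h1 with h | h
    · exfalso
      apply hσ
      ext y
      obtain ⟨X, Y, rfl⟩ := hrep y
      rw [map_add, map_mul, AlgEquiv.commutes, AlgEquiv.commutes, h]
      rfl
    · exact h
  have key : ∀ X Y : E, (algebraMap E M X + algebraMap E M Y * β) *
      σ (algebraMap E M X + algebraMap E M Y * β) = algebraMap E M (X ^ 2 - b * Y ^ 2) := by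
    intro X Y
    rw [map_add, map_mul, AlgEquiv.commutes, AlgEquiv.commutes, hσβ, map_sub, map_mul, map_pow,
      map_pow, ← hβ]
    ring
  refine ⟨fun y => ?_, fun T TM x hx => ?_⟩
  · obtain ⟨X, Y, h⟩ := hrep y
    refine ⟨X, Y, h, ?_⟩
    rw [h]
    exact key X Y
  · obtain ⟨y, -, hy⟩ := hx
    obtain ⟨X, Y, h⟩ := hrep (y : M)
    rw [h, key X Y] at hy
    have hxe : ((x : Eˣ) : E) = X ^ 2 - b * Y ^ 2 := (algebraMap E M).injective hy
    refine ⟨⟨X, Y, hxe⟩, fun v => ?_⟩
    rw [hxe]
    refine (LN_api v b hb).2.2.2.2.1 X Y ?_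
    rw [← hxe]
    exact Units.ne_zero _


end J_norm_LN

alias norm_LN := J_norm_LN.norm_LN

end CohNT
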