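import Mathlib
import Pool.Agent.H604C.Base
import Pool.Agent.H604C.P_quad_ext
import Pool.Agent.H604C.P_index_formula
import Pool.Agent.H604C.P_split_of_LSq
import Pool.Agent.H604C.P_nonnorm
import Pool.Agent.H604C.P_above_count
import Pool.Agent.H604C.P_LN_api
import Pool.Agent.H604C.P_norm_LN
import Pool.Agent.H604C.P_index_ge
import Pool.Agent.H604C.P_good_mono
import Pool.Agent.H604C.P_res_two
import Pool.Agent.H604C.P_LSq_api
import Pool.Agent.H604C.P_ord_api
set_option autoImplicit false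
set_option maxHeartbeats 4000000
set_option synthInstance.maxHeartbeats 400000

namespace CohNT
open NumberField IsDedekindDomain Ideal

namespace J_key_inj

theorem aux_one {E : Type} [Field E] [NumberField E] (v : Pr E) : LSq v (1 : E) := by
  have h := (LSq_api (E := E) v).2.1 1 one_ne_zero
  simpa using h

theorem aux_prod {E : Type} [Field E] [NumberField E] (v : Pr E) (s : Finset (Pr E))
    (d : Pr E → Eˣ) (h : ∀ w ∈ s, LSq v (d w : E)) : LSq v ((∏ w ∈ s, d w : Eˣ) : E) := by
  classical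
  induction s using Finset.induction_on with
  | empty => simpa using aux_one v
  | insert a s ha ih =>
    rw [Finset.prod_insert ha, Units.val_mul]
    exact (LSq_api (E := E) v).2.2.1 _ _ (h a (Finset.mem_insert_self _ _))
      (ih fun w hw => h w (Finset.mem_insert_of_mem hw))

theorem aux_ord {E : Type} [Field E] [NumberField E] (S : Finset (Pr E)) (u : Eˣ) (hu : u ∈ UU S)
    (v : Pr E) (hv : v ∉ S) : ord v (u : E) = 0 := by
  have h := ord_api (E := E) v
  exact (h.2.2.2.2.2.2.2.2.2.2.1 (u : E) u.ne_zero).1 (hu v hv)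

theorem key_inj {E : Type} [Field E] [NumberField E] (S W : Finset (Pr E)) (hG : Good S) (hDy : ∀ v, Dy v → v ∈ S)
    (hWS : Disjoint W S)
    (hdual : ∀ v0 ∈ W, ∃ u : Eˣ, u ∈ UU S ∧ ¬ LSq v0 (u : E) ∧
      ∀ v ∈ W, v ≠ v0 → LSq v (u : E))
    (T : Finset (Pr E)) (hT : ∀ v, v ∈ T ↔ v ∈ S ∨ v ∈ W)
    (x : Eˣ) (hx : x ∈ UU T) (hxS : ∀ v ∈ S, LSq v (x : E)) (hp : TPos (x : E)) :
    IsSquare (x : E) := by
  classical
  by_contra hsq
  obtain ⟨M, _, _, _, β, σ, hβ, h2, hβE, hσβ, hσ, hM⟩ := quad_ext (x : E) hsq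
  have hGT : Good T := good_mono S T (fun v hv => (hT v).2 (Or.inl hv)) hG
  obtain ⟨TM, NS, hTM, hNS, hcard⟩ := above_count (M := M) h2 T
  have hWn : ∀ v ∈ W, v ∉ S := fun v hv hS => (Finset.disjoint_left.1 hWS) hv hS
  have hNSW : ∀ v ∈ NS, v ∈ W := by
    intro v hv
    have h1 := (hNS v).1 hv
    rcases (hT v).1 h1.1 with h3 | h3
    · exact absurd h1.2 (split_of_LSq h2 (x : E) β hβ hβE v (hxS v h3))
    · exact h3
  have hindex := index_formula h2 σ hσ (x : E) hp β hβ hβE T hGT
    (fun v hv => (hT v).2 (Or.inl (hDy v hv))) (fun v hv => hx v hv) TM hTM NS hNS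
  have hfin : (NormU σ T TM).index ≠ 0 := by
    intro h
    rw [h, zero_mul] at hindex
    exact (pow_ne_zero _ two_ne_zero) hindex.symm
  have hxne : (x : E) ≠ 0 := x.ne_zero
  choose! d hd1 hd2 hd3 using hdual
  have hSub : ∀ u : Eˣ, u ∈ UU S → u ∈ UU T := by
    intro u hu v hv
    exact hu v (fun h => hv ((hT v).2 (Or.inl h)))
  -- the subgroups of local norms
  let K : Pr E → Subgroup (UU T) := fun v =>
    { carrier := {u | LN v ((u : Eˣ) : E) (x : E)}
      mul_mem' := by
        intro a b ha hb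
        have := (LN_api v (x : E) hxne).2.1 _ _ ha hb
        simpa using this
      one_mem' := by
        have := (LN_api v (x : E) hxne).2.2.2.1 1 (aux_one v)
        simpa using this
      inv_mem' := by
        intro a ha
        have := (LN_api v (x : E) hxne).2.2.1 _ ha
        simpa using this }
  have hKmem : ∀ v (u : UU T), u ∈ K v ↔ LN v ((u : Eˣ) : E) (x : E) := fun v u => Iff.rfl
  have hex : ∀ v0 ∈ NS, ∃ u0 : UU T, u0 ∉ K v0 ∧ ∀ v ∈ NS, v0 ≠ v → u0 ∈ K v := by
    intro v0 hv0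
    have hv0W := hNSW v0 hv0
    have hv0S := hWn v0 hv0W
    have hnD : ¬ Dy v0 := fun h => hv0S (hDy v0 h)
    have hnL : ¬ LSq v0 (x : E) := fun h =>
      split_of_LSq h2 (x : E) β hβ hβE v0 h ((hNS v0).1 hv0).2
    rcases Int.even_or_odd (ord v0 (x : E)) with hev | hod
    · -- even case
      obtain ⟨p, hp1, hp2⟩ := hG v0 hv0S
      obtain ⟨W', hW'⟩ : ∃ W' : Finset (Pr E), W' = W.filter (fun v => v ≠ v0 ∧ ¬ LSq v (p : E)) :=
        ⟨_, rfl⟩
      have hW'm : ∀ v, v ∈ W' ↔ v ∈ W ∧ v ≠ v0 ∧ ¬ LSq v (p : E) := by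
        intro v; rw [hW', Finset.mem_filter]
      obtain ⟨D, hD⟩ : ∃ D : Eˣ, D = ∏ w ∈ W', d w := ⟨_, rfl⟩
      have hDS : D ∈ UU S := by
        rw [hD]
        exact Subgroup.prod_mem _ fun w hw => hd1 w ((hW'm w).1 hw).1
      have hu0 : p * D ∈ UU T := by
        intro v hv
        have h1 : v ∉ S := fun h => hv ((hT v).2 (Or.inl h))
        have h3 : v ≠ v0 := fun h => hv ((hT v).2 (Or.inr (h ▸ hv0W)))
        rw [Units.val_mul, map_mul, hp2 v h1 h3, hDS v h1, one_mul]
      refine ⟨⟨p * D, hu0⟩, ?_, ?_⟩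
      · rw [hKmem]
        refine (nonnorm v0 hnD (x : E) hxne hnL _ (Units.ne_zero _)).1 hev ?_
        show Odd (ord v0 ((p * D : Eˣ) : E))
        rw [Units.val_mul, (ord_api (E := E) v0).2.2.2.1 _ _ p.ne_zero D.ne_zero, hp1,
          aux_ord S D hDS v0 hv0S]
        exact ⟨0, by norm_num⟩
      · intro v hv hne
        rw [hKmem]
        refine (LN_api v (x : E) hxne).2.2.2.1 _ ?_
        show LSq v ((p * D : Eˣ) : E)
        have hvW := hNSW v hv
        have hvS := hWn v hvW
        by_cases hvp : LSq v (p : E)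
        · rw [Units.val_mul]
          refine (LSq_api (E := E) v).2.2.1 _ _ hvp ?_
          rw [hD]
          refine aux_prod v W' d fun w hw => ?_
          refine hd3 w ((hW'm w).1 hw).1 v hvW ?_
          rintro rfl
          exact ((hW'm v).1 hw).2.2 hvp
        · have hvW' : v ∈ W' := (hW'm v).2 ⟨hvW, fun h => hne h.symm, hvp⟩
          have hsplit : (p * D : Eˣ) = (p * d v) * ∏ w ∈ W'.erase v, d w := by
            rw [hD, mul_assoc, Finset.mul_prod_erase W' d hvW']
          rw [hsplit, Units.val_mul, Units.val_mul]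
          refine (LSq_api (E := E) v).2.2.1 _ _ ?_ ?_
          · refine res_two v (fun h => hvS (hDy v h)) _ _ p.ne_zero (d v).ne_zero ?_ ?_ hvp
              (hd2 v hvW)
            · have : ord v (p : E) = 0 :=
                ((ord_api (E := E) v).2.2.2.2.2.2.2.2.2.2.1 (p : E) p.ne_zero).1
                  (hp2 v hvS (fun h => hne h.symm))
              rw [this]; exact Even.zero
            · rw [aux_ord S (d v) (hd1 v hvW) v hvS]; exact Even.zero
          · refine aux_prod v (W'.erase v) d fun w hw => ?_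
            have hw1 := Finset.mem_erase.1 hw
            exact hd3 w ((hW'm w).1 hw1.2).1 v hvW (fun h => hw1.1 h.symm)
    · -- odd case
      refine ⟨⟨d v0, hSub _ (hd1 v0 hv0W)⟩, ?_, ?_⟩
      · rw [hKmem]
        refine (nonnorm v0 hnD (x : E) hxne hnL _ (Units.ne_zero _)).2 hod (hd2 v0 hv0W) ?_
        show Even (ord v0 ((d v0 : Eˣ) : E))
        rw [aux_ord S (d v0) (hd1 v0 hv0W) v0 hv0S]; exact Even.zero
      · intro v hv hne
        rw [hKmem]
        exact (LN_api v (x : E) hxne).2.2.2.1 _ (hd3 v0 hv0W v (hNSW v hv) (fun h => hne h.symm))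
  choose! u hu1 hu2 using hex
  have hge := index_ge (UU T) (Pr E) NS K (NormU σ T TM)
    (fun v _ y hy => by
      rw [hKmem]
      exact ((norm_LN h2 σ hσ (x : E) β hβ hβE).2 T TM y hy).2 v)
    u (fun v hv => hu1 v hv) (fun v hv w hw hne => hu2 v hv w hw hne) hfin
  rw [← hindex] at hge
  omega


end J_key_inj

alias key_inj := J_key_inj.key_inj

end CohNT
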