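import Mathlib
import Pool.Agent.H604C.Base
import Pool.Agent.H604C.P_ord_api
set_option autoImplicit false
set_option maxHeartbeats 4000000
set_option synthInstance.maxHeartbeats 400000

namespace CohNT
open NumberField IsDedekindDomain Ideal

namespace J_prod_norm_two

theorem prod_norm_two_ord {E : Type} [Field E] [NumberField E] (v : Pr E) :
    ord v (2 : E) = ((Associates.mk v.asIdeal).count
      (Associates.mk (Ideal.span {(2 : 𝓞 E)} : Ideal (𝓞 E))).factors : ℤ) := by
  have h2 : (2 : 𝓞 E) ≠ 0 := two_ne_zero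
  have h1 : v.valuation E (2 : E) = v.intValuation (2 : 𝓞 E) := by
    rw [← HeightOneSpectrum.valuation_of_algebraMap (K := E)]
    have h3 : algebraMap (𝓞 E) E 2 = 2 := map_ofNat (algebraMap (𝓞 E) E) 2
    exact congrArg _ h3.symm
  unfold ord
  rw [h1, HeightOneSpectrum.intValuation_if_neg v h2, WithZero.log_exp, neg_neg]

theorem prod_norm_two {E : Type} [Field E] [NumberField E] (S : Finset (Pr E)) (hDy : ∀ v, Dy v → v ∈ S) :
    ∏ v ∈ S, (absNorm v.asIdeal) ^ (ord v (2 : E)).toNat = 2 ^ Module.finrank ℚ E := by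
  have h2 : (2 : 𝓞 E) ≠ 0 := two_ne_zero
  have hI : (Ideal.span {(2 : 𝓞 E)} : Ideal (𝓞 E)) ≠ 0 := by
    rw [Ne, Ideal.zero_eq_bot, Ideal.span_singleton_eq_bot]
    exact h2
  have h3 : ∏ v ∈ S, (absNorm v.asIdeal) ^ (ord v (2 : E)).toNat =
      absNorm (∏ v ∈ S, v.maxPowDividing (Ideal.span {(2 : 𝓞 E)})) := by
    rw [map_prod]
    refine Finset.prod_congr rfl fun v _ => ?_
    rw [prod_norm_two_ord v, Int.toNat_natCast, HeightOneSpectrum.maxPowDividing, map_pow]
  have h4 : ∏ v ∈ S, v.maxPowDividing (Ideal.span {(2 : 𝓞 E)}) =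
      (Ideal.span {(2 : 𝓞 E)} : Ideal (𝓞 E)) := by
    rw [← finprod_eq_prod_of_mulSupport_subset]
    · exact Ideal.finprod_heightOneSpectrum_factorization hI
    · intro v hv
      apply hDy
      rw [Function.mem_mulSupport] at hv
      unfold Dy
      have h20 : (2 : E) ≠ 0 := two_ne_zero
      obtain ⟨-, -, -, -, -, -, -, -, -, -, -, -, h5, -⟩ := ord_api v
      rw [h5 2 h20, prod_norm_two_ord v]
      by_contra hcon
      apply hv
      have h6 : (Associates.mk v.asIdeal).count
        (Associates.mk (Ideal.span {(2 : 𝓞 E)} : Ideal (𝓞 E))).factors = 0 := by omega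
      rw [HeightOneSpectrum.maxPowDividing, h6, pow_zero]
  rw [h3, h4]
  have h7 := Ideal.absNorm_span_natCast (S := 𝓞 E) 2
  rw [RingOfIntegers.rank] at h7
  simpa using h7



end J_prod_norm_two

alias prod_norm_two := J_prod_norm_two.prod_norm_two

end CohNT
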