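import Mathlib
import Pool.Agent.H604C.Base
set_option autoImplicit false
set_option maxHeartbeats 4000000
set_option synthInstance.maxHeartbeats 400000

namespace CohNT
open NumberField IsDedekindDomain Ideal

namespace J_sign_card

theorem h170_real_bij (E : Type) [Field E] [NumberField E] : Function.Bijective
    (fun ψ : E →+* ℝ => (⟨Complex.ofRealHom.comp ψ, by
      rw [ComplexEmbedding.isReal_iff]
      ext x
      simp [ComplexEmbedding.conjugate]⟩ : {φ : E →+* ℂ // ComplexEmbedding.IsReal φ})) := by
  constructor
  · intro ψ ψ' h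
    have h1 := congrArg Subtype.val h
    ext x
    have h2 := congrArg (fun f : E →+* ℂ => f x) h1
    exact Complex.ofReal_injective h2
  · rintro ⟨φ, hφ⟩
    refine ⟨hφ.embedding, ?_⟩
    apply Subtype.ext
    ext x
    exact ComplexEmbedding.IsReal.coe_embedding_apply hφ x

theorem sign_card (E : Type) [Field E] [NumberField E] :
    Finite (E →+* ℝ) ∧
    2 * Fintype.card (InfinitePlace E) = Module.finrank ℚ E + Nat.card (E →+* ℝ) := by
  have hb := h170_real_bij E
  refine ⟨Finite.of_injective _ hb.1, ?_⟩
  have h1 : Nat.card (E →+* ℝ) = Nat.card {φ : E →+* ℂ // ComplexEmbedding.IsReal φ} :=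
    Nat.card_congr (Equiv.ofBijective _ hb)
  have h2 : Nat.card {φ : E →+* ℂ // ComplexEmbedding.IsReal φ} =
      Nat.card {w : InfinitePlace E // InfinitePlace.IsReal w} :=
    Nat.card_congr InfinitePlace.mkReal
  have h3 : Nat.card {w : InfinitePlace E // InfinitePlace.IsReal w} =
      InfinitePlace.nrRealPlaces E := by
    classical
    rw [Nat.card_eq_fintype_card]
  have h4 := InfinitePlace.card_eq_nrRealPlaces_add_nrComplexPlaces (K := E)
  have h5 := InfinitePlace.card_add_two_mul_card_eq_rank (K := E)
  rw [h1, h2, h3, h4, ← h5]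
  ring


end J_sign_card

alias sign_card := J_sign_card.sign_card

end CohNT
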