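import Mathlib
import Pool.Agent.H604C.Base
import Pool.Agent.H604C.P_choose_V
import Pool.Agent.H604C.P_key_inj
import Pool.Agent.H604C.P_index_formula
import Pool.Agent.H604C.P_LSq_api
import Pool.Agent.H604C.P_LN_api
import Pool.Agent.H604C.P_LSG_api
import Pool.Agent.H604C.P_nonnorm
import Pool.Agent.H604C.P_prod_norm_two
import Pool.Agent.H604C.P_sign_card
import Pool.Agent.H604C.P_count_core
import Pool.Agent.H604C.P_tunit_index
import Pool.Agent.H604C.P_quad_ext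
import Pool.Agent.H604C.P_above_count
import Pool.Agent.H604C.P_split_of_LSq
import Pool.Agent.H604C.P_norm_LN
import Pool.Agent.H604C.P_good_mono
import Pool.Agent.H604C.P_ord_api
set_option autoImplicit false
set_option maxHeartbeats 4000000
set_option synthInstance.maxHeartbeats 400000

namespace CohNT
open NumberField IsDedekindDomain Ideal

namespace J_hnt_core

theorem ha_nonsq {E : Type} [Field E] [NumberField E] (v : Pr E) (hv : ¬ Dy v) :
    ∃ x : E, x ≠ 0 ∧ Even (ord v x) ∧ ¬ LSq v x := by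
  let _ : Field (𝓞 E ⧸ v.asIdeal) := Ideal.Quotient.field v.asIdeal
  have hchar : ringChar (𝓞 E ⧸ v.asIdeal) ≠ 2 := by
    intro h
    have h1 : ((ringChar (𝓞 E ⧸ v.asIdeal) : ℕ) : 𝓞 E ⧸ v.asIdeal) = 0 :=
      ringChar.Nat.cast_ringChar
    rw [h] at h1
    have h2 : Ideal.Quotient.mk v.asIdeal (2 : 𝓞 E) = 0 := by
      rw [map_ofNat (Ideal.Quotient.mk v.asIdeal) 2]
      exact_mod_cast h1
    have h3 : (2 : 𝓞 E) ∈ v.asIdeal := Ideal.Quotient.eq_zero_iff_mem.1 h2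
    apply hv
    have h4 := (HeightOneSpectrum.valuation_lt_one_iff_mem (K := E) v (2 : 𝓞 E)).2 h3
    unfold Dy
    have h5 : algebraMap (𝓞 E) E 2 = 2 := map_ofNat (algebraMap (𝓞 E) E) 2
    rw [← h5]
    exact h4
  obtain ⟨c', hc'⟩ := FiniteField.exists_nonsquare (F := 𝓞 E ⧸ v.asIdeal) hchar
  obtain ⟨c, rfl⟩ := Ideal.Quotient.mk_surjective c'
  have hcv : c ∉ v.asIdeal := by
    intro h
    apply hc'
    rw [Ideal.Quotient.eq_zero_iff_mem.2 h]
    exact ⟨0, by simp⟩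
  have hvc : v.valuation E (algebraMap (𝓞 E) E c) = 1 :=
    (HeightOneSpectrum.valuation_eq_one_iff_notMem v).2 hcv
  refine ⟨algebraMap (𝓞 E) E c, ?_, ?_, ?_⟩
  · intro h
    rw [h, map_zero] at hvc
    exact zero_ne_one hvc
  · unfold ord
    rw [hvc]
    simp
  · rintro ⟨y, hy⟩
    have h4 : v.valuation E (4 * algebraMap (𝓞 E) E c) ≤ 1 := by
      rw [map_mul, hvc, mul_one]
      have := HeightOneSpectrum.valuation_le_one (K := E) v (4 : 𝓞 E)
      have h5 : algebraMap (𝓞 E) E 4 = 4 := map_ofNat (algebraMap (𝓞 E) E) 4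
      rw [← h5]
      exact this
    have h5 : v.valuation E (algebraMap (𝓞 E) E c - y ^ 2) < 1 := lt_of_lt_of_le hy h4
    have h6 : v.valuation E (y ^ 2) ≤ 1 := by
      have e : y ^ 2 = algebraMap (𝓞 E) E c - (algebraMap (𝓞 E) E c - y ^ 2) := by ring
      rw [e]
      refine (Valuation.map_sub _ _ _).trans ?_
      exact max_le hvc.le h5.le
    have h7 : v.valuation E y ≤ 1 := by
      rw [map_pow] at h6
      exact (pow_le_one_iff (by norm_num)).1 h6
    obtain ⟨z, hz⟩ := HeightOneSpectrum.exists_valuation_sub_lt_of_integer v h7 1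
    rw [Units.val_one] at hz
    have hz1 : v.valuation E (algebraMap (𝓞 E) E z) ≤ 1 := HeightOneSpectrum.valuation_le_one v z
    have h8 : v.valuation E (algebraMap (𝓞 E) E (c - z ^ 2)) < 1 := by
      have e : algebraMap (𝓞 E) E (c - z ^ 2) = (algebraMap (𝓞 E) E c - y ^ 2) -
          (algebraMap (𝓞 E) E z - y) * (algebraMap (𝓞 E) E z + y) := by
        rw [map_sub, map_pow]
        ring
      rw [e]
      refine lt_of_le_of_lt (Valuation.map_sub _ _ _) (max_lt h5 ?_)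
      rw [map_mul]
      have h9 : v.valuation E (algebraMap (𝓞 E) E z + y) ≤ 1 :=
        (Valuation.map_add _ _ _).trans (max_le hz1 h7)
      calc _ ≤ v.valuation E (algebraMap (𝓞 E) E z - y) * 1 := mul_le_mul_right h9 _
        _ < 1 := by rw [mul_one]; exact hz
    have h9 : c - z ^ 2 ∈ v.asIdeal :=
      (HeightOneSpectrum.valuation_lt_one_iff_mem (K := E) v (c - z ^ 2)).1 h8
    apply hc'
    refine ⟨Ideal.Quotient.mk v.asIdeal z, ?_⟩
    have h10 := Ideal.Quotient.eq_zero_iff_mem.2 h9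
    rw [map_sub, map_pow, sub_eq_zero] at h10
    rw [h10, pow_two]

theorem ha_index {E : Type} [Field E] [NumberField E] (v : Pr E) (hv : ¬ Dy v) (b : E)
    (hb0 : b ≠ 0) (hns : ¬ LSq v b) : 2 ≤ (LNG v b).index := by
  obtain ⟨g1, g2, g3, g4, g5⟩ := LSG_api v
  have h0 : (LNG v b).index ≠ 0 := by
    have : (LSG v).FiniteIndex := ⟨g4⟩
    have : (LNG v b).FiniteIndex := Subgroup.finiteIndex_of_le (g3 b hb0)
    exact Subgroup.FiniteIndex.index_ne_zero
  have h1 : (LNG v b).index ≠ 1 := by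
    intro h
    rw [Subgroup.index_eq_one] at h
    have hall : ∀ x : E, x ≠ 0 → LN v x b := by
      intro x hx
      have : (Units.mk0 x hx) ∈ LNG v b := by
        rw [h]
        exact Subgroup.mem_top _
      exact (g2 b hb0 _).1 this
    rcases Int.even_or_odd (ord v b) with he | ho
    · obtain ⟨p, hp0, hp1⟩ := (ord_api v).2.2.2.2.2.2.2.2.2.2.2.2.2.2.2.2
      refine (nonnorm v hv b hb0 hns p hp0).1 he ?_ (hall p hp0)
      rw [hp1]
      exact odd_one
    · obtain ⟨x, hx0, hxe, hxn⟩ := ha_nonsq v hv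
      exact (nonnorm v hv b hb0 hns x hx0).2 ho hxn hxe (hall x hx0)
  omega

/-- the sign at a real place -/
noncomputable def ha_sgn {E : Type} [Field E] (φ : E →+* ℝ) : Eˣ →* SignTypeˣ :=
  Units.map (((signHom : ℝ →*₀ SignType) : ℝ →* SignType).comp (φ : E →* ℝ))

theorem ha_sgn_eq {E : Type} [Field E] (φ : E →+* ℝ) (u : Eˣ) :
    ha_sgn φ u = 1 ↔ 0 < φ (u : E) := by
  rw [Units.ext_iff]
  change SignType.sign (φ (u : E)) = 1 ↔ _
  exact sign_eq_one_iff

theorem ha_sgn_sq (s : SignTypeˣ) : s ^ 2 = 1 := by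
  revert s
  decide

theorem ha_card_sign : Nat.card SignTypeˣ = 2 := by
  rw [Nat.card_eq_fintype_card]
  rfl

theorem ha_card_G {E : Type} [Field E] [NumberField E] (S : Finset (Pr E))
    (hDy : ∀ v, Dy v → v ∈ S) :
    Nat.card (((v : S) → Eˣ ⧸ LSG (v : Pr E)) × ((E →+* ℝ) → SignTypeˣ)) ≤
      2 ^ (2 * (S.card + Fintype.card (InfinitePlace E))) := by
  obtain ⟨hfin, hcard⟩ := sign_card E
  have hf : Fintype (E →+* ℝ) := Fintype.ofFinite _
  rw [Nat.card_prod, Nat.card_pi, Nat.card_pi]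
  simp only [ha_card_sign, Finset.prod_const, Finset.card_univ, ← Subgroup.index_eq_card]
  rw [Finset.prod_coe_sort S (fun v => (LSG v).index)]
  have h1 : ∏ v ∈ S, (LSG v).index ≤ 4 ^ S.card * 2 ^ Module.finrank ℚ E := by
    calc ∏ v ∈ S, (LSG v).index ≤
        ∏ v ∈ S, (4 * (absNorm v.asIdeal) ^ (ord v (2 : E)).toNat) :=
          Finset.prod_le_prod' (fun v _ => (LSG_api v).2.2.2.2)
      _ = 4 ^ S.card * 2 ^ Module.finrank ℚ E := by
          rw [Finset.prod_mul_distrib, Finset.prod_const, prod_norm_two S hDy]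
  rw [Nat.card_eq_fintype_card] at hcard
  calc (∏ v ∈ S, (LSG v).index) * 2 ^ Fintype.card (E →+* ℝ) ≤
      4 ^ S.card * 2 ^ Module.finrank ℚ E * 2 ^ Fintype.card (E →+* ℝ) :=
        Nat.mul_le_mul_right _ h1
    _ = 2 ^ (2 * (S.card + Fintype.card (InfinitePlace E))) := by
        rw [mul_assoc, ← pow_add, ← hcard, show (4 : ℕ) = 2 ^ 2 by norm_num, ← pow_mul, ← pow_add,
          mul_add]

theorem ha_sqrt {E : Type} [Field E] [NumberField E] (T : Finset (Pr E)) (u : UU T)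
    (h : IsSquare ((u : Eˣ) : E)) : ∃ z : UU T, u = z ^ 2 := by
  obtain ⟨z, hz⟩ := h
  have hz0 : z ≠ 0 := by
    rintro rfl
    exact (u : Eˣ).ne_zero (by rw [hz]; simp)
  have hmem : Units.mk0 z hz0 ∈ UU T := by
    intro v hv
    have h1 := u.2 v hv
    rw [hz, ← pow_two, map_pow] at h1
    rw [Units.val_mk0]
    have h2 : v.valuation E z ≤ 1 := (pow_le_one_iff (by norm_num)).1 h1.le
    rcases h2.lt_or_eq with h3 | h3
    · exfalso
      have h4 : v.valuation E z ^ 2 < 1 := (pow_lt_one_iff (by norm_num)).2 h3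
      rw [h1] at h4
      exact lt_irrefl _ h4
    · exact h3
  refine ⟨⟨Units.mk0 z hz0, hmem⟩, ?_⟩
  apply Subtype.ext
  apply Units.ext
  rw [hz]
  simp [pow_two]

theorem hnt_core {E : Type} [Field E] [NumberField E] (a b : E) (ha : a ≠ 0) (hb : ¬ IsSquare b) (hp : TPos b)
    (h2 : ∀ v : Pr E, Dy v → LSq v b) (hn : ∀ v : Pr E, ¬ Dy v → LN v a b)
    (S : Finset (Pr E)) (hG : Good S) (hDy : ∀ v, Dy v → v ∈ S)
    (hbS : ∀ v ∉ S, v.valuation E b = 1) (haS : ∀ v ∉ S, v.valuation E a = 1) :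
    ∃ X Y : E, a = X ^ 2 - b * Y ^ 2 := by
  classical
  obtain ⟨W, hWS, hWc, hWb, hdual⟩ := choose_V b hb S hDy hbS
  have hb0 : b ≠ 0 := by
    rintro rfl
    exact hb ⟨0, by simp⟩
  obtain ⟨T, hTdef⟩ : ∃ T, T = S ∪ W := ⟨_, rfl⟩
  have hT : ∀ v, v ∈ T ↔ v ∈ S ∨ v ∈ W := fun v => by rw [hTdef, Finset.mem_union]
  have hTcard : T.card = S.card + W.card := by
    rw [hTdef, Finset.card_union_of_disjoint hWS.symm]
  have hGT : Good T := good_mono S T (fun v hv => (hT v).2 (Or.inl hv)) hG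
  have hDyT : ∀ v, Dy v → v ∈ T := fun v hv => (hT v).2 (Or.inl (hDy v hv))
  have hnS : ∀ v, v ∉ T → v ∉ S := fun v hv h => hv ((hT v).2 (Or.inl h))
  obtain ⟨M, _, _, _, β, σ, hβ, hfr, hβE, hσβ, hσ, hdec⟩ := quad_ext b hb
  obtain ⟨TM, NS, hTM, hNS, hcount⟩ := above_count (M := M) hfr T
  have hidx := index_formula hfr σ hσ b hp β hβ hβE T hGT hDyT
    (fun v hv => hbS v (hnS v hv)) TM hTM NS hNS
  have hNSl : ∀ v ∈ NS, ¬ LSq v b := fun v hv h =>
    split_of_LSq hfr b β hβ hβE v h ((hNS v).1 hv).2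
  have hNSd : ∀ v ∈ NS, ¬ Dy v := fun v hv h => hNSl v hv (h2 v h)
  have hNSS : ∀ v ∈ NS, v ∈ S := by
    intro v hv
    rcases (hT v).1 ((hNS v).1 hv).1 with h | h
    · exact h
    · exact absurd (hWb v h) (hNSl v hv)
  have hU := tunit_index (E := E) T
  have hnl := norm_LN hfr σ hσ b β hβ hβE
  obtain ⟨n, hn'⟩ : ∃ n, n = T.card + Fintype.card (InfinitePlace E) := ⟨_, rfl⟩
  rw [← hn'] at hU
  have hGc := ha_card_G S hDy
  have hexp : 2 * (S.card + Fintype.card (InfinitePlace E)) = n + 1 := by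
    rw [hn', hTcard]
    omega
  rw [hexp] at hGc
  have hf1 : ∀ v : Pr E, Finite (Eˣ ⧸ LSG v) := by
    intro v
    have : (LSG v).FiniteIndex := ⟨(LSG_api v).2.2.2.1⟩
    exact Subgroup.finite_quotient_of_finiteIndex
  have hf2 : ∀ v : Pr E, Finite (Eˣ ⧸ LNG v b) := by
    intro v
    have : (LSG v).FiniteIndex := ⟨(LSG_api v).2.2.2.1⟩
    have : (LNG v b).FiniteIndex := Subgroup.finiteIndex_of_le ((LSG_api v).2.2.1 b hb0)
    exact Subgroup.finite_quotient_of_finiteIndex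
  have hf3 : Finite (E →+* ℝ) := (sign_card E).1
  -- the map lam
  let lam : UU T →* ((v : S) → Eˣ ⧸ LSG (v : Pr E)) × ((E →+* ℝ) → SignTypeˣ) :=
    MonoidHom.prod (MonoidHom.pi (fun v : S => (QuotientGroup.mk' (LSG (v : Pr E))).comp
      (UU T).subtype)) (MonoidHom.pi (fun φ => (ha_sgn φ).comp (UU T).subtype))
  have hlam1 : ∀ (u : UU T) (v : S), (lam u).1 v = QuotientGroup.mk' (LSG (v : Pr E)) (u : Eˣ) :=
    fun u v => rfl
  have hlam2 : ∀ (u : UU T) (φ : E →+* ℝ), (lam u).2 φ = ha_sgn φ (u : Eˣ) := fun u φ => rfl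
  let q : ((v : S) → Eˣ ⧸ LSG (v : Pr E)) × ((E →+* ℝ) → SignTypeˣ) →*
      ((v : NS) → Eˣ ⧸ LNG (v : Pr E) b) :=
    MonoidHom.pi (fun v : NS => (QuotientGroup.map (LSG (v : Pr E)) (LNG (v : Pr E) b)
      (MonoidHom.id Eˣ) (fun x hx => (LSG_api (v : Pr E)).2.2.1 b hb0 hx)).comp
      ((Pi.evalMonoidHom (fun v : S => Eˣ ⧸ LSG (v : Pr E)) ⟨v, hNSS v v.2⟩).comp
        (MonoidHom.fst _ _)))
  have hq1 : ∀ (g : ((v : S) → Eˣ ⧸ LSG (v : Pr E)) × ((E →+* ℝ) → SignTypeˣ)) (v : NS),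
      q g v = QuotientGroup.map (LSG (v : Pr E)) (LNG (v : Pr E) b)
      (MonoidHom.id Eˣ) (fun x hx => (LSG_api (v : Pr E)).2.2.1 b hb0 hx)
      (g.1 ⟨v, hNSS v v.2⟩) := fun g v => rfl
  have hql : ∀ (u : UU T) (v : NS), q (lam u) v = QuotientGroup.mk' (LNG (v : Pr E) b) (u : Eˣ) :=
    fun u v => rfl
  have hlam : ∀ u, lam u = 1 → ∃ z, u = z ^ 2 := by
    intro u hu
    apply ha_sqrt
    refine key_inj S W hG hDy hWS hdual T hT (u : Eˣ) u.2 ?_ ?_
    · intro v hv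
      have h3 := hlam1 u ⟨v, hv⟩
      rw [hu] at h3
      have h4 : (u : Eˣ) ∈ LSG v := (QuotientGroup.eq_one_iff (u : Eˣ)).1 h3.symm
      exact ((LSG_api v).1 _).1 h4
    · intro φ
      have h3 := hlam2 u φ
      rw [hu] at h3
      exact (ha_sgn_eq φ _).1 h3.symm
  have hsq : ∀ u, lam (u ^ 2) = 1 := by
    intro u
    refine Prod.ext (funext fun v => ?_) (funext fun φ => ?_)
    · rw [hlam1]
      refine (QuotientGroup.eq_one_iff _).2 (((LSG_api (v : Pr E)).1 _).2 ?_)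
      have h3 := (LSq_api (v : Pr E)).2.1 ((u : Eˣ) : E) (u : Eˣ).ne_zero
      simpa using h3
    · rw [hlam2]
      change ha_sgn φ ((u : Eˣ) ^ 2) = 1
      rw [map_pow]
      exact ha_sgn_sq _
  have hq : Function.Surjective q := by
    intro y
    have hex : ∀ v : NS, ∃ x : Eˣ, QuotientGroup.mk' (LNG (v : Pr E) b) x = y v :=
      fun v => QuotientGroup.mk'_surjective _ _
    choose x hx using hex
    refine ⟨(fun v => if h : (v : Pr E) ∈ NS then QuotientGroup.mk' (LSG (v : Pr E)) (x ⟨v, h⟩)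
      else 1, 1), ?_⟩
    funext v
    rw [hq1]
    simp only [dif_pos v.2]
    exact hx v
  have hQ : 2 ^ NS.card ≤ Nat.card ((v : NS) → Eˣ ⧸ LNG (v : Pr E) b) := by
    rw [Nat.card_pi]
    simp only [← Subgroup.index_eq_card]
    rw [Finset.prod_coe_sort NS (fun v => (LNG v b).index), ← Finset.prod_const]
    exact Finset.prod_le_prod' (fun v hv => ha_index v (hNSd v hv) b hb0 (hNSl v hv))
  have hNK : ∀ u ∈ NormU σ T TM, q (lam u) = 1 := by
    intro u hu
    have h3 := (hnl.2 T TM u hu).2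
    funext v
    rw [hql]
    exact (QuotientGroup.eq_one_iff _).2 (((LSG_api (v : Pr E)).2.1 b hb0 _).2 (h3 v))
  have haT : Units.mk0 a ha ∈ UU T := fun v hv => haS v (hnS v hv)
  have hua : q (lam ⟨Units.mk0 a ha, haT⟩) = 1 := by
    funext v
    rw [hql]
    exact (QuotientGroup.eq_one_iff _).2 (((LSG_api (v : Pr E)).2.1 b hb0 _).2
      (hn v (hNSd v v.2)))
  have hfin := count_core (UU T) _ _ n NS.card hU hGc lam hlam hsq q hq hQ (NormU σ T TM) hidx
    hNK ⟨Units.mk0 a ha, haT⟩ hua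
  exact (hnl.2 T TM _ hfin).1


end J_hnt_core

alias hnt_core := J_hnt_core.hnt_core

end CohNT
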