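import Mathlib
import Pool.Agent.H604C.Base
import Pool.Agent.H604C.P_hnt_core
import Pool.Agent.H604C.P_good_exists
import Pool.Agent.H604C.P_good_mono
import Pool.Agent.H604C.P_fin_primes
import Pool.Agent.H604C.P_LN_api
set_option autoImplicit false
set_option maxHeartbeats 4000000
set_option synthInstance.maxHeartbeats 400000

namespace CohNT
open NumberField IsDedekindDomain Ideal

namespace J_HNT

theorem HNT {E : Type} [Field E] [NumberField E] (a b : E) (ha : a ≠ 0) (hb : b ≠ 0) (hp : TPos b)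
    (h2 : ∀ v : Pr E, Dy v → LSq v b) (hn : ∀ v : Pr E, ¬ Dy v → LN v a b) :
    ∃ X Y : E, a = X ^ 2 - b * Y ^ 2 := by
  classical
  by_cases hsq : IsSquare b
  · obtain ⟨c, hc⟩ := hsq
    have hc0 : c ≠ 0 := by
      rintro rfl
      apply hb
      rw [hc, mul_zero]
    have h20 : (2 : E) ≠ 0 := two_ne_zero
    refine ⟨(a + 1) / 2, (a - 1) / (2 * c), ?_⟩
    rw [hc]
    field_simp
    ring
  · obtain ⟨Sa, hSa, hSa2⟩ := fin_primes a ha
    obtain ⟨Sb, hSb, hSb2⟩ := fin_primes b hb
    obtain ⟨S, hS, hG⟩ := good_exists (Sa ∪ Sb)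
    refine hnt_core a b ha hsq hp h2 hn S hG ?_ ?_ ?_
    · intro v hv
      exact hS (Finset.mem_union_left _ (hSa2 v hv))
    · intro v hv
      exact hSb v fun h => hv (hS (Finset.mem_union_right _ h))
    · intro v hv
      exact hSa v fun h => hv (hS (Finset.mem_union_left _ h))


end J_HNT

alias HNT := J_HNT.HNT

end CohNT
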