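import Mathlib
import Pool.Agent.H604C.Base
import Pool.Agent.H604C.P_ord_api
import Pool.Agent.H604C.P_LSq_api
import Pool.Agent.H604C.P_LN_api
import Pool.Agent.H604C.P_res_two
set_option autoImplicit false
set_option maxHeartbeats 4000000
set_option synthInstance.maxHeartbeats 400000

namespace CohNT
open NumberField IsDedekindDomain Ideal

namespace J_LN_units

theorem lnu_nat {E : Type} [Field E] [NumberField E] (v : Pr E) (n : ℕ) :
    v.valuation E (n : E) ≤ 1 := by
  have h : v.valuation E (algebraMap (𝓞 E) E (n : 𝓞 E)) ≤ 1 := v.valuation_le_one (n : 𝓞 E)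
  rwa [map_natCast] at h

theorem lnu_two {E : Type} [Field E] [NumberField E] (v : Pr E) (hv : ¬ Dy v) :
    v.valuation E (2 : E) = 1 ∧ v.valuation E (4 : E) = 1 := by
  have h2 : v.valuation E (2 : E) = 1 := by
    apply le_antisymm _ (not_lt.1 hv)
    have h := lnu_nat v 2
    rwa [Nat.cast_ofNat] at h
  refine ⟨h2, ?_⟩
  have h4 : (4 : E) = 2 * 2 := by norm_num
  rw [h4, map_mul, h2, one_mul]

theorem lnu_ex {E : Type} [Field E] [NumberField E] (v : Pr E) :
    ∃ m : ℕ, 2 ≤ m ∧ v.valuation E (m : E) < 1 := by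
  have h1 : ((Ideal.absNorm v.asIdeal : ℕ) : 𝓞 E) ∈ v.asIdeal := Ideal.absNorm_mem _
  have h2 : Ideal.absNorm v.asIdeal ≠ 0 := by
    rw [Ne, Ideal.absNorm_eq_zero_iff]
    exact v.ne_bot
  have h3 : v.valuation E (algebraMap (𝓞 E) E ((Ideal.absNorm v.asIdeal : ℕ) : 𝓞 E)) < 1 :=
    (v.valuation_lt_one_iff_mem _).2 h1
  rw [map_natCast] at h3
  refine ⟨_, ?_, h3⟩
  by_contra hcon
  have h4 : Ideal.absNorm v.asIdeal = 1 := by omega
  rw [h4, Nat.cast_one, map_one] at h3
  exact lt_irrefl _ h3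

theorem LN_units {E : Type} [Field E] [NumberField E] (v : Pr E) (hv : ¬ Dy v) (a b : E) (ha : a ≠ 0) (hb : b ≠ 0)
    (hea : Even (ord v a)) (heb : Even (ord v b)) : LN v a b := by
  classical
  obtain ⟨LN1, LN2, LN3, LN4, LN5, LN6, LN7⟩ := LN_api v b hb
  obtain ⟨S1, S2, S3, S4, S5, S6, S7, S8⟩ := LSq_api v
  by_cases hLb : LSq v b
  · exact LN6 a ha hLb
  by_cases hLa : LSq v a
  · exact LN4 a hLa
  have hab := res_two v hv a b ha hb hea heb hLa hLb
  by_cases hm1 : LSq v (-1 : E)
  · apply LN7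
    have : -(a * b) = -1 * (a * b) := by ring
    rw [this]
    exact S3 _ _ hm1 hab
  obtain ⟨w2, w4⟩ := lnu_two v hv
  have hord1 : ∀ x : E, x ≠ 0 → v.valuation E x = 1 → Even (ord v x) := by
    intro x hx h
    have := ((ord_api v).2.2.2.2.2.2.2.2.2.2.1 x hx).1 h
    rw [this]
    exact Even.zero
  have hm1e : Even (ord v (-1 : E)) := hord1 _ (by norm_num) (by rw [Valuation.map_neg, map_one])
  have hmb : LSq v (-1 * b) := res_two v hv (-1) b (by norm_num) hb hm1e heb hm1 hLb
  -- a nonsquare natural unit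
  have hex : ∃ n : ℕ, 1 ≤ n ∧ v.valuation E (n : E) = 1 ∧ ¬ LSq v (n : E) := by
    obtain ⟨m, hm, hmv⟩ := lnu_ex v
    have hcast : ((m - 1 : ℕ) : E) = (m : E) - 1 := by
      rw [Nat.cast_sub (by omega), Nat.cast_one]
    have hval : v.valuation E ((m : E) - 1) = 1 := by
      rw [Valuation.map_sub_swap]
      exact Valuation.map_one_sub_of_lt _ hmv
    have hne : (m : E) - 1 ≠ 0 := by
      intro h
      rw [h, map_zero] at hval
      exact zero_ne_one hval
    refine ⟨m - 1, by omega, ?_, ?_⟩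
    · rw [hcast]
      exact hval
    · rw [hcast]
      intro h
      apply hm1
      have hx : LSq v (-1 * ((m : E) - 1)⁻¹) := by
        apply S7
        · exact mul_ne_zero (by norm_num) (inv_ne_zero hne)
        · rw [w4]
          have : -1 * ((m : E) - 1)⁻¹ - 1 = - (m * ((m : E) - 1)⁻¹) := by
            field_simp
            ring
          rw [this, Valuation.map_neg, map_mul, map_inv₀, hval, inv_one, mul_one]
          exact hmv
      have h3 := S3 _ _ hx h
      rwa [mul_assoc, inv_mul_cancel₀ hne, mul_one] at h3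
  set n0 := Nat.find hex with hn0
  obtain ⟨hn1, hnv, hnL⟩ := Nat.find_spec hex
  have hL1 : LSq v (1 : E) := by
    have := S2 1 one_ne_zero
    rwa [one_pow] at this
  have hn2 : 2 ≤ n0 := by
    rcases Nat.lt_or_ge n0 2 with h | h
    · exfalso
      have h1 : n0 = 1 := by omega
      rw [← hn0, h1, Nat.cast_one] at hnL
      exact hnL hL1
    · exact h
  have hn0E : (n0 : E) ≠ 0 := by
    intro h
    rw [← hn0, h, map_zero] at hnv
    exact zero_ne_one hnv
  have hcast : ((n0 - 1 : ℕ) : E) = (n0 : E) - 1 := by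
    rw [Nat.cast_sub (by omega), Nat.cast_one]
  have hval : v.valuation E ((n0 : E) - 1) = 1 := by
    apply le_antisymm
    · rw [← hcast]
      exact lnu_nat v _
    · by_contra hcon
      rw [not_le] at hcon
      apply hnL
      apply S7 _ hn0E
      rw [w4]
      exact hcon
  have hLn : LSq v ((n0 : E) - 1) := by
    by_contra hcon
    have := Nat.find_min hex (m := n0 - 1) (by omega)
    apply this
    refine ⟨by omega, ?_, ?_⟩
    · rw [hcast]
      exact hval
    · rw [hcast]
      exact hcon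
  -- the norm
  obtain ⟨y, hy0, hy⟩ := S8 _ (S3 _ _ hLn (S4 _ hmb))
  rw [w4] at hy
  set t : E := -1 * b * y ^ 2 with ht
  have hb' : (-1 * b : E) ≠ 0 := mul_ne_zero (by norm_num) hb
  have ht0 : t ≠ 0 := mul_ne_zero hb' (pow_ne_zero 2 hy0)
  have hratio : ((n0 : E) - 1) * (-1 * b)⁻¹ / y ^ 2 = ((n0 : E) - 1) / t := by
    rw [ht]
    field_simp
  rw [hratio] at hy
  have hr1 : v.valuation E (((n0 : E) - 1) / t) = 1 := by
    have h1 : ((n0 : E) - 1) / t = 1 + (((n0 : E) - 1) / t - 1) := by ring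
    rw [h1]
    exact Valuation.map_one_add_of_lt _ hy
  have htv : v.valuation E t = 1 := by
    rw [map_div₀, hval] at hr1
    have h2 : v.valuation E t ≠ 0 := (Valuation.ne_zero_iff _).2 ht0
    rw [div_eq_one_iff_eq h2] at hr1
    exact hr1.symm
  have hdiff : v.valuation E (1 + t - n0) < 1 := by
    have h1 : 1 + t - (n0 : E) = -(t * (((n0 : E) - 1) / t - 1)) := by
      field_simp
      ring
    rw [h1, Valuation.map_neg, map_mul, htv, one_mul]
    exact hy
  have hNv : v.valuation E (1 + t) = 1 := by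
    have h1 : 1 + t = (n0 : E) + (1 + t - n0) := by ring
    rw [h1, Valuation.map_add_eq_of_lt_left, hnv]
    rw [hnv]
    exact hdiff
  have hN0 : 1 + t ≠ 0 := by
    intro h
    rw [h, map_zero] at hNv
    exact zero_ne_one hNv
  have hNn : LSq v ((1 + t) * (n0 : E)⁻¹) := by
    apply S7
    · exact mul_ne_zero hN0 (inv_ne_zero hn0E)
    · rw [w4]
      have h1 : (1 + t) * (n0 : E)⁻¹ - 1 = (1 + t - n0) * (n0 : E)⁻¹ := by
        field_simp
      rw [h1, map_mul, map_inv₀, hnv, inv_one, mul_one]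
      exact hdiff
  have han : LSq v (a * n0) :=
    res_two v hv a n0 ha hn0E hea (hord1 _ hn0E hnv) hLa hnL
  have hfin : LSq v (a * (1 + t)) := by
    have h1 := S3 _ _ han hNn
    have h2 : a * (n0 : E) * ((1 + t) * (n0 : E)⁻¹) = a * (1 + t) := by
      field_simp
    rwa [h2] at h1
  have hNe : (1 : E) ^ 2 - b * y ^ 2 = 1 + t := by
    rw [ht]
    ring
  refine ⟨1, y, ?_, ?_⟩
  · rw [hNe]
    exact hN0
  · rw [hNe]
    exact hfin


end J_LN_units

alias LN_units := J_LN_units.LN_units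

end CohNT
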