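import Mathlib
import Pool.Agent.H604C.Base
import Pool.Agent.H604C.P_ord_api
import Pool.Agent.H604C.P_good_exists
import Pool.Agent.H604C.P_good_mono
import Pool.Agent.H604C.P_fin_primes
set_option autoImplicit false
set_option maxHeartbeats 4000000
set_option synthInstance.maxHeartbeats 400000

namespace CohNT
open NumberField IsDedekindDomain Ideal

namespace J_N0_exists

theorem N0_exists {E : Type} [Field E] [NumberField E] (c0 c : 𝓞 E) (hc0 : c0 ≠ 0) (hc : 1 - 4 * c ≠ 0) :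
    ∃ (N0 : ℕ) (T : Finset (Pr E)), N0 ≠ 0 ∧ 2 ∣ N0 ∧ Good T ∧
      (∀ v : Pr E, v ∈ T ↔ v.valuation E (N0 : E) < 1) ∧
      (∀ v : Pr E, v ∉ T → ¬ Dy v ∧ v.valuation E (3 : E) = 1 ∧ v.valuation E (c0 : E) = 1 ∧
        v.valuation E (1 - 4 * (c : E)) = 1 ∧ v.valuation E (N0 : E) = 1) := by
  classical
  have h3 : (3 : E) ≠ 0 := by norm_num
  have hc0' : (c0 : E) ≠ 0 := RingOfIntegers.coe_ne_zero_iff.2 hc0
  have hc' : (1 - 4 * (c : E)) ≠ 0 := by
    have h1 := (RingOfIntegers.coe_ne_zero_iff (K := E)).2 hc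
    rw [map_sub, map_mul, map_one, map_ofNat] at h1
    exact h1
  obtain ⟨S1, hS1, hD⟩ := fin_primes (3 : E) h3
  obtain ⟨S2, hS2, -⟩ := fin_primes (c0 : E) hc0'
  obtain ⟨S3, hS3, -⟩ := fin_primes (1 - 4 * (c : E)) hc'
  obtain ⟨S, hS, hG⟩ := good_exists (S1 ∪ (S2 ∪ S3))
  obtain ⟨N0, hN0⟩ : ∃ N0 : ℕ, N0 = 6 * ∏ v ∈ S, Ideal.absNorm v.asIdeal := ⟨_, rfl⟩
  have hN0ne : N0 ≠ 0 := by
    rw [hN0]
    refine mul_ne_zero (by norm_num) (Finset.prod_ne_zero_iff.2 fun v _ => ?_)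
    rw [Ne, Ideal.absNorm_eq_zero_iff]
    exact v.ne_bot
  have hN0E : (N0 : E) ≠ 0 := Nat.cast_ne_zero.2 hN0ne
  have hcast : ∀ v : Pr E, v.valuation E (N0 : E) = v.valuation E (algebraMap (𝓞 E) E (N0 : 𝓞 E)) := by
    intro v
    rw [map_natCast (algebraMap (𝓞 E) E)]
  have hle : ∀ v : Pr E, v.valuation E (N0 : E) ≤ 1 := by
    intro v
    rw [hcast]
    exact v.valuation_le_one _
  obtain ⟨S4, hS4, -⟩ := fin_primes (N0 : E) hN0E
  have hT : ∀ v : Pr E, v ∈ S4.filter (fun v => v.valuation E (N0 : E) < 1) ↔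
      v.valuation E (N0 : E) < 1 := by
    intro v
    rw [Finset.mem_filter]
    refine ⟨fun h => h.2, fun h => ⟨?_, h⟩⟩
    by_contra hcon
    rw [hS4 v hcon] at h
    exact lt_irrefl _ h
  have hST : S ⊆ S4.filter (fun v => v.valuation E (N0 : E) < 1) := by
    intro v hv
    rw [hT, hcast]
    have h1 : (N0 : 𝓞 E) ∈ v.asIdeal := by
      have h2 : Ideal.absNorm v.asIdeal ∣ N0 := by
        rw [hN0]
        exact Dvd.dvd.mul_left (Finset.dvd_prod_of_mem _ hv) _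
      obtain ⟨m, hm⟩ := h2
      rw [hm, Nat.cast_mul]
      exact Ideal.mul_mem_right _ _ (Ideal.absNorm_mem _)
    exact (v.valuation_lt_one_iff_mem _).2 h1
  refine ⟨N0, S4.filter (fun v => v.valuation E (N0 : E) < 1), hN0ne, ?_, good_mono S _ hST hG, hT, ?_⟩
  · rw [hN0]
    exact Dvd.dvd.mul_right (by norm_num) _
  · intro v hv
    have hvS : v ∉ S := fun h => hv (hST h)
    have hv0 : v ∉ S1 ∪ (S2 ∪ S3) := fun h => hvS (hS h)
    simp only [Finset.mem_union, not_or] at hv0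
    refine ⟨fun h => hv0.1 (hD v h), hS1 v hv0.1, hS2 v hv0.2.1, hS3 v hv0.2.2, ?_⟩
    rcases (hle v).lt_or_eq with h | h
    · exact absurd ((hT v).2 h) hv
    · exact h


end J_N0_exists

alias N0_exists := J_N0_exists.N0_exists

end CohNT
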