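import Mathlib
import Pool.Agent.H604C.Base
import Pool.Agent.H604C.P_ord_api
set_option autoImplicit false
set_option maxHeartbeats 4000000
set_option synthInstance.maxHeartbeats 400000

namespace CohNT
open NumberField IsDedekindDomain Ideal

namespace J_RN_iff

theorem RN_iff {E : Type} [Field E] [NumberField E] (N : ℕ) (hN : N ≠ 0) (x : E) :
    x ∈ RN E N ↔ ∀ v : Pr E, v.valuation E (N : E) = 1 → v.valuation E x ≤ 1 := by
  have hNE : (N : E) ≠ 0 := Nat.cast_ne_zero.2 hN
  have hN1 : ∀ v : Pr E, v.valuation E (N : E) ≤ 1 := by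
    intro v
    have h1 : v.valuation E (algebraMap (𝓞 E) E ((N : ℕ) : 𝓞 E)) ≤ 1 :=
      v.valuation_le_one (K := E) ((N : ℕ) : 𝓞 E)
    rwa [map_natCast] at h1
  constructor
  · rintro ⟨k, hk⟩ v hv
    have h1 : v.valuation E ((N : E) ^ k * x) ≤ 1 := v.valuation_le_one (K := E) (⟨_, hk⟩ : 𝓞 E)
    rwa [map_mul, map_pow, hv, one_pow, one_mul] at h1
  · intro h
    by_cases hx : x = 0
    · refine ⟨0, ?_⟩
      rw [hx, mul_zero]
      exact isIntegral_zero
    have hfin := HeightOneSpectrum.Support.finite (𝓞 E) (K := E) x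
    obtain ⟨k, hk⟩ : ∃ k : ℕ, ∀ v ∈ HeightOneSpectrum.Support (𝓞 E) (K := E) x,
        (ord v x).natAbs ≤ k := by
      refine ⟨∑ v ∈ hfin.toFinset, (ord v x).natAbs, ?_⟩
      intro v hv
      exact Finset.single_le_sum (f := fun v => (ord v x).natAbs) (fun _ _ => Nat.zero_le _)
        (hfin.mem_toFinset.2 hv)
    have hall : ∀ v : Pr E, v.valuation E ((N : E) ^ k * x) ≤ 1 := by
      intro v
      by_cases hv : v.valuation E x ≤ 1
      · rw [map_mul, map_pow]
        exact mul_le_one' (pow_le_one' (hN1 v) k) hv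
      · have hv2 : v ∈ HeightOneSpectrum.Support (𝓞 E) (K := E) x := not_le.1 hv
        have hv3 := hk v hv2
        have hv4 : v.valuation E (N : E) ≠ 1 := fun h2 => hv (h v h2)
        obtain ⟨-, -, -, hmul, -, -, hpow, -, -, -, h10, h11, h12, -, -, h15, -⟩ := ord_api v
        have hN2 : 0 ≤ ord v (N : E) := (h11 _ hNE).1 (hN1 v)
        have hN3 : ord v (N : E) ≠ 0 := fun h2 => hv4 ((h10 _ hNE).2 h2)
        rw [h11 _ (mul_ne_zero (pow_ne_zero k hNE) hx), hmul _ _ (pow_ne_zero k hNE) hx, hpow]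
        have h3 : (k : ℤ) * 1 ≤ (k : ℤ) * ord v (N : E) :=
          mul_le_mul_of_nonneg_left (by omega) (by positivity)
        omega
    obtain ⟨y, hy⟩ := HeightOneSpectrum.mem_integers_of_valuation_le_one (R := 𝓞 E) (K := E) _ hall
    refine ⟨k, ?_⟩
    rw [← hy]
    exact y.2



end J_RN_iff

alias RN_iff := J_RN_iff.RN_iff

end CohNT
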