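import Mathlib
import Pool.Agent.H604C.Base
set_option autoImplicit false
set_option maxHeartbeats 4000000
set_option synthInstance.maxHeartbeats 400000

namespace CohNT
open NumberField IsDedekindDomain Ideal

namespace J_RN_ring

theorem RN_ring {E : Type} [Field E] [NumberField E] (N : ℕ) :
    (0 : E) ∈ RN E N ∧ (1 : E) ∈ RN E N ∧ (∀ x ∈ RN E N, ∀ y ∈ RN E N, x + y ∈ RN E N) ∧
    (∀ x ∈ RN E N, ∀ y ∈ RN E N, x * y ∈ RN E N) ∧ (∀ x ∈ RN E N, -x ∈ RN E N) ∧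
    (∀ x : 𝓞 E, (x : E) ∈ RN E N) := by
  have hN : ∀ k : ℕ, IsIntegral ℤ ((N : E) ^ k) := by
    intro k
    have h1 : IsIntegral ℤ ((N : ℤ) : E) := isIntegral_algebraMap (R := ℤ) (A := E) (x := (N : ℤ))
    have h2 : ((N : ℤ) : E) = (N : E) := by push_cast; rfl
    rw [h2] at h1
    exact h1.pow k
  refine ⟨⟨0, ?_⟩, ⟨0, ?_⟩, ?_, ?_, ?_, ?_⟩
  · rw [mul_zero]
    exact isIntegral_zero
  · rw [pow_zero, mul_one]
    exact isIntegral_one
  · rintro x ⟨k, hk⟩ y ⟨l, hl⟩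
    refine ⟨k + l, ?_⟩
    have h1 : (N : E) ^ (k + l) * (x + y) =
        (N : E) ^ l * ((N : E) ^ k * x) + (N : E) ^ k * ((N : E) ^ l * y) := by ring
    rw [h1]
    exact ((hN l).mul hk).add ((hN k).mul hl)
  · rintro x ⟨k, hk⟩ y ⟨l, hl⟩
    refine ⟨k + l, ?_⟩
    have h1 : (N : E) ^ (k + l) * (x * y) = ((N : E) ^ k * x) * ((N : E) ^ l * y) := by ring
    rw [h1]
    exact hk.mul hl
  · rintro x ⟨k, hk⟩
    refine ⟨k, ?_⟩
    rw [mul_neg]
    exact hk.neg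
  · intro x
    refine ⟨0, ?_⟩
    rw [pow_zero, one_mul]
    exact x.isIntegral_coe


end J_RN_ring

alias RN_ring := J_RN_ring.RN_ring

end CohNT
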