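import Mathlib
import Pool.Agent.H604C.Base
import Pool.Agent.H604C.P_ord_api
import Pool.Agent.H604C.P_RN_iff
set_option autoImplicit false
set_option maxHeartbeats 4000000
set_option synthInstance.maxHeartbeats 400000

namespace CohNT
open NumberField IsDedekindDomain Ideal

namespace J_RN_sep

theorem exists_inv_unif {E : Type} [Field E] [NumberField E] (v : Pr E) :
    ∃ j : E, j ≠ 0 ∧ ord v j = -1 ∧ ∀ v' : Pr E, v' ≠ v → v'.valuation E j ≤ 1 := by
  obtain ⟨j, hj, hj1⟩ := FractionalIdeal.exists_notMem_one_of_ne_bot (K := E) (A := 𝓞 E)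
    (I := v.asIdeal) v.ne_bot v.isPrime.ne_top
  have hI : ((v.asIdeal : FractionalIdeal (nonZeroDivisors (𝓞 E)) E)) ≠ 0 := by
    rw [FractionalIdeal.coeIdeal_ne_zero]
    exact v.ne_bot
  rw [FractionalIdeal.mem_inv_iff hI] at hj
  have hj2 : ∀ i ∈ v.asIdeal, ∀ w : Pr E, w.valuation E (j * algebraMap (𝓞 E) E i) ≤ 1 := by
    intro i hi w
    have := hj (algebraMap (𝓞 E) E i) (FractionalIdeal.mem_coeIdeal_of_mem _ hi)
    rw [FractionalIdeal.mem_one_iff] at this
    obtain ⟨r, hr⟩ := this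
    rw [← hr]
    exact w.valuation_le_one r
  have hj0 : j ≠ 0 := by
    rintro rfl
    exact hj1 (FractionalIdeal.zero_mem _)
  have hother : ∀ v' : Pr E, v' ≠ v → v'.valuation E j ≤ 1 := by
    intro v' hv'
    have hnle : ¬ v.asIdeal ≤ v'.asIdeal := by
      intro hle
      apply hv'
      ext1
      have hm : v.asIdeal.IsMaximal := v.isMaximal
      exact (hm.eq_of_le v'.isPrime.ne_top hle).symm
    obtain ⟨i, hi, hi'⟩ := SetLike.not_le_iff_exists.mp hnle
    have h1 := hj2 i hi v'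
    rw [map_mul] at h1
    have h2 : v'.valuation E (algebraMap (𝓞 E) E i) = 1 :=
      (v'.valuation_eq_one_iff_notMem (K := E)).mpr hi'
    rw [h2, mul_one] at h1
    exact h1
  obtain ⟨-, -, -, hmul, -, -, -, -, -, hle, -, hle1, hlt1, -, -, -, -⟩ := ord_api v
  refine ⟨j, hj0, ?_, hother⟩
  have hneg : ord v j < 0 := by
    by_contra hcon
    push Not at hcon
    have h3 : v.valuation E j ≤ 1 := (hle1 j hj0).mpr hcon
    apply hj1
    rw [FractionalIdeal.mem_one_iff]
    have := HeightOneSpectrum.mem_integers_of_valuation_le_one (R := 𝓞 E) E j (by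
      intro w
      by_cases hw : w = v
      · rw [hw]; exact h3
      · exact hother w hw)
    obtain ⟨r, hr⟩ := this
    exact ⟨r, hr⟩
  obtain ⟨π, hπ⟩ := v.valuation_exists_uniformizer' E
  have hπm : π ∈ v.asIdeal := by
    rw [← HeightOneSpectrum.valuation_lt_one_iff_mem (K := E)]
    have hπ' : v.valuation E (algebraMap (𝓞 E) E π) = WithZero.exp (-1) := hπ
    show v.valuation E (algebraMap (𝓞 E) E π) < 1
    rw [hπ', ← WithZero.exp_zero, WithZero.exp_lt_exp]
    norm_num
  have hπ0 : algebraMap (𝓞 E) E π ≠ 0 := by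
    intro h0
    have hπ' : v.valuation E (algebraMap (𝓞 E) E π) = WithZero.exp (-1) := hπ
    rw [h0, map_zero] at hπ'
    exact absurd hπ'.symm WithZero.exp_ne_zero
  have hordπ : ord v (algebraMap (𝓞 E) E π) = 1 := by
    have hπ' : v.valuation E (algebraMap (𝓞 E) E π) = WithZero.exp (-1) := hπ
    unfold ord
    rw [hπ', WithZero.log_exp]
    norm_num
  have h4 := hj2 π hπm v
  rw [hle1 _ (mul_ne_zero hj0 hπ0), hmul j _ hj0 hπ0, hordπ] at h4
  omega

theorem RN_sep {E : Type} [Field E] [NumberField E] (N0 : ℕ) (hN0 : N0 ≠ 0) (a : E) (ha : a ≠ 0) (haR : a ∈ RN E N0) (v : Pr E)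
    (hv : v.valuation E (N0 : E) = 1) (hva : v.valuation E a < 1) :
    ∃ x ∈ RN E N0, x / a ∉ RN E N0 ∧ ord v x + 1 = ord v a ∧
      (∀ y : E, v.valuation E y < 1 → y ∈ RN E N0 → x * y / a ∈ RN E N0) := by
  obtain ⟨j, hj0, hordj, hother⟩ := exists_inv_unif v
  obtain ⟨-, -, -, hmul, -, -, -, -, -, hle, -, hle1, hlt1, -, -, -, -⟩ := ord_api v
  have haR' := (RN_iff N0 hN0 a).mp haR
  have horda : 0 < ord v a := (hlt1 a ha).mp hva
  have haj : a * j ≠ 0 := mul_ne_zero ha hj0
  have hordaj : ord v (a * j) = ord v a - 1 := by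
    rw [hmul a j ha hj0, hordj]; ring
  refine ⟨a * j, ?_, ?_, ?_, ?_⟩
  · rw [RN_iff N0 hN0]
    intro w hw
    by_cases hwv : w = v
    · subst hwv
      rw [hle1 _ haj, hordaj]
      omega
    · rw [map_mul]
      exact mul_le_one' (haR' w hw) (hother w hwv)
  · rw [RN_iff N0 hN0, mul_div_cancel_left₀ j ha]
    intro hcon
    have := hcon v hv
    rw [hle1 j hj0, hordj] at this
    omega
  · rw [hordaj]; ring
  · intro y hy hyR
    have hyR' := (RN_iff N0 hN0 y).mp hyR
    have h5 : a * j * y / a = j * y := by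
      field_simp
    rw [h5, RN_iff N0 hN0]
    intro w hw
    by_cases hwv : w = v
    · subst hwv
      by_cases hy0 : y = 0
      · rw [hy0, mul_zero, map_zero]
        exact zero_le_one
      · have h6 : 0 < ord w y := (hlt1 y hy0).mp hy
        rw [hle1 _ (mul_ne_zero hj0 hy0), hmul j y hj0 hy0, hordj]
        omega
    · rw [map_mul]
      exact mul_le_one' (hother w hwv) (hyR' w hw)


end J_RN_sep

alias RN_sep := J_RN_sep.RN_sep

end CohNT
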