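import Mathlib
import Pool.Agent.H604C.Base
set_option autoImplicit false
set_option maxHeartbeats 4000000
set_option synthInstance.maxHeartbeats 400000

namespace CohNT
open NumberField IsDedekindDomain Ideal

namespace J_ff_rich

theorem exists_nonsq (k : Type) [Field k] [Finite k] (h2 : (2 : k) ≠ 0) :
    ∃ u : k, ¬ IsSquare (u ^ 2 + 8) := by
  by_contra hcon
  push Not at hcon
  choose w hw using hcon
  have h8 : (8 : k) ≠ 0 := by
    have : (8 : k) = 2 ^ 3 := by norm_num
    rw [this]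
    exact pow_ne_zero _ h2
  have hprod : ∀ u, (w u - u) * (w u + u) = 8 := by
    intro u
    linear_combination -(hw u)
  have ht : ∀ u, w u - u ≠ 0 := by
    intro u h0
    have := hprod u
    rw [h0, zero_mul] at this
    exact h8 this.symm
  have hinj : Function.Injective (fun u : k => w u - u) := by
    intro u v huv
    simp only at huv
    have h1 := hprod u
    have h3 := hprod v
    rw [huv] at h1
    have h4 : w u + u = w v + v := mul_left_cancel₀ (ht v) (h1.trans h3.symm)
    have h5 : 2 * u = 2 * v := by linear_combination h4 - huv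
    exact mul_left_cancel₀ h2 h5
  obtain ⟨u, hu⟩ := (Finite.injective_iff_surjective.1 hinj) 0
  exact ht u hu

theorem norm_surj (k : Type) [Field k] [Finite k] (h2 : (2 : k) ≠ 0) (c : k)
    (hc : 1 - 4 * c ≠ 0) (a : k) : ∃ y1 y2 : k, y1 ^ 2 + y1 * y2 + c * y2 ^ 2 = a := by
  classical
  haveI := Fintype.ofFinite k
  have hchar : ringChar k ≠ 2 := by
    intro h
    have h1 := ringChar.Nat.cast_ringChar (R := k)
    rw [h] at h1
    exact h2 (by exact_mod_cast h1)
  have h4 : (4 : k) ≠ 0 := by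
    have : (4 : k) = 2 ^ 2 := by norm_num
    rw [this]
    exact pow_ne_zero _ h2
  have hd : -(1 - 4 * c) / 4 ≠ 0 := div_ne_zero (neg_ne_zero.2 hc) h4
  obtain ⟨x, y, hxy⟩ := FiniteField.exists_root_sum_quadratic (R := k)
    (f := Polynomial.X ^ 2 - Polynomial.C a) (g := Polynomial.C (-(1 - 4 * c) / 4) * Polynomial.X ^ 2)
    (Polynomial.degree_X_pow_sub_C (by norm_num) a) (Polynomial.degree_C_mul_X_pow 2 hd)
    (FiniteField.odd_card_of_char_ne_two hchar)
  simp only [Polynomial.eval_sub, Polynomial.eval_pow, Polynomial.eval_X, Polynomial.eval_C,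
    Polynomial.eval_mul] at hxy
  refine ⟨x - y / 2, y, ?_⟩
  field_simp at hxy ⊢
  linear_combination hxy

theorem ff_rich (k : Type) [Field k] [Finite k] (h2 : (2 : k) ≠ 0) (h3 : (3 : k) ≠ 0)
    (c0 c : k) (hc0 : c0 ≠ 0) (hc : 1 - 4 * c ≠ 0) :
    ∃ y1 y2 : k, ¬ IsSquare ((1 + c0 * (y1 ^ 2 + y1 * y2 + c * y2 ^ 2)) ^ 2 + 8) := by
  obtain ⟨u, hu⟩ := exists_nonsq k h2
  obtain ⟨y1, y2, hy⟩ := norm_surj k h2 c hc ((u - 1) / c0)
  refine ⟨y1, y2, ?_⟩
  rw [hy, mul_div_cancel₀ _ hc0]
  have : 1 + (u - 1) = u := by ring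
  rwa [this]


end J_ff_rich

alias ff_rich := J_ff_rich.ff_rich

end CohNT
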