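import Mathlib
import Pool.Agent.H604C.Base
import Pool.Agent.H604C.P_ord_api
import Pool.Agent.H604C.P_LSq_api
import Pool.Agent.H604C.P_ff_rich
set_option autoImplicit false
set_option maxHeartbeats 4000000
set_option synthInstance.maxHeartbeats 400000

namespace CohNT
open NumberField IsDedekindDomain Ideal

namespace J_fam_rich

theorem fam_rich_sq {E : Type} [Field E] [NumberField E] (v : Pr E) (b : 𝓞 E) (hv : ¬ Dy v)
    (hb : v.valuation E (b : E) = 1) (h : LSq v (b : E)) :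
    ∃ a : 𝓞 E, b - a ^ 2 ∈ v.asIdeal := by
  obtain ⟨y, hy⟩ := h
  have h2 : v.valuation E (2 : E) = 1 := by
    have h3 : v.valuation E (algebraMap (𝓞 E) E (2 : 𝓞 E)) ≤ 1 :=
      v.valuation_le_one (K := E) (2 : 𝓞 E)
    have h4 : algebraMap (𝓞 E) E (2 : 𝓞 E) = 2 := map_ofNat _ 2
    rw [h4] at h3
    exact le_antisymm h3 (not_lt.1 hv)
  have h4 : v.valuation E (4 * (b : E)) = 1 := by
    have : (4 : E) = 2 * 2 := by norm_num
    rw [this, map_mul, map_mul, h2, hb]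
    simp
  rw [h4] at hy
  have hy2 : v.valuation E (y ^ 2) ≤ 1 := by
    have h5 : y ^ 2 = (b : E) - ((b : E) - y ^ 2) := by ring
    rw [h5]
    refine (Valuation.map_sub _ _ _).trans (max_le hb.le hy.le)
  have hy1 : v.valuation E y ≤ 1 := by
    rw [map_pow] at hy2
    by_contra hcon
    push Not at hcon
    have := one_lt_pow₀ hcon (two_ne_zero)
    exact absurd hy2 (not_le.2 this)
  obtain ⟨a, ha⟩ := v.exists_valuation_sub_lt_of_integer (K := E) hy1 1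
  rw [Units.val_one] at ha
  refine ⟨a, ?_⟩
  rw [← v.valuation_lt_one_iff_mem (K := E)]
  show v.valuation E (algebraMap (𝓞 E) E (b - a ^ 2)) < 1
  have h6 : algebraMap (𝓞 E) E (b - a ^ 2) =
      ((b : E) - y ^ 2) - (algebraMap (𝓞 E) E a - y) * (algebraMap (𝓞 E) E a + y) := by
    rw [map_sub, map_pow]
    ring
  rw [h6]
  refine (Valuation.map_sub _ _ _).trans_lt (max_lt hy ?_)
  rw [map_mul]
  have h7 : v.valuation E (algebraMap (𝓞 E) E a + y) ≤ 1 :=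
    (Valuation.map_add _ _ _).trans (max_le (v.valuation_le_one (K := E) a) hy1)
  calc v.valuation E (algebraMap (𝓞 E) E a - y) * v.valuation E (algebraMap (𝓞 E) E a + y)
      ≤ v.valuation E (algebraMap (𝓞 E) E a - y) * 1 := mul_le_mul_right h7 _
    _ < 1 := by rw [mul_one]; exact ha

theorem fam_rich {E : Type} [Field E] [NumberField E] (c0 c : 𝓞 E) (v : Pr E) (hv : ¬ Dy v)
    (h3 : v.valuation E (3 : E) = 1) (hc0 : v.valuation E (c0 : E) = 1)
    (hc : v.valuation E (1 - 4 * (c : E)) = 1) :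
    ∃ b : 𝓞 E, (b : E) ∈ Fam (c0 : E) (c : E) ∧ v.valuation E (b : E) = 1 ∧ ¬ LSq v (b : E) := by
  haveI hmax : v.asIdeal.IsMaximal := v.isMaximal
  letI : Field (𝓞 E ⧸ v.asIdeal) := Ideal.Quotient.field v.asIdeal
  haveI : Finite (𝓞 E ⧸ v.asIdeal) := v.asIdeal.finiteQuotientOfFreeOfNeBot v.ne_bot
  have hne : ∀ x : 𝓞 E, v.valuation E (x : E) = 1 → (Ideal.Quotient.mk v.asIdeal x) ≠ 0 := by
    intro x hx
    rw [Ne, Ideal.Quotient.eq_zero_iff_mem]
    exact v.valuation_eq_one_iff_notMem.1 hx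
  have h2v : v.valuation E (2 : E) = 1 := by
    have h3 : v.valuation E (algebraMap (𝓞 E) E (2 : 𝓞 E)) ≤ 1 :=
      v.valuation_le_one (K := E) (2 : 𝓞 E)
    have h4 : algebraMap (𝓞 E) E (2 : 𝓞 E) = 2 := map_ofNat _ 2
    rw [h4] at h3
    exact le_antisymm h3 (not_lt.1 hv)
  have h2 : (2 : 𝓞 E ⧸ v.asIdeal) ≠ 0 := by
    have h3 := hne 2 (by
      have h4 : algebraMap (𝓞 E) E (2 : 𝓞 E) = 2 := map_ofNat _ 2
      rw [← h4] at h2v
      exact h2v)
    rwa [map_ofNat] at h3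
  have h3' : (3 : 𝓞 E ⧸ v.asIdeal) ≠ 0 := by
    have h4 := hne 3 (by
      have h4 : algebraMap (𝓞 E) E (3 : 𝓞 E) = 3 := map_ofNat _ 3
      rw [← h4] at h3
      exact h3)
    rwa [map_ofNat] at h4
  have hc' : 1 - 4 * Ideal.Quotient.mk v.asIdeal c ≠ 0 := by
    have h4 := hne (1 - 4 * c) (by
      have h5 : ((1 - 4 * c : 𝓞 E) : E) = 1 - 4 * (c : E) := by
        push_cast
        rfl
      rw [h5]
      exact hc)
    rwa [map_sub, map_mul, map_one, map_ofNat] at h4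
  obtain ⟨y1, y2, hy⟩ := ff_rich (𝓞 E ⧸ v.asIdeal) h2 h3' (Ideal.Quotient.mk v.asIdeal c0)
    (Ideal.Quotient.mk v.asIdeal c) (hne c0 hc0) hc'
  obtain ⟨a1, rfl⟩ := Ideal.Quotient.mk_surjective y1
  obtain ⟨a2, rfl⟩ := Ideal.Quotient.mk_surjective y2
  obtain ⟨b, hb⟩ : ∃ b : 𝓞 E, b = (1 + c0 * (a1 ^ 2 + a1 * a2 + c * a2 ^ 2)) ^ 2 + 8 := ⟨_, rfl⟩
  have hmk : Ideal.Quotient.mk v.asIdeal b = (1 + Ideal.Quotient.mk v.asIdeal c0 *
      (Ideal.Quotient.mk v.asIdeal a1 ^ 2 + Ideal.Quotient.mk v.asIdeal a1 *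
        Ideal.Quotient.mk v.asIdeal a2 + Ideal.Quotient.mk v.asIdeal c *
        Ideal.Quotient.mk v.asIdeal a2 ^ 2)) ^ 2 + 8 := by
    rw [hb]
    simp only [map_add, map_mul, map_pow, map_one, map_ofNat]
  rw [← hmk] at hy
  have hmk0 : Ideal.Quotient.mk v.asIdeal b ≠ 0 := by
    intro h0
    apply hy
    rw [h0]
    exact ⟨0, by simp⟩
  have hb0 : b ≠ 0 := by
    rintro rfl
    exact hmk0 (map_zero _)
  have hbv : v.valuation E (b : E) = 1 := by
    apply v.valuation_eq_one_iff_notMem.2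
    rw [← Ideal.Quotient.eq_zero_iff_mem]
    exact hmk0
  refine ⟨b, ⟨?_, 1, (a1 : E), (a2 : E), ?_⟩, hbv, fun hsq => ?_⟩
  · exact_mod_cast hb0
  · show algebraMap (𝓞 E) E b = (1 ^ 2 + algebraMap (𝓞 E) E c0 * (algebraMap (𝓞 E) E a1 ^ 2 +
      algebraMap (𝓞 E) E a1 * algebraMap (𝓞 E) E a2 + algebraMap (𝓞 E) E c *
      algebraMap (𝓞 E) E a2 ^ 2)) ^ 2 + 8 * 1 ^ 4
    rw [hb]
    simp only [map_add, map_mul, map_pow, map_one, map_ofNat]
    ring
  · obtain ⟨a, ha⟩ := fam_rich_sq v b hv hbv hsq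
    apply hy
    refine ⟨Ideal.Quotient.mk v.asIdeal a, ?_⟩
    rw [← map_mul, Ideal.Quotient.eq, ← pow_two]
    exact ha


end J_fam_rich

alias fam_rich := J_fam_rich.fam_rich

end CohNT
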