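import Mathlib
import Pool.Agent.H604C.Base
import Pool.Agent.H604C.P_ord_api
import Pool.Agent.H604C.P_RN_iff
import Pool.Agent.H604C.P_RN_ring
set_option autoImplicit false
set_option maxHeartbeats 4000000
set_option synthInstance.maxHeartbeats 400000

namespace CohNT
open NumberField IsDedekindDomain Ideal

namespace J_reps_mod

theorem inv_aux {E : Type} [Field E] [NumberField E] (v : Pr E) (y : 𝓞 E) (hy : y ∉ v.asIdeal) :
    ∃ z i : 𝓞 E, i ∈ v.asIdeal ∧ z * y + i = 1 := by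
  obtain ⟨z, i, hi, h⟩ := v.isMaximal.exists_inv hy
  exact ⟨z, i, hi, h⟩

theorem lt_aux {E : Type} [Field E] [NumberField E] (v : Pr E) (y : 𝓞 E) :
    v.valuation E (y : E) < 1 ↔ y ∈ v.asIdeal :=
  v.valuation_lt_one_iff_mem y

theorem le_aux {E : Type} [Field E] [NumberField E] (v : Pr E) (y : 𝓞 E) :
    v.valuation E (y : E) ≤ 1 :=
  v.valuation_le_one y

theorem approx_aux {E : Type} [Field E] [NumberField E] (N0 : ℕ) (hN0 : N0 ≠ 0) (v : Pr E)
    (hv : v.valuation E (N0 : E) = 1) (x : E) (hx : x ∈ RN E N0) :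
    ∃ y : 𝓞 E, v.valuation E (x - (y : E)) < 1 := by
  have hx1 : v.valuation E x ≤ 1 := (RN_iff N0 hN0 x).1 hx v hv
  obtain ⟨k, hk⟩ := hx
  obtain ⟨r, hr⟩ : ∃ r : 𝓞 E, (r : E) = (N0 : E) ^ k * x := ⟨⟨_, hk⟩, rfl⟩
  have hN : ((N0 : ℕ) : 𝓞 E) ∉ v.asIdeal := by
    intro h
    have := (lt_aux v _).2 h
    have e : (((N0 : ℕ) : 𝓞 E) : E) = (N0 : E) := by simp
    rw [e, hv] at this
    exact lt_irrefl _ this
  obtain ⟨m, i, hi, hm⟩ := inv_aux v _ hN
  refine ⟨r * m ^ k, ?_⟩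
  have h1 : (1 - ((N0 : 𝓞 E) * m) ^ k) ∈ v.asIdeal := by
    have h2 : (1 - (N0 : 𝓞 E) * m) ∣ (1 ^ k - ((N0 : 𝓞 E) * m) ^ k) := sub_dvd_pow_sub_pow _ _ k
    rw [one_pow] at h2
    refine v.asIdeal.mem_of_dvd h2 ?_
    have h3 : 1 - (N0 : 𝓞 E) * m = i := by linear_combination -hm
    rw [h3]
    exact hi
  have h4 := (lt_aux v _).2 h1
  have h5 : x - ((r * m ^ k : 𝓞 E) : E) = x * ((1 - ((N0 : 𝓞 E) * m) ^ k : 𝓞 E) : E) := by
    have hr' : algebraMap (𝓞 E) E r = (N0 : E) ^ k * x := hr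
    show x - algebraMap (𝓞 E) E (r * m ^ k) = x * algebraMap (𝓞 E) E (1 - ((N0 : 𝓞 E) * m) ^ k)
    rw [map_mul, map_sub, map_pow, map_pow, map_mul, map_one, map_natCast, hr']
    ring
  rw [h5, map_mul]
  calc v.valuation E x * v.valuation E ((1 - ((N0 : 𝓞 E) * m) ^ k : 𝓞 E) : E)
      ≤ 1 * v.valuation E ((1 - ((N0 : 𝓞 E) * m) ^ k : 𝓞 E) : E) := by gcongr
    _ < 1 := by rw [one_mul]; exact h4

theorem reps_mod {E : Type} [Field E] [NumberField E] (N0 : ℕ) (hN0 : N0 ≠ 0) (v : Pr E) (hv : v.valuation E (N0 : E) = 1)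
    (a : E) (ha : a ≠ 0) (hva : ord v a = 1)
    (ha' : ∀ v' : Pr E, v'.valuation E (N0 : E) = 1 → v' ≠ v → v'.valuation E a = 1) :
    (∀ x ∈ RN E N0, (x / a ∈ RN E N0 ↔ v.valuation E x < 1)) ∧
    (∃ A : Finset E, (∀ x ∈ A, x ∈ RN E N0) ∧ ∀ x ∈ RN E N0, ∃ y ∈ A, (x - y) / a ∈ RN E N0) ∧
    (∀ x ∈ RN E N0, v.valuation E x = 1 → ∃ z ∈ RN E N0, (x * z - 1) / a ∈ RN E N0) := by
  obtain ⟨-, -, -, -, -, -, -, -, -, hle, -, -, hlt, -, -, -, -⟩ := ord_api v
  have hva0 : v.valuation E a ≠ 0 := (Valuation.ne_zero_iff _).2 ha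
  have P1 : ∀ x ∈ RN E N0, (x / a ∈ RN E N0 ↔ v.valuation E x < 1) := by
    intro x hx
    have hxle := (RN_iff N0 hN0 x).1 hx
    have key : v.valuation E x ≤ v.valuation E a ↔ v.valuation E x < 1 := by
      by_cases hx0 : x = 0
      · rw [hx0, map_zero]
        exact ⟨fun _ => zero_lt_one, fun _ => zero_le⟩
      · rw [hle x a hx0 ha, hlt x hx0, hva]
        omega
    rw [← key, RN_iff N0 hN0]
    constructor
    · intro h
      have h1 := h v hv
      rw [map_div₀] at h1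
      rwa [div_le_one₀ (zero_lt_iff.2 hva0)] at h1
    · intro h v' hv'
      rw [map_div₀]
      by_cases e : v' = v
      · rw [e, div_le_one₀ (zero_lt_iff.2 hva0)]
        exact h
      · rw [ha' v' hv' e, div_one]
        exact hxle v' hv'
  obtain ⟨-, h1mem, hadd, hmul, hneg, hint⟩ := RN_ring (E := E) N0
  refine ⟨P1, ?_, ?_⟩
  · have hfin : Finite (𝓞 E ⧸ v.asIdeal) := Ideal.finiteQuotientOfFreeOfNeBot _ v.ne_bot
    have hfin2 := Fintype.ofFinite (𝓞 E ⧸ v.asIdeal)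
    classical
    refine ⟨Finset.univ.image fun q : 𝓞 E ⧸ v.asIdeal => ((Quotient.out q : 𝓞 E) : E), ?_, ?_⟩
    · intro x hx
      obtain ⟨q, -, rfl⟩ := Finset.mem_image.1 hx
      exact hint _
    · intro x hx
      obtain ⟨y, hy⟩ := approx_aux N0 hN0 v hv x hx
      refine ⟨((Quotient.out (Ideal.Quotient.mk v.asIdeal y) : 𝓞 E) : E),
        Finset.mem_image.2 ⟨_, Finset.mem_univ _, rfl⟩, ?_⟩
      set y' : 𝓞 E := Quotient.out (Ideal.Quotient.mk v.asIdeal y) with hy'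
      have hmk : Ideal.Quotient.mk v.asIdeal y' = Ideal.Quotient.mk v.asIdeal y :=
        Quotient.out_eq' _
      have hyy : y - y' ∈ v.asIdeal := Ideal.Quotient.eq.1 hmk.symm
      have hxy : x - (y' : E) ∈ RN E N0 := by
        rw [sub_eq_add_neg]
        exact hadd _ hx _ (hneg _ (hint y'))
      rw [P1 _ hxy]
      have e : x - (y' : E) = (x - (y : E)) + ((y - y' : 𝓞 E) : E) := by
        push_cast
        ring
      rw [e]
      exact (v.valuation E).map_add_lt hy ((lt_aux v _).2 hyy)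
  · intro x hx hx1
    obtain ⟨y, hy⟩ := approx_aux N0 hN0 v hv x hx
    have hyv : y ∉ v.asIdeal := by
      intro h
      have h2 := (lt_aux v _).2 h
      have e : x = (x - (y : E)) + (y : E) := by ring
      have h3 := (v.valuation E).map_add_lt hy h2
      rw [← e, hx1] at h3
      exact lt_irrefl _ h3
    obtain ⟨z, i, hi, hz⟩ := inv_aux v y hyv
    refine ⟨(z : E), hint z, ?_⟩
    have hmem : x * (z : E) - 1 ∈ RN E N0 := by
      rw [sub_eq_add_neg]
      exact hadd _ (hmul _ hx _ (hint z)) _ (hneg _ h1mem)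
    rw [P1 _ hmem]
    have hz' : (z : E) * (y : E) + (i : E) = 1 := by
      have := congrArg (fun t : 𝓞 E => (t : E)) hz
      simpa using this
    have e : x * (z : E) - 1 = (x - (y : E)) * (z : E) + ((-i : 𝓞 E) : E) := by
      push_cast
      linear_combination hz'
    rw [e]
    refine (v.valuation E).map_add_lt ?_ ((lt_aux v _).2 (neg_mem hi))
    rw [map_mul]
    calc v.valuation E (x - (y : E)) * v.valuation E (z : E)
        ≤ v.valuation E (x - (y : E)) * 1 := by gcongr; exact le_aux v z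
      _ < 1 := by rw [mul_one]; exact hy


end J_reps_mod

alias reps_mod := J_reps_mod.reps_mod

end CohNT
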