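import Mathlib
import Pool.Agent.H604C.Base
import Pool.Agent.H604C.P_ord_api
import Pool.Agent.H604C.P_RN_iff
set_option autoImplicit false
set_option maxHeartbeats 4000000
set_option synthInstance.maxHeartbeats 400000

namespace CohNT
open NumberField IsDedekindDomain Ideal

namespace J_x_exists

theorem x_exists {E : Type} [Field E] [NumberField E] (N0 : ℕ) (hN0 : N0 ≠ 0) (T : Finset (Pr E)) (hG : Good T)
    (hT : ∀ v : Pr E, v ∈ T ↔ v.valuation E (N0 : E) < 1) (v : Pr E) (hv : v ∉ T) (t : E)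
    (ht : 1 < v.valuation E t) :
    ∃ x : E, x ∈ RN E N0 ∧ v.valuation E x < 1 ∧ t * x ∈ RN E N0 ∧ v.valuation E (t * x) = 1 := by
  classical
  have hfin : ({w : Pr E | 1 < w.valuation E t}).Finite := HeightOneSpectrum.Support.finite (𝓞 E) t
  unfold Good at hG
  choose! p hp using hG
  set B : Finset (Pr E) := hfin.toFinset.filter (fun w => w ∉ T) with hB
  have hBm : ∀ w, w ∈ B ↔ 1 < w.valuation E t ∧ w ∉ T := by
    intro w
    rw [hB, Finset.mem_filter, Set.Finite.mem_toFinset]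
    rfl
  have ht0 : t ≠ 0 := by
    rintro rfl
    rw [map_zero] at ht
    exact absurd ht (not_lt.mpr zero_le_one)
  set x : E := ∏ w ∈ B, (p w : E) ^ (-ord w t).toNat with hx
  have hx0 : x ≠ 0 := Finset.prod_ne_zero_iff.mpr fun w _ => pow_ne_zero _ (Units.ne_zero _)
  have hxo : ∀ w, w ∉ T → w ∉ B → w.valuation E x = 1 := by
    intro w hw hwB
    rw [hx, map_prod]
    refine Finset.prod_eq_one fun w' hw' => ?_
    have hne : w ≠ w' := by rintro rfl; exact hwB hw'
    rw [map_pow, (hp w' ((hBm w').mp hw').2).2 w hw hne, one_pow]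
  have hxi : ∀ w, w ∈ B → w.valuation E x = w.valuation E ((p w : E) ^ (-ord w t).toNat) := by
    intro w hw
    rw [hx, map_prod]
    refine Finset.prod_eq_single w ?_ (fun h => absurd hw h)
    intro w' hw' hne
    rw [map_pow, (hp w' ((hBm w').mp hw').2).2 w ((hBm w).mp hw).2 (Ne.symm hne), one_pow]
  have hxo2 : ∀ w, w ∈ B → ord w x = - ord w t ∧ ord w t < 0 := by
    intro w hw
    obtain ⟨o1, o0, oneg, omul, odiv, oinv, opow, ozpow, olt, ole, oeq1, ole1, olt1, oadd, oaddlt, oint, oex⟩ :=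
      ord_api w
    have h1 : ord w t < 0 := by
      have h := ((hBm w).mp hw).1
      by_contra h'
      push Not at h'
      exact absurd h (not_lt.mpr ((ole1 t ht0).mpr h'))
    have h2 : ord w x = ord w ((p w : E) ^ (-ord w t).toNat) :=
      congrArg (fun z => - WithZero.log z) (hxi w hw)
    refine ⟨?_, h1⟩
    rw [h2, opow, (hp w ((hBm w).mp hw).2).1]
    rw [mul_one]
    exact Int.toNat_of_nonneg (by omega)
  have key : ∀ w, w ∉ T → w.valuation E x ≤ 1 ∧ w.valuation E (t * x) ≤ 1 := by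
    intro w hw
    obtain ⟨o1, o0, oneg, omul, odiv, oinv, opow, ozpow, olt, ole, oeq1, ole1, olt1, oadd, oaddlt, oint, oex⟩ :=
      ord_api w
    by_cases hwB : w ∈ B
    · obtain ⟨h1, h2⟩ := hxo2 w hwB
      refine ⟨(ole1 x hx0).mpr (by omega), (ole1 _ (mul_ne_zero ht0 hx0)).mpr ?_⟩
      rw [omul t x ht0 hx0]
      omega
    · have h1 := hxo w hw hwB
      refine ⟨h1.le, ?_⟩
      rw [map_mul, h1, mul_one]
      by_contra h
      push Not at h
      exact hwB ((hBm w).mpr ⟨h, hw⟩)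
  have hvB : v ∈ B := (hBm v).mpr ⟨ht, hv⟩
  obtain ⟨h1, h2⟩ := hxo2 v hvB
  obtain ⟨o1, o0, oneg, omul, odiv, oinv, opow, ozpow, olt, ole, oeq1, ole1, olt1, oadd, oaddlt, oint, oex⟩ :=
      ord_api v
  refine ⟨x, ?_, ?_, ?_, ?_⟩
  · rw [RN_iff N0 hN0]
    intro w hw
    exact (key w (fun h => absurd ((hT w).mp h) (by rw [hw]; exact lt_irrefl _))).1
  · rw [olt1 x hx0]
    omega
  · rw [RN_iff N0 hN0]
    intro w hw
    exact (key w (fun h => absurd ((hT w).mp h) (by rw [hw]; exact lt_irrefl _))).2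
  · rw [oeq1 _ (mul_ne_zero ht0 hx0), omul t x ht0 hx0]
    omega


end J_x_exists

alias x_exists := J_x_exists.x_exists

end CohNT
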