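import Mathlib
import Pool.Agent.H604C.Base
import Pool.Agent.H604C.P_ord_api
import Pool.Agent.H604C.P_LSq_api
import Pool.Agent.H604C.P_RN_iff
import Pool.Agent.H604C.P_RN_ring
import Pool.Agent.H604C.P_reps_mod
import Pool.Agent.H604C.P_x_exists
import Pool.Agent.H604C.P_fam_rich
set_option autoImplicit false
set_option maxHeartbeats 4000000
set_option synthInstance.maxHeartbeats 400000

namespace CohNT
open NumberField IsDedekindDomain Ideal

namespace J_cert_exists

theorem cert_exists {E : Type} [Field E] [NumberField E] (c0 c : 𝓞 E) (N0 : ℕ) (hN0 : N0 ≠ 0) (h2 : 2 ∣ N0)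
    (T : Finset (Pr E)) (hT : Good T) (hTN : ∀ v : Pr E, v ∈ T ↔ v.valuation E (N0 : E) < 1)
    (hT2 : ∀ v : Pr E, v ∉ T → ¬ Dy v ∧ v.valuation E (3 : E) = 1 ∧
      v.valuation E (c0 : E) = 1 ∧ v.valuation E (1 - 4 * (c : E)) = 1 ∧
      v.valuation E (N0 : E) = 1)
    (G : List E) (hG : ∀ g ∈ G, g ∈ RN E N0) (e : ℕ ≃ E) (t : E) (ht : t ∉ RN E N0) :
    ∃ (a b : E) (N : ℕ) (x y z : E), a ≠ 0 ∧ b ∈ Fam (c0 : E) (c : E) ∧
      Cert e N0 G t a b N x y z := by
  classical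
  -- the prime v
  have h0 : ∃ v : Pr E, v.valuation E (N0 : E) = 1 ∧ 1 < v.valuation E t := by
    by_contra hcon
    push Not at hcon
    exact ht ((RN_iff N0 hN0 t).mpr hcon)
  obtain ⟨v, hvN, hvt⟩ := h0
  have hnT : ∀ v' : Pr E, v'.valuation E (N0 : E) = 1 → v' ∉ T := by
    intro v' h' hm
    have := (hTN v').mp hm
    rw [h'] at this
    exact lt_irrefl _ this
  have hvT : v ∉ T := hnT v hvN
  obtain ⟨hDy, h3, hc0, hc, -⟩ := hT2 v hvT
  obtain ⟨b, hbF, hbv, hbL⟩ := fam_rich c0 c v hDy h3 hc0 hc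
  obtain ⟨p, hpv, hpo⟩ := hT v hvT
  set a : E := (p : E) with ha_def
  have ha : a ≠ 0 := p.ne_zero
  have ha' : ∀ v' : Pr E, v'.valuation E (N0 : E) = 1 → v' ≠ v → v'.valuation E a = 1 :=
    fun v' h1 h2 => hpo v' (hnT v' h1) h2
  obtain ⟨hr1, ⟨A, hA, hAr⟩, hr3⟩ := reps_mod N0 hN0 v hvN a ha hpv ha'
  obtain ⟨R0, R1, Radd, Rmul, Rneg, RI⟩ := RN_ring (E := E) N0
  obtain ⟨-, -, -, -, -, -, -, -, -, -, -, -, hlt, -⟩ := ord_api v
  have hva : v.valuation E a < 1 := by
    rw [hlt a ha, hpv]; norm_num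
  obtain ⟨x, hxR, hxv, htxR, htxv⟩ := x_exists N0 hN0 T hT hTN v hvT t hvt
  obtain ⟨z, hzR, hz⟩ := hr3 (t * x) htxR htxv
  have Rsub : ∀ x ∈ RN E N0, ∀ y ∈ RN E N0, x - y ∈ RN E N0 := by
    intro x hx y hy
    rw [sub_eq_add_neg]
    exact Radd x hx _ (Rneg y hy)
  -- the bound
  let N : ℕ := 1 + A.sup (fun y => e.symm y)
  have hrep : ∀ r ∈ RN E N0, ∃ k < N, e k ∈ RN E N0 ∧ (r - e k) / a ∈ RN E N0 := by
    intro r hr
    obtain ⟨y, hyA, hy⟩ := hAr r hr
    refine ⟨e.symm y, ?_, ?_, ?_⟩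
    · have : e.symm y ≤ A.sup (fun y => e.symm y) := Finset.le_sup (f := fun y => e.symm y) hyA
      omega
    · rw [Equiv.apply_symm_apply]; exact hA y hyA
    · rw [Equiv.apply_symm_apply]; exact hy
  have hle : ∀ r ∈ RN E N0, v.valuation E r ≤ 1 := fun r hr => (RN_iff N0 hN0 r).mp hr v hvN
  have h2le : v.valuation E (2 : E) = 1 := by
    have h2R : (2 : E) ∈ RN E N0 := by
      have := Radd 1 R1 1 R1
      have h : (1 : E) + 1 = 2 := by norm_num
      rwa [h] at this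
    exact le_antisymm (hle 2 h2R) (not_lt.mp hDy)
  have h4 : v.valuation E (4 * (b : E)) = 1 := by
    have h : (4 : E) = 2 * 2 := by norm_num
    rw [map_mul, h, map_mul, h2le, hbv]
    simp
  refine ⟨a, (b : E), N, x, t * x, z, ha, hbF, ?_, ?_, RI b, ?_, ?_, ?_, ?_, htxR, hzR, hz, rfl⟩
  · rw [RN_iff N0 hN0]
    intro v' hv'
    by_cases hvv : v' = v
    · rw [hvv]; exact hva.le
    · exact (ha' v' hv' hvv).le
  · intro hcon
    have h1 := hle _ hcon
    rw [map_inv₀] at h1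
    have hne : v.valuation E a ≠ 0 := (Valuation.ne_zero_iff _).mpr ha
    have h2 : 1 ≤ v.valuation E a := by
      have := (inv_le_one₀ (zero_lt_iff.mpr hne)).mp h1
      exact this
    exact absurd hva (not_lt.mpr h2)
  · intro g hg
    exact hrep g (hG g hg)
  · intro j hj k hk hjR hkR
    exact ⟨hrep _ (Radd _ hjR _ hkR), hrep _ (Rmul _ hjR _ hkR)⟩
  · intro j hj k hk hjR hkR hjk
    set r : E := e j with hr
    set s : E := e k with hs
    have hbs : (b : E) * s ^ 2 ∈ RN E N0 := by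
      rw [pow_two]
      exact Rmul _ (RI b) _ (Rmul _ hkR _ hkR)
    have hr2 : r ^ 2 ∈ RN E N0 := by
      rw [pow_two]
      exact Rmul _ hjR _ hjR
    have hval : v.valuation E (r ^ 2 - b * s ^ 2) < 1 := (hr1 _ (Rsub _ hr2 _ hbs)).mp hjk
    have hs1 : v.valuation E s < 1 := by
      by_contra hcon
      have hs1 : v.valuation E s = 1 := le_antisymm (hle s hkR) (not_lt.mp hcon)
      have hsne : s ≠ 0 := by
        intro h0
        rw [h0, map_zero] at hs1
        exact zero_ne_one hs1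
      apply hbL
      refine ⟨r / s, ?_⟩
      rw [h4]
      have he : (b : E) - (r / s) ^ 2 = - ((r ^ 2 - b * s ^ 2) / s ^ 2) := by
        field_simp
        ring
      rw [he, Valuation.map_neg, map_div₀, map_pow, hs1]
      simpa using hval
    have hr1' : v.valuation E r < 1 := by
      have h5 : v.valuation E ((b : E) * s ^ 2) < 1 := by
        rw [map_mul, hbv, one_mul, map_pow]
        exact pow_lt_one₀ zero_le hs1 two_ne_zero
      have h6 : v.valuation E (r ^ 2) < 1 := by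
        have h7 : r ^ 2 = (r ^ 2 - b * s ^ 2) + b * s ^ 2 := by ring
        rw [h7]
        exact Valuation.map_add_lt _ hval h5
      rw [map_pow] at h6
      by_contra hcon
      have : 1 ≤ v.valuation E r := not_lt.mp hcon
      have h8 : 1 ≤ v.valuation E r ^ 2 := one_le_pow₀ this
      exact absurd h6 (not_lt.mpr h8)
    exact ⟨(hr1 _ hjR).mpr hr1', (hr1 _ hkR).mpr hs1⟩
  · exact (hr1 x hxR).mpr hxv


end J_cert_exists

alias cert_exists := J_cert_exists.cert_exists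

end CohNT
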