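import Mathlib
import Pool.Agent.H604C.Base
import Pool.Agent.H604C.P_ord_api
import Pool.Agent.H604C.P_LSq_api
set_option autoImplicit false
set_option maxHeartbeats 4000000
set_option synthInstance.maxHeartbeats 400000

namespace CohNT
open NumberField IsDedekindDomain Ideal

namespace J_nt_nec

theorem an_aux {E : Type} [Field E] [NumberField E] (v : Pr E) (h4 : v.valuation E (4 : E) = 1) (b : E)
    (hb : b ≠ 0) (hev : Even (ord v b)) (hns : ¬ LSq v b) (X Y : E) (hXY : X ≠ 0 ∨ Y ≠ 0) :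
    X ^ 2 - b * Y ^ 2 ≠ 0 ∧ Even (ord v (X ^ 2 - b * Y ^ 2)) ∧
      (X ≠ 0 → ord v (X ^ 2 - b * Y ^ 2) ≤ 2 * ord v X) := by
  obtain ⟨o1, o0, oneg, omul, odiv, oinv, opow, ozpow, olt, ole, oeq1, ole1, olt1, oadd, oadd2, oint, ounif⟩ :=
    ord_api v
  by_cases hY : Y = 0
  · subst hY
    have hX : X ≠ 0 := by simpa using hXY
    have e : X ^ 2 - b * 0 ^ 2 = X ^ 2 := by ring
    rw [e, opow]
    refine ⟨pow_ne_zero 2 hX, ⟨ord v X, by push_cast; ring⟩, fun _ => by push_cast; rfl⟩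
  · by_cases hX : X = 0
    · subst hX
      have e : (0 : E) ^ 2 - b * Y ^ 2 = -(b * Y ^ 2) := by ring
      rw [e, oneg, omul b _ hb (pow_ne_zero 2 hY), opow]
      refine ⟨neg_ne_zero.2 (mul_ne_zero hb (pow_ne_zero 2 hY)), ?_, fun h => absurd rfl h⟩
      obtain ⟨k, hk⟩ := hev
      exact ⟨k + ord v Y, by rw [hk]; push_cast; ring⟩
    · have hX2 : X ^ 2 ≠ 0 := pow_ne_zero 2 hX
      have hY2 : Y ^ 2 ≠ 0 := pow_ne_zero 2 hY
      have hbY : b * Y ^ 2 ≠ 0 := mul_ne_zero hb hY2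
      have em : ord v (X ^ 2) = 2 * ord v X := by rw [opow]; push_cast; rfl
      have en : ord v (-(b * Y ^ 2)) = ord v b + 2 * ord v Y := by
        rw [oneg, omul b _ hb hY2, opow]; push_cast; rfl
      have hsub : X ^ 2 - b * Y ^ 2 = X ^ 2 + -(b * Y ^ 2) := by ring
      rcases lt_trichotomy (2 * ord v X) (ord v b + 2 * ord v Y) with h | h | h
      · obtain ⟨h1, h2⟩ := oadd2 (X ^ 2) (-(b * Y ^ 2)) hX2 (Or.inr (by rw [em, en]; exact h))
        rw [hsub, h2, em]
        exact ⟨h1, ⟨ord v X, by ring⟩, fun _ => le_rfl⟩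
      · have key : ∀ d : E, d = X ^ 2 - b * Y ^ 2 → (d = 0 ∨ 2 * ord v X < ord v d) → False := by
          intro d hd hcase
          apply hns
          refine ⟨X / Y, ?_⟩
          rw [map_mul, h4, one_mul]
          have e1 : b - (X / Y) ^ 2 = -(d / Y ^ 2) := by
            rw [hd]; field_simp; ring
          rw [e1, Valuation.map_neg]
          rcases hcase with h0 | h0
          · rw [h0, zero_div, map_zero]
            exact (Valuation.pos_iff _).2 hb
          · by_cases hd0 : d = 0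
            · rw [hd0, zero_div, map_zero]
              exact (Valuation.pos_iff _).2 hb
            · rw [olt _ _ (div_ne_zero hd0 hY2) hb, odiv _ _ hd0 hY2, opow]
              push_cast
              linarith
        have hd0 : X ^ 2 - b * Y ^ 2 ≠ 0 := fun h0 => key _ rfl (Or.inl h0)
        have hle : ord v (X ^ 2 - b * Y ^ 2) ≤ 2 * ord v X := by
          by_contra hcon
          push Not at hcon
          exact key _ rfl (Or.inr hcon)
        have hge : 2 * ord v X ≤ ord v (X ^ 2 - b * Y ^ 2) := by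
          rw [hsub]
          rw [hsub] at hd0
          exact oadd _ _ _ hd0 (Or.inr (by rw [em])) (Or.inr (by rw [en]; exact h.le))
        have heq : ord v (X ^ 2 - b * Y ^ 2) = 2 * ord v X := le_antisymm hle hge
        rw [heq]
        exact ⟨hd0, ⟨ord v X, by ring⟩, fun _ => le_rfl⟩
      · obtain ⟨h1, h2⟩ := oadd2 (-(b * Y ^ 2)) (X ^ 2) (neg_ne_zero.2 hbY)
          (Or.inr (by rw [em, en]; exact h))
        have hsub' : X ^ 2 - b * Y ^ 2 = -(b * Y ^ 2) + X ^ 2 := by ring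
        rw [hsub', h2, en]
        refine ⟨h1, ?_, fun _ => h.le⟩
        obtain ⟨k, hk⟩ := hev
        exact ⟨k + ord v Y, by rw [hk]; ring⟩

theorem nt_nec {E : Type} [Field E] [NumberField E] (v : Pr E) (hv : ¬ Dy v) (a b : E) (ha : a ≠ 0) (hb : b ≠ 0)
    (hodd : Odd (ord v a)) (hev : Even (ord v b)) (hns : ¬ LSq v b) (x : E)
    (hx : x ∈ SS a b) : v.valuation E x ≤ 1 := by
  obtain ⟨o1, o0, oneg, omul, odiv, oinv, opow, ozpow, olt, ole, oeq1, ole1, olt1, oadd, oadd2, oint, ounif⟩ :=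
    ord_api v
  have h2ne : (2 : E) ≠ 0 := two_ne_zero
  have h4ne : (4 : E) ≠ 0 := by
    have : (4 : E) = 2 ^ 2 := by norm_num
    rw [this]; exact pow_ne_zero 2 h2ne
  have ho2 : ord v (2 : E) = 0 := by
    have h1 := oint 2
    have h2 : ((2 : 𝓞 E) : E) = 2 := map_ofNat (algebraMap (𝓞 E) E) 2
    rw [h2] at h1
    have h3 : ¬ 0 < ord v (2 : E) := fun h => hv ((olt1 2 h2ne).2 h)
    omega
  have ho4 : ord v (4 : E) = 0 := by
    have : (4 : E) = 2 ^ 2 := by norm_num
    rw [this, opow, ho2, mul_zero]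
  have h4 : v.valuation E (4 : E) = 1 := (oeq1 4 h4ne).2 ho4
  by_contra hcon
  have hx0 : x ≠ 0 := by
    rintro rfl
    apply hcon
    rw [map_zero]
    exact zero_le_one
  have hox : ord v x < 0 := by
    rw [ole1 x hx0] at hcon
    omega
  obtain ⟨s, r, w, h⟩ := hx
  obtain ⟨p1, p2, p3⟩ := an_aux v h4 b hb hev hns x r (Or.inl hx0)
  have p4 := p3 hx0
  obtain ⟨q1, q2⟩ := oadd2 (x ^ 2 - b * r ^ 2) (-4) p1 (Or.inr (by rw [oneg, ho4]; omega))
  have e : x ^ 2 - b * r ^ 2 + -4 = a * (s ^ 2 - b * w ^ 2) := by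
    linear_combination h
  rw [e] at q1 q2
  have hsw : s ≠ 0 ∨ w ≠ 0 := by
    by_contra hc
    push Not at hc
    apply q1
    rw [hc.1, hc.2]; ring
  obtain ⟨r1, r2, -⟩ := an_aux v h4 b hb hev hns s w hsw
  rw [omul _ _ ha r1] at q2
  have h5 : Odd (ord v a + ord v (s ^ 2 - b * w ^ 2)) := hodd.add_even r2
  rw [q2] at h5
  exact (Int.not_odd_iff_even.2 p2) h5


end J_nt_nec

alias nt_nec := J_nt_nec.nt_nec

end CohNT
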