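import Mathlib
import Pool.Agent.H604C.Base
import Pool.Agent.H604C.P_ord_api
import Pool.Agent.H604C.P_LSq_api
import Pool.Agent.H604C.P_RN_iff
import Pool.Agent.H604C.P_RN_ring
import Pool.Agent.H604C.P_RN_sep
import Pool.Agent.H604C.P_nt_nec
set_option autoImplicit false
set_option maxHeartbeats 4000000
set_option synthInstance.maxHeartbeats 400000

namespace CohNT
open NumberField IsDedekindDomain Ideal

namespace J_cert_sound

theorem cs_mul {x y : WithZero (Multiplicative ℤ)} (hx : x ≤ 1) (hy : y < 1) : x * y < 1 := by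
  rw [mul_comm]; exact mul_lt_one_of_lt_of_le hy hx

theorem cs_cover {E : Type} [Field E] [NumberField E] (N0 : ℕ) (G : List E)
    (hG : ∀ x ∈ RN E N0, x ∈ Subsemiring.closure {g : E | g ∈ G}) (hG0 : (0 : E) ∈ G)
    (hG1 : (1 : E) ∈ G) (e : ℕ ≃ E) (a : E) (N : ℕ) (ha0 : a ≠ 0) (ha : a ∈ RN E N0)
    (h4 : ∀ g ∈ G, ∃ k < N, e k ∈ RN E N0 ∧ (g - e k) / a ∈ RN E N0)
    (h5 : ∀ j < N, ∀ k < N, e j ∈ RN E N0 → e k ∈ RN E N0 →
    (∃ l < N, e l ∈ RN E N0 ∧ (e j + e k - e l) / a ∈ RN E N0) ∧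
    (∃ l < N, e l ∈ RN E N0 ∧ (e j * e k - e l) / a ∈ RN E N0)) :
    ∀ x ∈ RN E N0, ∃ k < N, e k ∈ RN E N0 ∧ (x - e k) / a ∈ RN E N0 := by
  obtain ⟨r0, r1, radd, rmul, rneg, rint⟩ := RN_ring (E := E) N0
  have hmem : ∀ g ∈ G, g ∈ RN E N0 ∧ ∃ k < N, e k ∈ RN E N0 ∧ (g - e k) / a ∈ RN E N0 := by
    intro g hg
    obtain ⟨k, hk, h1, h2⟩ := h4 g hg
    refine ⟨?_, k, hk, h1, h2⟩
    have h3 : g = a * ((g - e k) / a) + e k := by rw [mul_div_cancel₀ _ ha0]; ring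
    rw [h3]
    exact radd _ (rmul _ ha _ h2) _ h1
  have key : ∀ x ∈ Subsemiring.closure {g : E | g ∈ G},
      x ∈ RN E N0 ∧ ∃ k < N, e k ∈ RN E N0 ∧ (x - e k) / a ∈ RN E N0 := by
    intro x hx
    induction hx using Subsemiring.closure_induction with
    | mem g hg => exact hmem g hg
    | zero => exact hmem 0 hG0
    | one => exact hmem 1 hG1
    | add x y _ _ hx hy =>
      obtain ⟨hxR, j, hj, hj1, hj2⟩ := hx
      obtain ⟨hyR, k, hk, hk1, hk2⟩ := hy
      obtain ⟨l, hl, hl1, hl2⟩ := (h5 j hj k hk hj1 hk1).1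
      refine ⟨radd _ hxR _ hyR, l, hl, hl1, ?_⟩
      have h3 : (x + y - e l) / a = (x - e j) / a + (y - e k) / a + (e j + e k - e l) / a := by ring
      rw [h3]
      exact radd _ (radd _ hj2 _ hk2) _ hl2
    | mul x y _ _ hx hy =>
      obtain ⟨hxR, j, hj, hj1, hj2⟩ := hx
      obtain ⟨hyR, k, hk, hk1, hk2⟩ := hy
      obtain ⟨l, hl, hl1, hl2⟩ := (h5 j hj k hk hj1 hk1).2
      refine ⟨rmul _ hxR _ hyR, l, hl, hl1, ?_⟩
      have h3 : (x * y - e l) / a = x * ((y - e k) / a) + e k * ((x - e j) / a) +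
        (e j * e k - e l) / a := by ring
      rw [h3]
      exact radd _ (radd _ (rmul _ hxR _ hk2) _ (rmul _ hk1 _ hj2)) _ hl2
  exact fun x hx => (key x (hG x hx)).2

theorem cs_sq {E : Type} [Field E] [NumberField E] (N0 : ℕ) (e : ℕ ≃ E) (a b : E) (N : ℕ)
    (ha0 : a ≠ 0) (hb : b ∈ RN E N0)
    (hcov : ∀ x ∈ RN E N0, ∃ k < N, e k ∈ RN E N0 ∧ (x - e k) / a ∈ RN E N0)
    (h6 : ∀ j < N, ∀ k < N, e j ∈ RN E N0 → e k ∈ RN E N0 →
      ((e j) ^ 2 - b * (e k) ^ 2) / a ∈ RN E N0 → e j / a ∈ RN E N0 ∧ e k / a ∈ RN E N0)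
    (x : E) (hx : x ∈ RN E N0) (y : E) (hy : y ∈ RN E N0) (h : (x ^ 2 - b * y ^ 2) / a ∈ RN E N0) :
    x / a ∈ RN E N0 ∧ y / a ∈ RN E N0 := by
  obtain ⟨r0, r1, radd, rmul, rneg, rint⟩ := RN_ring (E := E) N0
  obtain ⟨j, hj, hj1, hj2⟩ := hcov x hx
  obtain ⟨k, hk, hk1, hk2⟩ := hcov y hy
  have h7 : ((e j) ^ 2 - b * (e k) ^ 2) / a ∈ RN E N0 := by
    have h3 : ((e j) ^ 2 - b * (e k) ^ 2) / a = (x ^ 2 - b * y ^ 2) / a +
        (-(((x - e j) / a) * (x + e j)) + b * (((y - e k) / a) * (y + e k))) := by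
      ring
    rw [h3]
    exact radd _ h _ (radd _ (rneg _ (rmul _ hj2 _ (radd _ hx _ hj1))) _
      (rmul _ hb _ (rmul _ hk2 _ (radd _ hy _ hk1))))
  obtain ⟨h8, h9⟩ := h6 j hj k hk hj1 hk1 h7
  constructor
  · have h3 : x / a = e j / a + (x - e j) / a := by ring
    rw [h3]; exact radd _ h8 _ hj2
  · have h3 : y / a = e k / a + (y - e k) / a := by ring
    rw [h3]; exact radd _ h9 _ hk2

theorem cs_approx {E : Type} [Field E] [NumberField E] (v : Pr E) (y : E)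
    (hy : v.valuation E y ≤ 1) : ∃ β : 𝓞 E, v.valuation E (y - (β : E)) < 1 := by
  obtain ⟨n, d, h⟩ := v.exists_primeCompl_mul_eq_of_integer y hy
  have hmax := v.isMaximal
  obtain ⟨e, he⟩ : ∃ e : 𝓞 E, e * d - 1 ∈ v.asIdeal := by
    have := Ideal.Quotient.exists_inv (I := v.asIdeal) (a := Ideal.Quotient.mk _ (d : 𝓞 E)) (by
      rw [Ne, Ideal.Quotient.eq_zero_iff_mem]; exact d.2)
    obtain ⟨b, hb⟩ := this
    obtain ⟨e, rfl⟩ := Ideal.Quotient.mk_surjective b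
    refine ⟨e, ?_⟩
    rw [← Ideal.Quotient.eq_zero_iff_mem, map_sub, map_mul, map_one, mul_comm, hb, sub_self]
  refine ⟨n * e, ?_⟩
  have h1 : y - ((n * e : 𝓞 E) : E) = - (y * algebraMap (𝓞 E) E (e * d - 1)) := by
    have h2 : ((n * e : 𝓞 E) : E) = algebraMap (𝓞 E) E n * algebraMap (𝓞 E) E e := by
      rw [← map_mul]
    rw [h2, ← h, map_sub, map_mul, map_one]
    ring
  rw [h1, Valuation.map_neg, map_mul]
  have h3 : v.valuation E (algebraMap (𝓞 E) E (e * d - 1)) < 1 :=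
    (v.valuation_lt_one_iff_mem _).2 he
  exact cs_mul hy h3

theorem cert_sound {E : Type} [Field E] [NumberField E] (N0 : ℕ) (hN0 : N0 ≠ 0) (h2 : 2 ∣ N0) (G : List E)
    (hG : ∀ x ∈ RN E N0, x ∈ Subsemiring.closure {g : E | g ∈ G}) (hG0 : (0 : E) ∈ G)
    (hG1 : (1 : E) ∈ G) (e : ℕ ≃ E) (t a b : E) (N : ℕ) (x y z : E)
    (hc : Cert e N0 G t a b N x y z) : ¬ ∃ x ∈ SS a b, t - x ∈ SS a b := by
  obtain ⟨c1, c2, c3, c4, c5, c6, c7, c8, c9, c10, c11⟩ := hc
  obtain ⟨r0, r1, radd, rmul, rneg, rint⟩ := RN_ring (E := E) N0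
  have ha0 : a ≠ 0 := by
    rintro rfl
    rw [inv_zero] at c2
    exact c2 r0
  have hcov := cs_cover N0 G hG hG0 hG1 e a N ha0 c1 c4 c5
  have hsq := cs_sq N0 e a b N ha0 c3 hcov c6
  -- the prime
  obtain ⟨v, hv, hva'⟩ : ∃ v : Pr E, v.valuation E (N0 : E) = 1 ∧ ¬ v.valuation E a⁻¹ ≤ 1 := by
    by_contra hno
    push Not at hno
    exact c2 ((RN_iff N0 hN0 _).2 hno)
  have hva : v.valuation E a < 1 := by
    rw [map_inv₀] at hva'
    by_contra hc
    apply hva'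
    exact inv_le_one_of_one_le₀ (not_lt.1 hc)
  have hR : ∀ x ∈ RN E N0, v.valuation E x ≤ 1 := fun x hx => (RN_iff N0 hN0 x).1 hx v hv
  have hint : ∀ n : ℕ, v.valuation E (n : E) ≤ 1 := by
    intro n
    have h1 := hR _ (rint (n : 𝓞 E))
    simpa using h1
  have hv2 : v.valuation E (2 : E) = 1 := by
    obtain ⟨m, rfl⟩ := h2
    push_cast at hv
    rw [map_mul] at hv
    have h3 : v.valuation E (2 : E) ≤ 1 := by simpa using hint 2
    refine le_antisymm h3 ?_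
    by_contra hlt
    have h4 := mul_lt_one_of_lt_of_le (not_le.1 hlt) (hint m)
    rw [hv] at h4
    exact lt_irrefl _ h4
  have hDy : ¬ Dy v := by
    unfold Dy
    rw [hv2]
    exact lt_irrefl _
  obtain ⟨x1, hx1R, hx1n, hx1o, hx1⟩ := RN_sep N0 hN0 a ha0 c1 v hv hva
  have hx10 : x1 ≠ 0 := by
    rintro rfl
    rw [zero_div] at hx1n
    exact hx1n r0
  obtain ⟨o1, o2, o3, o4, o5, o6, o7, o8, o9, o10, o11, o12, o13, o14, o15, o16, o17⟩ := ord_api v
  have hoa : 0 < ord v a := (o13 a ha0).1 hva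
  have hoa1 : ord v a = 1 := by
    by_contra hne
    have h3 : 0 < ord v x1 := by omega
    have h4 := (o13 x1 hx10).2 h3
    have h5 := hx1 x1 h4 hx1R
    have h6 := hsq x1 hx1R 0 r0 (by
      have h7 : (x1 ^ 2 - b * 0 ^ 2) / a = x1 * x1 / a := by ring
      rw [h7]; exact h5)
    exact hx1n h6.1
  have h5 : ∀ β ∈ RN E N0, ¬ v.valuation E (β ^ 2 - b) < 1 := by
    intro β hβ hlt
    have hβ2 : β ^ 2 - b ∈ RN E N0 := by
      have h7 : β ^ 2 - b = β * β + -b := by ring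
      rw [h7]; exact radd _ (rmul _ hβ _ hβ) _ (rneg _ c3)
    have h6 := hx1 _ hlt hβ2
    have h7 := hsq (x1 * β) (rmul _ hx1R _ hβ) x1 hx1R (by
      have h8 : ((x1 * β) ^ 2 - b * x1 ^ 2) / a = x1 * (x1 * (β ^ 2 - b) / a) := by ring
      rw [h8]; exact rmul _ hx1R _ h6)
    exact hx1n h7.2
  have hvb : v.valuation E b = 1 := by
    have h6 := h5 0 r0
    have h7 : (0 : E) ^ 2 - b = -b := by ring
    rw [h7, Valuation.map_neg] at h6
    exact le_antisymm (hR b c3) (not_lt.1 h6)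
  have hb0 : b ≠ 0 := by
    rintro rfl
    rw [map_zero] at hvb
    exact zero_ne_one hvb
  have hob : ord v b = 0 := (o11 b hb0).1 hvb
  have hns : ¬ LSq v b := by
    rintro ⟨y', hy'⟩
    have h8 : v.valuation E (4 * b) = 1 := by
      have h9 : (4 : E) * b = 2 * 2 * b := by ring
      rw [h9, map_mul, map_mul, hv2, hvb, one_mul, one_mul]
    rw [h8] at hy'
    have hyle : v.valuation E y' ≤ 1 := by
      by_contra hgt
      have h9 : 1 < v.valuation E y' := not_le.1 hgt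
      have h10 : v.valuation E (y' ^ 2) ≤ 1 := by
        have h11 : y' ^ 2 = b - (b - y' ^ 2) := by ring
        rw [h11]
        exact (Valuation.map_sub _ _ _).trans (max_le hvb.le hy'.le)
      rw [map_pow] at h10
      exact absurd h10 (not_le.2 (one_lt_pow₀ h9 two_ne_zero))
    obtain ⟨β, hβ⟩ := cs_approx v y' hyle
    apply h5 (β : E) (rint β)
    have h9 : (β : E) ^ 2 - b = -((y' - β) * (y' + β)) + -(b - y' ^ 2) := by ring
    rw [h9]
    refine lt_of_le_of_lt (Valuation.map_add _ _ _) (max_lt ?_ ?_)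
    · rw [Valuation.map_neg, map_mul]
      refine mul_lt_one_of_lt_of_le hβ ?_
      exact (Valuation.map_add _ _ _).trans (max_le hyle (hR _ (rint β)))
    · rw [Valuation.map_neg]; exact hy'
  -- conclusion
  rintro ⟨x', hx', htx'⟩
  have hnec := nt_nec v hDy a b ha0 hb0 (by rw [hoa1]; exact odd_one) (by rw [hob]; exact Even.zero) hns
  have hvt : v.valuation E t ≤ 1 := by
    have h6 : t = x' + (t - x') := by ring
    rw [h6]
    exact (Valuation.map_add _ _ _).trans (max_le (hnec _ hx') (hnec _ htx'))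
  have hvx : v.valuation E x < 1 := by
    have h6 := hR _ c7
    have h7 : x = (x / a) * a := by rw [div_mul_cancel₀ _ ha0]
    rw [h7, map_mul]
    exact cs_mul h6 hva
  have hyz : v.valuation E (y * z - 1) < 1 := by
    have h6 := hR _ c10
    have h7 : y * z - 1 = ((y * z - 1) / a) * a := by rw [div_mul_cancel₀ _ ha0]
    rw [h7, map_mul]
    exact cs_mul h6 hva
  have hyz1 : v.valuation E (y * z) = 1 := by
    have h6 := Valuation.map_one_add_of_lt (v.valuation E) hyz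
    have h7 : 1 + (y * z - 1) = y * z := by ring
    rwa [h7] at h6
  rw [map_mul] at hyz1
  have hvy : ¬ v.valuation E y < 1 := by
    intro hlt
    have h6 := mul_lt_one_of_lt_of_le hlt (hR z c9)
    rw [hyz1] at h6
    exact lt_irrefl _ h6
  apply hvy
  rw [← c11, map_mul]
  exact cs_mul hvt hvx


end J_cert_sound

alias cert_sound := J_cert_sound.cert_sound

end CohNT
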