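import Mathlib
import Pool.Agent.H604C.Base
import Pool.Agent.H604C.P_ord_api
set_option autoImplicit false
set_option maxHeartbeats 4000000
set_option synthInstance.maxHeartbeats 400000

namespace CohNT
open NumberField IsDedekindDomain Ideal

namespace J_fam_consts

theorem fam_consts_nf {E : Type} [Field E] [NumberField E] (v : Pr E) (c : 𝓞 E)
    (hc : ∀ x : 𝓞 E, x ^ 2 + x + c ∉ v.asIdeal) (y1 y2 : E) (h : ¬ (y1 = 0 ∧ y2 = 0)) :
    ∃ z : E, z ≠ 0 ∧ v.valuation E (y1 ^ 2 + y1 * y2 + (c : E) * y2 ^ 2) =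
      v.valuation E (z ^ 2) := by
  have hcv : v.valuation E (c : E) ≤ 1 := v.valuation_le_one (K := E) c
  rcases lt_or_ge (v.valuation E y2) (v.valuation E y1) with h1 | h1
  · refine ⟨y1, ?_, ?_⟩
    · rintro rfl
      rw [map_zero] at h1
      exact not_lt_zero' h1
    · have hy1 : 0 < v.valuation E y1 := lt_of_le_of_lt zero_le' h1
      have h2 : v.valuation E y2 ^ 2 < v.valuation E y1 ^ 2 :=
        pow_lt_pow_left₀ h1 zero_le' two_ne_zero
      rw [add_assoc]
      apply Valuation.map_add_eq_of_lt_left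
      apply Valuation.map_add_lt
      · rw [map_mul, map_pow, sq]
        exact mul_lt_mul_of_pos_left h1 hy1
      · rw [map_mul, map_pow, map_pow]
        calc v.valuation E (c : E) * v.valuation E y2 ^ 2 ≤ 1 * v.valuation E y2 ^ 2 :=
              mul_le_mul_left hcv _
          _ < v.valuation E y1 ^ 2 := by rw [one_mul]; exact h2
  · have hy2 : y2 ≠ 0 := by
      rintro rfl
      rw [map_zero] at h1
      have h3 : v.valuation E y1 = 0 := le_antisymm h1 zero_le'
      exact h ⟨(Valuation.zero_iff _).1 h3, rfl⟩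
    refine ⟨y2, hy2, ?_⟩
    have hu : v.valuation E (y1 / y2) ≤ 1 := by
      rw [map_div₀]; exact div_le_one_of_le₀ h1 zero_le'
    obtain ⟨a, ha⟩ := v.exists_valuation_sub_lt_of_integer hu 1
    rw [Units.val_one] at ha
    have e : y1 ^ 2 + y1 * y2 + (c : E) * y2 ^ 2
        = ((y1 / y2) ^ 2 + (y1 / y2) + (c : E)) * y2 ^ 2 := by
      field_simp
    have hav : v.valuation E (algebraMap (𝓞 E) E a) ≤ 1 := v.valuation_le_one (K := E) a
    have h4 : v.valuation E (algebraMap (𝓞 E) E (a ^ 2 + a + c)) = 1 :=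
      v.valuation_eq_one_iff_notMem.2 (hc a)
    have h5 : (y1 / y2) ^ 2 + (y1 / y2) + (c : E) = algebraMap (𝓞 E) E (a ^ 2 + a + c)
        + (-((algebraMap (𝓞 E) E a - y1 / y2) * (algebraMap (𝓞 E) E a + y1 / y2 + 1))) := by
      simp only [map_add, map_pow]
      ring
    have h6 : v.valuation E (algebraMap (𝓞 E) E a + y1 / y2 + 1) ≤ 1 := by
      apply Valuation.map_add_le
      · exact Valuation.map_add_le _ hav hu
      · rw [map_one]
    have h7 : v.valuation E (-((algebraMap (𝓞 E) E a - y1 / y2) *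
        (algebraMap (𝓞 E) E a + y1 / y2 + 1))) < 1 := by
      rw [Valuation.map_neg, map_mul]
      calc v.valuation E (algebraMap (𝓞 E) E a - y1 / y2) *
            v.valuation E (algebraMap (𝓞 E) E a + y1 / y2 + 1)
          ≤ v.valuation E (algebraMap (𝓞 E) E a - y1 / y2) * 1 := mul_le_mul_right h6 _
        _ < 1 := by rw [mul_one]; exact ha
    rw [e, map_mul, h5, Valuation.map_add_eq_of_lt_left _ (by rw [h4]; exact h7), h4, one_mul]

theorem fam_consts_exc {E : Type} [Field E] [NumberField E] (v : Pr E) :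
    ∃ c : 𝓞 E, ∀ x : 𝓞 E, x ^ 2 + x + c ∉ v.asIdeal := by
  haveI : Finite (𝓞 E ⧸ v.asIdeal) := Ring.HasFiniteQuotients.finiteQuotient v.ne_bot
  haveI : v.asIdeal.IsPrime := v.isPrime
  have hns : ¬ Function.Surjective (fun x : 𝓞 E ⧸ v.asIdeal => x ^ 2 + x) := by
    intro hs
    have hi := Finite.injective_iff_surjective.2 hs
    have h1 : (fun x : 𝓞 E ⧸ v.asIdeal => x ^ 2 + x) 0
        = (fun x : 𝓞 E ⧸ v.asIdeal => x ^ 2 + x) (-1) := by
      simp
    have h2 := hi h1
    have h3 : (1 : 𝓞 E ⧸ v.asIdeal) = 0 := by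
      rw [← neg_neg (1 : 𝓞 E ⧸ v.asIdeal), ← h2, neg_zero]
    exact one_ne_zero h3
  rw [Function.Surjective] at hns
  push Not at hns
  obtain ⟨b, hb⟩ := hns
  obtain ⟨b', rfl⟩ := Ideal.Quotient.mk_surjective b
  refine ⟨-b', fun x hx => hb (Ideal.Quotient.mk _ x) ?_⟩
  have h4 := Ideal.Quotient.eq_zero_iff_mem.2 hx
  simp only [map_add, map_pow, map_neg] at h4
  exact add_neg_eq_zero.1 h4

theorem fam_consts (E : Type) [Field E] [NumberField E] :
    ∃ c0 c : 𝓞 E, c0 ≠ 0 ∧ 1 - 4 * c ≠ 0 ∧ ∀ v : Pr E, Dy v → ∀ y0 y1 y2 : E,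
      v.valuation E (y0 ^ 2) ≤
        v.valuation E (y0 ^ 2 + (c0 : E) * (y1 ^ 2 + y1 * y2 + (c : E) * y2 ^ 2)) := by
  classical
  have hdy : ∀ v : Pr E, Dy v ↔ (2 : 𝓞 E) ∈ v.asIdeal := by
    intro v
    have := v.valuation_lt_one_iff_mem (K := E) (2 : 𝓞 E)
    rw [← this]
    have h2 : (((2 : 𝓞 E) : 𝓞 E) : E) = (2 : E) := map_ofNat (algebraMap (𝓞 E) E) 2
    rw [show Algebra.cast (2 : 𝓞 E) = (2 : E) from h2]
    exact Iff.rfl
  have hfin : {v : Pr E | Dy v}.Finite := by
    have h1 : (Ideal.span {(2 : 𝓞 E)}) ≠ 0 := by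
      intro h
      have h2 : (2 : 𝓞 E) = 0 := by
        have h3 : (2 : 𝓞 E) ∈ Ideal.span {(2 : 𝓞 E)} := Ideal.mem_span_singleton_self _
        rw [h] at h3
        simpa using h3
      exact two_ne_zero h2
    refine (Ideal.finite_factors h1).subset ?_
    intro v hv
    rw [Set.mem_setOf_eq, Ideal.dvd_span_singleton]
    exact (hdy v).1 hv
  by_cases hne : ∃ v0 : Pr E, Dy v0
  swap
  · push Not at hne
    exact ⟨1, 0, one_ne_zero, by simp, fun v hv => absurd hv (hne v)⟩
  obtain ⟨v0, hv0⟩ := hne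
  have hprime : ∀ v ∈ hfin.toFinset, Prime (v.asIdeal) := fun v _ => v.prime
  have hcop : ∀ v ∈ hfin.toFinset, ∀ v' ∈ hfin.toFinset, v ≠ v' → v.asIdeal ≠ v'.asIdeal := by
    intro v _ v' _ hvv h
    exact hvv (HeightOneSpectrum.ext h)
  choose pi hpi using fun v : Pr E => v.intValuation_exists_uniformizer
  choose cc hcc using fun v : Pr E => fam_consts_exc v
  obtain ⟨c0, hc0⟩ := IsDedekindDomain.exists_forall_sub_mem_ideal (s := hfin.toFinset)
    (fun v : Pr E => v.asIdeal) (fun _ => 2) hprime hcop (fun v => pi v)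
  obtain ⟨c, hc⟩ := IsDedekindDomain.exists_forall_sub_mem_ideal (s := hfin.toFinset)
    (fun v : Pr E => v.asIdeal) (fun _ => 1) hprime hcop (fun v => cc v)
  have hmem : ∀ v : Pr E, Dy v → v ∈ hfin.toFinset := fun v hv => by
    rw [Set.Finite.mem_toFinset]; exact hv
  have hc0v : ∀ v : Pr E, Dy v → v.valuation E (c0 : E) = WithZero.exp (-1 : ℤ) := by
    intro v hv
    have h1 := hc0 v (hmem v hv)
    simp only at h1
    have h2 : v.intValuation (c0 - pi v) ≤ WithZero.exp (-(2 : ℕ) : ℤ) :=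
      (v.intValuation_le_pow_iff_mem _ 2).2 h1
    have h3 : v.intValuation (c0 - pi v) < WithZero.exp (-1 : ℤ) := by
      refine lt_of_le_of_lt h2 ?_
      rw [WithZero.exp_lt_exp]; norm_num
    have h4 : v.valuation E (c0 : E) = v.intValuation c0 := v.valuation_of_algebraMap c0
    rw [h4]
    have h5 : c0 = pi v + (c0 - pi v) := by ring
    rw [h5, Valuation.map_add_eq_of_lt_left _ (by rw [hpi]; exact h3), hpi]
  have hcv : ∀ v : Pr E, Dy v → ∀ x : 𝓞 E, x ^ 2 + x + c ∉ v.asIdeal := by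
    intro v hv x hx
    have h1 := hc v (hmem v hv)
    simp only [pow_one] at h1
    apply hcc v x
    have h2 : x ^ 2 + x + cc v = (x ^ 2 + x + c) - (c - cc v) := by ring
    rw [h2]
    exact Ideal.sub_mem _ hx h1
  refine ⟨c0, c, ?_, ?_, ?_⟩
  · rintro rfl
    have h1 := hc0v v0 hv0
    rw [show ((0 : 𝓞 E) : E) = 0 from map_zero (algebraMap (𝓞 E) E), map_zero] at h1
    exact WithZero.exp_ne_zero h1.symm
  · intro h
    have h1 : (1 : 𝓞 E) = 2 * (2 * c) := by
      have : (1 : 𝓞 E) = 4 * c := sub_eq_zero.1 h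
      rw [this]; ring
    have h2 : (1 : 𝓞 E) ∈ v0.asIdeal := by
      rw [h1]; exact Ideal.mul_mem_right _ _ ((hdy v0).1 hv0)
    exact v0.isPrime.ne_top ((Ideal.eq_top_iff_one _).2 h2)
  · intro v hv y0 y1 y2
    by_cases hy : y1 = 0 ∧ y2 = 0
    · rw [hy.1, hy.2]; simp
    obtain ⟨z, hz, hzz⟩ := fam_consts_nf v c (hcv v hv) y1 y2 hy
    by_cases hy0 : y0 = 0
    · rw [hy0]; simp
    have hne2 : v.valuation E (y0 ^ 2) ≠
        v.valuation E ((c0 : E) * (y1 ^ 2 + y1 * y2 + (c : E) * y2 ^ 2)) := by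
      intro he
      rw [map_mul, hc0v v hv, hzz, map_pow, map_pow] at he
      have hy0' : v.valuation E y0 ≠ 0 := (Valuation.ne_zero_iff _).2 hy0
      have hz' : v.valuation E z ≠ 0 := (Valuation.ne_zero_iff _).2 hz
      have h8 := congrArg WithZero.log he
      rw [WithZero.log_mul (WithZero.exp_ne_zero) (pow_ne_zero _ hz'), WithZero.log_pow,
        WithZero.log_pow, WithZero.log_exp] at h8
      simp only [smul_eq_mul, nsmul_eq_mul] at h8
      push_cast at h8
      omega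
    rw [Valuation.map_add_of_distinct_val _ hne2]
    exact le_max_left _ _


end J_fam_consts

alias fam_consts := J_fam_consts.fam_consts

end CohNT
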