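import Mathlib
import Pool.Agent.H604C.Base
import Pool.Agent.H604C.P_ord_api
import Pool.Agent.H604C.P_LSq_api
set_option autoImplicit false
set_option maxHeartbeats 4000000
set_option synthInstance.maxHeartbeats 400000

namespace CohNT
open NumberField IsDedekindDomain Ideal

namespace J_fam_good
theorem exists_dy (E : Type) [Field E] [NumberField E] : ∃ v : Pr E, Dy v := by
  have h2 : ¬ IsUnit (2 : 𝓞 E) := by
    intro h
    have h3 : IsUnit (Algebra.norm ℤ (2 : 𝓞 E)) := h.map (Algebra.norm ℤ)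
    have h4 : Algebra.norm ℤ (2 : 𝓞 E) = 2 ^ Module.finrank ℤ (𝓞 E) := by
      have := Algebra.norm_algebraMap (S := 𝓞 E) (2 : ℤ)
      simpa using this
    rw [h4] at h3
    have h5 : Module.finrank ℤ (𝓞 E) ≠ 0 := Module.finrank_pos.ne'
    have h6 : IsUnit (2 : ℤ) := (isUnit_pow_iff h5).1 h3
    exact absurd h6 (by decide)
  have h3 : Ideal.span {(2 : 𝓞 E)} ≠ ⊤ := by
    rw [Ne, Ideal.span_singleton_eq_top]
    exact h2
  obtain ⟨m, hm, hle⟩ := Ideal.exists_le_maximal _ h3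
  have h2m : (2 : 𝓞 E) ∈ m := hle (Ideal.mem_span_singleton_self 2)
  have hm0 : m ≠ ⊥ := by
    rintro rfl
    exact two_ne_zero (Ideal.mem_bot.1 h2m)
  refine ⟨⟨m, hm.isPrime, hm0⟩, ?_⟩
  have := (HeightOneSpectrum.valuation_lt_one_iff_mem (K := E) (⟨m, hm.isPrime, hm0⟩ : HeightOneSpectrum (𝓞 E)) (2 : 𝓞 E)).2 h2m
  have e : (2 : E) = algebraMap (𝓞 E) E 2 := (map_ofNat (algebraMap (𝓞 E) E) 2).symm
  show HeightOneSpectrum.valuation E _ (2 : E) < 1
  rw [e]
  exact this

theorem fam_good {E : Type} [Field E] [NumberField E] (c0 c : E)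
    (hc : ∀ v : Pr E, Dy v → ∀ y0 y1 y2 : E,
      v.valuation E (y0 ^ 2) ≤ v.valuation E (y0 ^ 2 + c0 * (y1 ^ 2 + y1 * y2 + c * y2 ^ 2)))
    (b : E) (hb : b ∈ Fam c0 c) : b ≠ 0 ∧ TPos b ∧ ∀ v : Pr E, Dy v → LSq v b := by
  obtain ⟨hb0, y0, y1, y2, rfl⟩ := hb
  set A : E := y0 ^ 2 + c0 * (y1 ^ 2 + y1 * y2 + c * y2 ^ 2) with hA
  have hA0 : A ≠ 0 := by
    intro h
    obtain ⟨v, hv⟩ := exists_dy E
    have := hc v hv y0 y1 y2
    rw [← hA, h, map_zero, le_zero_iff] at this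
    have h0 : y0 = 0 := by
      have := (Valuation.zero_iff _).1 this
      exact pow_eq_zero_iff (two_ne_zero) |>.1 this
    apply hb0
    rw [h, h0]; ring
  refine ⟨hb0, ?_, ?_⟩
  · intro φ
    rw [map_add, map_pow, map_mul, map_pow, map_ofNat]
    have : φ A ≠ 0 := (map_ne_zero φ).2 hA0
    positivity
  · intro v hv
    obtain ⟨-, hsq, hmul, -, -, -, h1, -⟩ := LSq_api v
    have h3 := hc v hv y0 y1 y2
    rw [← hA] at h3
    have e : A ^ 2 + 8 * y0 ^ 4 = A ^ 2 * ((A ^ 2 + 8 * y0 ^ 4) / A ^ 2) := by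
      field_simp
    rw [e]
    apply hmul _ _ (hsq A hA0)
    apply h1
    · exact div_ne_zero hb0 (pow_ne_zero 2 hA0)
    · have e2 : (A ^ 2 + 8 * y0 ^ 4) / A ^ 2 - 1 = 4 * (2 * (y0 ^ 2 / A) ^ 2) := by
        field_simp
        ring
      rw [e2, map_mul]
      have h4 : v.valuation E (4 : E) ≠ 0 := (Valuation.ne_zero_iff _).2 (by norm_num)
      have h5 : v.valuation E (2 * (y0 ^ 2 / A) ^ 2) < 1 := by
        rw [map_mul, map_pow, map_div₀]
        have h6 : v.valuation E (y0 ^ 2) / v.valuation E A ≤ 1 := by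
          apply div_le_one_of_le₀ h3 zero_le'
        calc v.valuation E 2 * (v.valuation E (y0 ^ 2) / v.valuation E A) ^ 2
            ≤ v.valuation E 2 * 1 := by
              gcongr
              exact pow_le_one₀ zero_le' h6
          _ < 1 := by rw [mul_one]; exact hv
      calc v.valuation E 4 * v.valuation E (2 * (y0 ^ 2 / A) ^ 2) < v.valuation E 4 * 1 := by
            apply mul_lt_mul_of_pos_left h5
            exact zero_lt_iff.2 h4
        _ = v.valuation E 4 := mul_one _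


end J_fam_good

alias fam_good := J_fam_good.fam_good

end CohNT
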