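import Mathlib
import Pool.Agent.H604C.Base
set_option autoImplicit false
set_option maxHeartbeats 4000000
set_option synthInstance.maxHeartbeats 400000

namespace CohNT
open NumberField IsDedekindDomain Ideal

namespace J_ff_count

theorem ff_count (k : Type) [Field k] [Finite k] (h2 : (2 : k) ≠ 0) (τ : k) :
    ∃ ξ : k, (ξ ^ 2 - 4 = 0 ∨ ¬ IsSquare (ξ ^ 2 - 4)) ∧
      ((τ - ξ) ^ 2 - 4 = 0 ∨ ¬ IsSquare ((τ - ξ) ^ 2 - 4)) := by
  classical
  have : Fintype k := Fintype.ofFinite k
  by_contra hcon
  push Not at hcon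
  set B : Finset k := Finset.univ.filter (fun ξ => ξ ^ 2 - 4 ≠ 0 ∧ IsSquare (ξ ^ 2 - 4)) with hB
  have hη : ∀ ξ : k, ∃ η : k, ξ ∈ B → (η ≠ 0 ∧ ξ ^ 2 - 4 = η ^ 2) := by
    intro ξ
    by_cases h : ξ ∈ B
    · have h' := (Finset.mem_filter.mp h).2
      obtain ⟨η, hη⟩ := h'.2
      refine ⟨η, fun _ => ⟨?_, by rw [hη]; ring⟩⟩
      rintro rfl
      apply h'.1
      rw [hη]; ring
    · exact ⟨0, fun h' => absurd h' h⟩
  choose η hη using hη
  have h4 : (4 : k) ≠ 0 := by
    have : (4 : k) = 2 * 2 := by norm_num
    rw [this]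
    exact mul_ne_zero h2 h2
  have hcardB : (B ×ˢ (Finset.univ : Finset Bool)).card ≤ (Finset.univ.erase (0 : k)).card := by
    refine Finset.card_le_card_of_injOn (fun p => if p.2 then p.1 + η p.1 else p.1 - η p.1) ?_ ?_
    · rintro ⟨ξ, ε⟩ hp
      have hξ : ξ ∈ B := (Finset.mem_product.mp (Finset.mem_coe.mp hp)).1
      obtain ⟨h0, h1⟩ := hη ξ hξ
      rw [Finset.mem_coe, Finset.mem_erase]
      refine ⟨?_, Finset.mem_univ _⟩
      intro hz
      cases ε
      · have hz' : ξ - η ξ = 0 := by simpa using hz
        apply h4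
        linear_combination (-1 : k) * h1 + (ξ + η ξ) * hz'
      · have hz' : ξ + η ξ = 0 := by simpa using hz
        apply h4
        linear_combination (-1 : k) * h1 + (ξ - η ξ) * hz'
    · rintro ⟨ξ, ε⟩ hp ⟨ξ', ε'⟩ hp' heq
      have hξ : ξ ∈ B := (Finset.mem_product.mp (Finset.mem_coe.mp hp)).1
      have hξ' : ξ' ∈ B := (Finset.mem_product.mp (Finset.mem_coe.mp hp')).1
      obtain ⟨h0, h1⟩ := hη ξ hξ
      obtain ⟨h0', h1'⟩ := hη ξ' hξ'
      have key : ∀ a b c d : k, a ^ 2 - 4 = b ^ 2 → c ^ 2 - 4 = d ^ 2 → a + b = c + d → a = c := by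
        intro a b c d hab hcd he
        have hne : a + b ≠ 0 := by
          intro hz
          apply h4
          linear_combination (-1 : k) * hab + (a - b) * hz
        have h5 : (a + b) * (a - b) = (a + b) * (c - d) := by
          have e1 : (a + b) * (a - b) = 4 := by linear_combination hab
          have e2 : (c + d) * (c - d) = 4 := by linear_combination hcd
          rw [e1, he, e2]
        have h6 : a - b = c - d := mul_left_cancel₀ hne h5
        have h7 : 2 * a = 2 * c := by linear_combination he + h6
        exact mul_left_cancel₀ h2 h7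
      have hne1 : ∀ b : k, b ≠ 0 → b ≠ -b := by
        intro b hb h
        have : 2 * b = 0 := by linear_combination h
        rcases mul_eq_zero.mp this with h | h
        · exact h2 h
        · exact hb h
      cases ε <;> cases ε'
      · have heq' : ξ - η ξ = ξ' - η ξ' := by simpa using heq
        have : ξ = ξ' := key ξ (-η ξ) ξ' (-η ξ') (by rw [h1]; ring) (by rw [h1']; ring)
          (by linear_combination heq')
        rw [this]
      · exfalso
        have heq' : ξ - η ξ = ξ' + η ξ' := by simpa using heq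
        have : ξ = ξ' := key ξ (-η ξ) ξ' (η ξ') (by rw [h1]; ring) (by rw [h1'])
          (by linear_combination heq')
        subst this
        exact hne1 _ h0 (by linear_combination (-1 : k) * heq')
      · exfalso
        have heq' : ξ + η ξ = ξ' - η ξ' := by simpa using heq
        have : ξ = ξ' := key ξ (η ξ) ξ' (-η ξ') (by rw [h1]) (by rw [h1']; ring)
          (by linear_combination heq')
        subst this
        exact hne1 _ h0 (by linear_combination heq')
      · have heq' : ξ + η ξ = ξ' + η ξ' := by simpa using heq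
        have : ξ = ξ' := key ξ (η ξ) ξ' (η ξ') (by rw [h1]) (by rw [h1'])
          (by linear_combination heq')
        rw [this]
  rw [Finset.card_product, Finset.card_univ, Fintype.card_bool,
    Finset.card_erase_of_mem (Finset.mem_univ _), Finset.card_univ] at hcardB
  have hcover : (Finset.univ : Finset k) ⊆ B ∪ B.image (fun ξ => τ - ξ) := by
    intro ξ _
    rw [Finset.mem_union]
    by_cases h : ξ ∈ B
    · exact Or.inl h
    · right
      have h' : ξ ^ 2 - 4 = 0 ∨ ¬ IsSquare (ξ ^ 2 - 4) := by
        by_contra hc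
        push Not at hc
        exact h (Finset.mem_filter.mpr ⟨Finset.mem_univ _, hc⟩)
      have h3 := hcon ξ h'
      refine Finset.mem_image.mpr ⟨τ - ξ, Finset.mem_filter.mpr ⟨Finset.mem_univ _, h3⟩, ?_⟩
      ring
  have h5 := (Finset.card_le_card hcover).trans (Finset.card_union_le _ _)
  have h6 : (B.image (fun ξ => τ - ξ)).card ≤ B.card := Finset.card_image_le
  rw [Finset.card_univ] at h5
  have h7 : 0 < Fintype.card k := Fintype.card_pos
  omega


end J_ff_count

alias ff_count := J_ff_count.ff_count

end CohNT
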