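import Mathlib
import Pool.Agent.H604C.Base
import Pool.Agent.H604C.P_RN_ring
set_option autoImplicit false
set_option maxHeartbeats 4000000
set_option synthInstance.maxHeartbeats 400000

namespace CohNT
open NumberField IsDedekindDomain Ideal

namespace J_gens

theorem gens_int {E : Type} [Field E] (S : Subsemiring E) (h : (-1 : E) ∈ S) (m : ℤ) :
    (m : E) ∈ S := by
  obtain ⟨n, rfl | rfl⟩ := m.eq_nat_or_neg
  · rw [Int.cast_natCast]; exact natCast_mem S n
  · have : (((-(n : ℤ)) : ℤ) : E) = (-1) * (n : E) := by push_cast; ring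
    rw [this]
    exact S.mul_mem h (natCast_mem S n)

theorem gens {E : Type} [Field E] [NumberField E] (N0 : ℕ) (hN0 : N0 ≠ 0) :
    ∃ G : List E, (∀ g ∈ G, g ∈ RN E N0) ∧
      ∀ x ∈ RN E N0, x ∈ Subsemiring.closure {g : E | g ∈ G} := by
  classical
  obtain ⟨r0, r1, radd, rmul, rneg, rint⟩ := RN_ring (E := E) N0
  have hN : (N0 : E) ≠ 0 := by exact_mod_cast hN0
  let b := RingOfIntegers.basis E
  refine ⟨-1 :: (N0 : E)⁻¹ :: (Finset.univ.toList.map (fun i => ((b i : 𝓞 E) : E))), ?_, ?_⟩
  · intro g hg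
    simp only [List.mem_cons, List.mem_map, Finset.mem_toList, Finset.mem_univ, true_and] at hg
    rcases hg with rfl | rfl | ⟨i, rfl⟩
    · exact rneg 1 r1
    · refine ⟨1, ?_⟩
      rw [pow_one, mul_inv_cancel₀ hN]
      exact isIntegral_one
    · exact rint (b i)
  · rintro x ⟨k, hk⟩
    set S := Subsemiring.closure {g : E | g ∈ -1 :: (N0 : E)⁻¹ ::
      (Finset.univ.toList.map (fun i => ((b i : 𝓞 E) : E)))} with hS
    have hm1 : (-1 : E) ∈ S := Subsemiring.subset_closure (by simp)
    have hinv : (N0 : E)⁻¹ ∈ S := Subsemiring.subset_closure (by simp)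
    have hb : ∀ i, ((b i : 𝓞 E) : E) ∈ S := fun i => Subsemiring.subset_closure (by simp)
    let r : 𝓞 E := ⟨(N0 : E) ^ k * x, hk⟩
    have hr : (r : E) = (N0 : E) ^ k * x := rfl
    have hrS : (r : E) ∈ S := by
      have h1 := b.sum_repr r
      rw [← h1]
      have h2 : ((∑ i, b.repr r i • b i : 𝓞 E) : E) =
          ∑ i, ((b.repr r i : ℤ) : E) * ((b i : 𝓞 E) : E) := by
        rw [RingOfIntegers.coe_eq_algebraMap, map_sum]
        refine Finset.sum_congr rfl ?_
        intro i _
        rw [zsmul_eq_mul, map_mul, map_intCast, RingOfIntegers.coe_eq_algebraMap]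
      rw [h2]
      refine S.sum_mem ?_
      intro i _
      exact S.mul_mem (gens_int S hm1 _) (hb i)
    have hx : x = (r : E) * ((N0 : E)⁻¹) ^ k := by
      rw [hr, inv_pow]
      field_simp
    rw [hx]
    exact S.mul_mem hrS (S.pow_mem hinv k)


end J_gens

alias gens := J_gens.gens

end CohNT
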