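import Mathlib
import Pool.Agent.H604C.Base
import Pool.Agent.H604C.P_ord_api
import Pool.Agent.H604C.P_LSq_api
import Pool.Agent.H604C.P_ff_count
set_option autoImplicit false
set_option maxHeartbeats 4000000
set_option synthInstance.maxHeartbeats 400000

namespace CohNT
open NumberField IsDedekindDomain Ideal

namespace J_local_x

section aux
variable {E : Type} [Field E] [NumberField E]

theorem val_two (v : Pr E) (hv : ¬ Dy v) : v.valuation E (2 : E) = 1 := by
  apply le_antisymm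
  · have : v.valuation E (algebraMap (𝓞 E) E 2) ≤ 1 := v.valuation_le_one (K := E) (2 : 𝓞 E)
    rwa [map_ofNat] at this
  · exact not_lt.1 hv

theorem val_four (v : Pr E) (hv : ¬ Dy v) : v.valuation E (4 : E) = 1 := by
  have : (4 : E) = 2 * 2 := by norm_num
  rw [this, map_mul, val_two v hv, one_mul]

theorem nonsq (v : Pr E) (hv : ¬ Dy v) (u : E) (u0 : 𝓞 E)
    (h : v.valuation E (u - algebraMap (𝓞 E) E u0) < 1)
    (hns : ¬ IsSquare (Ideal.Quotient.mk v.asIdeal u0)) : ¬ LSq v u := by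
  rintro ⟨y, hy⟩
  rw [map_mul, val_four v hv, one_mul] at hy
  have hu0 : v.valuation E (algebraMap (𝓞 E) E u0) ≤ 1 := v.valuation_le_one (K := E) u0
  have hu : v.valuation E u ≤ 1 := by
    have : u = (u - algebraMap (𝓞 E) E u0) + algebraMap (𝓞 E) E u0 := by ring
    rw [this]
    exact Valuation.map_add_le _ h.le hu0
  have hy2 : v.valuation E (y ^ 2) ≤ 1 := by
    have : y ^ 2 = u - (u - y ^ 2) := by ring
    rw [this]
    exact Valuation.map_sub_le _ hu (hy.le.trans hu)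
  have hy1 : v.valuation E y ≤ 1 := by
    by_contra hcon
    rw [not_le] at hcon
    rw [map_pow] at hy2
    exact absurd hy2 (not_le.2 (one_lt_pow₀ hcon two_ne_zero))
  obtain ⟨y0, hy0⟩ := v.exists_valuation_sub_lt_of_integer (K := E) hy1 1
  rw [Units.val_one] at hy0
  have hy01 : v.valuation E (algebraMap (𝓞 E) E y0) ≤ 1 := v.valuation_le_one (K := E) y0
  have h3 : v.valuation E (algebraMap (𝓞 E) E (u0 - y0 ^ 2)) < 1 := by
    have : algebraMap (𝓞 E) E (u0 - y0 ^ 2) = (u - y ^ 2) - (u - algebraMap (𝓞 E) E u0)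
        - (algebraMap (𝓞 E) E y0 - y) * (algebraMap (𝓞 E) E y0 + y) := by
      rw [map_sub, map_pow]
      ring
    rw [this]
    apply Valuation.map_sub_lt
    · exact Valuation.map_sub_lt _ (hy.trans_le hu) h
    · rw [map_mul]
      exact mul_lt_one_of_lt_of_le hy0 (Valuation.map_add_le _ hy01 hy1)
  have h4 : u0 - y0 ^ 2 ∈ v.asIdeal := (v.valuation_lt_one_iff_mem (K := E) _).1 h3
  apply hns
  refine ⟨Ideal.Quotient.mk v.asIdeal y0, ?_⟩
  rw [← map_mul, ← sq]
  exact Ideal.Quotient.eq.2 h4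

theorem odd' (v : Pr E) (hv : ¬ Dy v) (z e : E) (he : e = 2 ∨ e = -2)
    (h1 : WithZero.exp (-2 : ℤ) < v.valuation E (z - e)) (h2 : v.valuation E (z - e) < 1) :
    ¬ LSq v (z ^ 2 - 4) := by
  intro hsq
  have he1 : v.valuation E (2 * e) = 1 := by
    rcases he with rfl | rfl
    · rw [map_mul, val_two v hv, one_mul]
    · rw [map_mul, Valuation.map_neg, val_two v hv, one_mul]
  have he2 : e ^ 2 = 4 := by
    rcases he with rfl | rfl <;> norm_num
  have h3 : v.valuation E (z + e) = 1 := by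
    have : z + e = (z - e) + 2 * e := by ring
    rw [this, Valuation.map_add_eq_of_lt_right, he1]
    rw [he1]
    exact h2
  have h4 : v.valuation E (z ^ 2 - 4) = v.valuation E (z - e) := by
    have : z ^ 2 - 4 = (z - e) * (z + e) := by
      rw [← he2]; ring
    rw [this, map_mul, h3, mul_one]
  have h5 := (LSq_api v).2.2.2.2.2.1 _ hsq
  have hne : v.valuation E (z - e) ≠ 0 := (lt_of_le_of_lt (zero_le) h1).ne'
  have h6 : (-2 : ℤ) < WithZero.log (v.valuation E (z - e)) := (WithZero.lt_log_iff_exp_lt hne).2 h1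
  have h7 : WithZero.log (v.valuation E (z - e)) < 0 := by
    rw [WithZero.log_lt_iff_lt_exp hne, WithZero.exp_zero]
    exact h2
  unfold ord at h5
  rw [h4] at h5
  have h8 : WithZero.log (v.valuation E (z - e)) = -1 := by omega
  rw [h8] at h5
  revert h5
  decide

theorem mainM (v : Pr E) (hv : ¬ Dy v) (z : E) (z1 : 𝓞 E)
    (hz : v.valuation E (z - algebraMap (𝓞 E) E z1) < 1) (e : 𝓞 E) (he : e = 2 ∨ e = -2)
    (hsel : (Ideal.Quotient.mk v.asIdeal z1) ^ 2 - 4 = 0 →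
      Ideal.Quotient.mk v.asIdeal z1 = Ideal.Quotient.mk v.asIdeal e)
    (hcase : (Ideal.Quotient.mk v.asIdeal z1) ^ 2 - 4 = 0 ∨
      ¬ IsSquare ((Ideal.Quotient.mk v.asIdeal z1) ^ 2 - 4))
    (hexp : WithZero.exp (-2 : ℤ) < v.valuation E (z - algebraMap (𝓞 E) E e)) :
    ¬ LSq v (z ^ 2 - 4) := by
  have hz11 : v.valuation E (algebraMap (𝓞 E) E z1) ≤ 1 := v.valuation_le_one (K := E) z1
  have hz1 : v.valuation E z ≤ 1 := by
    have : z = (z - algebraMap (𝓞 E) E z1) + algebraMap (𝓞 E) E z1 := by ring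
    rw [this]
    exact Valuation.map_add_le _ hz.le hz11
  rcases hcase with h | h
  · have h1 := hsel h
    have h2 : z1 - e ∈ v.asIdeal := Ideal.Quotient.eq.1 h1
    have h3 : v.valuation E (algebraMap (𝓞 E) E (z1 - e)) < 1 :=
      (v.valuation_lt_one_iff_mem (K := E) _).2 h2
    refine odd' v hv z (algebraMap (𝓞 E) E e) ?_ hexp ?_
    · rcases he with rfl | rfl
      · left; rw [map_ofNat]
      · right; rw [map_neg, map_ofNat]
    · have : z - algebraMap (𝓞 E) E e = (z - algebraMap (𝓞 E) E z1) +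
          algebraMap (𝓞 E) E (z1 - e) := by
        rw [map_sub]; ring
      rw [this]
      exact Valuation.map_add_lt _ hz h3
  · refine nonsq v hv (z ^ 2 - 4) (z1 ^ 2 - 4) ?_ ?_
    · have : z ^ 2 - 4 - algebraMap (𝓞 E) E (z1 ^ 2 - 4) =
          (z - algebraMap (𝓞 E) E z1) * (z + algebraMap (𝓞 E) E z1) := by
        rw [map_sub, map_pow, map_ofNat]
        ring
      rw [this, map_mul]
      exact mul_lt_one_of_lt_of_le hz (Valuation.map_add_le _ hz1 hz11)
    · rw [map_sub, map_pow, map_ofNat]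
      exact h

theorem pickj (v : Pr E) (hv : ¬ Dy v) (A B : E) (p : 𝓞 E)
    (hp : v.valuation E (algebraMap (𝓞 E) E p) = WithZero.exp (-1 : ℤ)) :
    ∃ j : 𝓞 E, WithZero.exp (-2 : ℤ) < v.valuation E (A + algebraMap (𝓞 E) E (p * j)) ∧
      WithZero.exp (-2 : ℤ) < v.valuation E (B - algebraMap (𝓞 E) E (p * j)) := by
  by_contra hcon
  have hcon' : ∀ j : 𝓞 E, v.valuation E (A + algebraMap (𝓞 E) E (p * j)) ≤ WithZero.exp (-2 : ℤ) ∨
      v.valuation E (B - algebraMap (𝓞 E) E (p * j)) ≤ WithZero.exp (-2 : ℤ) := by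
    intro j
    by_contra h
    rw [not_or, not_le, not_le] at h
    exact hcon ⟨j, h⟩
  have hdiff : ∀ j j' : 𝓞 E, v.valuation E (algebraMap (𝓞 E) E (j - j')) = 1 →
      ¬ v.valuation E (algebraMap (𝓞 E) E (p * j) - algebraMap (𝓞 E) E (p * j')) ≤
        WithZero.exp (-2 : ℤ) := by
    intro j j' h1 h2
    have : algebraMap (𝓞 E) E (p * j) - algebraMap (𝓞 E) E (p * j') =
        algebraMap (𝓞 E) E p * algebraMap (𝓞 E) E (j - j') := by
      simp only [map_mul, map_sub]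
      ring
    rw [this, map_mul, h1, hp, mul_one, WithZero.exp_le_exp] at h2
    omega
  have hA : ∀ j j' : 𝓞 E, v.valuation E (algebraMap (𝓞 E) E (j - j')) = 1 →
      v.valuation E (A + algebraMap (𝓞 E) E (p * j)) ≤ WithZero.exp (-2 : ℤ) →
      v.valuation E (A + algebraMap (𝓞 E) E (p * j')) ≤ WithZero.exp (-2 : ℤ) → False := by
    intro j j' h1 h2 h3
    apply hdiff j j' h1
    have : algebraMap (𝓞 E) E (p * j) - algebraMap (𝓞 E) E (p * j') =
        (A + algebraMap (𝓞 E) E (p * j)) - (A + algebraMap (𝓞 E) E (p * j')) := by ring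
    rw [this]
    exact Valuation.map_sub_le _ h2 h3
  have hB : ∀ j j' : 𝓞 E, v.valuation E (algebraMap (𝓞 E) E (j - j')) = 1 →
      v.valuation E (B - algebraMap (𝓞 E) E (p * j)) ≤ WithZero.exp (-2 : ℤ) →
      v.valuation E (B - algebraMap (𝓞 E) E (p * j')) ≤ WithZero.exp (-2 : ℤ) → False := by
    intro j j' h1 h2 h3
    apply hdiff j j' h1
    have : algebraMap (𝓞 E) E (p * j) - algebraMap (𝓞 E) E (p * j') =
        (B - algebraMap (𝓞 E) E (p * j')) - (B - algebraMap (𝓞 E) E (p * j)) := by ring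
    rw [this]
    exact Valuation.map_sub_le _ h3 h2
  have e01 : v.valuation E (algebraMap (𝓞 E) E ((0 : 𝓞 E) - 1)) = 1 := by
    rw [zero_sub, map_neg, map_one, Valuation.map_neg, map_one]
  have e02 : v.valuation E (algebraMap (𝓞 E) E ((0 : 𝓞 E) - (-1))) = 1 := by
    rw [zero_sub, neg_neg, map_one, map_one]
  have e12 : v.valuation E (algebraMap (𝓞 E) E ((1 : 𝓞 E) - (-1))) = 1 := by
    have : (1 : 𝓞 E) - (-1) = 2 := by norm_num
    rw [this, map_ofNat, val_two v hv]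
  rcases hcon' 0 with h0 | h0 <;> rcases hcon' 1 with h1 | h1 <;> rcases hcon' (-1) with h2 | h2
  · exact hA _ _ e01 h0 h1
  · exact hA _ _ e01 h0 h1
  · exact hA _ _ e02 h0 h2
  · exact hB _ _ e12 h1 h2
  · exact hA _ _ e12 h1 h2
  · exact hB _ _ e02 h0 h2
  · exact hB _ _ e01 h0 h1
  · exact hB _ _ e01 h0 h1

theorem sel (v : Pr E) (ξ : 𝓞 E) : ∃ e : 𝓞 E, (e = 2 ∨ e = -2) ∧
    ((Ideal.Quotient.mk v.asIdeal ξ) ^ 2 - 4 = 0 →
      Ideal.Quotient.mk v.asIdeal ξ = Ideal.Quotient.mk v.asIdeal e) := by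
  by_cases h : Ideal.Quotient.mk v.asIdeal ξ = Ideal.Quotient.mk v.asIdeal 2
  · exact ⟨2, Or.inl rfl, fun _ => h⟩
  · refine ⟨-2, Or.inr rfl, fun h2 => ?_⟩
    have h3 : (Ideal.Quotient.mk v.asIdeal ξ - Ideal.Quotient.mk v.asIdeal 2) *
        (Ideal.Quotient.mk v.asIdeal ξ - Ideal.Quotient.mk v.asIdeal (-2)) = 0 := by
      rw [← h2, map_neg, map_ofNat]
      ring
    have : v.asIdeal.IsPrime := v.isPrime
    rcases mul_eq_zero.1 h3 with h4 | h4
    · exact absurd (sub_eq_zero.1 h4) h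
    · exact sub_eq_zero.1 h4

end aux

theorem local_x {E : Type} [Field E] [NumberField E] (v : Pr E) (hv : ¬ Dy v) (t : E) (ht : v.valuation E t ≤ 1) :
    ∃ x0 : 𝓞 E, ∀ x : 𝓞 E, x - x0 ∈ v.asIdeal ^ 2 →
      (¬ LSq v ((x : E) ^ 2 - 4)) ∧ (¬ LSq v ((t - (x : E)) ^ 2 - 4)) := by
  have hmax : v.asIdeal.IsMaximal := v.isMaximal
  obtain ⟨t0, ht0⟩ := v.exists_valuation_sub_lt_of_integer (K := E) ht 1
  rw [Units.val_one] at ht0
  have h2k : (2 : 𝓞 E ⧸ v.asIdeal) ≠ 0 := by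
    intro h
    have h2 : Ideal.Quotient.mk v.asIdeal 2 = 0 := by
      rw [map_ofNat]; exact h
    have h3 : (2 : 𝓞 E) ∈ v.asIdeal := Ideal.Quotient.eq_zero_iff_mem.1 h2
    have h4 : v.valuation E (algebraMap (𝓞 E) E 2) < 1 :=
      (v.valuation_lt_one_iff_mem (K := E) _).2 h3
    rw [map_ofNat] at h4
    exact hv h4
  obtain ⟨ξ, hξ1, hξ2⟩ : ∃ ξ : 𝓞 E ⧸ v.asIdeal, (ξ ^ 2 - 4 = 0 ∨ ¬ IsSquare (ξ ^ 2 - 4)) ∧
      ((Ideal.Quotient.mk v.asIdeal t0 - ξ) ^ 2 - 4 = 0 ∨
        ¬ IsSquare ((Ideal.Quotient.mk v.asIdeal t0 - ξ) ^ 2 - 4)) := by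
    let _ : Field (𝓞 E ⧸ v.asIdeal) := Ideal.Quotient.field v.asIdeal
    exact ff_count (𝓞 E ⧸ v.asIdeal) h2k (Ideal.Quotient.mk v.asIdeal t0)
  obtain ⟨x1, rfl⟩ := Ideal.Quotient.mk_surjective ξ
  rw [← map_sub] at hξ2
  obtain ⟨p, hp⟩ := v.valuation_exists_uniformizer' E
  obtain ⟨e1, he1, hs1⟩ := sel v x1
  obtain ⟨e2, he2, hs2⟩ := sel v (t0 - x1)
  obtain ⟨j, hj1, hj2⟩ := pickj v hv (algebraMap (𝓞 E) E x1 - algebraMap (𝓞 E) E e1)
    (t - algebraMap (𝓞 E) E x1 - algebraMap (𝓞 E) E e2) p hp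
  have hpj : v.valuation E (algebraMap (𝓞 E) E (p * j)) < 1 := by
    rw [map_mul, map_mul]
    have h1 : v.valuation E (algebraMap (𝓞 E) E j) ≤ 1 := v.valuation_le_one (K := E) j
    have h2 : v.valuation E (algebraMap (𝓞 E) E p) < 1 := by
      have : v.valuation E (algebraMap (𝓞 E) E p) = WithZero.exp (-1 : ℤ) := hp
      rw [this, ← WithZero.exp_zero, WithZero.exp_lt_exp]
      norm_num
    exact mul_lt_one_of_lt_of_le h2 h1
  refine ⟨x1 + p * j, ?_⟩
  intro x hx
  have hx1 : v.valuation E (algebraMap (𝓞 E) E (x - (x1 + p * j))) ≤ WithZero.exp (-2 : ℤ) := by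
    have h1 := (v.intValuation_le_pow_iff_mem (x - (x1 + p * j)) 2).2 hx
    have h2 := v.valuation_of_algebraMap (K := E) (x - (x1 + p * j))
    have h3 : v.valuation E (algebraMap (𝓞 E) E (x - (x1 + p * j))) =
      v.intValuation (x - (x1 + p * j)) := h2
    rw [h3]
    exact h1
  have hx2 : v.valuation E (algebraMap (𝓞 E) E (x - (x1 + p * j))) < 1 := by
    refine hx1.trans_lt ?_
    rw [← WithZero.exp_zero, WithZero.exp_lt_exp]
    norm_num
  have hx3 : v.valuation E (algebraMap (𝓞 E) E x - algebraMap (𝓞 E) E x1) < 1 := by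
    have : algebraMap (𝓞 E) E x - algebraMap (𝓞 E) E x1 =
        algebraMap (𝓞 E) E (x - (x1 + p * j)) + algebraMap (𝓞 E) E (p * j) := by
      rw [← map_sub, ← map_add]
      congr 1
      ring
    rw [this]
    exact Valuation.map_add_lt _ hx2 hpj
  constructor
  · refine mainM v hv _ x1 hx3 e1 he1 hs1 hξ1 ?_
    by_contra hcon
    rw [not_lt] at hcon
    apply absurd hj1
    rw [not_lt]
    have : algebraMap (𝓞 E) E x1 - algebraMap (𝓞 E) E e1 + algebraMap (𝓞 E) E (p * j) =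
        (algebraMap (𝓞 E) E x - algebraMap (𝓞 E) E e1) - algebraMap (𝓞 E) E (x - (x1 + p * j)) := by
      simp only [map_sub, map_add]
      ring
    rw [this]
    exact Valuation.map_sub_le _ hcon hx1
  · refine mainM v hv _ (t0 - x1) ?_ e2 he2 hs2 hξ2 ?_
    · have : t - algebraMap (𝓞 E) E x - algebraMap (𝓞 E) E (t0 - x1) =
          -((algebraMap (𝓞 E) E t0 - t) + (algebraMap (𝓞 E) E x - algebraMap (𝓞 E) E x1)) := by
        simp only [map_sub]
        ring
      show v.valuation E (t - algebraMap (𝓞 E) E x - algebraMap (𝓞 E) E (t0 - x1)) < 1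
      rw [this, Valuation.map_neg]
      exact Valuation.map_add_lt _ ht0 hx3
    · by_contra hcon
      rw [not_lt] at hcon
      apply absurd hj2
      rw [not_lt]
      have : t - algebraMap (𝓞 E) E x1 - algebraMap (𝓞 E) E e2 - algebraMap (𝓞 E) E (p * j) =
          (t - algebraMap (𝓞 E) E x - algebraMap (𝓞 E) E e2) +
            algebraMap (𝓞 E) E (x - (x1 + p * j)) := by
        simp only [map_sub, map_add]
        ring
      rw [this]
      exact Valuation.map_add_le _ hcon hx1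


end J_local_x

alias local_x := J_local_x.local_x

end CohNT
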