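import Mathlib
import Pool.Agent.H604C.Base
import Pool.Agent.H604C.P_local_x
set_option autoImplicit false
set_option maxHeartbeats 4000000
set_option synthInstance.maxHeartbeats 400000

namespace CohNT
open NumberField IsDedekindDomain Ideal

namespace J_global_x

theorem global_x {E : Type} [Field E] [NumberField E] (D : Finset (Pr E)) (hD : ∀ v ∈ D, ¬ Dy v) (t : E)
    (ht : ∀ v ∈ D, v.valuation E t ≤ 1) :
    ∃ x : E, ∀ v ∈ D, (¬ LSq v (x ^ 2 - 4)) ∧ (¬ LSq v ((t - x) ^ 2 - 4)) := by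
  classical
  choose x0 hx0 using fun (v : {v // v ∈ D}) => local_x v.1 (hD v.1 v.2) t (ht v.1 v.2)
  obtain ⟨y, hy⟩ := IsDedekindDomain.exists_forall_sub_mem_ideal (s := D)
    (fun v : Pr E => v.asIdeal) (fun _ => 2) (fun v _ => v.prime)
    (fun v _ w _ hne h => hne (HeightOneSpectrum.ext h)) x0
  exact ⟨(y : E), fun v hv => hx0 ⟨v, hv⟩ y (hy v hv)⟩


end J_global_x

alias global_x := J_global_x.global_x

end CohNT
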