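import Mathlib
import Pool.Agent.H604C.Base
import Pool.Agent.H604C.P_ord_api
import Pool.Agent.H604C.P_LSq_api
import Pool.Agent.H604C.P_LN_api
import Pool.Agent.H604C.P_above_api
import Pool.Agent.H604C.P_res_two
import Pool.Agent.H604C.P_LN_units
set_option autoImplicit false
set_option maxHeartbeats 4000000
set_option synthInstance.maxHeartbeats 400000

namespace CohNT
open NumberField IsDedekindDomain Ideal

namespace J_local_split

theorem local_split_aux {E M : Type} [Field E] [NumberField E] [Field M] [NumberField M] [Algebra E M] (d : E)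
    (v : Pr E) (hv : ¬ Dy v) (hns : ¬ LSq v d) (hd : d ≠ 0) (w : Pr M) (hw : Ab v w)
    (hde : Even (ord v d)) (hdw : LSq w (algebraMap E M d)) (x : E) (hx : x ≠ 0)
    (hxe : Even (ord v x)) : LSq w (algebraMap E M x) := by
  obtain ⟨-, -, -, -, -, hsq, -, -⟩ := above_api (E := E) (M := M) v
  by_cases h : LSq v x
  · exact hsq w hw x h
  · have h1 : LSq v (d * x) := res_two v hv d x hd hx hde hxe hns h
    have h2 : LSq w (algebraMap E M (d * x)) := hsq w hw _ h1
    rw [map_mul] at h2
    exact (LSq_api w).2.2.2.2.1 _ _ hdw h2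

theorem local_split {E M : Type} [Field E] [NumberField E] [Field M] [NumberField M] [Algebra E M] (d : E) (δ : M) (hδ : δ ^ 2 = algebraMap E M d) (hd : d ≠ 0)
    (v : Pr E) (hv : ¬ Dy v) (hns : ¬ LSq v d) (w : Pr M) (hw : Ab v w) (a b : E) (ha : a ≠ 0)
    (hb : b ≠ 0) : LN w (algebraMap E M a) (algebraMap E M b) := by
  have hinj : Function.Injective (algebraMap E M) := (algebraMap E M).injective
  have hne : ∀ x : E, x ≠ 0 → algebraMap E M x ≠ 0 := fun x hx h =>
    hx (hinj (by rw [h, map_zero]))
  have hδ0 : δ ≠ 0 := by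
    intro h
    apply hne d hd
    rw [← hδ, h]
    norm_num
  obtain ⟨-, -, -, -, hram, hsq, -, hdy⟩ := above_api (E := E) (M := M) v
  obtain ⟨e, he, -, hord⟩ := hram w hw
  have hvw : ¬ Dy w := fun h => hv ((hdy w hw).1 h)
  obtain ⟨-, -, hneg, hmul, -, -, hpow, -⟩ := ord_api v
  obtain ⟨-, -, -, -, -, -, hpoww, -⟩ := ord_api w
  have h2 : (2 : ℤ) * ord w δ = (e : ℤ) * ord v d := by
    rw [← hord d, ← hδ, hpoww δ 2]
    norm_num
  obtain ⟨hL1, hL2, hL3, hL4, hL5, hL6, hL7⟩ := LN_api w (algebraMap E M b) (hne b hb)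
  rcases Int.even_or_odd (ord v d) with hde | hdo
  · have hdw : LSq w (algebraMap E M d) := by
      rw [← hδ]
      exact (LSq_api w).2.1 δ hδ0
    have key := fun (x : E) (hx : x ≠ 0) (hxe : Even (ord v x)) =>
      local_split_aux (M := M) d v hv hns hd w hw hde hdw x hx hxe
    rcases Int.even_or_odd (ord v a) with hae | hao
    · exact hL4 _ (key a ha hae)
    · rcases Int.even_or_odd (ord v b) with hbe | hbo
      · exact hL6 _ (hne a ha) (key b hb hbe)
      · have h3 : LSq w (algebraMap E M (-(a * b))) := by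
          apply key _ (neg_ne_zero.2 (mul_ne_zero ha hb))
          rw [hneg, hmul a b ha hb]
          exact hao.add_odd hbo
        apply hL7
        rw [map_neg, map_mul] at h3
        exact h3
  · have heE : Even (e : ℤ) := by
      rcases Int.even_or_odd (e : ℤ) with h | h
      · exact h
      · exfalso
        have h4 : Odd ((e : ℤ) * ord v d) := h.mul hdo
        rw [← h2] at h4
        exact (Int.not_even_iff_odd.2 h4) (even_two_mul _)
    apply LN_units w hvw _ _ (hne a ha) (hne b hb)
    · rw [hord a]; exact heE.mul_right _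
    · rw [hord b]; exact heE.mul_right _


end J_local_split

alias local_split := J_local_split.local_split

end CohNT
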