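import Mathlib
import Pool.Agent.H604C.Base
set_option autoImplicit false
set_option maxHeartbeats 4000000
set_option synthInstance.maxHeartbeats 400000

namespace CohNT
open NumberField IsDedekindDomain Ideal

namespace J_quat_base

theorem quat_base (K : Type) [Field K] (h2 : (2 : K) ≠ 0) (a b : K) (ha : a ≠ 0) (hb : b ≠ 0)
    (X Y : K) (h : a = X ^ 2 - b * Y ^ 2) (d : K) :
    ∃ s r w : K, d = a * s ^ 2 + b * r ^ 2 - a * b * w ^ 2 := by
  refine ⟨(d - b) / (2 * a * b) * b * Y, 1 + (d - b) / (2 * a * b) * a,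
    (d - b) / (2 * a * b) * X, ?_⟩
  have h1 : (d - b) / (2 * a * b) * (2 * a * b) = d - b :=
    div_mul_cancel₀ _ (mul_ne_zero (mul_ne_zero h2 ha) hb)
  generalize (d - b) / (2 * a * b) = t at h1
  have h3 : X ^ 2 = a + b * Y ^ 2 := by rw [h]; ring
  linear_combination (-1 : K) * h1 + a * b * t ^ 2 * h3


end J_quat_base

alias quat_base := J_quat_base.quat_base

end CohNT
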