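import Mathlib
import Pool.Agent.H604C.Base
import Pool.Agent.H604C.P_quat_base
set_option autoImplicit false
set_option maxHeartbeats 4000000
set_option synthInstance.maxHeartbeats 400000

namespace CohNT
open NumberField IsDedekindDomain Ideal

namespace J_quat_alg

theorem quat_alg {E M : Type} [Field E] [NumberField E] [Field M] [NumberField M] [Algebra E M] (h2 : Module.finrank E M = 2) (d a b : E) (ha : a ≠ 0) (hb : b ≠ 0)
    (δ : M) (hδ : δ ^ 2 = algebraMap E M d) (hδE : δ ∉ Set.range (algebraMap E M)) (X Y : M)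
    (h : algebraMap E M a = X ^ 2 - algebraMap E M b * Y ^ 2) :
    ∃ s r w : E, d = a * s ^ 2 + b * r ^ 2 - a * b * w ^ 2 := by
  have hLI : LinearIndependent E ![(1 : M), δ] := by
    rw [LinearIndependent.pair_iff]
    intro s t hst
    by_cases ht : t = 0
    · subst ht
      rw [zero_smul, add_zero, Algebra.smul_def, mul_one] at hst
      exact ⟨(map_eq_zero _).1 hst, rfl⟩
    · exfalso
      apply hδE
      refine ⟨-(s / t), ?_⟩
      have ht' : algebraMap E M t ≠ 0 := (map_ne_zero _).2 ht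
      rw [Algebra.smul_def, Algebra.smul_def, mul_one] at hst
      rw [map_neg, map_div₀, neg_eq_iff_eq_neg, div_eq_iff ht']
      linear_combination hst
  have hspan : Submodule.span E (Set.range ![(1 : M), δ]) = ⊤ :=
    hLI.span_eq_top_of_card_eq_finrank (by rw [Fintype.card_fin, h2])
  have hdec : ∀ X : M, ∃ x1 x2 : E, X = algebraMap E M x1 + algebraMap E M x2 * δ := by
    intro X
    have hX : X ∈ Submodule.span E (Set.range ![(1 : M), δ]) := by rw [hspan]; trivial
    rw [Matrix.range_cons, Matrix.range_cons, Matrix.range_empty, Set.union_empty,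
      Set.singleton_union, Submodule.mem_span_pair] at hX
    obtain ⟨x1, x2, hx⟩ := hX
    refine ⟨x1, x2, ?_⟩
    rw [← hx, Algebra.smul_def, Algebra.smul_def, mul_one]
  obtain ⟨x1, x2, hX⟩ := hdec X
  obtain ⟨y1, y2, hY⟩ := hdec Y
  have hrel : (x1 ^ 2 + d * x2 ^ 2 - b * (y1 ^ 2 + d * y2 ^ 2) - a) • (1 : M) +
      (2 * (x1 * x2 - b * y1 * y2)) • δ = 0 := by
    rw [Algebra.smul_def, Algebra.smul_def, mul_one]
    simp only [map_sub, map_add, map_mul, map_pow, map_ofNat]
    rw [hX, hY] at h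
    linear_combination -h + ((algebraMap E M b) * (algebraMap E M y2) ^ 2 -
      (algebraMap E M x2) ^ 2) * hδ
  obtain ⟨r1, r2⟩ := LinearIndependent.pair_iff.1 hLI _ _ hrel
  have h20 : (2 : E) ≠ 0 := two_ne_zero
  have r3 : x1 * x2 = b * y1 * y2 := by
    rcases mul_eq_zero.1 r2 with h0 | h0
    · exact absurd h0 h20
    · exact sub_eq_zero.1 h0
  by_cases hn2 : x2 ^ 2 - b * y2 ^ 2 = 0
  · by_cases hy2 : y2 = 0
    · have hx2 : x2 = 0 := by
        rw [hy2] at hn2
        have : x2 ^ 2 = 0 := by linear_combination hn2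
        exact pow_eq_zero_iff (two_ne_zero) |>.1 this
      exact quat_base E h20 a b ha hb x1 y1 (by rw [hx2, hy2] at r1; linear_combination -r1) d
    · have hc : b = (x2 / y2) ^ 2 := by
        rw [div_pow, eq_div_iff (pow_ne_zero 2 hy2)]
        linear_combination -hn2
      obtain ⟨c, hcdef⟩ : ∃ c, c = x2 / y2 := ⟨_, rfl⟩
      rw [← hcdef] at hc
      have hc0 : c ≠ 0 := by
        intro h0
        rw [h0] at hc
        exact hb (by rw [hc]; ring)
      refine quat_base E h20 a b ha hb ((a + 1) / 2) ((a - 1) / (2 * c)) ?_ d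
      rw [hc]
      field_simp
      ring
  · refine ⟨x2 / (x2 ^ 2 - b * y2 ^ 2), (x1 * y2 - x2 * y1) / (x2 ^ 2 - b * y2 ^ 2),
      y2 / (x2 ^ 2 - b * y2 ^ 2), ?_⟩
    obtain ⟨n2, hn2def⟩ : ∃ n, n = x2 ^ 2 - b * y2 ^ 2 := ⟨_, rfl⟩
    rw [← hn2def] at hn2 ⊢
    have e1 : d * n2 ^ 2 = a * x2 ^ 2 + b * (x1 * y2 - x2 * y1) ^ 2 - a * b * y2 ^ 2 := by
      have e2 : a = x1 ^ 2 - b * y1 ^ 2 + d * n2 := by
        rw [hn2def]
        linear_combination -r1
      have e3 : (x1 ^ 2 - b * y1 ^ 2) * n2 = - b * (x1 * y2 - x2 * y1) ^ 2 := by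
        rw [hn2def]
        linear_combination (x1 * x2 - b * y1 * y2) * r3
      have e4 : a * x2 ^ 2 - a * b * y2 ^ 2 = a * n2 := by rw [hn2def]; ring
      linear_combination -e4 - n2 * e2 - e3
    field_simp
    linear_combination e1


end J_quat_alg

alias quat_alg := J_quat_alg.quat_alg

end CohNT
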