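import Mathlib
import Pool.Agent.H604C.Base
import Pool.Agent.H604C.P_HNT
import Pool.Agent.H604C.P_quad_ext
import Pool.Agent.H604C.P_local_split
import Pool.Agent.H604C.P_quat_alg
import Pool.Agent.H604C.P_quat_base
import Pool.Agent.H604C.P_above_api
import Pool.Agent.H604C.P_LSq_api
set_option autoImplicit false
set_option maxHeartbeats 4000000
set_option synthInstance.maxHeartbeats 400000

namespace CohNT
open NumberField IsDedekindDomain Ideal

namespace J_rep_d

theorem rep_d {E : Type} [Field E] [NumberField E] (a b d : E) (ha : a ≠ 0) (hb : b ≠ 0) (hd : d ≠ 0) (hp : TPos b)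
    (h2 : ∀ v : Pr E, Dy v → LSq v b)
    (hn : ∀ v : Pr E, ¬ Dy v → (LN v a b ∨ ¬ LSq v d)) :
    ∃ s r w : E, d = a * s ^ 2 + b * r ^ 2 - a * b * w ^ 2 := by
  by_cases hsq : IsSquare d
  · obtain ⟨e, he⟩ := hsq
    have he0 : e ≠ 0 := by
      rintro rfl
      apply hd
      rw [he, mul_zero]
    have hde : d = e ^ 2 := by rw [he, sq]
    have hLN : ∀ v : Pr E, ¬ Dy v → LN v a b := by
      intro v hv
      rcases hn v hv with h | h
      · exact h
      · exfalso
        apply h
        rw [hde]
        exact (LSq_api v).2.1 e he0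
    obtain ⟨X, Y, h⟩ := HNT a b ha hb hp h2 hLN
    exact quat_base E two_ne_zero a b ha hb X Y h d
  · obtain ⟨M, i1, i2, i3, β, σ, hβ, hfin, hβE, hσ, hσ1, hall⟩ := quad_ext d hsq
    have hinj := (algebraMap E M).injective
    have ha' : algebraMap E M a ≠ 0 := by
      intro h; exact ha (hinj (by rw [h, map_zero]))
    have hb' : algebraMap E M b ≠ 0 := by
      intro h; exact hb (hinj (by rw [h, map_zero]))
    have hne : Nonempty (Pr E) := by
      obtain ⟨I, hI⟩ := Ideal.exists_maximal (𝓞 E)
      exact ⟨⟨I, hI.isPrime, Ring.ne_bot_of_isMaximal_of_not_isField hI (RingOfIntegers.not_isField E)⟩⟩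
    obtain ⟨v0⟩ := hne
    have hbelow : ∀ w : Pr M, ∃ v' : Pr E, Ab v' w := (above_api (M := M) v0).2.1
    have hp' : TPos (algebraMap E M b) := by
      intro φ
      exact hp (φ.comp (algebraMap E M))
    have h2' : ∀ w : Pr M, Dy w → LSq w (algebraMap E M b) := by
      intro w hw
      obtain ⟨v, hv⟩ := hbelow w
      obtain ⟨_, _, _, _, _, h6, h7, h8⟩ := above_api (M := M) v
      exact h6 w hv b (h2 v ((h8 w hv).1 hw))
    have hn' : ∀ w : Pr M, ¬ Dy w → LN w (algebraMap E M a) (algebraMap E M b) := by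
      intro w hw
      obtain ⟨v, hv⟩ := hbelow w
      obtain ⟨_, _, _, _, _, h6, h7, h8⟩ := above_api (M := M) v
      have hvd : ¬ Dy v := fun h => hw ((h8 w hv).2 h)
      rcases hn v hvd with h | h
      · exact h7 w hv a b h
      · exact local_split d β hβ hd v hvd h w hv a b ha hb
    obtain ⟨X, Y, h⟩ := HNT (algebraMap E M a) (algebraMap E M b) ha' hb' hp' h2' hn'
    exact quat_alg hfin d a b ha hb β hβ hβE X Y h


end J_rep_d

alias rep_d := J_rep_d.rep_d

end CohNT
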