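import Mathlib
import Pool.Agent.H604C.Base
import Pool.Agent.H604C.P_rep_d
import Pool.Agent.H604C.P_global_x
import Pool.Agent.H604C.P_LN_units
import Pool.Agent.H604C.P_fin_primes
import Pool.Agent.H604C.P_LN_api
import Pool.Agent.H604C.P_LSq_api
import Pool.Agent.H604C.P_ord_api
set_option autoImplicit false
set_option maxHeartbeats 4000000
set_option synthInstance.maxHeartbeats 400000

namespace CohNT
open NumberField IsDedekindDomain Ideal

namespace J_nt_A

theorem nt_A {E : Type} [Field E] [NumberField E] (a b t : E) (ha : a ≠ 0) (hb : b ≠ 0) (hp : TPos b)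
    (h2 : ∀ v : Pr E, Dy v → LSq v b) (ht : ∀ v : Pr E, ¬ Dy v → v.valuation E t ≤ 1) :
    ∃ x ∈ SS a b, t - x ∈ SS a b := by
  classical
  obtain ⟨Sa, hSa, hSaD⟩ := fin_primes a ha
  obtain ⟨Sb, hSb, _⟩ := fin_primes b hb
  have hord : ∀ (v : Pr E) (y : E), y ≠ 0 → v.valuation E y = 1 → ord v y = 0 := by
    intro v y hy h1
    obtain ⟨_, _, _, _, _, _, _, _, _, _, h11, _⟩ := ord_api (E := E) v
    exact (h11 y hy).mp h1
  have hmem : ∀ v : Pr E, ¬ Dy v → ¬ LN v a b → v ∈ Sa ∪ Sb := by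
    intro v hv hL
    by_contra hn
    rw [Finset.mem_union, not_or] at hn
    apply hL
    apply LN_units v hv a b ha hb
    · rw [hord v a ha (hSa v hn.1)]; exact Even.zero
    · rw [hord v b hb (hSb v hn.2)]; exact Even.zero
  obtain ⟨x, hx⟩ := global_x ((Sa ∪ Sb).filter (fun v => ¬ Dy v ∧ ¬ LN v a b))
    (by intro v hv; exact (Finset.mem_filter.mp hv).2.1) t
    (by intro v hv; exact ht v (Finset.mem_filter.mp hv).2.1)
  have hS : ∀ y : E, (∀ v ∈ (Sa ∪ Sb).filter (fun v => ¬ Dy v ∧ ¬ LN v a b), ¬ LSq v (y ^ 2 - 4)) →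
      y ∈ SS a b := by
    intro y hy
    by_cases h0 : y ^ 2 - 4 = 0
    · exact ⟨0, 0, 0, by rw [h0]; ring⟩
    · apply rep_d a b (y ^ 2 - 4) ha hb h0 hp h2
      intro v hv
      by_cases hL : LN v a b
      · exact Or.inl hL
      · exact Or.inr (hy v (Finset.mem_filter.mpr ⟨hmem v hv hL, hv, hL⟩))
  exact ⟨x, hS x (fun v hv => (hx v hv).1), hS (t - x) (fun v hv => (hx v hv).2)⟩


end J_nt_A

alias nt_A := J_nt_A.nt_A

end CohNT
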