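import Mathlib
import Pool.Agent.H604C.Base
import Pool.Agent.H604C.P_ord_api
import Pool.Agent.H604C.P_LSq_api
set_option autoImplicit false
set_option maxHeartbeats 4000000
set_option synthInstance.maxHeartbeats 400000

namespace CohNT
open NumberField IsDedekindDomain Ideal

namespace J_spec_pair

theorem sp_int {E : Type} [Field E] [NumberField E] (v : Pr E) (x : 𝓞 E) :
    v.valuation E (algebraMap (𝓞 E) E x) ≤ 1 := v.valuation_le_one x

theorem sp_sq {E : Type} [Field E] [NumberField E] (v : Pr E) (b : 𝓞 E)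
    (h : LSq v (algebraMap (𝓞 E) E b)) : ∃ a : 𝓞 E, b - a ^ 2 ∈ v.asIdeal := by
  obtain ⟨y, hy⟩ := h
  have h4 : v.valuation E (4 * algebraMap (𝓞 E) E b) ≤ 1 := by
    have : (4 * algebraMap (𝓞 E) E b) = algebraMap (𝓞 E) E (4 * b) := by
      rw [map_mul, map_ofNat]
    rw [this]
    exact sp_int v _
  have h1 : v.valuation E (algebraMap (𝓞 E) E b - y ^ 2) < 1 := lt_of_lt_of_le hy h4
  have h2 : v.valuation E (y ^ 2) ≤ 1 := by
    have e : y ^ 2 = algebraMap (𝓞 E) E b - (algebraMap (𝓞 E) E b - y ^ 2) := by ring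
    rw [e]
    exact (Valuation.map_sub _ _ _).trans (max_le (sp_int v b) h1.le)
  have h3 : v.valuation E y ≤ 1 := by
    by_contra hc
    push Not at hc
    rw [map_pow] at h2
    exact absurd h2 (not_le.2 (one_lt_pow₀ hc two_ne_zero))
  obtain ⟨a, ha⟩ := v.exists_valuation_sub_lt_of_integer h3 1
  refine ⟨a, ?_⟩
  have ha' : v.valuation E (algebraMap (𝓞 E) E a - y) < 1 := ha
  have h5 : v.valuation E (algebraMap (𝓞 E) E a + y) ≤ 1 :=
    (Valuation.map_add _ _ _).trans (max_le (sp_int v a) h3)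
  have e : algebraMap (𝓞 E) E (b - a ^ 2) = (algebraMap (𝓞 E) E b - y ^ 2) -
      (algebraMap (𝓞 E) E a - y) * (algebraMap (𝓞 E) E a + y) := by
    rw [map_sub, map_pow]
    ring
  refine (v.valuation_lt_one_iff_mem (K := E) _).1 ?_
  show v.valuation E (algebraMap (𝓞 E) E (b - a ^ 2)) < 1
  rw [e]
  refine lt_of_le_of_lt (Valuation.map_sub _ _ _) (max_lt h1 ?_)
  rw [map_mul]
  exact mul_lt_one_of_nonneg_of_lt_one_left zero_le ha' h5

theorem spec_pair {E : Type} [Field E] [NumberField E] (v : Pr E) (hv : ¬ Dy v) :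
    ∃ a b : E, a ≠ 0 ∧ b ≠ 0 ∧ TPos b ∧ (∀ v' : Pr E, Dy v' → LSq v' b) ∧ ord v a = 1 ∧
      v.valuation E b = 1 ∧ ¬ LSq v b := by
  classical
  obtain ⟨p, hp0, hp1⟩ := (ord_api v).2.2.2.2.2.2.2.2.2.2.2.2.2.2.2.2
  have := v.isMaximal
  letI : Field (𝓞 E ⧸ v.asIdeal) := Ideal.Quotient.field v.asIdeal
  have : Finite (𝓞 E ⧸ v.asIdeal) := inferInstance
  have h2 : (2 : 𝓞 E) ∉ v.asIdeal := by
    intro h
    apply hv
    have h1 : v.valuation E (algebraMap (𝓞 E) E 2) < 1 :=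
      (v.valuation_lt_one_iff_mem (K := E) 2).2 h
    rw [map_ofNat] at h1
    exact h1
  have hk2 : (2 : 𝓞 E ⧸ v.asIdeal) ≠ 0 := by
    intro h
    apply h2
    rw [← Ideal.Quotient.eq_zero_iff_mem, map_ofNat]
    exact h
  have hchar : ringChar (𝓞 E ⧸ v.asIdeal) ≠ 2 := by
    intro h
    apply hk2
    have h1 := (ringChar.spec (𝓞 E ⧸ v.asIdeal) 2).2 (by rw [h])
    exact_mod_cast h1
  obtain ⟨c, hc⟩ := FiniteField.exists_nonsquare hchar
  obtain ⟨u, hu⟩ := Ideal.Quotient.mk_surjective ((c - 1) / 8)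
  have hk8 : (8 : 𝓞 E ⧸ v.asIdeal) ≠ 0 := by
    have : (8 : 𝓞 E ⧸ v.asIdeal) = 2 ^ 3 := by norm_num
    rw [this]
    exact pow_ne_zero _ hk2
  obtain ⟨q, hq⟩ : ∃ q, q = Ideal.absNorm v.asIdeal := ⟨_, rfl⟩
  have hqm : (q : 𝓞 E) ∈ v.asIdeal := by rw [hq]; exact Ideal.absNorm_mem v.asIdeal
  have hq0 : 1 ≤ q := by
    rw [hq, Nat.one_le_iff_ne_zero, Ne, Ideal.absNorm_eq_zero_iff]
    exact v.ne_bot
  obtain ⟨M, hM⟩ : ∃ M : ℝ, ∀ φ : E →+* ℝ, -φ (algebraMap (𝓞 E) E (1 + 8 * u)) ≤ M := by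
    have : Finite (E →+* ℝ) := inferInstance
    obtain ⟨M, hM⟩ := (Set.finite_range
      (fun φ : E →+* ℝ => -φ (algebraMap (𝓞 E) E (1 + 8 * u)))).bddAbove
    exact ⟨M, fun φ => hM ⟨φ, rfl⟩⟩
  obtain ⟨m, hm⟩ := exists_nat_gt M
  obtain ⟨b, hb⟩ : ∃ b : 𝓞 E, b = 1 + 8 * u + 8 * q * m := ⟨_, rfl⟩
  have hbc : Ideal.Quotient.mk v.asIdeal b = c := by
    have hq' : Ideal.Quotient.mk v.asIdeal (q : 𝓞 E) = 0 :=
      Ideal.Quotient.eq_zero_iff_mem.2 hqm
    rw [hb, map_add, map_add, map_mul, map_mul, map_mul, hq', hu, map_one, map_ofNat,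
      mul_div_cancel₀ _ hk8]
    ring
  have hbv : b ∉ v.asIdeal := by
    intro h
    rw [← Ideal.Quotient.eq_zero_iff_mem, hbc] at h
    apply hc
    rw [h]
    exact IsSquare.zero
  have hval : v.valuation E (algebraMap (𝓞 E) E b) = 1 :=
    (v.valuation_eq_one_iff_notMem (K := E)).2 hbv
  refine ⟨p, algebraMap (𝓞 E) E b, hp0, ?_, ?_, ?_, hp1, hval, ?_⟩
  · intro h
    rw [h, map_zero] at hval
    exact zero_ne_one hval
  · intro φ
    have e : φ (algebraMap (𝓞 E) E b) = φ (algebraMap (𝓞 E) E (1 + 8 * u)) + 8 * q * m := by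
      have e1 : algebraMap (𝓞 E) E b = algebraMap (𝓞 E) E (1 + 8 * u) + 8 * q * m := by
        rw [hb, map_add (algebraMap (𝓞 E) E) (1 + 8 * u) (8 * q * m), map_mul, map_mul,
          map_natCast, map_natCast, map_ofNat]
      rw [e1, map_add, map_mul, map_mul, map_natCast, map_natCast, map_ofNat]
    rw [e]
    have h1 := hM φ
    have h3 : (m : ℝ) ≤ 8 * q * m := by
      have h4 : (1 : ℝ) ≤ q := Nat.one_le_cast.2 hq0
      have h5 : (0 : ℝ) ≤ m := Nat.cast_nonneg m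
      nlinarith
    linarith
  · intro v' hv'
    have h0 : algebraMap (𝓞 E) E b ≠ 0 := by
      intro h
      rw [h, map_zero] at hval
      exact zero_ne_one hval
    refine (LSq_api v').2.2.2.2.2.2.1 _ h0 ?_
    have e : algebraMap (𝓞 E) E b - 1 = (2 * 4) * algebraMap (𝓞 E) E (u + q * m) := by
      rw [hb]
      simp only [map_add, map_mul, map_natCast, map_ofNat, map_one]
      ring
    rw [e, map_mul, map_mul]
    have h40 : (4 : E) ≠ 0 := by
      have : ((4 : ℕ) : E) ≠ 0 := Nat.cast_ne_zero.2 (by norm_num)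
      exact_mod_cast this
    have h4 : v'.valuation E (4 : E) ≠ 0 := (Valuation.ne_zero_iff _).2 h40
    have h4' : 0 < v'.valuation E (4 : E) := zero_lt_iff.2 h4
    have h5 : v'.valuation E (2 : E) * v'.valuation E (4 : E) < v'.valuation E (4 : E) := by
      calc v'.valuation E (2 : E) * v'.valuation E (4 : E) < 1 * v'.valuation E (4 : E) :=
            mul_lt_mul_of_pos_right hv' h4'
        _ = v'.valuation E (4 : E) := one_mul _
    refine lt_of_le_of_lt ?_ h5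
    exact mul_le_of_le_one_right' (sp_int v' _)
  · intro h
    obtain ⟨a, ha⟩ := sp_sq v b h
    apply hc
    refine ⟨Ideal.Quotient.mk v.asIdeal a, ?_⟩
    rw [← Ideal.Quotient.eq_zero_iff_mem, map_sub, hbc, map_pow, sub_eq_zero, sq] at ha
    exact ha


end J_spec_pair

alias spec_pair := J_spec_pair.spec_pair

end CohNT
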