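import Mathlib
import Pool.Agent.H604C.Base
import Pool.Agent.H604C.P_fam_consts
import Pool.Agent.H604C.P_fam_good
import Pool.Agent.H604C.P_N0_exists
import Pool.Agent.H604C.P_gens
import Pool.Agent.H604C.P_nt_A
import Pool.Agent.H604C.P_RN_iff
import Pool.Agent.H604C.P_RN_ring
import Pool.Agent.H604C.P_nt_nec
import Pool.Agent.H604C.P_spec_pair
import Pool.Agent.H604C.P_cert_exists
import Pool.Agent.H604C.P_cert_sound
import Pool.Agent.H604C.P_ord_api
set_option autoImplicit false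
set_option maxHeartbeats 4000000
set_option synthInstance.maxHeartbeats 400000

namespace CohNT
open NumberField IsDedekindDomain Ideal

namespace J_nt_main

theorem not_dy_iff {E : Type} [Field E] [NumberField E] (v : Pr E) :
    ¬ Dy v ↔ v.valuation E (2 : E) = 1 := by
  have h1 : v.valuation E (2 : E) ≤ 1 := by
    have h2 : v.valuation E (algebraMap (𝓞 E) E 2) ≤ 1 := v.valuation_le_one (K := E) (2 : 𝓞 E)
    have e : algebraMap (𝓞 E) E 2 = 2 := map_ofNat _ 2
    rwa [e] at h2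
  unfold Dy
  rw [not_lt]
  exact ⟨fun h => le_antisymm h1 h, fun h => h.ge⟩

theorem nt_main (F : Type) [Field F] [NumberField F] : NTStatement F := by
  classical
  obtain ⟨c0, c, hc0, hc, hfam⟩ := fam_consts F
  obtain ⟨N0, T, hN0, h2, hT, hTN, hT2⟩ := N0_exists c0 c hc0 hc
  obtain ⟨G0, hG0a, hG0b⟩ := gens (E := F) N0 hN0
  have hG : ∀ g ∈ (0 : F) :: 1 :: G0, g ∈ RN F N0 := by
    intro g hg
    rcases List.mem_cons.1 hg with rfl | hg
    · exact (RN_ring N0).1
    · rcases List.mem_cons.1 hg with rfl | hg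
      · exact (RN_ring N0).2.1
      · exact hG0a g hg
  have hG' : ∀ x ∈ RN F N0, x ∈ Subsemiring.closure {g : F | g ∈ (0 : F) :: 1 :: G0} := by
    intro x hx
    refine Subsemiring.closure_mono ?_ (hG0b x hx)
    intro g hg
    exact List.mem_cons_of_mem _ (List.mem_cons_of_mem _ hg)
  have hP : ∀ v : Pr F, ∃ p : F × F, ¬ Dy v → (p.1 ≠ 0 ∧ p.2 ≠ 0 ∧ TPos p.2 ∧
      (∀ v' : Pr F, Dy v' → LSq v' p.2) ∧ ord v p.1 = 1 ∧ v.valuation F p.2 = 1 ∧
      ¬ LSq v p.2) := by
    intro v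
    by_cases hv : Dy v
    · exact ⟨(0, 0), fun h => absurd hv h⟩
    · obtain ⟨a, b, h⟩ := spec_pair v hv
      exact ⟨(a, b), fun _ => h⟩
  choose P hP using hP
  have hL : ∀ p : F × F, p ∈ ((T.filter (fun v => ¬ Dy v)).toList).map P ↔
      ∃ v ∈ T, ¬ Dy v ∧ P v = p := by
    intro p
    rw [List.mem_map]
    constructor
    · rintro ⟨v, hv, rfl⟩
      rw [Finset.mem_toList, Finset.mem_filter] at hv
      exact ⟨v, hv.1, hv.2, rfl⟩
    · rintro ⟨v, hv, hd, rfl⟩
      exact ⟨v, by rw [Finset.mem_toList, Finset.mem_filter]; exact ⟨hv, hd⟩, rfl⟩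
  refine ⟨N0, c0, c, (0 : F) :: 1 :: G0, ((T.filter (fun v => ¬ Dy v)).toList).map P, hN0, h2,
    ?_, ?_, ?_, ?_, ?_⟩
  · intro p hp
    obtain ⟨v, _, hd, rfl⟩ := (hL p).1 hp
    exact (hP v hd).1
  · intro t ht a b ha hb
    have ht' : ∀ v : Pr F, ¬ Dy v → v.valuation F t ≤ 1 := by
      intro v hv
      refine (RN_iff 2 two_ne_zero t).1 ht v ?_
      rw [Nat.cast_ofNat]
      exact (not_dy_iff v).1 hv
    rcases hb with hb | ⟨p, hp, rfl⟩
    · obtain ⟨h3, h4, h5⟩ := fam_good (c0 : F) (c : F) hfam b hb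
      exact nt_A a b t ha h3 h4 h5 ht'
    · obtain ⟨v, _, hd, rfl⟩ := (hL p).1 hp
      obtain ⟨_, h3, h4, h5, _⟩ := hP v hd
      exact nt_A a _ t ha h3 h4 h5 ht'
  · intro t ht hpL
    rw [RN_iff 2 two_ne_zero t]
    intro v hv
    rw [Nat.cast_ofNat] at hv
    have hd : ¬ Dy v := (not_dy_iff v).2 hv
    by_cases hvT : v ∈ T
    · obtain ⟨h3, h4, h5, h6, h7, h8, h9⟩ := hP v hd
      obtain ⟨x, hx, hx'⟩ := hpL (P v) ((hL (P v)).2 ⟨v, hvT, hd, rfl⟩)
      have hodd : Odd (ord v (P v).1) := by rw [h7]; exact odd_one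
      have hord : ord v (P v).2 = 0 := by
        obtain ⟨_, _, _, _, _, _, _, _, _, _, h10, _⟩ := ord_api v
        exact (h10 _ h4).1 h8
      have hev : Even (ord v (P v).2) := by rw [hord]; exact Even.zero
      have h11 := nt_nec v hd _ _ h3 h4 hodd hev h9 x hx
      have h12 := nt_nec v hd _ _ h3 h4 hodd hev h9 (t - x) hx'
      have h13 : t = x + (t - x) := by ring
      rw [h13]
      exact (Valuation.map_add _ _ _).trans (max_le h11 h12)
    · exact (RN_iff N0 hN0 t).1 ht v (hT2 v hvT).2.2.2.2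
  · intro e t ht
    exact cert_exists c0 c N0 hN0 h2 T hT hTN hT2 _ hG e t ht
  · intro e t a b N x y z hcert
    exact cert_sound N0 hN0 h2 _ hG' (List.mem_cons_self) (List.mem_cons_of_mem _ List.mem_cons_self)
      e t a b N x y z hcert


end J_nt_main

alias nt_main := J_nt_main.nt_main

end CohNT
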